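import Pool.Agent.Lib.MP_b07157_ag.LC.S2a

section

/-!
# A relation with good signs: one step
-/

set_option linter.unusedSectionVars false

namespace MPb07157.LC

open Finset Module MPb07157.EX MPb07157.SK

variable {ι κ W W' : Type} [Fintype ι] [DecidableEq ι] [Fintype κ] [DecidableEq κ]
  [AddCommGroup W] [Module ℚ W] [AddCommGroup W'] [Module ℚ W']
variable {a : ι → W} {ah : ι → W'} {pr : W' →ₗ[ℚ] W} {L : κ → W →ₗ[ℚ] ℚ} {c : κ → ι → ℕ} {one : W}
  {H0 : W →ₗ[ℚ] ℚ} {h : ι → ℚ} {J R : Finset κ} {v v' w w' : κ → ι} {φ ψ : W →ₗ[ℚ] ℚ}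

/-- `e` is not in a pair. -/
def NP (J : Finset κ) (v v' : κ → ι) (e : ι) : Prop := ∀ j ∈ J, e ≠ v j ∧ e ≠ v' j

private lemma za_dj (hJ : SK.Fam c univ ∅ J) {i j : κ} (hi : i ∈ J) (hj : j ∈ J) {e : ι}
    (h1 : c i e ≠ 0) (h2 : c j e ≠ 0) : i = j :=
  hJ.dj i hi j hj e (notMem_empty e) h1 h2

private lemma za_one (hJ : SK.Fam c univ ∅ J) {i : κ} (hi : i ∈ J) {e : ι}
    (h1 : c i e ≠ 0) : c i e = 1 := by
  have := hJ.zo i hi e (notMem_empty e)
  omega

private lemma za_c (hJ : SK.Fam c univ ∅ J) {i j : κ} (hi : i ∈ J) (hj : j ∈ J) {e : ι}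
    (h1 : c j e ≠ 0) : (c i e : ℚ) = if i = j then 1 else 0 := by
  split_ifs with h
  · subst h
    rw [za_one hJ hi h1]
    norm_num
  · by_contra hne
    exact h (za_dj hJ hi hj (fun h0 => hne (by rw [h0]; norm_num)) h1)

private lemma za_vv (hJ : SK.Fam c univ ∅ J) (ht : TP a ah c J h v v' φ) {i j : κ} (hi : i ∈ J)
    (hj : j ∈ J) : (v i = v j ↔ i = j) ∧ (v' i = v' j ↔ i = j) ∧ v i ≠ v' j := by
  refine ⟨⟨fun he => ?_, fun he => by rw [he]⟩, ⟨fun he => ?_, fun he => by rw [he]⟩, fun he => ?_⟩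
  · exact za_dj hJ hi hj (ht.mem i hi).1 (by rw [he]; exact (ht.mem j hj).1)
  · exact za_dj hJ hi hj (ht.mem i hi).2 (by rw [he]; exact (ht.mem j hj).2)
  · have hij : i = j := za_dj hJ hi hj (ht.mem i hi).1 (by rw [he]; exact (ht.mem j hj).2)
    subst hij
    have := (ht.ind (fun k => if k = i then 1 else 0) (fun k => if k = i then -1 else 0) (by
      rw [Finset.sum_eq_single i]
      · rw [if_pos rfl, if_pos rfl, he, one_smul, neg_smul, one_smul, add_neg_cancel]
      · intro b _ hb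
        rw [if_neg hb, if_neg hb, zero_smul, zero_smul, add_zero]
      · exact fun hn => absurd hi hn) i hi).1
    rw [if_pos rfl] at this
    exact one_ne_zero this

private lemma za_rel (hC : Cfg a ah pr L c one H0) (hJ : SK.Fam c univ ∅ J)
    (ht : TP a ah c J h v v' φ) {e : ι} (hnp : NP J v v' e) (he : On c J e)
    (hsp : a e ∈ prs a v v' J) : ∃ z ∈ rel a, (∀ x, ¬ On c J x → z x = 0) ∧
      (∀ x, NP J v v' x → z x = if x = e then 1 else 0) ∧
      (∀ i ∈ J, z (v i) + z (v' i) = -(c i e : ℚ)) ∧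
      a e = ∑ i ∈ J, ((-z (v i)) • a (v i) + (-z (v' i)) • a (v' i)) := by
  obtain ⟨μ, μ', hμ⟩ := mem_prs.1 hsp
  set z : ι → ℚ := fun x => (if x = e then 1 else 0) -
    ∑ j ∈ J, (μ j * (if x = v j then 1 else 0) + μ' j * (if x = v' j then 1 else 0)) with hz
  have zv : ∀ i ∈ J, z (v i) = -μ i := by
    intro i hi
    simp only [hz]
    rw [if_neg (fun h' => (hnp i hi).1 h'.symm), Finset.sum_eq_single i]
    · rw [if_pos rfl, if_neg (za_vv hJ ht hi hi).2.2]
      ring
    · intro j hj hji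
      rw [if_neg (fun h' => hji ((za_vv hJ ht hi hj).1.1 h').symm), if_neg (za_vv hJ ht hi hj).2.2]
      ring
    · exact fun hn => absurd hi hn
  have zv' : ∀ i ∈ J, z (v' i) = -μ' i := by
    intro i hi
    simp only [hz]
    rw [if_neg (fun h' => (hnp i hi).2 h'.symm), Finset.sum_eq_single i]
    · rw [if_pos rfl, if_neg (fun h' => (za_vv hJ ht hi hi).2.2 h'.symm)]
      ring
    · intro j hj hji
      rw [if_neg (fun h' => hji ((za_vv hJ ht hi hj).2.1.1 h').symm),
        if_neg (fun h' => (za_vv hJ ht hj hi).2.2 h'.symm)]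
      ring
    · exact fun hn => absurd hi hn
  refine ⟨z, ?_, ?_, ?_, ?_, ?_⟩
  · rw [mem_rel]
    have h1 : ∀ x, z x • a x = (if x = e then a x else 0) -
        ∑ j ∈ J, (μ j • (if x = v j then a x else 0) + μ' j • (if x = v' j then a x else 0)) := by
      intro x
      simp only [hz]
      rw [sub_smul, Finset.sum_smul]
      congr 1
      · split_ifs <;> simp
      · refine Finset.sum_congr rfl fun j _ => ?_
        rw [add_smul]
        congr 1
        · split_ifs <;> simp
        · split_ifs <;> simp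
    rw [Finset.sum_congr rfl fun x _ => h1 x, Finset.sum_sub_distrib, Finset.sum_comm]
    simp only [Finset.sum_add_distrib, ← Finset.smul_sum, Finset.sum_ite_eq', Finset.mem_univ,
      if_true]
    rw [← Finset.sum_add_distrib, ← hμ, sub_self]
  · intro x hx
    simp only [hz]
    rw [if_neg (fun h' => hx (by rw [h']; exact he)), Finset.sum_eq_zero, sub_zero]
    intro j hj
    rw [if_neg (fun h' => hx ⟨j, hj, by rw [h']; exact (ht.mem j hj).1⟩),
      if_neg (fun h' => hx ⟨j, hj, by rw [h']; exact (ht.mem j hj).2⟩)]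
    ring
  · intro x hx
    simp only [hz]
    rw [Finset.sum_eq_zero, sub_zero]
    intro j hj
    rw [if_neg (hx j hj).1, if_neg (hx j hj).2]
    ring
  · intro i hi
    rw [zv i hi, zv' i hi]
    have h1 := congrArg (L i) hμ
    rw [hC.L_a, map_sum] at h1
    have h2 : ∀ j ∈ J, L i (μ j • a (v j) + μ' j • a (v' j)) =
        if j = i then μ i + μ' i else 0 := by
      intro j hj
      rw [map_add, map_smul, map_smul, hC.L_a, hC.L_a, za_c hJ hi hj (ht.mem j hj).1,
        za_c hJ hi hj (ht.mem j hj).2]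
      by_cases hij : i = j
      · subst hij
        simp
      · rw [if_neg hij, if_neg (fun h' => hij h'.symm)]
        simp
    rw [Finset.sum_congr rfl h2, Finset.sum_ite_eq' J i, if_pos hi] at h1
    rw [h1]
    ring
  · rw [hμ]
    refine Finset.sum_congr rfl fun i hi => ?_
    rw [zv i hi, zv' i hi, neg_neg, neg_neg]

private lemma za_small (S : Finset κ) (x x' y y' : κ → ℚ) (hS : ∀ i ∈ S, x i * x' i < 0) :
    ∃ ε > 0, ∀ i ∈ S, (x i + ε * y i) * (x' i + ε * y' i) < 0 := by
  have h1 : ∀ᶠ ε in nhdsWithin (0 : ℚ) (Set.Ioi 0), ∀ i ∈ S,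
      (x i + ε * y i) * (x' i + ε * y' i) < 0 := by
    rw [Filter.eventually_all_finset]
    intro i hi
    have hc : Continuous fun ε : ℚ => (x i + ε * y i) * (x' i + ε * y' i) := by fun_prop
    have h2 := hc.tendsto (0 : ℚ)
    have h3 : (x i + (0 : ℚ) * y i) * (x' i + (0 : ℚ) * y' i) < 0 := by
      simpa using hS i hi
    exact Filter.Eventually.filter_mono nhdsWithin_le_nhds (h2.eventually_lt_const h3)
  obtain ⟨ε, h2, h3⟩ := (h1.and self_mem_nhdsWithin).exists
  exact ⟨ε, h3, h2⟩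

/-- The conditions on `ζ`. -/
private def ZC (a : ι → W) (c : κ → ι → ℕ) (J R : Finset κ) (v v' : κ → ι) (ζ : ι → ℚ) : Prop :=
  (∀ e, ¬ On c J e → ζ e = 0) ∧
      (∀ e, NP J v v' e → On c R e → 0 < ζ e) ∧
      (∀ e, NP J v v' e → ¬ On c R e → ζ e = 0) ∧
      (∀ i ∈ R, ¬ InRel a J v v' i → ζ (v i) * ζ (v' i) < 0) ∧
      ∀ i ∈ J, i ∉ R → ζ (v i) + ζ (v' i) = 0

private lemma za_stepB (hC : Cfg a ah pr L c one H0) (hJ : SK.Fam c univ ∅ J)
    (ht : TP a ah c J h v v' φ) (hsp : ∀ e, On c J e → a e ∈ prs a v v' J) (hR : R ⊆ J)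
    (hrel : ∀ j ∈ J, InRel a J v v' j → j ∈ R) {ζ : ι → ℚ} (hζ : ζ ∈ rel a)
    (hz : ZC a c J R v v' ζ) {j : κ} (hj : j ∈ J) (hjR : j ∉ R) (hn : ζ (v j) ≠ 0) :
    ∃ ζ' ∈ rel a, ZC a c J (insert j R) v v' ζ' := by
  classical
  obtain ⟨h0, h1, h2, h3, h4⟩ := hz
  set E : Finset ι := univ.filter fun e => NP J v v' e ∧ c j e ≠ 0 with hE
  have hEm : ∀ e, e ∈ E ↔ NP J v v' e ∧ c j e ≠ 0 := fun e => by simp [hE]
  have hex : ∀ e : ι, ∃ z : ι → ℚ, e ∈ E → z ∈ rel a ∧ (∀ x, ¬ On c J x → z x = 0) ∧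
      (∀ x, NP J v v' x → z x = if x = e then 1 else 0) ∧
      (∀ i ∈ J, z (v i) + z (v' i) = -(c i e : ℚ)) := by
    intro e
    by_cases he : e ∈ E
    · obtain ⟨z, q1, q2, q3, q4, _⟩ := za_rel hC hJ ht ((hEm e).1 he).1 ⟨j, hj, ((hEm e).1 he).2⟩
        (hsp e ⟨j, hj, ((hEm e).1 he).2⟩)
      exact ⟨z, fun _ => ⟨q1, q2, q3, q4⟩⟩
    · exact ⟨0, fun h' => absurd h' he⟩
  choose z hz using hex
  set y : ι → ℚ := fun x => ∑ e ∈ E, z e x with hy
  have hyrel : y ∈ rel a := by
    have : y = ∑ e ∈ E, z e := by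
      funext x
      simp [hy]
    rw [this]
    exact Submodule.sum_mem _ fun e he => (hz e he).1
  have y0 : ∀ x, ¬ On c J x → y x = 0 := fun x hx =>
    Finset.sum_eq_zero fun e he => (hz e he).2.1 x hx
  have y1 : ∀ x, NP J v v' x → y x = if c j x ≠ 0 then 1 else 0 := by
    intro x hx
    have : ∀ e ∈ E, z e x = if x = e then 1 else 0 := fun e he => (hz e he).2.2.1 x hx
    simp only [hy]
    rw [Finset.sum_congr rfl this, Finset.sum_ite_eq E x]
    by_cases hc : c j x ≠ 0
    · rw [if_pos ((hEm x).2 ⟨hx, hc⟩), if_pos hc]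
    · rw [if_neg (fun h' => hc ((hEm x).1 h').2), if_neg hc]
  have y2 : ∀ i ∈ J, i ≠ j → y (v i) + y (v' i) = 0 := by
    intro i hi hij
    simp only [hy]
    rw [← Finset.sum_add_distrib]
    refine Finset.sum_eq_zero fun e he => ?_
    rw [(hz e he).2.2.2 i hi, za_c hJ hi hj ((hEm e).1 he).2, if_neg hij, neg_zero]
  obtain ⟨ε, hε, hs⟩ := za_small (insert j (R.filter fun i => ¬ InRel a J v v' i))
    (fun i => ζ (v i)) (fun i => ζ (v' i)) (fun i => y (v i)) (fun i => y (v' i)) (by
      intro i hi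
      rcases Finset.mem_insert.1 hi with rfl | hi
      · have h5 := h4 i hj hjR
        have h6 : ζ (v' i) = -ζ (v i) := by linarith
        rw [h6]
        nlinarith [mul_self_pos.2 hn]
      · rw [Finset.mem_filter] at hi
        exact h3 i hi.1 hi.2)
  refine ⟨ζ + ε • y, Submodule.add_mem _ hζ (Submodule.smul_mem _ _ hyrel), ?_, ?_, ?_, ?_, ?_⟩
  · intro x hx
    simp [h0 x hx, y0 x hx]
  · intro x hx hon
    simp only [Pi.add_apply, Pi.smul_apply, smul_eq_mul]
    rw [y1 x hx]
    by_cases hxR : On c R x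
    · have := h1 x hx hxR
      split_ifs
      · linarith
      · linarith
    · rw [h2 x hx hxR]
      obtain ⟨i, hi, hci⟩ := hon
      rcases Finset.mem_insert.1 hi with rfl | hi
      · rw [if_pos hci]
        linarith
      · exact absurd ⟨i, hi, hci⟩ hxR
  · intro x hx hon
    simp only [Pi.add_apply, Pi.smul_apply, smul_eq_mul]
    rw [y1 x hx, h2 x hx (fun ⟨i, hi, hc⟩ => hon ⟨i, Finset.mem_insert_of_mem hi, hc⟩),
      if_neg (fun hc => hon ⟨j, Finset.mem_insert_self _ _, hc⟩)]
    ring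
  · intro i hi hnr
    have := hs i (by
      rcases Finset.mem_insert.1 hi with rfl | hi
      · exact Finset.mem_insert_self _ _
      · exact Finset.mem_insert_of_mem (Finset.mem_filter.2 ⟨hi, hnr⟩))
    simpa using this
  · intro i hi hni
    rw [Finset.mem_insert, not_or] at hni
    have h5 := h4 i hi hni.2
    have h6 := y2 i hi hni.1
    simp only [Pi.add_apply, Pi.smul_apply, smul_eq_mul]
    have : ζ (v i) + ε * y (v i) + (ζ (v' i) + ε * y (v' i)) =
      (ζ (v i) + ζ (v' i)) + ε * (y (v i) + y (v' i)) := by ring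
    rw [this, h5, h6]
    ring

/-- LC-57. One step: the set `R` of the columns whose elements are positive in `ζ` is increased.

Proof. For every `e` with `On c J e` and `NP` choose coefficients `μ^e, μ'^e` with
`a e = ∑ (μ^e j • a (v j) + μ'^e j • a (v' j))` and let `ζ^e` be the relation `e - ∑ (...)`: its
coordinate is `1` at `e`, `0` at the other `NP` elements, and `-μ^e j`, `-μ'^e j` at `v j`, `v' j`
(which are all distinct by `TP.ind`), with `μ^e j + μ'^e j = c j e` (apply `L j`).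
If `ζ (v j) = 0` for all `j ∈ J \ R`, there is a `NP` element `e` with `On c R e` and `j ∈ J \ R` with
`μ^e j ≠ 0`: otherwise (also `μ'^e j = 0`) `a e ∈ prs a v v' R` for all `e` with `On c R e`, and
`phi_of_span` for `R` and for `J` gives `phi R = phi J`, contradiction to `hmax`.  Replace `ζ` by
`ζ + ε • ζ^e` with small `ε > 0`.  So we may assume `ζ (v j) ≠ 0` for some `j ∈ J \ R`; take
`ζ + ε • ∑ ζ^e`, sum over the `NP` elements `e` in the support of `j`, `ε > 0` small, and
`insert j R`. -/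
theorem zeta_step [FiniteDimensional ℚ W] (hC : Cfg a ah pr L c one H0) (hJ : Fam c univ ∅ J)
    (hmax : ∀ X, X ⊂ J → phi c (rel a) X < phi c (rel a) J) (ht : TP a ah c J h v v' φ)
    (hsp : ∀ e, On c J e → a e ∈ prs a v v' J) (hR : R ⊂ J)
    (hrel : ∀ j ∈ J, InRel a J v v' j → j ∈ R) {ζ : ι → ℚ} (hζ : ζ ∈ rel a)
    (h0 : ∀ e, ¬ On c J e → ζ e = 0) (h1 : ∀ e, NP J v v' e → On c R e → 0 < ζ e)
    (h2 : ∀ e, NP J v v' e → ¬ On c R e → ζ e = 0)
    (h3 : ∀ j ∈ R, ¬ InRel a J v v' j → ζ (v j) * ζ (v' j) < 0)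
    (h4 : ∀ j ∈ J, j ∉ R → ζ (v j) + ζ (v' j) = 0) :
    ∃ j ∈ J, j ∉ R ∧ ∃ ζ' ∈ rel a, (∀ e, ¬ On c J e → ζ' e = 0) ∧
      (∀ e, NP J v v' e → On c (insert j R) e → 0 < ζ' e) ∧
      (∀ e, NP J v v' e → ¬ On c (insert j R) e → ζ' e = 0) ∧
      (∀ i ∈ insert j R, ¬ InRel a J v v' i → ζ' (v i) * ζ' (v' i) < 0) ∧
      ∀ i ∈ J, i ∉ insert j R → ζ' (v i) + ζ' (v' i) = 0 := by
  classical
  obtain hB | hB := Classical.em (∃ j ∈ J, j ∉ R ∧ ζ (v j) ≠ 0)
  · obtain ⟨j, hj, hjR, hn⟩ := hB
    obtain ⟨ζ', q1, q2⟩ := za_stepB hC hJ ht hsp hR.1 hrel hζ ⟨h0, h1, h2, h3, h4⟩ hj hjR hn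
    exact ⟨j, hj, hjR, ζ', q1, q2⟩
  · push Not at hB
    -- there is an element `e` of the support of `R` whose relation uses a column outside `R`
    have hex : ∃ e, NP J v v' e ∧ On c R e ∧ ∀ z : ι → ℚ,
        (∀ i ∈ J, z (v i) + z (v' i) = -(c i e : ℚ)) →
        a e = ∑ i ∈ J, ((-z (v i)) • a (v i) + (-z (v' i)) • a (v' i)) →
        ∃ j ∈ J, j ∉ R ∧ z (v j) ≠ 0 := by
      by_contra hcon
      push Not at hcon
      have hspR : ∀ e, On c R e → a e ∈ prs a v v' R := by
        intro e he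
        by_cases hnp : NP J v v' e
        · obtain ⟨z, hz1, hz2, hz3⟩ := hcon e hnp he
          obtain ⟨r, hr, hcr⟩ := he
          rw [hz2]
          refine Submodule.sum_mem _ fun i hi => ?_
          by_cases hiR : i ∈ R
          · refine Submodule.add_mem _ ?_ ?_
            · exact Submodule.smul_mem _ _ (Submodule.subset_span ⟨i, hiR, Or.inl rfl⟩)
            · exact Submodule.smul_mem _ _ (Submodule.subset_span ⟨i, hiR, Or.inr rfl⟩)
          · have h5 := hz3 i hi hiR
            have h6 := hz1 i hi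
            rw [h5, za_c hJ hi (hR.1 hr) hcr, if_neg (fun h' => hiR (by rw [h']; exact hr))] at h6
            rw [h5, show z (v' i) = 0 by linarith]
            simp
        · unfold NP at hnp
          push Not at hnp
          obtain ⟨i, hi, hne⟩ := hnp
          obtain ⟨r, hr, hcr⟩ := he
          by_cases hev : e = v i
          · have hir : i = r := za_dj hJ hi (hR.1 hr) (ht.mem i hi).1 (by rw [← hev]; exact hcr)
            subst hir
            rw [hev]
            exact Submodule.subset_span ⟨i, hr, Or.inl rfl⟩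
          · have hev' := hne hev
            have hir : i = r := za_dj hJ hi (hR.1 hr) (ht.mem i hi).2 (by rw [← hev']; exact hcr)
            subst hir
            rw [hev']
            exact Submodule.subset_span ⟨i, hr, Or.inr rfl⟩
      have p1 := phi_of_span hR.1 hrel ht.mem hspR
      have p2 := phi_of_span (Finset.Subset.refl J) (fun j hj _ => hj) ht.mem hsp
      have p3 := hmax R hR
      rw [p1, p2] at p3
      exact lt_irrefl _ p3
    obtain ⟨e, hnp, heR, hz⟩ := hex
    have heJ : On c J e := by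
      obtain ⟨r, hr, hcr⟩ := heR
      exact ⟨r, hR.1 hr, hcr⟩
    obtain ⟨z, q1, q2, q3, q4, q5⟩ := za_rel hC hJ ht hnp heJ (hsp e heJ)
    obtain ⟨j, hj, hjR, hn⟩ := hz z q4 q5
    obtain ⟨ε, hε, hs⟩ := za_small (R.filter fun i => ¬ InRel a J v v' i)
      (fun i => ζ (v i)) (fun i => ζ (v' i)) (fun i => z (v i)) (fun i => z (v' i)) (by
        intro i hi
        rw [Finset.mem_filter] at hi
        exact h3 i hi.1 hi.2)
    have hZC : ZC a c J R v v' (ζ + ε • z) := by
      refine ⟨?_, ?_, ?_, ?_, ?_⟩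
      · intro x hx
        simp [h0 x hx, q2 x hx]
      · intro x hx hon
        simp only [Pi.add_apply, Pi.smul_apply, smul_eq_mul]
        rw [q3 x hx]
        have := h1 x hx hon
        split_ifs
        · linarith
        · linarith
      · intro x hx hon
        simp only [Pi.add_apply, Pi.smul_apply, smul_eq_mul]
        rw [q3 x hx, h2 x hx hon, if_neg (fun h' => hon (by rw [h']; exact heR))]
        ring
      · intro i hi hnr
        have := hs i (Finset.mem_filter.2 ⟨hi, hnr⟩)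
        simpa using this
      · intro i hi hni
        obtain ⟨r, hr, hcr⟩ := heR
        have h5 := h4 i hi hni
        have h6 := q4 i hi
        rw [za_c hJ hi (hR.1 hr) hcr, if_neg (fun h' => hni (by rw [h']; exact hr))] at h6
        simp only [Pi.add_apply, Pi.smul_apply, smul_eq_mul]
        have : ζ (v i) + ε * z (v i) + (ζ (v' i) + ε * z (v' i)) =
          (ζ (v i) + ζ (v' i)) + ε * (z (v i) + z (v' i)) := by ring
        rw [this, h5, h6]
        ring
    have hn' : (ζ + ε • z) (v j) ≠ 0 := by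
      simp only [Pi.add_apply, Pi.smul_apply, smul_eq_mul]
      rw [hB j hj hjR, zero_add]
      exact mul_ne_zero hε.ne' hn
    obtain ⟨ζ', r1, r2⟩ := za_stepB hC hJ ht hsp hR.1 hrel
      (Submodule.add_mem _ hζ (Submodule.smul_mem _ _ q1)) hZC hj hjR hn'
    exact ⟨j, hj, hjR, ζ', r1, r2⟩

end MPb07157.LC
end

section

/-!
# A relation with good signs
-/

set_option linter.unusedSectionVars false

namespace MPb07157.LC

open Finset Module MPb07157.EX MPb07157.SK

variable {ι κ W W' : Type} [Fintype ι] [DecidableEq ι] [Fintype κ] [DecidableEq κ]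
  [AddCommGroup W] [Module ℚ W] [AddCommGroup W'] [Module ℚ W']
variable {a : ι → W} {ah : ι → W'} {pr : W' →ₗ[ℚ] W} {L : κ → W →ₗ[ℚ] ℚ} {c : κ → ι → ℕ} {one : W}
  {H0 : W →ₗ[ℚ] ℚ} {h : ι → ℚ} {J R : Finset κ} {v v' w w' : κ → ι} {φ ψ : W →ₗ[ℚ] ℚ}

/-- Elements of the span of the pairs are combinations of the pairs. -/
private theorem zeta_prs {x : W} (hx : x ∈ prs a v v' J) :
    ∃ ξ : ι → ℚ, ∑ i, ξ i • a i = x ∧ ∀ i, NP J v v' i → ξ i = 0 := by
  unfold prs at hx
  induction hx using Submodule.span_induction with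
  | mem x hx =>
    obtain ⟨j, hj, hx⟩ := hx
    have key : ∀ e : ι, (¬ NP J v v' e) → x = a e →
        ∃ ξ : ι → ℚ, ∑ i, ξ i • a i = x ∧ ∀ i, NP J v v' i → ξ i = 0 := by
      intro e he hxe
      refine ⟨Pi.single e 1, ?_, fun i hi => ?_⟩
      · rw [hxe, Finset.sum_eq_single e]
        · rw [Pi.single_eq_same, one_smul]
        · intro i _ hie
          rw [Pi.single_eq_of_ne hie, zero_smul]
        · intro h
          exact absurd (Finset.mem_univ e) h
      · have hie : i ≠ e := fun h => he (h ▸ hi)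
        exact Pi.single_eq_of_ne hie 1
    rcases hx with hx | hx
    · exact key (v j) (fun h => (h j hj).1 rfl) hx
    · exact key (v' j) (fun h => (h j hj).2 rfl) hx
  | zero => exact ⟨0, by simp, fun _ _ => rfl⟩
  | add x y _ _ hx hy =>
    obtain ⟨ξ, h1, h2⟩ := hx
    obtain ⟨η, h3, h4⟩ := hy
    refine ⟨ξ + η, ?_, fun i hi => ?_⟩
    · rw [← h1, ← h3, ← Finset.sum_add_distrib]
      exact Finset.sum_congr rfl fun i _ => by rw [Pi.add_apply, add_smul]
    · rw [Pi.add_apply, h2 i hi, h4 i hi, add_zero]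
  | smul r x _ hx =>
    obtain ⟨ξ, h1, h2⟩ := hx
    refine ⟨r • ξ, ?_, fun i hi => ?_⟩
    · rw [← h1, Finset.smul_sum]
      exact Finset.sum_congr rfl fun i _ => by rw [Pi.smul_apply, smul_assoc]
    · rw [Pi.smul_apply, h2 i hi, smul_zero]

private theorem zeta_off (ht : TP a ah c J h v v' φ) {i : ι} (hi : ¬ On c J i) : NP J v v' i := by
  intro j hj
  constructor
  · intro h
    exact hi ⟨j, hj, by rw [h]; exact (ht.mem j hj).1⟩
  · intro h
    exact hi ⟨j, hj, by rw [h]; exact (ht.mem j hj).2⟩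

/-- The relations `ζ^e`. -/
private theorem zeta_e (ht : TP a ah c J h v v' φ) (hsp : ∀ e, On c J e → a e ∈ prs a v v' J)
    (e : ι) (he : On c J e) :
    ∃ ζ ∈ rel a, (∀ i, ¬ On c J i → ζ i = 0) ∧ ∀ i, NP J v v' i → ζ i = if i = e then 1 else 0 := by
  obtain ⟨ξ, h1, h2⟩ := zeta_prs (hsp e he)
  refine ⟨Pi.single e 1 - ξ, ?_, fun i hi => ?_, fun i hi => ?_⟩
  · rw [mem_rel]
    have h3 : ∑ i, ((Pi.single e (1 : ℚ) : ι → ℚ) - ξ) i • a i =
        ∑ i, (Pi.single e (1 : ℚ) : ι → ℚ) i • a i - ∑ i, ξ i • a i := by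
      rw [← Finset.sum_sub_distrib]
      exact Finset.sum_congr rfl fun i _ => by rw [Pi.sub_apply, sub_smul]
    rw [h3, h1, Finset.sum_eq_single e]
    · rw [Pi.single_eq_same, one_smul, sub_self]
    · intro i _ hie
      rw [Pi.single_eq_of_ne hie, zero_smul]
    · intro h
      exact absurd (Finset.mem_univ e) h
  · have hie : i ≠ e := fun h => hi (h ▸ he)
    rw [Pi.sub_apply, Pi.single_eq_of_ne hie, h2 i (zeta_off ht hi), sub_zero]
  · rw [Pi.sub_apply, h2 i hi, sub_zero, Pi.single_apply]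

/-- The columns are zero on relations: the values at a pair. -/
private theorem zeta_pair (hC : Cfg a ah pr L c one H0) (hJ : Fam c univ ∅ J)
    (ht : TP a ah c J h v v' φ) {ζ : ι → ℚ} (hζ : ζ ∈ rel a) {j : κ} (hj : j ∈ J)
    (h2 : ∀ e, NP J v v' e → c j e ≠ 0 → ζ e = 0) : ζ (v j) + ζ (v' j) = 0 := by
  have hne : v j ≠ v' j := by
    intro h
    have h1 := ht.ind (fun i => if i = j then 1 else 0) (fun i => if i = j then -1 else 0) ?_ j hj
    · have h3 := h1.1
      rw [if_pos rfl] at h3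
      exact one_ne_zero h3
    · refine Finset.sum_eq_zero fun i _ => ?_
      by_cases hij : i = j
      · rw [if_pos hij, if_pos hij, hij, h]
        simp
      · rw [if_neg hij, if_neg hij, zero_smul, zero_smul, add_zero]
  have hone : ∀ e, c j e ≠ 0 → (c j e : ℚ) = 1 := by
    intro e he
    have h1 := hJ.zo j hj e (Finset.notMem_empty e)
    have h3 : c j e = 1 := by omega
    rw [h3, Nat.cast_one]
  have h1 : ∑ e, ζ e * (c j e : ℚ) = 0 := by
    have h3 := congrArg (L j) (mem_rel.1 hζ)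
    rw [map_sum, map_zero] at h3
    rw [← h3]
    exact Finset.sum_congr rfl fun e _ => by rw [map_smul, hC.L_a, smul_eq_mul]
  rw [← Finset.sum_subset (Finset.subset_univ {v j, v' j})] at h1
  · rw [Finset.sum_pair hne, hone _ (ht.mem j hj).1, hone _ (ht.mem j hj).2, mul_one,
      mul_one] at h1
    exact h1
  · intro e _ he
    by_cases hce : c j e = 0
    · rw [hce, Nat.cast_zero, mul_zero]
    · rw [h2 e ?_ hce, zero_mul]
      intro i hi
      rw [Finset.mem_insert, Finset.mem_singleton] at he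
      push Not at he
      constructor
      · intro h
        have h4 : j = i := hJ.dj j hj i hi e (Finset.notMem_empty e) hce
          (by rw [h]; exact (ht.mem i hi).1)
        exact he.1 (by rw [h, h4])
      · intro h
        have h4 : j = i := hJ.dj j hj i hi e (Finset.notMem_empty e) hce
          (by rw [h]; exact (ht.mem i hi).2)
        exact he.2 (by rw [h, h4])

/-- LC-58. **The relation with good signs.** Start with `R₀ = J.filter (InRel a J v v')` and
`ζ = ∑ ζ^e` over the `NP` elements in the support of `R₀` (see `zeta_step`), iterate `zeta_step`. -/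
theorem zeta [FiniteDimensional ℚ W] (hC : Cfg a ah pr L c one H0) (hJ : Fam c univ ∅ J)
    (hmax : ∀ X, X ⊂ J → phi c (rel a) X < phi c (rel a) J) (ht : TP a ah c J h v v' φ)
    (hsp : ∀ e, On c J e → a e ∈ prs a v v' J) :
    ∃ ζ ∈ rel a, (∀ e, ¬ On c J e → ζ e = 0) ∧
      (∀ e, NP J v v' e → On c J e → 0 < ζ e) ∧
      ∀ j ∈ J, ¬ InRel a J v v' j → ζ (v j) * ζ (v' j) < 0 := by
  classical
  have iter : ∀ (N : ℕ) (R : Finset κ), R ⊆ J → (J \ R).card = N →
      (∀ j ∈ J, InRel a J v v' j → j ∈ R) → ∀ ζ ∈ rel a, (∀ e, ¬ On c J e → ζ e = 0) →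
      (∀ e, NP J v v' e → On c R e → 0 < ζ e) →
      (∀ e, NP J v v' e → ¬ On c R e → ζ e = 0) →
      (∀ j ∈ R, ¬ InRel a J v v' j → ζ (v j) * ζ (v' j) < 0) →
      (∀ j ∈ J, j ∉ R → ζ (v j) + ζ (v' j) = 0) →
      ∃ ζ ∈ rel a, (∀ e, ¬ On c J e → ζ e = 0) ∧
        (∀ e, NP J v v' e → On c J e → 0 < ζ e) ∧
        ∀ j ∈ J, ¬ InRel a J v v' j → ζ (v j) * ζ (v' j) < 0 := by
    intro N
    induction N with
    | zero =>
      intro R hR hN hrel ζ hζ h0 h1 h2 h3 h4
      have hRJ : R = J := by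
        refine Finset.Subset.antisymm hR ?_
        rwa [Finset.card_eq_zero, Finset.sdiff_eq_empty_iff_subset] at hN
      subst hRJ
      exact ⟨ζ, hζ, h0, h1, h3⟩
    | succ N ih =>
      intro R hR hN hrel ζ hζ h0 h1 h2 h3 h4
      have hss : R ⊂ J := by
        refine Finset.ssubset_iff_subset_ne.2 ⟨hR, fun h => ?_⟩
        rw [h, Finset.sdiff_self, Finset.card_empty] at hN
        omega
      obtain ⟨j, hj, hjR, ζ', hζ', g0, g1, g2, g3, g4⟩ :=
        zeta_step hC hJ hmax ht hsp hss hrel hζ h0 h1 h2 h3 h4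
      refine ih (insert j R) (Finset.insert_subset hj hR) ?_
        (fun i hi hr => Finset.mem_insert_of_mem (hrel i hi hr)) ζ' hζ' g0 g1 g2 g3 g4
      have h5 : J \ insert j R = (J \ R).erase j := by
        ext i
        simp only [Finset.mem_sdiff, Finset.mem_insert, Finset.mem_erase]
        tauto
      rw [h5, Finset.card_erase_of_mem (Finset.mem_sdiff.2 ⟨hj, hjR⟩), hN]
      rfl
  obtain ⟨R, hRdef⟩ : ∃ R, R = J.filter (InRel a J v v') := ⟨_, rfl⟩
  have hmemR : ∀ j, j ∈ R ↔ j ∈ J ∧ InRel a J v v' j := by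
    intro j
    rw [hRdef, Finset.mem_filter]
  choose! Z hZ1 hZ2 hZ3 using zeta_e (a := a) (ah := ah) (c := c) (h := h) ht hsp
  obtain ⟨E, hE⟩ : ∃ E : Finset ι, E = univ.filter fun e => NP J v v' e ∧ On c R e := ⟨_, rfl⟩
  have hEJ : ∀ e ∈ E, On c J e := by
    intro e he
    rw [hE, Finset.mem_filter] at he
    obtain ⟨j, hj, hje⟩ := he.2.2
    exact ⟨j, ((hmemR j).1 hj).1, hje⟩
  have hval : ∀ i, NP J v v' i → (∑ e ∈ E, Z e) i = if i ∈ E then 1 else 0 := by
    intro i hi
    rw [Finset.sum_apply, Finset.sum_congr rfl fun e he => hZ3 e (hEJ e he) i hi,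
      Finset.sum_ite_eq]
  have hmem : ∑ e ∈ E, Z e ∈ rel a := Submodule.sum_mem _ fun e he => hZ1 e (hEJ e he)
  have hnR : ∀ e, NP J v v' e → ¬ On c R e → (∑ e ∈ E, Z e) e = 0 := by
    intro e he hne
    rw [hval e he, if_neg]
    rw [hE, Finset.mem_filter]
    exact fun h => hne h.2.2
  refine iter _ R (fun j hj => ((hmemR j).1 hj).1) rfl (fun j hj hr => (hmemR j).2 ⟨hj, hr⟩)
    (∑ e ∈ E, Z e) hmem (fun e he => ?_) (fun e he hon => ?_) hnR
    (fun j hj hn => absurd ((hmemR j).1 hj).2 hn) (fun j hj hjR => ?_)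
  · rw [Finset.sum_apply]
    exact Finset.sum_eq_zero fun i hi => hZ2 i (hEJ i hi) e he
  · rw [hval e he, if_pos]
    · exact one_pos
    · rw [hE, Finset.mem_filter]
      exact ⟨Finset.mem_univ e, he, hon⟩
  · refine zeta_pair hC hJ ht hmem hj fun e he hce => hnR e he ?_
    rintro ⟨i, hi, hie⟩
    have h1 : j = i := hJ.dj j hj i ((hmemR i).1 hi).1 e (Finset.notMem_empty e) hce hie
    exact hjR (h1 ▸ hi)

/-- LC-59. The same, after exchanging `v j` and `v' j` for some `j` (all notions are symmetric). -/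
theorem zeta_swap [FiniteDimensional ℚ W] (hC : Cfg a ah pr L c one H0) (hJ : Fam c univ ∅ J)
    (hmax : ∀ X, X ⊂ J → phi c (rel a) X < phi c (rel a) J) (ht : TP a ah c J h v v' φ)
    (hsp : ∀ e, On c J e → a e ∈ prs a v v' J) :
    ∃ w w' : κ → ι, TP a ah c J h w w' φ ∧ (∀ e, On c J e → a e ∈ prs a w w' J) ∧
      ∃ ζ ∈ rel a, (∀ e, ¬ On c J e → ζ e = 0) ∧ (∀ e, NP J w w' e → On c J e → 0 < ζ e) ∧
        ∀ j ∈ J, ¬ InRel a J w w' j → ζ (w j) < 0 ∧ 0 < ζ (w' j) := by
  classical
  obtain ⟨ζ, hζ, h0, h1, h2⟩ := zeta hC hJ hmax ht hsp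
  obtain ⟨w, hw⟩ : ∃ w : κ → ι, w = fun j => if ζ (v j) < 0 then v j else v' j := ⟨_, rfl⟩
  obtain ⟨w', hw'⟩ : ∃ w' : κ → ι, w' = fun j => if ζ (v j) < 0 then v' j else v j := ⟨_, rfl⟩
  have hcase : ∀ j, (w j = v j ∧ w' j = v' j) ∨ (w j = v' j ∧ w' j = v j) := by
    intro j
    by_cases hj : ζ (v j) < 0
    · left
      rw [hw, hw']
      exact ⟨if_pos hj, if_pos hj⟩
    · right
      rw [hw, hw']
      exact ⟨if_neg hj, if_neg hj⟩
  have hswap : ∀ μ μ' : κ → ℚ, ∃ ν ν' : κ → ℚ,
      (∀ j, (μ j = ν j ∧ μ' j = ν' j) ∨ (μ j = ν' j ∧ μ' j = ν j)) ∧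
      (∀ j, μ j • a (w j) + μ' j • a (w' j) = ν j • a (v j) + ν' j • a (v' j)) ∧
      ∀ j, μ j • ah (w j) + μ' j • ah (w' j) = ν j • ah (v j) + ν' j • ah (v' j) := by
    intro μ μ'
    refine ⟨fun j => if w j = v j ∧ w' j = v' j then μ j else μ' j,
      fun j => if w j = v j ∧ w' j = v' j then μ' j else μ j, fun j => ?_, fun j => ?_,
      fun j => ?_⟩
    · by_cases hj : w j = v j ∧ w' j = v' j
      · left
        exact ⟨(if_pos hj).symm, (if_pos hj).symm⟩
      · right
        exact ⟨(if_neg hj).symm, (if_neg hj).symm⟩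
    · by_cases hj : w j = v j ∧ w' j = v' j
      · simp only [if_pos hj]
        rw [hj.1, hj.2]
      · simp only [if_neg hj]
        rcases hcase j with h | h
        · exact absurd h hj
        · rw [h.1, h.2, add_comm]
    · by_cases hj : w j = v j ∧ w' j = v' j
      · simp only [if_pos hj]
        rw [hj.1, hj.2]
      · simp only [if_neg hj]
        rcases hcase j with h | h
        · exact absurd h hj
        · rw [h.1, h.2, add_comm]
  have hswap' : ∀ ν ν' : κ → ℚ, ∃ μ μ' : κ → ℚ,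
      (∀ j, (μ j = ν j ∧ μ' j = ν' j) ∨ (μ j = ν' j ∧ μ' j = ν j)) ∧
      ∀ j, μ j • a (w j) + μ' j • a (w' j) = ν j • a (v j) + ν' j • a (v' j) := by
    intro ν ν'
    refine ⟨fun j => if w j = v j ∧ w' j = v' j then ν j else ν' j,
      fun j => if w j = v j ∧ w' j = v' j then ν' j else ν j, fun j => ?_, fun j => ?_⟩
    · by_cases hj : w j = v j ∧ w' j = v' j
      · left
        exact ⟨if_pos hj, if_pos hj⟩
      · right
        exact ⟨if_neg hj, if_neg hj⟩
    · by_cases hj : w j = v j ∧ w' j = v' j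
      · simp only [if_pos hj]
        rw [hj.1, hj.2]
      · simp only [if_neg hj]
        rcases hcase j with h | h
        · exact absurd h hj
        · rw [h.1, h.2, add_comm]
  have hNP : ∀ e, NP J w w' e → NP J v v' e := by
    intro e he j hj
    have h3 := he j hj
    rcases hcase j with h | h
    · rw [← h.1, ← h.2]
      exact h3
    · rw [← h.1, ← h.2]
      exact ⟨h3.2, h3.1⟩
  have hprs : prs a w w' J = prs a v v' J := by
    unfold prs
    congr 1
    ext x
    constructor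
    · rintro ⟨j, hj, hx⟩
      refine ⟨j, hj, ?_⟩
      rcases hcase j with h | h
      · rwa [h.1, h.2] at hx
      · rw [h.1, h.2] at hx
        exact hx.symm
    · rintro ⟨j, hj, hx⟩
      refine ⟨j, hj, ?_⟩
      rcases hcase j with h | h
      · rwa [h.1, h.2]
      · rw [h.1, h.2]
        exact hx.symm
  have hrel : ∀ j, InRel a J v v' j → InRel a J w w' j := by
    rintro j ⟨ν, ν', h3, h4⟩
    obtain ⟨μ, μ', h5, h6⟩ := hswap' ν ν'
    refine ⟨μ, μ', ?_, ?_⟩
    · rw [← h3]
      exact Finset.sum_congr rfl fun i _ => h6 i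
    · rcases h5 j with h | h
      · rwa [h.1, h.2]
      · rw [h.1, h.2]
        exact h4.symm
  refine ⟨w, w', ⟨fun j hj => ?_, fun μ μ' hμ j hj => ?_, ht.pos, fun j hj => ?_⟩,
    fun e he => by rw [hprs]; exact hsp e he, ζ, hζ, h0, fun e he => h1 e (hNP e he),
    fun j hj hn => ?_⟩
  · rcases hcase j with h | h
    · rw [h.1, h.2]
      exact ht.mem j hj
    · rw [h.1, h.2]
      exact ⟨(ht.mem j hj).2, (ht.mem j hj).1⟩
  · obtain ⟨ν, ν', h3, -, h4⟩ := hswap μ μ'
    have h5 := ht.ind ν ν' (by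
      rw [← hμ]
      exact Finset.sum_congr rfl fun i _ => (h4 i).symm) j hj
    rcases h3 j with h | h
    · rw [h.1, h.2]
      exact h5
    · rw [h.1, h.2]
      exact ⟨h5.2, h5.1⟩
  · rcases hcase j with h | h
    · rw [h.1, h.2]
      exact ht.tie j hj
    · rw [h.1, h.2]
      exact ⟨(ht.tie j hj).2, (ht.tie j hj).1⟩
  · have h3 := h2 j hj fun h => hn (hrel j h)
    by_cases hj' : ζ (v j) < 0
    · have e1 : w j = v j := by rw [hw]; exact if_pos hj'
      have e2 : w' j = v' j := by rw [hw']; exact if_pos hj'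
      rw [e1, e2]
      exact ⟨hj', by nlinarith⟩
    · have e1 : w j = v' j := by rw [hw]; exact if_neg hj'
      have e2 : w' j = v j := by rw [hw']; exact if_neg hj'
      rw [e1, e2]
      have h4 : 0 < ζ (v j) := by
        rcases lt_or_eq_of_le (not_lt.1 hj') with h | h
        · exact h
        · rw [← h, zero_mul] at h3
          exact absurd h3 (lt_irrefl _)
      exact ⟨by nlinarith, h4⟩

end MPb07157.LC
end

section

/-!
# The elimination
-/

set_option linter.unusedSectionVars false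

namespace MPb07157.LC

open Finset Module MPb07157.EX MPb07157.SK

variable {ι κ W W' : Type} [Fintype ι] [DecidableEq ι] [Fintype κ] [DecidableEq κ]
  [AddCommGroup W] [Module ℚ W] [AddCommGroup W'] [Module ℚ W']
variable {a : ι → W} {ah : ι → W'} {pr : W' →ₗ[ℚ] W} {L : κ → W →ₗ[ℚ] ℚ} {c : κ → ι → ℕ} {one : W}
  {H0 : W →ₗ[ℚ] ℚ} {h : ι → ℚ} {J R : Finset κ} {v v' w w' : κ → ι} {φ ψ φ' : W →ₗ[ℚ] ℚ}

/-- Basic facts on the pairs. -/
private theorem fin_pairs (hJ : Fam c univ ∅ J) (ht : TP a ah c J h v v' φ) :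
    (∀ j ∈ J, On c J (v j)) ∧ (∀ j ∈ J, On c J (v' j)) ∧
    (∀ j ∈ J, ∀ i ∈ J, c i (v j) = if i = j then 1 else 0) ∧
    (∀ j ∈ J, ∀ i ∈ J, c i (v' j) = if i = j then 1 else 0) ∧
    (∀ j ∈ J, ∀ i ∈ J, v j = v i → j = i) ∧ (∀ j ∈ J, ∀ i ∈ J, v' j = v' i → j = i) ∧
    (∀ j ∈ J, ∀ i ∈ J, v j ≠ v' i) := by
  have hone : ∀ j ∈ J, ∀ e, c j e ≠ 0 → ∀ i ∈ J, c i e = if i = j then 1 else 0 := by
    intro j hj e he i hi
    split_ifs with hij
    · subst hij
      have := hJ.zo i hi e (by simp)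
      omega
    · by_contra hne
      exact hij (hJ.dj i hi j hj e (by simp) hne he)
  have h3 : ∀ j ∈ J, ∀ i ∈ J, c i (v j) = if i = j then 1 else 0 :=
    fun j hj i hi => hone j hj (v j) (ht.mem j hj).1 i hi
  have h4 : ∀ j ∈ J, ∀ i ∈ J, c i (v' j) = if i = j then 1 else 0 :=
    fun j hj i hi => hone j hj (v' j) (ht.mem j hj).2 i hi
  refine ⟨fun j hj => ⟨j, hj, (ht.mem j hj).1⟩, fun j hj => ⟨j, hj, (ht.mem j hj).2⟩, h3, h4,
    ?_, ?_, ?_⟩
  · intro j hj i hi hv
    by_contra hne
    have h5 := h3 j hj i hi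
    rw [if_neg (Ne.symm hne), hv, h3 i hi i hi, if_pos rfl] at h5
    omega
  · intro j hj i hi hv
    by_contra hne
    have h5 := h4 j hj i hi
    rw [if_neg (Ne.symm hne), hv, h4 i hi i hi, if_pos rfl] at h5
    omega
  · intro j hj i hi hv
    by_cases hij : j = i
    · subst hij
      have h5 := ht.ind (fun x => if x = j then 1 else 0) (fun x => if x = j then -1 else 0) (by
        rw [Finset.sum_eq_single j]
        · simp [hv]
        · intro b _ hb
          simp [hb]
        · intro hn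
          exact absurd hj hn) j hj
      simp at h5
    · have h5 := h3 j hj i hi
      rw [if_neg (Ne.symm hij), hv, h4 i hi i hi, if_pos rfl] at h5
      omega

/-- The set `ρ(Θ')`. -/
private def finS (J : Finset κ) (v v' : κ → ι) (ρ : Finset ι) (Θ : Finset κ) : Finset ι :=
  ρ ∪ (J.image v ∪ (J \ Θ).image v')

private theorem mem_finS {J Θ : Finset κ} {v v' : κ → ι} {ρ : Finset ι} {e : ι} :
    e ∈ finS J v v' ρ Θ ↔ e ∈ ρ ∨ (∃ j ∈ J, v j = e) ∨ ∃ j ∈ J, j ∉ Θ ∧ v' j = e := by
  unfold finS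
  simp only [mem_union, mem_image, mem_sdiff, and_assoc]

/-- Sums over the set `ρ(Θ')`. -/
private theorem sum_finS {M : Type} [AddCommGroup M] (hJ : Fam c univ ∅ J)
    (ht : TP a ah c J h v v' φ) {ρ : Finset ι} (r0 : ∀ e ∈ ρ, ¬ On c J e) (Θ : Finset κ)
    (F : ι → M) : ∑ e ∈ finS J v v' ρ Θ, F e =
      ∑ e ∈ ρ, F e + ∑ j ∈ J, (F (v j) + if j ∈ Θ then 0 else F (v' j)) := by
  obtain ⟨o1, o2, -, -, i1, i2, i3⟩ := fin_pairs hJ ht
  unfold finS
  rw [sum_union, sum_union, sum_image, sum_image, sum_add_distrib]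
  · congr 2
    rw [← sum_filter_add_sum_filter_not J (fun j => j ∈ Θ) (fun j => if j ∈ Θ then 0 else F (v' j))]
    rw [sum_eq_zero (s := J.filter fun j => j ∈ Θ), zero_add]
    · rw [sdiff_eq_filter]
      refine sum_congr rfl fun j hj => ?_
      rw [if_neg (mem_filter.mp hj).2]
    · intro j hj
      rw [if_pos (mem_filter.mp hj).2]
  · intro i hi j hj hij
    exact i2 i (mem_sdiff.mp hi).1 j (mem_sdiff.mp hj).1 hij
  · intro i hi j hj hij
    exact i1 i hi j hj hij
  · rw [disjoint_left]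
    intro e h1 h2
    obtain ⟨i, hi, rfl⟩ := mem_image.mp h1
    obtain ⟨j, hj, hij⟩ := mem_image.mp h2
    exact i3 i hi j (mem_sdiff.mp hj).1 hij.symm
  · rw [disjoint_left]
    intro e h1 h2
    apply r0 e h1
    rcases mem_union.mp h2 with h3 | h3
    · obtain ⟨i, hi, rfl⟩ := mem_image.mp h3
      exact o1 i hi
    · obtain ⟨i, hi, rfl⟩ := mem_image.mp h3
      exact o2 i (mem_sdiff.mp hi).1

/-- LC-63. **Elimination.**

Proof.  By `r5` and `hsp`, `one = ∑_{e ∈ ρ} γ e • a e + ∑_{j ∈ J} (μ j • a (v j) + μ' j • a (v' j))`;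
`L j` gives `μ j + μ' j = 1` (`j ∈ J`).  Let `Θ = {j ∈ J | ¬ InRel j, μ' j = 0}`, and for `Θ' ⊆ Θ`
`ρ(Θ') = ρ ∪ {v j | j ∈ J} ∪ {v' j | j ∈ J \ Θ'}`.  Let `(*)` be the property of `Θ'`: for
`j ∈ Θ \ Θ'` no column is the dual vector of `v j` on `ρ(Θ')`.  It holds for `Θ' = Θ`; choose `Θ'`
with `(*)` of minimal cardinality.
`HL` for `φ'` and `ρ(Θ')`: gaps nonnegative (`r1`, `r3`, `TP.pos`), zero on `ρ(Θ')` (`r2`, `r3`,
`TP.tie`); `ah`-independence: apply `pr`, `r4`, then `TP.ind`; `one` is in the span since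
`μ' j = 0` on `Θ'`.  So there are `w ∈ ρ(Θ')` and exactly one column `k` that is the dual vector of
`w` on `ρ(Θ')`.  Note (Z): if `c k x = 0` for all `x ∈ ρ(Θ')` in the support of `J` except possibly
one with `0 < ζ`, then `∑ ζ e * c k e = 0` (apply `L k` to `ζ ∈ rel a`) has only terms `≥ 0` (`NP`
elements and `v' j`, `j ∈ Θ'`, have `0 < ζ`), so `c k` vanishes on the support of `J`.
Case `w ∈ ρ`: by (Z) `c k` vanishes on the support of `J`, and `k` contradicts `r6`.
Case `w = v l` or `w = v' l` (`l ∈ J`), `InRel l`: apply `L k` to a relation of pairs with nonzero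
coefficients at `l`; its coefficients at `j ∈ Θ'` are zero (not `InRel`), so only the term of `w`
remains, which is not zero.
Case `l` not `InRel`: applying `L k` to `one`, the coefficient of `w` is one (the coefficients at
`v' j`, `j ∈ Θ'`, are zero).  If `w = v' l`: `0 < ζ w` contradicts (Z) (`c k w = 1`).  So `w = v l`,
`μ l = 1`, `μ' l = 0`, `l ∈ Θ`.  If `l ∉ Θ'`, contradiction to `(*)`.  If `l ∈ Θ'`: the column `l`
is the dual vector of `v l` on `ρ(Θ')`, so `k = l`.  Then `Θ'.erase l` has `(*)`: a column that is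
the dual vector of `v l` on `ρ(Θ'.erase l) ∋ v' l` would be `l`, but `c l (v' l) = 1`.
Contradiction to minimality. -/
theorem final (hC : Cfg a ah pr L c one H0) (hJ : Fam c univ ∅ J) (hHL : HL a ah c one h)
    (ht : TP a ah c J h v v' φ) (hsp : ∀ e, On c J e → a e ∈ prs a v v' J) {ζ : ι → ℚ}
    (hζ : ζ ∈ rel a) (h0 : ∀ e, ¬ On c J e → ζ e = 0)
    (h1 : ∀ e, NP J v v' e → On c J e → 0 < ζ e)
    (h2 : ∀ j ∈ J, ¬ InRel a J v v' j → ζ (v j) < 0 ∧ 0 < ζ (v' j)) {ρ : Finset ι}
    (r0 : ∀ e ∈ ρ, ¬ On c J e) (r1 : ∀ e, ¬ On c J e → 0 ≤ φ' (a e) + h e)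
    (r2 : ∀ e ∈ ρ, φ' (a e) + h e = 0) (r3 : ∀ e, On c J e → φ' (a e) = φ (a e))
    (r4 : ∀ s : ι → ℚ, ∑ e ∈ ρ, s e • a e ∈ Submodule.span ℚ (a '' {e | On c J e}) →
      ∀ e ∈ ρ, s e = 0)
    (r5 : one ∈ Submodule.span ℚ (a '' (ρ : Set ι)) ⊔ Submodule.span ℚ (a '' {e | On c J e}))
    (r6 : ∀ w ∈ ρ, ∀ k, ¬ ∀ k', ((∀ e, On c J e → c k' e = 0) ∧
      ∀ i ∈ ρ, c k' i = if i = w then 1 else 0) ↔ k' = k) : False := by
  classical
  obtain ⟨o1, o2, q1, q2, i1, i2, i3⟩ := fin_pairs hJ ht
  -- the representation of `one`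
  obtain ⟨x, hx, y, hy, hxy⟩ := Submodule.mem_sup.mp r5
  obtain ⟨γ, hγ⟩ := Submodule.mem_span_image_finset_iff_exists_fun' (R := ℚ) |>.mp hx
  have hle : Submodule.span ℚ (a '' {e | On c J e}) ≤ prs a v v' J := by
    rw [Submodule.span_le]
    rintro _ ⟨e, he, rfl⟩
    exact hsp e he
  obtain ⟨μ, μ', hμ⟩ := mem_prs.mp (hle hy)
  have hone : one = ∑ e ∈ ρ, γ e • a e + ∑ j ∈ J, (μ j • a (v j) + μ' j • a (v' j)) := by
    rw [← hxy, ← hγ, ← hμ]
  have hLone : ∀ k, (1 : ℚ) = ∑ e ∈ ρ, γ e * c k e +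
      ∑ j ∈ J, (μ j * c k (v j) + μ' j * c k (v' j)) := by
    intro k
    have := hC.L_one k
    rw [hone] at this
    simp only [map_add, map_sum, map_smul, hC.L_a, smul_eq_mul] at this
    exact this.symm
  have hsum1 : ∀ j ∈ J, μ j + μ' j = 1 := by
    intro j hj
    have h3 := hLone j
    rw [sum_eq_zero, zero_add, sum_eq_single j] at h3
    · rw [q1 j hj j hj, q2 j hj j hj, if_pos rfl, Nat.cast_one, mul_one, mul_one] at h3
      exact h3.symm
    · intro b hb hbj
      rw [q1 b hb j hj, q2 b hb j hj, if_neg (Ne.symm hbj)]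
      simp
    · intro hn
      exact absurd hj hn
    · intro e he
      have : c j e = 0 := by
        by_contra hne
        exact r0 e he ⟨j, hj, hne⟩
      rw [this]
      simp
  -- minimal choice
  set Θ : Finset κ := J.filter fun j => ¬ InRel a J v v' j ∧ μ' j = 0 with hΘ
  let P : Finset κ → Prop := fun X => X ⊆ Θ ∧ ∀ j ∈ Θ, j ∉ X →
    ∀ k, ¬ ∀ i ∈ finS J v v' ρ X, c k i = if i = v j then 1 else 0
  have hPΘ : P Θ := ⟨Subset.refl _, fun j hj hn => absurd hj hn⟩
  have hex : ∃ n, ∃ X, P X ∧ X.card = n := ⟨_, Θ, hPΘ, rfl⟩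
  obtain ⟨X, hPX, hXn⟩ := Nat.find_spec hex
  have hmin : ∀ Y, P Y → X.card ≤ Y.card := by
    intro Y hY
    rw [hXn]
    exact Nat.find_min' hex ⟨Y, hY, rfl⟩
  have hXJ : ∀ j ∈ X, j ∈ J ∧ ¬ InRel a J v v' j ∧ μ' j = 0 := by
    intro j hj
    exact mem_filter.mp (hPX.1 hj)
  -- the hypothesis on the cells
  have hapr : ∀ s : ι → ℚ, ∑ e ∈ finS J v v' ρ X, s e • ah e = 0 →
      ∀ e ∈ finS J v v' ρ X, s e = 0 := by
    intro s hs
    rw [sum_finS hJ ht r0] at hs
    have h3 := congrArg pr hs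
    rw [map_add, map_sum, map_zero] at h3
    simp only [map_smul, hC.pr_a] at h3
    have h4 : ∑ e ∈ ρ, s e • a e ∈ Submodule.span ℚ (a '' {e | On c J e}) := by
      rw [eq_neg_of_add_eq_zero_left h3]
      apply Submodule.neg_mem
      rw [map_sum]
      refine Submodule.sum_mem _ fun j hj => ?_
      rw [map_add, map_smul, hC.pr_a]
      refine Submodule.add_mem _ (Submodule.smul_mem _ _
        (Submodule.subset_span ⟨v j, o1 j hj, rfl⟩)) ?_
      split_ifs
      · rw [map_zero]
        exact Submodule.zero_mem _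
      · rw [map_smul, hC.pr_a]
        exact Submodule.smul_mem _ _ (Submodule.subset_span ⟨v' j, o2 j hj, rfl⟩)
    have h5 := r4 s h4
    rw [sum_eq_zero (s := ρ) fun e he => by rw [h5 e he, zero_smul], zero_add] at hs
    have h6 := ht.ind (fun j => s (v j)) (fun j => if j ∈ X then 0 else s (v' j)) (by
      rw [← hs]
      refine sum_congr rfl fun j _ => ?_
      split_ifs
      · rw [zero_smul]
      · rfl)
    intro e he
    rcases mem_finS.mp he with h7 | ⟨j, hj, rfl⟩ | ⟨j, hj, hjX, rfl⟩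
    · exact h5 e h7
    · exact (h6 j hj).1
    · have := (h6 j hj).2
      rwa [if_neg hjX] at this
  have hspan : one ∈ Submodule.span ℚ (a '' (finS J v v' ρ X : Set ι)) := by
    rw [hone]
    refine Submodule.add_mem _ (Submodule.sum_mem _ fun e he => Submodule.smul_mem _ _
      (Submodule.subset_span ⟨e, ?_, rfl⟩)) (Submodule.sum_mem _ fun j hj => Submodule.add_mem _
        (Submodule.smul_mem _ _ (Submodule.subset_span ⟨v j, ?_, rfl⟩)) ?_)
    · exact mem_coe.mpr (mem_finS.mpr (Or.inl he))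
    · exact mem_coe.mpr (mem_finS.mpr (Or.inr (Or.inl ⟨j, hj, rfl⟩)))
    · by_cases hjX : j ∈ X
      · rw [(hXJ j hjX).2.2, zero_smul]
        exact Submodule.zero_mem _
      · exact Submodule.smul_mem _ _ (Submodule.subset_span
          ⟨v' j, mem_coe.mpr (mem_finS.mpr (Or.inr (Or.inr ⟨j, hj, hjX, rfl⟩))), rfl⟩)
  obtain ⟨w, hw, k, hk⟩ := hHL φ' (finS J v v' ρ X) (by
    intro e
    by_cases he : On c J e
    · rw [r3 e he]
      exact ht.pos e he
    · exact r1 e he) (by
    intro e he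
    rcases mem_finS.mp he with h7 | ⟨j, hj, rfl⟩ | ⟨j, hj, hjX, rfl⟩
    · exact r2 e h7
    · rw [r3 _ (o1 j hj)]
      exact (ht.tie j hj).1
    · rw [r3 _ (o2 j hj)]
      exact (ht.tie j hj).2) hapr hspan
  have hkw : ∀ i ∈ finS J v v' ρ X, c k i = if i = w then 1 else 0 := (hk k).mpr rfl
  -- (Z)
  have hZ : (∀ x ∈ finS J v v' ρ X, On c J x → c k x = 0 ∨ 0 < ζ x) →
      ∀ e, On c J e → c k e = 0 := by
    intro hz
    have hterm : ∀ e, On c J e → c k e = 0 ∨ 0 < ζ e := by
      intro e he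
      by_cases hnp : NP J v v' e
      · exact Or.inr (h1 e hnp he)
      · unfold NP at hnp
        push Not at hnp
        obtain ⟨j, hj, hje⟩ := hnp
        by_cases hev : e = v j
        · exact hz e (mem_finS.mpr (Or.inr (Or.inl ⟨j, hj, hev.symm⟩))) he
        · have hev' := hje hev
          by_cases hjX : j ∈ X
          · right
            rw [hev']
            exact (h2 j hj (hXJ j hjX).2.1).2
          · exact hz e (mem_finS.mpr (Or.inr (Or.inr ⟨j, hj, hjX, hev'.symm⟩))) he
    have hnn : ∀ e ∈ (univ : Finset ι), 0 ≤ ζ e * (c k e : ℚ) := by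
      intro e _
      by_cases he : On c J e
      · rcases hterm e he with h3 | h3
        · rw [h3]
          simp
        · positivity
      · rw [h0 e he, zero_mul]
    have hs : ∑ e, ζ e * (c k e : ℚ) = 0 := by
      have h3 := congrArg (L k) (mem_rel.mp hζ)
      rw [map_sum, map_zero] at h3
      simpa only [map_smul, hC.L_a, smul_eq_mul] using h3
    have h4 := (sum_eq_zero_iff_of_nonneg hnn).mp hs
    intro e he
    rcases hterm e he with h3 | h3
    · exact h3
    · have h5 := h4 e (mem_univ e)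
      rcases mul_eq_zero.mp h5 with h6 | h6
      · exact absurd h6 h3.ne'
      · exact_mod_cast h6
  -- values of the column `k` on the pairs
  have kv : ∀ j ∈ J, c k (v j) = if v j = w then 1 else 0 :=
    fun j hj => hkw _ (mem_finS.mpr (Or.inr (Or.inl ⟨j, hj, rfl⟩)))
  have kv' : ∀ j ∈ J, j ∉ X → c k (v' j) = if v' j = w then 1 else 0 :=
    fun j hj hjX => hkw _ (mem_finS.mpr (Or.inr (Or.inr ⟨j, hj, hjX, rfl⟩)))
  by_cases hwρ : w ∈ ρ
  · -- first case
    have hz := hZ (fun x hx hon => by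
      left
      rw [hkw x hx, if_neg]
      rintro rfl
      exact r0 x hwρ hon)
    apply r6 w hwρ k
    intro k'
    constructor
    · rintro ⟨h3, h4⟩
      apply (hk k').mp
      intro i hi
      rcases mem_finS.mp hi with h7 | ⟨j, hj, rfl⟩ | ⟨j, hj, hjX, rfl⟩
      · exact h4 i h7
      · rw [h3 _ (o1 j hj), if_neg]
        intro hh
        exact r0 w hwρ (hh ▸ o1 j hj)
      · rw [h3 _ (o2 j hj), if_neg]
        intro hh
        exact r0 w hwρ (hh ▸ o2 j hj)
    · rintro rfl
      exact ⟨hz, fun i hi => hkw i (mem_finS.mpr (Or.inl hi))⟩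
  · -- `w` is in a pair
    have hwon : On c J w := by
      rcases mem_finS.mp hw with h7 | ⟨j, hj, rfl⟩ | ⟨j, hj, hjX, rfl⟩
      · exact absurd h7 hwρ
      · exact o1 j hj
      · exact o2 j hj
    have hρ0 : ∀ e ∈ ρ, c k e = 0 := by
      intro e he
      rw [hkw e (mem_finS.mpr (Or.inl he)), if_neg]
      rintro rfl
      exact hwρ he
    -- the coefficient of `w` in a relation of pairs
    have hrel : ∀ ν ν' : κ → ℚ, ∑ i ∈ J, (ν i • a (v i) + ν' i • a (v' i)) = 0 →
        ∑ i ∈ J, (ν i * (if v i = w then 1 else 0) + ν' i * (if v' i = w then 1 else 0)) = 0 := by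
      intro ν ν' hν
      have h3 := congrArg (L k) hν
      rw [map_sum, map_zero] at h3
      refine (sum_congr rfl fun i hi => ?_).trans h3
      rw [map_add, map_smul, map_smul, hC.L_a, hC.L_a, kv i hi, smul_eq_mul, smul_eq_mul]
      by_cases hiX : i ∈ X
      · have hnr := (hXJ i hiX).2.1
        have : ν i = 0 ∧ ν' i = 0 := by
          by_contra hcon
          apply hnr
          refine ⟨ν, ν', hν, ?_⟩
          by_contra h4
          push Not at h4
          exact hcon h4
        rw [this.1, this.2]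
        simp
      · rw [kv' i hi hiX]
        push_cast
        rfl
    have hlj : ∀ ν ν' : κ → ℚ, ∑ i ∈ J, (ν i • a (v i) + ν' i • a (v' i)) = 0 →
        ∀ l ∈ J, ν l + ν' l = 0 := by
      intro ν ν' hν l hl
      have h3 := congrArg (L l) hν
      rw [map_sum, map_zero, sum_eq_single l] at h3
      · rw [map_add, map_smul, map_smul, hC.L_a, hC.L_a, q1 l hl l hl, q2 l hl l hl, if_pos rfl] at h3
        simpa using h3
      · intro b hb hbl
        rw [map_add, map_smul, map_smul, hC.L_a, hC.L_a, q1 b hb l hl, q2 b hb l hl,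
          if_neg (Ne.symm hbl)]
        simp
      · intro hn
        exact absurd hl hn
    have hk1 := hLone k
    rw [sum_eq_zero (s := ρ) fun e he => by rw [hρ0 e he]; simp, zero_add] at hk1
    have hk2 : (1 : ℚ) = ∑ j ∈ J, (μ j * (if v j = w then 1 else 0) +
        μ' j * (if v' j = w then 1 else 0)) := by
      refine hk1.trans (sum_congr rfl fun i hi => ?_)
      rw [kv i hi]
      by_cases hiX : i ∈ X
      · rw [(hXJ i hiX).2.2]
        simp
      · rw [kv' i hi hiX]
        push_cast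
        rfl
    rcases mem_finS.mp hw with h7 | ⟨l, hl, hlw⟩ | ⟨l, hl, hlX, hlw⟩
    · exact hwρ h7
    · -- `w = v l`
      have hev : ∀ ν ν' : κ → ℚ, ∑ i ∈ J, (ν i * (if v i = w then 1 else 0) +
          ν' i * (if v' i = w then 1 else 0)) = ν l := by
        intro ν ν'
        rw [sum_eq_single l]
        · rw [if_pos hlw, if_neg]
          · ring
          · intro hh
            exact i3 l hl l hl (hlw.trans hh.symm)
        · intro b hb hbl
          rw [if_neg, if_neg]
          · ring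
          · intro hh
            exact i3 l hl b hb (hlw.trans hh.symm)
          · intro hh
            exact hbl (i1 b hb l hl (hh.trans hlw.symm))
        · intro hn
          exact absurd hl hn
      by_cases hin : InRel a J v v' l
      · obtain ⟨ν, ν', hν, hne⟩ := hin
        have h3 := hrel ν ν' hν
        rw [hev] at h3
        have h4 := hlj ν ν' hν l hl
        rw [h3, zero_add] at h4
        rcases hne with h5 | h5
        · exact h5 h3
        · exact h5 h4
      · rw [hev] at hk2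
        have h3 : μ' l = 0 := by
          have := hsum1 l hl
          linarith
        have hlΘ : l ∈ Θ := mem_filter.mpr ⟨hl, hin, h3⟩
        by_cases hlX : l ∈ X
        · -- the column `l`
          have hl1 : ∀ i ∈ finS J v v' ρ X, c l i = if i = w then 1 else 0 := by
            intro i hi
            rcases mem_finS.mp hi with h7 | ⟨j, hj, rfl⟩ | ⟨j, hj, hjX, rfl⟩
            · rw [if_neg]
              · by_contra hne
                exact r0 i h7 ⟨l, hl, hne⟩
              · rintro rfl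
                exact hwρ h7
            · rw [q1 j hj l hl]
              by_cases hjl : l = j
              · subst hjl
                rw [if_pos rfl, if_pos hlw]
              · rw [if_neg hjl, if_neg]
                intro hh
                exact hjl (i1 l hl j hj (hlw.trans hh.symm))
            · rw [q2 j hj l hl, if_neg, if_neg]
              · intro hh
                exact i3 l hl j hj (hlw.trans hh.symm)
              · rintro rfl
                exact hjX hlX
          have hlk := (hk l).mp hl1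
          have hsub : ∀ i, i ∈ finS J v v' ρ X → i ∈ finS J v v' ρ (X.erase l) := by
            intro i hi
            rcases mem_finS.mp hi with h7 | h7 | ⟨j, hj, hjX, rfl⟩
            · exact mem_finS.mpr (Or.inl h7)
            · exact mem_finS.mpr (Or.inr (Or.inl h7))
            · exact mem_finS.mpr (Or.inr (Or.inr ⟨j, hj, fun hh => hjX (mem_of_mem_erase hh), rfl⟩))
          have hPe : P (X.erase l) := by
            refine ⟨fun j hj => hPX.1 (mem_of_mem_erase hj), ?_⟩
            intro j hj hjn k' hk'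
            by_cases hjX : j ∈ X
            · have hjl : j = l := by
                by_contra hne
                exact hjn (mem_erase.mpr ⟨hne, hjX⟩)
              subst hjl
              have h5 := (hk k').mp fun i hi => by rw [hk' i (hsub i hi), hlw]
              rw [h5, ← hlk] at hk'
              have h6 := hk' (v' j) (mem_finS.mpr (Or.inr (Or.inr ⟨j, hl, by simp, rfl⟩)))
              rw [if_neg (fun hh => i3 j hl j hl hh.symm)] at h6
              exact (ht.mem j hl).2 h6
            · exact hPX.2 j hj hjX k' fun i hi => hk' i (hsub i hi)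
          have h8 := hmin _ hPe
          rw [card_erase_of_mem hlX] at h8
          have : 0 < X.card := card_pos.mpr ⟨l, hlX⟩
          omega
        · exact hPX.2 l hlΘ hlX k fun i hi => by rw [hkw i hi, hlw]
    · -- `w = v' l`
      have hev : ∀ ν ν' : κ → ℚ, ∑ i ∈ J, (ν i * (if v i = w then 1 else 0) +
          ν' i * (if v' i = w then 1 else 0)) = ν' l := by
        intro ν ν'
        rw [sum_eq_single l]
        · rw [if_neg, if_pos hlw]
          · ring
          · intro hh
            exact i3 l hl l hl (hh.trans hlw.symm)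
        · intro b hb hbl
          rw [if_neg, if_neg]
          · ring
          · intro hh
            exact hbl (i2 b hb l hl (hh.trans hlw.symm))
          · intro hh
            exact i3 b hb l hl (hh.trans hlw.symm)
        · intro hn
          exact absurd hl hn
      by_cases hin : InRel a J v v' l
      · obtain ⟨ν, ν', hν, hne⟩ := hin
        have h3 := hrel ν ν' hν
        rw [hev] at h3
        have h4 := hlj ν ν' hν l hl
        rw [h3, add_zero] at h4
        rcases hne with h5 | h5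
        · exact h5 h4
        · exact h5 h3
      · have hz := hZ (fun x hx hon => by
          by_cases hxw : x = w
          · right
            rw [hxw, ← hlw]
            exact (h2 l hl hin).2
          · left
            rw [hkw x hx, if_neg hxw])
        have h3 := hz w hwon
        rw [hkw w hw, if_pos rfl] at h3
        exact one_ne_zero h3

end MPb07157.LC
end
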