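import Pool.Agent.Lib.MP_b07157_ag.LC.G0

/-!
# Blocks: optimal tied pairs exist
-/

namespace MPb07157.LC

open Finset

variable {ι κ : Type} [DecidableEq ι] [DecidableEq κ] {W : Type} [AddCommGroup W] [Module ℚ W]
variable {a : ι → W} {P : κ → Finset ι} {L : κ → W →ₗ[ℚ] ℚ} {U : Submodule ℚ W}
  {F : Finset ι} {J R : Finset κ} {h : ι → ℚ} {v v' w w' : κ → ι} {ψ φ : W →ₗ[ℚ] ℚ}

/-- LC-10. One can decrease the weighted sum of the gaps of `F` until `∑_F x e • a e` is in the span
of `U` and the elements with gap zero.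

Proof. Strong induction on the number of `e ∈ F ∪ J.biUnion P` with nonzero gap.  If
`x_F = ∑ e ∈ F, x e • a e` is not in the span of `U` and `{a e | gap zero}`, there is a functional
`u` that vanishes on this span with `u x_F < 0`.  As `x ≥ 0`, some `e ∈ F` has `u (a e) < 0`.  Let
`t` be the minimum of `gap e / (-u (a e))` over the `e ∈ F ∪ J.biUnion P` with `u (a e) < 0`; it is
positive, `ψ + t • u` has nonnegative gaps, the old ties and a new one. -/
theorem exists_basic {x : ι → ℚ} (hx : ∀ e ∈ F, 0 ≤ x e) (hv : Vd a P U F J h v v' ψ) :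
    ∃ φ, Vd a P U F J h v v' φ ∧ φ (∑ e ∈ F, x e • a e) ≤ ψ (∑ e ∈ F, x e • a e) ∧
      ∑ e ∈ F, x e • a e ∈ U ⊔ Submodule.span ℚ
        (a '' {e | e ∈ F ∪ J.biUnion P ∧ φ (a e) + h e = 0}) := by
  classical
  obtain ⟨n, hn⟩ : ∃ n, ((F ∪ J.biUnion P).filter (fun e => ¬ ψ (a e) + h e = 0)).card = n :=
    ⟨_, rfl⟩
  induction n using Nat.strong_induction_on generalizing ψ with
  | _ n ih =>
    by_cases hmem : ∑ e ∈ F, x e • a e ∈ U ⊔ Submodule.span ℚ
        (a '' {e | e ∈ F ∪ J.biUnion P ∧ ψ (a e) + h e = 0})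
    · exact ⟨ψ, hv, le_rfl, hmem⟩
    · obtain ⟨u₀, hu₀, hle₀⟩ := Submodule.exists_le_ker_of_notMem hmem
      obtain ⟨u, hu, hle⟩ : ∃ u : W →ₗ[ℚ] ℚ, u (∑ e ∈ F, x e • a e) < 0 ∧
          U ⊔ Submodule.span ℚ (a '' {e | e ∈ F ∪ J.biUnion P ∧ ψ (a e) + h e = 0}) ≤
            LinearMap.ker u := by
        rcases lt_or_gt_of_ne hu₀ with h1 | h1
        · exact ⟨u₀, h1, hle₀⟩
        · refine ⟨-u₀, by rw [LinearMap.neg_apply]; linarith, fun y hy => ?_⟩
          have h2 := hle₀ hy
          rw [LinearMap.mem_ker] at h2 ⊢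
          rw [LinearMap.neg_apply, h2, neg_zero]
      have huU : ∀ y ∈ U, u y = 0 := fun y hy =>
        LinearMap.mem_ker.1 (hle (Submodule.mem_sup_left hy))
      have huZ : ∀ e ∈ F ∪ J.biUnion P, ψ (a e) + h e = 0 → u (a e) = 0 := fun e he h0 =>
        LinearMap.mem_ker.1 (hle (Submodule.mem_sup_right
          (Submodule.subset_span ⟨e, ⟨he, h0⟩, rfl⟩)))
      have hgap : ∀ e ∈ F ∪ J.biUnion P, 0 ≤ ψ (a e) + h e := by
        intro e he
        rcases mem_union.1 he with he | he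
        · exact hv.pF e he
        · obtain ⟨j, hj, hej⟩ := mem_biUnion.1 he
          exact hv.pP j hj e hej
      obtain ⟨e₁, he₁, hue₁⟩ : ∃ e ∈ F, u (a e) < 0 := by
        by_contra hno
        push Not at hno
        have h1 : 0 ≤ u (∑ e ∈ F, x e • a e) := by
          rw [map_sum]
          apply sum_nonneg
          intro e he
          rw [map_smul, smul_eq_mul]
          exact mul_nonneg (hx e he) (hno e he)
        linarith
      have hNne : ((F ∪ J.biUnion P).filter (fun e => u (a e) < 0)).Nonempty :=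
        ⟨e₁, mem_filter.2 ⟨mem_union_left _ he₁, hue₁⟩⟩
      obtain ⟨e₀, he₀, hmin⟩ := exists_min_image _
        (fun e => (ψ (a e) + h e) / (- u (a e))) hNne
      obtain ⟨he₀E, hue₀⟩ := mem_filter.1 he₀
      have hg₀ : ¬ ψ (a e₀) + h e₀ = 0 := by
        intro h0
        have h1 := huZ e₀ he₀E h0
        linarith
      have hgp : 0 < ψ (a e₀) + h e₀ := lt_of_le_of_ne (hgap e₀ he₀E) (Ne.symm hg₀)
      set t : ℚ := (ψ (a e₀) + h e₀) / (- u (a e₀)) with ht
      have htp : 0 < t := div_pos hgp (by linarith)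
      have hval : ∀ y, (ψ + t • u) y = ψ y + t * u y := fun y => by
        rw [LinearMap.add_apply, LinearMap.smul_apply, smul_eq_mul]
      have hnew : ∀ e ∈ F ∪ J.biUnion P, 0 ≤ (ψ + t • u) (a e) + h e := by
        intro e he
        rw [hval]
        by_cases hue : u (a e) < 0
        · have h1 : t ≤ (ψ (a e) + h e) / (- u (a e)) := hmin e (mem_filter.2 ⟨he, hue⟩)
          rw [le_div_iff₀ (by linarith)] at h1
          linarith
        · have h1 := mul_nonneg htp.le (not_lt.1 hue)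
          have h2 := hgap e he
          linarith
      have hold : ∀ e ∈ F ∪ J.biUnion P, ψ (a e) + h e = 0 → (ψ + t • u) (a e) + h e = 0 := by
        intro e he h0
        rw [hval, huZ e he h0, mul_zero, add_zero]
        exact h0
      have hv2 : Vd a P U F J h v v' (ψ + t • u) := by
        refine ⟨hv.mem, hv.ind, fun y hy => ?_, fun e he => hnew e (mem_union_left _ he),
          fun j hj e he => hnew e (mem_union_right _ (mem_biUnion.2 ⟨j, hj, he⟩)), fun j hj => ?_⟩
        · rw [hval, hv.U0 y hy, huU y hy, mul_zero, add_zero]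
        · exact ⟨hold _ (mem_union_right _ (mem_biUnion.2 ⟨j, hj, (hv.mem j hj).1⟩))
              (hv.tie j hj).1,
            hold _ (mem_union_right _ (mem_biUnion.2 ⟨j, hj, (hv.mem j hj).2⟩))
              (hv.tie j hj).2⟩
      have hcard : ((F ∪ J.biUnion P).filter
          (fun e => ¬ (ψ + t • u) (a e) + h e = 0)).card < n := by
        rw [← hn]
        apply card_lt_card
        rw [ssubset_iff_of_subset]
        · refine ⟨e₀, mem_filter.2 ⟨he₀E, hg₀⟩, fun h1 => (mem_filter.1 h1).2 ?_⟩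
          have h3 : - u (a e₀) ≠ 0 := by
            intro h4
            linarith
          have h4 : t * (- u (a e₀)) = ψ (a e₀) + h e₀ := div_mul_cancel₀ _ h3
          rw [hval]
          linarith
        · intro e he
          obtain ⟨heE, h1⟩ := mem_filter.1 he
          exact mem_filter.2 ⟨heE, fun h0 => h1 (hold e heE h0)⟩
      obtain ⟨φ, hφ, hφle, hφm⟩ := ih _ hcard hv2 rfl
      refine ⟨φ, hφ, le_trans hφle ?_, hφm⟩
      rw [hval]
      have h1 := mul_neg_of_pos_of_neg htp hu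
      linarith

/-- LC-11. Optimal tied pairs exist.

Proof. For the `φ` of `exists_basic` the value `φ x_F` is determined by the set
`Z = (F ∪ J.biUnion P).filter (gap zero)` (if `φ, φ'` have the same `Z`, then `φ - φ'` vanishes on
`U` and on `a e`, `e ∈ Z`).  Choose `φ` among the basic ones with minimal value (finitely many sets
`Z`: minimum over `(F ∪ J.biUnion P).powerset` of the values of the sets `Z` that occur). -/
theorem exists_opt {x : ι → ℚ} (hx : ∀ e ∈ F, 0 ≤ x e) (hv : Vd a P U F J h v v' ψ) :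
    ∃ w w' φ, Vd a P U F J h w w' φ ∧ ∀ w₁ w₁' φ₁, Vd a P U F J h w₁ w₁' φ₁ →
      φ (∑ e ∈ F, x e • a e) ≤ φ₁ (∑ e ∈ F, x e • a e) := by
  classical
  set E : Finset ι := F ∪ J.biUnion P with hE
  set xF : W := ∑ e ∈ F, x e • a e with hxF
  set T : Set ℚ := {q | ∃ w w' φ, Vd a P U F J h w w' φ ∧ xF ∈ U ⊔ Submodule.span ℚ
        (a '' {e | e ∈ E ∧ φ (a e) + h e = 0}) ∧ q = φ xF} with hT
  set good : Finset ι → (W →ₗ[ℚ] ℚ) → Prop := fun Z φ => (∀ y ∈ U, φ y = 0) ∧
    E.filter (fun e => φ (a e) + h e = 0) = Z with hgood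
  set g : Finset ι → ℚ := fun Z => if hZ : ∃ φ, good Z φ then hZ.choose xF else 0 with hg
  have hfin : T.Finite := by
    apply Set.Finite.subset ((E.powerset.finite_toSet).image g)
    rintro q ⟨w, w', φ, hφ, hm, rfl⟩
    refine ⟨E.filter (fun e => φ (a e) + h e = 0), mem_coe.2 (mem_powerset.2
      (filter_subset _ _)), ?_⟩
    have hex : ∃ θ, good (E.filter (fun e => φ (a e) + h e = 0)) θ := ⟨φ, hφ.U0, rfl⟩
    have hch := hex.choose_spec
    have hgv : g (E.filter (fun e => φ (a e) + h e = 0)) = hex.choose xF := by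
      rw [hg]
      simp only [dif_pos hex]
    rw [hgv]
    generalize hex.choose = θ at hch
    obtain ⟨hθU, hθZ⟩ := hch
    have hle : U ⊔ Submodule.span ℚ (a '' {e | e ∈ E ∧ φ (a e) + h e = 0}) ≤
        LinearMap.ker (θ - φ) := by
      apply sup_le
      · intro y hy
        rw [LinearMap.mem_ker, LinearMap.sub_apply, hθU y hy, hφ.U0 y hy, sub_zero]
      · rw [Submodule.span_le]
        rintro _ ⟨e, ⟨he, h0⟩, rfl⟩
        have h1 : e ∈ E.filter (fun e => θ (a e) + h e = 0) := by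
          rw [hθZ]
          exact mem_filter.2 ⟨he, h0⟩
        have h2 := (mem_filter.1 h1).2
        rw [SetLike.mem_coe, LinearMap.mem_ker, LinearMap.sub_apply]
        linarith
    have h3 := LinearMap.mem_ker.1 (hle hm)
    rw [LinearMap.sub_apply] at h3
    linarith
  have hne : T.Nonempty := by
    obtain ⟨φ, h1, _, h3⟩ := exists_basic hx hv
    exact ⟨_, v, v', φ, h1, h3, rfl⟩
  obtain ⟨q, ⟨w, w', φ, hφ, _, hq⟩, hqmin⟩ := Set.exists_min_image T id hfin hne
  refine ⟨w, w', φ, hφ, fun w₁ w₁' φ₁ h₁ => ?_⟩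
  obtain ⟨φ₂, h2, h2le, h2m⟩ := exists_basic hx h₁
  have h3 := hqmin _ ⟨w₁, w₁', φ₂, h2, h2m, rfl⟩
  simp only [id] at h3
  rw [← hq]
  exact le_trans h3 h2le

end MPb07157.LC
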