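import Mathlib

/-!
# Farkas' lemma over the rational numbers
-/

namespace MPb07157.LC

open Finset

variable {ι : Type} [DecidableEq ι] {W : Type} [AddCommGroup W] [Module ℚ W]

/-- LC-01. Farkas' lemma.

Proof by induction on `T`.  `T = ∅`: if `x ≠ 0` take a functional with `u x ≠ 0`, change the sign.
`T = insert e T'` and `x` not in the cone of `T`: by induction there is `ψ` with `0 ≤ ψ (b i)` for
`i ∈ T'`, `ψ x < 0`; if `0 ≤ ψ (b e)` take `u = ψ`.  If `ψ (b e) < 0`, let
`pr y = y - (ψ y / ψ (b e)) • b e` and use the induction hypothesis for `pr ∘ b`, `pr x`: if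
`pr x = ∑ s i • pr (b i)`, then
`x = ∑ s i • b i + (ψ x / ψ (b e) - ∑ s i * (ψ (b i) / ψ (b e))) • b e` and the last coefficient is
nonnegative; otherwise `u ∘ pr`. -/
theorem farkas (T : Finset ι) (b : ι → W) (x : W) :
    (∃ s : ι → ℚ, (∀ i ∈ T, 0 ≤ s i) ∧ x = ∑ i ∈ T, s i • b i) ∨
      ∃ u : W →ₗ[ℚ] ℚ, (∀ i ∈ T, 0 ≤ u (b i)) ∧ u x < 0 := by
  induction T using Finset.induction_on generalizing b x with
  | empty =>
    by_cases hx : x = 0
    · left
      exact ⟨fun _ => 0, by simp, by simp [hx]⟩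
    · right
      have h1 : ¬ ∀ φ : Module.Dual ℚ W, φ x = 0 := fun h =>
        hx ((Module.forall_dual_apply_eq_zero_iff ℚ x).1 h)
      push Not at h1
      obtain ⟨φ, hφ⟩ := h1
      rcases lt_or_gt_of_ne hφ with h | h
      · exact ⟨φ, by simp, h⟩
      · refine ⟨-φ, by simp, ?_⟩
        rw [LinearMap.neg_apply]
        linarith
  | insert e T' he ih =>
    rcases ih b x with ⟨s, hs, hx⟩ | ⟨ψ, hψ, hψx⟩
    · left
      refine ⟨Function.update s e 0, ?_, ?_⟩
      · intro i hi
        by_cases hie : i = e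
        · subst hie
          simp
        · rw [Function.update_of_ne hie]
          exact hs i ((Finset.mem_insert.1 hi).resolve_left hie)
      · rw [Finset.sum_insert he, Function.update_self, zero_smul, zero_add, hx]
        refine Finset.sum_congr rfl fun i hi => ?_
        have hie : i ≠ e := fun h => he (h ▸ hi)
        rw [Function.update_of_ne hie]
    · by_cases hbe : 0 ≤ ψ (b e)
      · right
        refine ⟨ψ, ?_, hψx⟩
        intro i hi
        rcases Finset.mem_insert.1 hi with rfl | hi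
        · exact hbe
        · exact hψ i hi
      · have hc : ψ (b e) < 0 := not_le.1 hbe
        have hc0 : ψ (b e) ≠ 0 := hc.ne
        let pr : W →ₗ[ℚ] W := LinearMap.id - (ψ (b e))⁻¹ • ψ.smulRight (b e)
        have hpr : ∀ y, pr y = y - (ψ y / ψ (b e)) • b e := by
          intro y
          simp only [pr, LinearMap.sub_apply, LinearMap.id_apply, LinearMap.smul_apply,
            LinearMap.smulRight_apply, smul_smul]
          rw [div_eq_inv_mul]
        rcases ih (fun i => pr (b i)) (pr x) with ⟨s, hs, hx⟩ | ⟨u, hu, hux⟩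
        · left
          have hcoef : 0 ≤ ψ x / ψ (b e) - ∑ i ∈ T', s i * (ψ (b i) / ψ (b e)) := by
            have h1 : 0 ≤ ψ x / ψ (b e) := div_nonneg_of_nonpos hψx.le hc.le
            have h2 : ∑ i ∈ T', s i * (ψ (b i) / ψ (b e)) ≤ 0 := by
              refine Finset.sum_nonpos fun i hi => ?_
              exact mul_nonpos_of_nonneg_of_nonpos (hs i hi)
                (div_nonpos_of_nonneg_of_nonpos (hψ i hi) hc.le)
            linarith
          refine ⟨Function.update s e (ψ x / ψ (b e) - ∑ i ∈ T', s i * (ψ (b i) / ψ (b e))),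
            ?_, ?_⟩
          · intro i hi
            by_cases hie : i = e
            · subst hie
              simpa using hcoef
            · rw [Function.update_of_ne hie]
              exact hs i ((Finset.mem_insert.1 hi).resolve_left hie)
          · rw [Finset.sum_insert he, Function.update_self]
            have h3 : ∑ i ∈ T', Function.update s e
                (ψ x / ψ (b e) - ∑ i ∈ T', s i * (ψ (b i) / ψ (b e))) i • b i =
                ∑ i ∈ T', s i • b i := by
              refine Finset.sum_congr rfl fun i hi => ?_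
              have hie : i ≠ e := fun h => he (h ▸ hi)
              rw [Function.update_of_ne hie]
            rw [h3]
            have h4 : x = pr x + (ψ x / ψ (b e)) • b e := by
              rw [hpr]
              abel
            have h5 : ∑ i ∈ T', s i • pr (b i) =
                ∑ i ∈ T', s i • b i - (∑ i ∈ T', s i * (ψ (b i) / ψ (b e))) • b e := by
              rw [Finset.sum_smul, ← Finset.sum_sub_distrib]
              refine Finset.sum_congr rfl fun i _ => ?_
              rw [hpr, smul_sub, smul_smul]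
            calc x = pr x + (ψ x / ψ (b e)) • b e := h4
              _ = (∑ i ∈ T', s i • b i - (∑ i ∈ T', s i * (ψ (b i) / ψ (b e))) • b e) +
                  (ψ x / ψ (b e)) • b e := by rw [hx, h5]
              _ = _ := by
                rw [sub_smul]
                abel
        · right
          refine ⟨u.comp pr, ?_, ?_⟩
          · intro i hi
            rcases Finset.mem_insert.1 hi with rfl | hi
            · rw [LinearMap.comp_apply, hpr, div_self hc0, one_smul, sub_self, map_zero]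
            · exact hu i hi
          · exact hux

/-- LC-02. Farkas' lemma modulo a subspace (apply `farkas` in `W ⧸ Q`). -/
theorem farkas_mod (Q : Submodule ℚ W) (T : Finset ι) (b : ι → W) (x : W) :
    (∃ s : ι → ℚ, (∀ i ∈ T, 0 ≤ s i) ∧ x - ∑ i ∈ T, s i • b i ∈ Q) ∨
      ∃ u : W →ₗ[ℚ] ℚ, (∀ q ∈ Q, u q = 0) ∧ (∀ i ∈ T, 0 ≤ u (b i)) ∧ u x < 0 := by
  rcases farkas T (fun i => Q.mkQ (b i)) (Q.mkQ x) with ⟨s, hs, hx⟩ | ⟨u, hu, hux⟩
  · left
    refine ⟨s, hs, ?_⟩
    have h1 : Q.mkQ (x - ∑ i ∈ T, s i • b i) = 0 := by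
      rw [map_sub, map_sum, hx, sub_eq_zero]
      refine Finset.sum_congr rfl fun i _ => ?_
      rw [map_smul]
    rwa [Submodule.mkQ_apply, Submodule.Quotient.mk_eq_zero] at h1
  · right
    refine ⟨u.comp Q.mkQ, ?_, ?_, ?_⟩
    · intro q hq
      have h1 : Q.mkQ q = 0 := by
        rw [Submodule.mkQ_apply, Submodule.Quotient.mk_eq_zero]
        exact hq
      rw [LinearMap.comp_apply, h1, map_zero]
    · intro i hi
      exact hu i hi
    · exact hux

/-- LC-03. Affine Farkas lemma: `0 ≤ u (a e) + h e` on `T`, equality on `Z`, `u = 0` on `U`.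

Proof. Apply `farkas_mod` in `W × ℚ` with `Q = {(w, 0) | w ∈ U}`, the vectors `(a e, h e)`
(`e ∈ T`), `(a e, h e)` and `(-a e, -h e)` (`e ∈ Z`), `(0, 1)` and `x = (0, -1)` (index type
`Option (ι ⊕ ι ⊕ ι)` or similar).  A functional `u` on `W × ℚ` with `u (0, -1) < 0` has
`r = u (0, 1) > 0`; take `w ↦ u (w, 0) / r`. -/
theorem farkas_aff (U : Submodule ℚ W) (T Z : Finset ι) (a : ι → W) (h : ι → ℚ) :
    (∃ u : W →ₗ[ℚ] ℚ, (∀ q ∈ U, u q = 0) ∧ (∀ e ∈ T, 0 ≤ u (a e) + h e) ∧
      ∀ e ∈ Z, u (a e) + h e = 0) ∨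
    ∃ s r : ι → ℚ, (∀ e ∈ T, 0 ≤ s e) ∧ (∑ e ∈ T, s e • a e + ∑ e ∈ Z, r e • a e) ∈ U ∧
      ∑ e ∈ T, s e * h e + ∑ e ∈ Z, r e * h e < 0 := by
  let b : ι ⊕ (ι ⊕ (ι ⊕ Unit)) → W × ℚ := Sum.elim (fun e => (a e, h e))
    (Sum.elim (fun e => (a e, h e)) (Sum.elim (fun e => (-a e, -h e)) (fun _ => (0, 1))))
  rcases farkas_mod (Submodule.prod U ⊥) (T.disjSum (Z.disjSum (Z.disjSum {()}))) b (0, -1) with
    ⟨s, hs, hx⟩ | ⟨u, hu0, hu, hux⟩
  · right
    rw [Finset.sum_disjSum, Finset.sum_disjSum, Finset.sum_disjSum, Finset.sum_singleton] at hx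
    simp only [b, Sum.elim_inl, Sum.elim_inr] at hx
    rw [Submodule.mem_prod] at hx
    obtain ⟨hx1, hx2⟩ := hx
    rw [Submodule.mem_bot] at hx2
    simp only [Prod.fst_sub, Prod.fst_add, Prod.fst_sum, Prod.smul_fst, Prod.snd_sub, Prod.snd_add,
      Prod.snd_sum, Prod.smul_snd, smul_neg, smul_zero, smul_eq_mul, Finset.sum_neg_distrib,
      zero_sub, add_zero, mul_one] at hx1 hx2
    refine ⟨fun e => s (Sum.inl e), fun e => s (Sum.inr (Sum.inl e)) -
      s (Sum.inr (Sum.inr (Sum.inl e))), ?_, ?_, ?_⟩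
    · intro e he
      exact hs _ (Finset.inl_mem_disjSum.2 he)
    · have h1 := U.neg_mem hx1
      rw [neg_neg] at h1
      simp only [sub_smul, Finset.sum_sub_distrib]
      rwa [← sub_eq_add_neg] at h1
    · have h0 : 0 ≤ s (Sum.inr (Sum.inr (Sum.inr ()))) :=
        hs _ (by simp)
      simp only [sub_mul, Finset.sum_sub_distrib]
      have h2 : ∑ x ∈ Z, s (Sum.inr (Sum.inr (Sum.inl x))) * -h x =
          - ∑ x ∈ Z, s (Sum.inr (Sum.inr (Sum.inl x))) * h x := by
        rw [← Finset.sum_neg_distrib]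
        exact Finset.sum_congr rfl fun _ _ => by ring
      first
        | (rw [h2] at hx2; linarith)
        | linarith
  · left
    have hr : 0 < u ((0 : W), (1 : ℚ)) := by
      have h1 : ((0 : W), (-1 : ℚ)) = -((0 : W), (1 : ℚ)) := by simp
      rw [h1, map_neg] at hux
      linarith
    have hsplit : ∀ (w : W) (c : ℚ), u (w, c) = u (w, 0) + c * u (0, 1) := by
      intro w c
      have h1 : (w, c) = (w, (0 : ℚ)) + c • ((0 : W), (1 : ℚ)) := by simp
      rw [h1, map_add, map_smul, smul_eq_mul]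
    have hv : ∀ (w : W) (c : ℚ), ((u ((0 : W), (1 : ℚ)))⁻¹ • (u.comp (LinearMap.inl ℚ W ℚ))) w + c =
        (u ((0 : W), (1 : ℚ)))⁻¹ * u (w, c) := by
      intro w c
      rw [hsplit w c, LinearMap.smul_apply, LinearMap.comp_apply, LinearMap.inl_apply, smul_eq_mul,
        mul_add]
      congr 1
      field_simp
    refine ⟨(u ((0 : W), (1 : ℚ)))⁻¹ • (u.comp (LinearMap.inl ℚ W ℚ)), ?_, ?_, ?_⟩
    · intro q hq
      have h1 : u (q, 0) = 0 := hu0 (q, 0) (by
        rw [Submodule.mem_prod]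
        exact ⟨hq, Submodule.zero_mem _⟩)
      rw [LinearMap.smul_apply, LinearMap.comp_apply, LinearMap.inl_apply, h1, smul_zero]
    · intro e he
      rw [hv]
      exact mul_nonneg (inv_nonneg.2 hr.le) (hu (Sum.inl e) (Finset.inl_mem_disjSum.2 he))
    · intro e he
      rw [hv]
      have h1 : 0 ≤ u (a e, h e) := hu (Sum.inr (Sum.inl e)) (by simp [he])
      have h2 : 0 ≤ u (-a e, -h e) := hu (Sum.inr (Sum.inr (Sum.inl e))) (by simp [he])
      have h3 : (-a e, -h e) = -(a e, h e) := rfl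
      rw [h3, map_neg] at h2
      have h4 : u (a e, h e) = 0 := by linarith
      rw [h4, mul_zero]

/-- LC-04. Infeasibility is stable under small changes of the heights (`farkas_aff`; the value of
the certificate is affine in `ε`, negative at `ε = 0`; a feasible `u` would give `0 ≤`). -/
theorem feas_closed (U : Submodule ℚ W) (T Z : Finset ι) (a : ι → W) (h η : ι → ℚ)
    (hinf : ¬ ∃ u : W →ₗ[ℚ] ℚ, (∀ q ∈ U, u q = 0) ∧ (∀ e ∈ T, 0 ≤ u (a e) + h e) ∧
      ∀ e ∈ Z, u (a e) + h e = 0) :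
    ∃ ε₀ : ℚ, 0 < ε₀ ∧ ∀ ε : ℚ, 0 ≤ ε → ε < ε₀ →
      ¬ ∃ u : W →ₗ[ℚ] ℚ, (∀ q ∈ U, u q = 0) ∧ (∀ e ∈ T, 0 ≤ u (a e) + (h e + ε * η e)) ∧
        ∀ e ∈ Z, u (a e) + (h e + ε * η e) = 0 := by
  rcases farkas_aff U T Z a h with h1 | ⟨s, r, hs, hU, hneg⟩
  · exact absurd h1 hinf
  set V0 : ℚ := ∑ e ∈ T, s e * h e + ∑ e ∈ Z, r e * h e with hV0
  set V1 : ℚ := ∑ e ∈ T, s e * η e + ∑ e ∈ Z, r e * η e with hV1
  have hpos : 0 < |V1| + 1 := by positivity
  refine ⟨-V0 / (|V1| + 1), div_pos (by linarith) hpos, ?_⟩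
  rintro ε hε0 hε ⟨u, hu0, huT, huZ⟩
  have h2 : ε * (|V1| + 1) < -V0 := by rwa [lt_div_iff₀ hpos] at hε
  have h3 : ε * V1 ≤ ε * |V1| := mul_le_mul_of_nonneg_left (le_abs_self V1) hε0
  have h4 : V0 + ε * V1 < 0 := by nlinarith
  have h5 : 0 ≤ ∑ e ∈ T, s e * (u (a e) + (h e + ε * η e)) +
      ∑ e ∈ Z, r e * (u (a e) + (h e + ε * η e)) := by
    have h6 : 0 ≤ ∑ e ∈ T, s e * (u (a e) + (h e + ε * η e)) :=
      Finset.sum_nonneg fun e he => mul_nonneg (hs e he) (huT e he)
    have h7 : ∑ e ∈ Z, r e * (u (a e) + (h e + ε * η e)) = 0 :=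
      Finset.sum_eq_zero fun e he => by rw [huZ e he, mul_zero]
    linarith
  have h8 : ∑ e ∈ T, s e * (u (a e) + (h e + ε * η e)) +
      ∑ e ∈ Z, r e * (u (a e) + (h e + ε * η e)) =
      u (∑ e ∈ T, s e • a e + ∑ e ∈ Z, r e • a e) + (V0 + ε * V1) := by
    rw [map_add, map_sum, map_sum, hV0, hV1]
    simp only [map_smul, smul_eq_mul, mul_add, Finset.sum_add_distrib, Finset.mul_sum]
    have h9 : ∀ (S : Finset ι) (c : ι → ℚ), ∑ e ∈ S, c e * (ε * η e) = ∑ e ∈ S, ε * (c e * η e) :=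
      fun S c => Finset.sum_congr rfl fun e _ => by ring
    rw [h9 T s, h9 Z r]
    ring
  rw [h8, hu0 _ hU] at h5
  linarith

end MPb07157.LC
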