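import Pool.Agent.Lib.MP_b07157_ag.LC.G0
import Pool.Agent.Lib.MP_b07157_ag.LC.Farkas

/-!
# Blocks: generic perturbation of the heights
-/

namespace MPb07157.LC

open Finset

variable {ι κ : Type} [DecidableEq ι] [DecidableEq κ] {W : Type} [AddCommGroup W] [Module ℚ W]
variable {a : ι → W} {P : κ → Finset ι} {L : κ → W →ₗ[ℚ] ℚ} {U : Submodule ℚ W}
  {F : Finset ι} {J R : Finset κ} {h : ι → ℚ} {v v' w w' : κ → ι} {ψ φ : W →ₗ[ℚ] ℚ}

/-- A small parameter that is not a zero of finitely many nonzero affine functions. -/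
private theorem avoid {α : Type} (X : Finset α) (p q : α → ℚ) (hX : ∀ i ∈ X, p i ≠ 0 ∨ q i ≠ 0)
    {ε₀ : ℚ} (h0 : 0 < ε₀) : ∃ δ, 0 < δ ∧ δ < ε₀ ∧ ∀ i ∈ X, p i + δ * q i ≠ 0 := by
  classical
  obtain ⟨δ, hδ, hδX⟩ := (Set.Ioo_infinite h0).exists_notMem_finset (X.image fun i => -p i / q i)
  refine ⟨δ, hδ.1, hδ.2, fun i hi h => hδX ?_⟩
  have hq : q i ≠ 0 := by
    intro hq
    rw [hq, mul_zero, add_zero] at h
    rcases hX i hi with h' | h'
    · exact h' h
    · exact h' hq
  refine mem_image.2 ⟨i, hi, ?_⟩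
  rw [div_eq_iff hq]
  linarith

/-- A generic nonnegative vector with support in `Y`. -/
private theorem gen_vec {α : Type} [DecidableEq α] (X : Finset α) (u : α → ι → ℚ) (Y : Finset ι)
    (hX : ∀ i ∈ X, ∃ e ∈ Y, u i e ≠ 0) :
    ∃ η : ι → ℚ, (∀ e, 0 ≤ η e) ∧ (∀ e, e ∉ Y → η e = 0) ∧ ∀ i ∈ X, ∑ e ∈ Y, u i e * η e ≠ 0 := by
  induction X using Finset.induction_on with
  | empty => exact ⟨fun _ => 0, fun _ => le_rfl, fun _ _ => rfl, fun i hi => absurd hi (notMem_empty i)⟩
  | insert x X hx ih =>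
    obtain ⟨η, hη, hηY, hηX⟩ := ih fun i hi => hX i (mem_insert_of_mem hi)
    obtain ⟨e, he, hue⟩ := hX x (mem_insert_self x X)
    obtain ⟨δ, hδ, -, hδX⟩ := avoid (insert x X) (fun i => ∑ e ∈ Y, u i e * η e) (fun i => u i e)
      (by
        intro i hi
        rcases mem_insert.1 hi with rfl | hi
        · exact Or.inr hue
        · exact Or.inl (hηX i hi)) one_pos
    refine ⟨fun e' => η e' + if e' = e then δ else 0, fun e' => ?_, fun e' he' => ?_,
      fun i hi => ?_⟩
    · have := hη e'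
      simp only
      split_ifs
      · linarith
      · linarith
    · simp only
      rw [hηY e' he', if_neg (fun h : e' = e => he' (h ▸ he)), add_zero]
    · have h1 : ∑ e' ∈ Y, u i e' * (η e' + if e' = e then δ else 0)
          = ∑ e' ∈ Y, u i e' * η e' + δ * u i e := by
        simp only [mul_add, sum_add_distrib, mul_ite, mul_zero, sum_ite_eq', if_pos he]
        ring
      rw [h1]
      exact hδX i hi

/-- A positive number smaller than finitely many positive numbers. -/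
private theorem small {α : Type} [DecidableEq α] (X : Finset α) (p : α → ℚ) (hX : ∀ i ∈ X, 0 < p i) :
    ∃ δ, 0 < δ ∧ ∀ i ∈ X, δ ≤ p i := by
  induction X using Finset.induction_on with
  | empty => exact ⟨1, one_pos, fun i hi => absurd hi (notMem_empty i)⟩
  | insert x X hx ih =>
    obtain ⟨δ, hδ, hδX⟩ := ih fun i hi => hX i (mem_insert_of_mem hi)
    refine ⟨min δ (p x), lt_min hδ (hX x (mem_insert_self x X)), fun i hi => ?_⟩
    rcases mem_insert.1 hi with rfl | hi
    · exact min_le_right _ _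
    · exact (min_le_left _ _).trans (hδX i hi)

/-- Dependent sets in the blocks are not contained in the pairs. -/
private theorem not_pair (hB : Blk a P L U F J) (hv : Vd a P U F J h v v' ψ) (X : Finset ι)
    (s : ι → ℚ) (hs : ∑ e ∈ X, s e • a e ∈ U)
    (hp : ∀ e ∈ X, e ∉ J.image v ∪ J.image v' → s e = 0) : ∀ e ∈ X, s e = 0 := by
  have hne : ∀ j ∈ J, v j ≠ v' j := by
    intro j hj h1
    have h2 := hv.ind (fun i => if i = j then 1 else 0) (fun i => if i = j then -1 else 0) (by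
      rw [sum_eq_zero]
      · exact U.zero_mem
      · intro i hi
        by_cases hij : i = j
        · subst hij
          simp [h1]
        · simp [hij]) j hj
    simp at h2
  have hL1 : ∀ j ∈ J, L j (a (v j)) = 1 := fun j hj => hB.L1 j hj _ (hv.mem j hj).1
  have hL1' : ∀ j ∈ J, L j (a (v' j)) = 1 := fun j hj => hB.L1 j hj _ (hv.mem j hj).2
  have hL0 : ∀ i ∈ J, ∀ j ∈ J, i ≠ j → L i (a (v j)) = 0 := fun i hi j hj hij =>
    hB.L0 i hi j hj hij _ (hv.mem j hj).1
  have hL0' : ∀ i ∈ J, ∀ j ∈ J, i ≠ j → L i (a (v' j)) = 0 := fun i hi j hj hij =>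
    hB.L0 i hi j hj hij _ (hv.mem j hj).2
  have hinj : Set.InjOn v J := by
    intro i hi j hj hij
    by_contra hcon
    have h1 := hL1 i hi
    rw [hij, hL0 i hi j hj hcon] at h1
    exact zero_ne_one h1
  have hinj' : Set.InjOn v' J := by
    intro i hi j hj hij
    by_contra hcon
    have h1 := hL1' i hi
    rw [hij, hL0' i hi j hj hcon] at h1
    exact zero_ne_one h1
  have hdis : Disjoint (J.image v) (J.image v') := by
    rw [disjoint_left]
    intro e he he'
    obtain ⟨i, hi, rfl⟩ := mem_image.1 he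
    obtain ⟨j, hj, hij⟩ := mem_image.1 he'
    by_cases h1 : i = j
    · subst h1
      exact hne i hi hij.symm
    · have h2 := hL1 i hi
      rw [← hij, hL0' i hi j hj h1] at h2
      exact zero_ne_one h2
  set st : ι → ℚ := fun e => if e ∈ X then s e else 0 with hst
  have h1 : ∑ e ∈ X, s e • a e = ∑ e ∈ J.image v ∪ J.image v', st e • a e := by
    have h2 : ∑ e ∈ X, s e • a e = ∑ e ∈ X ∩ (J.image v ∪ J.image v'), s e • a e := by
      refine (sum_subset inter_subset_left fun e he he' => ?_).symm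
      rw [hp e he fun h => he' (mem_inter.2 ⟨he, h⟩), zero_smul]
    have h3 : ∑ e ∈ J.image v ∪ J.image v', st e • a e
        = ∑ e ∈ X ∩ (J.image v ∪ J.image v'), st e • a e := by
      refine (sum_subset inter_subset_right fun e he he' => ?_).symm
      have : e ∉ X := fun h => he' (mem_inter.2 ⟨h, he⟩)
      rw [hst]
      simp only [if_neg this, zero_smul]
    rw [h2, h3]
    refine sum_congr rfl fun e he => ?_
    rw [hst]
    simp only [if_pos (mem_inter.1 he).1]
  rw [h1, sum_union hdis, sum_image hinj, sum_image hinj', ← sum_add_distrib] at hs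
  have h4 := hv.ind (fun j => st (v j)) (fun j => st (v' j)) hs
  intro e he
  by_cases h5 : e ∈ J.image v ∪ J.image v'
  · have h6 : st e = s e := if_pos he
    rw [← h6]
    rcases mem_union.1 h5 with h7 | h7
    · obtain ⟨j, hj, rfl⟩ := mem_image.1 h7
      exact (h4 j hj).1
    · obtain ⟨j, hj, rfl⟩ := mem_image.1 h7
      exact (h4 j hj).2
  · exact hp e he h5

/-- LC-17. Generic perturbation.

Proof. For every `X ⊆ J.biUnion P` such that `(a e)_{e ∈ X}` is dependent modulo `U` choose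
`s_X : ι → ℚ`, zero outside `X`, not zero, with `∑ s_X e • a e ∈ U`; it is not zero at some `e`
outside the pairs `v j, v' j` (`hv.ind`).  Number the elements of `J.biUnion P` that are not in a
pair by `i`, put `η e = τ ^ (i e)` for these and `η e = 0` otherwise; for all but finitely many
`τ > 0` all `∑ s_X e * η e` are not zero (nonzero polynomials in `τ`).  For all but finitely many
`ε` all `∑ s_X e * (h e + ε * η e)` are not zero; this gives `Gen` (if all gaps on `X` are zero for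
`ψ'` that vanishes on `U`, then `∑ s_X e * (h e + ε * η e) = - ψ' (∑ s_X e • a e) = 0`).  `hv` stays
valid as `0 ≤ ε * η e`, with equality on the pairs.  The last part: `feas_closed` for all
`Z ⊆ F ∪ J.biUnion P` (with `T = F ∪ J.biUnion P`), `ε` smaller than all the `ε₀`. -/
theorem exists_gen (hB : Blk a P L U F J) (hv : Vd a P U F J h v v' ψ) :
    ∃ h' : ι → ℚ, Gen a P U J h' ∧ Vd a P U F J h' v v' ψ ∧
      ∀ (φ' : W →ₗ[ℚ] ℚ), (∀ u ∈ U, φ' u = 0) → (∀ e ∈ F ∪ J.biUnion P, 0 ≤ φ' (a e) + h' e) →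
        ∃ φ : W →ₗ[ℚ] ℚ, (∀ u ∈ U, φ u = 0) ∧ (∀ e ∈ F ∪ J.biUnion P, 0 ≤ φ (a e) + h e) ∧
          ∀ e ∈ F ∪ J.biUnion P, φ' (a e) + h' e = 0 → φ (a e) + h e = 0 := by
  classical
  set E := J.biUnion P with hE
  set Pr := J.image v ∪ J.image v' with hPr
  -- dependent subsets of the blocks
  let D : Finset ι → Prop := fun X => ∃ s : ι → ℚ, ∑ e ∈ X, s e • a e ∈ U ∧ ∃ e ∈ X, s e ≠ 0
  choose! sX hsU hs0 using (fun X (hX : D X) => hX :
    ∀ X, D X → ∃ s : ι → ℚ, ∑ e ∈ X, s e • a e ∈ U ∧ ∃ e ∈ X, s e ≠ 0)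
  set DD := E.powerset.filter fun X => D X with hDD
  obtain ⟨η, hη, hηY, hηX⟩ := gen_vec DD (fun X e => if e ∈ X then sX X e else 0) (E \ Pr) (by
    intro X hX
    obtain ⟨hXE, hXD⟩ := mem_filter.1 hX
    by_contra hcon
    push Not at hcon
    obtain ⟨e, he, hse⟩ := hs0 X hXD
    refine hse (not_pair hB hv X (sX X) (hsU X hXD) (fun e' he' hep => ?_) e he)
    have h1 := hcon e' (mem_sdiff.2 ⟨mem_powerset.1 hXE he', hep⟩)
    simpa [he'] using h1)
  have hηX' : ∀ X ∈ DD, ∑ e ∈ X, sX X e * η e ≠ 0 := by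
    intro X hX
    have h1 := hηX X hX
    have hXE := mem_powerset.1 (mem_filter.1 hX).1
    have h2 : ∑ e ∈ E \ Pr, (if e ∈ X then sX X e else 0) * η e = ∑ e ∈ X, sX X e * η e := by
      have h3 : ∑ e ∈ E \ Pr, (if e ∈ X then sX X e else 0) * η e
          = ∑ e ∈ (E \ Pr) ∩ X, sX X e * η e := by
        rw [← sum_filter_add_sum_filter_not (E \ Pr) (fun e => e ∈ X)]
        rw [show ∑ e ∈ (E \ Pr).filter (fun e => ¬ e ∈ X), (if e ∈ X then sX X e else 0) * η e = 0
          from sum_eq_zero fun e he => by rw [if_neg (mem_filter.1 he).2, zero_mul], add_zero,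
          filter_mem_eq_inter]
        refine sum_congr rfl fun e he => ?_
        rw [if_pos (mem_inter.1 he).2]
      rw [h3]
      refine sum_subset inter_subset_right fun e he he' => ?_
      rw [hηY e fun h => he' (mem_inter.2 ⟨h, he⟩), mul_zero]
    rwa [h2] at h1
  -- feasibility
  set T := F ∪ E with hT
  let I : Finset ι → Prop := fun Z => ¬ ∃ u : W →ₗ[ℚ] ℚ, (∀ q ∈ U, u q = 0) ∧
    (∀ e ∈ T, 0 ≤ u (a e) + h e) ∧ ∀ e ∈ Z, u (a e) + h e = 0
  choose! ε₁ hε₁ hε₁' using (fun Z (hZ : I Z) => feas_closed U T Z a h η hZ :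
    ∀ Z, I Z → ∃ ε₀ : ℚ, 0 < ε₀ ∧ ∀ ε : ℚ, 0 ≤ ε → ε < ε₀ →
      ¬ ∃ u : W →ₗ[ℚ] ℚ, (∀ q ∈ U, u q = 0) ∧ (∀ e ∈ T, 0 ≤ u (a e) + (h e + ε * η e)) ∧
        ∀ e ∈ Z, u (a e) + (h e + ε * η e) = 0)
  obtain ⟨ε₀, hε₀, hε₀'⟩ := small (T.powerset.filter fun Z => I Z) ε₁ fun Z hZ =>
    hε₁ Z (mem_filter.1 hZ).2
  obtain ⟨ε, hε, hεε, hεX⟩ := avoid DD (fun X => ∑ e ∈ X, sX X e * h e)
    (fun X => ∑ e ∈ X, sX X e * η e) (fun X hX => Or.inr (hηX' X hX)) hε₀
  refine ⟨fun e => h e + ε * η e, ?_, ?_, ?_⟩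
  · intro ψ' hψ' X s hX hsX
    by_contra hcon
    push Not at hcon
    have hD : D X := ⟨s, hsX, hcon⟩
    have hXE : X ⊆ E := fun e he => by
      obtain ⟨⟨j, hj, hej⟩, -⟩ := hX e he
      exact mem_biUnion.2 ⟨j, hj, hej⟩
    have hXD : X ∈ DD := mem_filter.2 ⟨mem_powerset.2 hXE, hD⟩
    apply hεX X hXD
    have h1 : ψ' (∑ e ∈ X, sX X e • a e) = 0 := hψ' _ (hsU X hD)
    rw [map_sum] at h1
    have h2 : ∑ e ∈ X, sX X e * (h e + ε * η e) = - ∑ e ∈ X, ψ' (sX X e • a e) := by
      rw [← sum_neg_distrib]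
      refine sum_congr rfl fun e he => ?_
      have h3 := (hX e he).2
      simp only at h3
      rw [map_smul, smul_eq_mul]
      linear_combination sX X e * h3
    rw [h1, neg_zero] at h2
    rw [← h2, mul_sum, ← sum_add_distrib]
    refine sum_congr rfl fun e _ => ?_
    ring
  · have hPr0 : ∀ e ∈ Pr, η e = 0 := fun e he => hηY e fun h => (mem_sdiff.1 h).2 he
    refine ⟨hv.mem, hv.ind, hv.U0, fun e he => ?_, fun j hj e he => ?_, fun j hj => ?_⟩
    · have h1 := hv.pF e he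
      have h2 := mul_nonneg hε.le (hη e)
      linarith
    · have h1 := hv.pP j hj e he
      have h2 := mul_nonneg hε.le (hη e)
      linarith
    · have h1 := hPr0 (v j) (mem_union_left _ (mem_image_of_mem v hj))
      have h2 := hPr0 (v' j) (mem_union_right _ (mem_image_of_mem v' hj))
      simp only [h1, h2, mul_zero, add_zero]
      exact hv.tie j hj
  · intro φ' hφU hφT
    by_contra hcon
    set Z := T.filter fun e => φ' (a e) + (h e + ε * η e) = 0 with hZ
    have hI : I Z := by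
      rintro ⟨φ, h1, h2, h3⟩
      exact hcon ⟨φ, h1, h2, fun e he he' => h3 e (mem_filter.2 ⟨he, he'⟩)⟩
    have hZm : Z ∈ T.powerset.filter fun Z => I Z :=
      mem_filter.2 ⟨mem_powerset.2 (filter_subset _ _), hI⟩
    exact hε₁' Z hI ε hε.le (lt_of_lt_of_le hεε (hε₀' Z hZm))
      ⟨φ', hφU, hφT, fun e he => (mem_filter.1 he).2⟩

end MPb07157.LC
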