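import Pool.Agent.Lib.MP_b07157_ag.LC.G2a
import Pool.Agent.Lib.MP_b07157_ag.LC.G1
import Pool.Agent.Lib.MP_b07157_ag.LC.G3c

section

/-!
# Blocks: exchanges at optimal tied pairs
-/

namespace MPb07157.LC

open Finset

variable {ι κ : Type} [DecidableEq ι] [DecidableEq κ] {W : Type} [AddCommGroup W] [Module ℚ W]
variable {a : ι → W} {P : κ → Finset ι} {L : κ → W →ₗ[ℚ] ℚ} {U : Submodule ℚ W}
  {F : Finset ι} {J R : Finset κ} {h : ι → ℚ} {v v' w w' : κ → ι} {ψ φ : W →ₗ[ℚ] ℚ}

/-- existence of a combination of ties -/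
private theorem g2_exists (hB : Blk a P L U F J) (hN : NT a P U F J h) {x : ι → ℚ}
    (hv : Vd a P U F J h w w' ψ)
    (hopt : ∀ w w' φ, Vd a P U F J h w w' φ →
      ψ (∑ e ∈ F, x e • a e) ≤ φ (∑ e ∈ F, x e • a e)) :
    ∃ t : ι → ℚ, (∀ e, (∀ j ∈ J, e ≠ w j ∧ e ≠ w' j) → 0 ≤ t e) ∧
      ∑ e ∈ F, x e • a e - ∑ e ∈ (J.biUnion P).filter (fun e => ψ (a e) + h e = 0), t e • a e ∈ U := by
  obtain ⟨s, hs0, hs1, hs2⟩ := opt_farkas hv hopt
  set X := (J.biUnion P).filter (fun e => ψ (a e) + h e = 0) with hX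
  have hdis : Disjoint F (J.biUnion P) := by
    rw [Finset.disjoint_left]
    intro e he he'
    obtain ⟨j, hj, hej⟩ := Finset.mem_biUnion.1 he'
    exact hB.disjF hj hej he
  have hsumB : ∑ e ∈ J.biUnion P, s e • a e = ∑ e ∈ X, s e • a e := by
    rw [hX, Finset.sum_filter]
    refine Finset.sum_congr rfl fun e _ => ?_
    by_cases hse : s e = 0
    · simp [hse]
    · rw [if_pos (hs1 e hse).2]
  have hsumF : ∑ e ∈ F, s e • a e ∈ U ⊔ prs a w w' J := by
    refine Submodule.sum_mem _ fun e he => ?_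
    by_cases hse : s e = 0
    · simp [hse]
    · exact Submodule.smul_mem _ _ (hN w w' ψ hv e he (hs1 e hse).2)
  have h1 : ∑ e ∈ F, x e • a e - ∑ e ∈ X, s e • a e ∈ U ⊔ prs a w w' J := by
    have h2 := Submodule.add_mem _ hs2 hsumF
    rw [Finset.sum_union hdis, hsumB] at h2
    have h3 : ∑ e ∈ F, x e • a e - (∑ e ∈ F, s e • a e + ∑ e ∈ X, s e • a e) + ∑ e ∈ F, s e • a e
        = ∑ e ∈ F, x e • a e - ∑ e ∈ X, s e • a e := by abel
    rwa [h3] at h2
  obtain ⟨y, hy, z, hz, hyz⟩ := Submodule.mem_sup.1 h1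
  obtain ⟨μ, μ', rfl⟩ := mem_prs.1 hz
  have hwX : ∀ j ∈ J, w j ∈ X ∧ w' j ∈ X := by
    intro j hj
    rw [hX]
    exact ⟨Finset.mem_filter.2 ⟨Finset.mem_biUnion.2 ⟨j, hj, (hv.mem j hj).1⟩, (hv.tie j hj).1⟩,
      Finset.mem_filter.2 ⟨Finset.mem_biUnion.2 ⟨j, hj, (hv.mem j hj).2⟩, (hv.tie j hj).2⟩⟩
  refine ⟨fun e => s e + ∑ j ∈ J, ((if w j = e then μ j else 0) + (if w' j = e then μ' j else 0)),
    ?_, ?_⟩
  · intro e he
    have h4 : ∑ j ∈ J, ((if w j = e then μ j else 0) + (if w' j = e then μ' j else 0)) = 0 := by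
      refine Finset.sum_eq_zero fun j hj => ?_
      rw [if_neg (fun hh => (he j hj).1 hh.symm), if_neg (fun hh => (he j hj).2 hh.symm), add_zero]
    simp only [h4, add_zero]
    exact hs0 e
  · have h5 : ∑ e ∈ X, (s e + ∑ j ∈ J, ((if w j = e then μ j else 0) +
        (if w' j = e then μ' j else 0))) • a e =
        ∑ e ∈ X, s e • a e + ∑ j ∈ J, (μ j • a (w j) + μ' j • a (w' j)) := by
      have h6 : ∀ (u : κ → ι) (ν : κ → ℚ), (∀ j ∈ J, u j ∈ X) →
          ∑ e ∈ X, ∑ j ∈ J, (if u j = e then ν j else 0) • a e = ∑ j ∈ J, ν j • a (u j) := by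
        intro u ν hu
        rw [Finset.sum_comm]
        refine Finset.sum_congr rfl fun j hj => ?_
        simp only [ite_smul, zero_smul, Finset.sum_ite_eq, hu j hj, if_true]
      simp only [add_smul, Finset.sum_add_distrib, Finset.sum_smul]
      rw [h6 w μ fun j hj => (hwX j hj).1, h6 w' μ' fun j hj => (hwX j hj).2]
    rw [h5]
    have h7 : ∑ e ∈ F, x e • a e - (∑ e ∈ X, s e • a e +
        ∑ j ∈ J, (μ j • a (w j) + μ' j • a (w' j))) = y := by
      rw [← sub_sub, ← hyz]
      abel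
    rw [h7]
    exact hy

/-- LC-14. At an optimum, `x_F` is a combination of the differences of the pairs modulo `U`, and the
coefficient of a block with a third tie is zero.

Proof. Let `X = (J.biUnion P).filter (gap zero)`; `(a e)_{e ∈ X}` is independent modulo `U`
(`hG ψ hv.U0`).  By `opt_farkas` and `hN` (ties in `F` are in `U ⊔ prs`), `x_F ≡ ∑_{e ∈ X} s e • a e`
modulo `U` with `0 ≤ s e` for `e` not in a pair; `s` is unique by independence.  If block `l` has a
third tie `e`, the exchanged pairs (`Vd.exch`) are optimal as well (same `ψ`), so by uniqueness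
`0 ≤ s (v l)` and `0 ≤ s (v' l)`, hence `0 ≤ s` on the whole block.  Always `L l x_F = 0`, so
`∑_{e ∈ X ∩ P l} s e = 0`.  So for a block with a third tie all `s e = 0`, and for the others
`s (v' l) = - s (v l)`; `β l = s (v l)`. -/
theorem opt_exch (hB : Blk a P L U F J) (hG : Gen a P U J h) (hN : NT a P U F J h) {x : ι → ℚ}
    (hv : Vd a P U F J h v v' ψ)
    (hopt : ∀ w w' φ, Vd a P U F J h w w' φ →
      ψ (∑ e ∈ F, x e • a e) ≤ φ (∑ e ∈ F, x e • a e)) :
    ∃ β : κ → ℚ, ∑ e ∈ F, x e • a e - ∑ j ∈ J, β j • (a (v j) - a (v' j)) ∈ U ∧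
      ∀ j ∈ J, (∃ e ∈ P j, e ≠ v j ∧ e ≠ v' j ∧ ψ (a e) + h e = 0) → β j = 0 := by
  obtain ⟨t, ht0, ht1⟩ := g2_exists hB hN hv hopt
  set X := (J.biUnion P).filter (fun e => ψ (a e) + h e = 0) with hX
  have hXm : ∀ e ∈ X, (∃ j ∈ J, e ∈ P j) ∧ ψ (a e) + h e = 0 := by
    intro e he
    obtain ⟨he1, he2⟩ := Finset.mem_filter.1 he
    exact ⟨Finset.mem_biUnion.1 he1, he2⟩
  -- uniqueness
  have huniq : ∀ t' : ι → ℚ, ∑ e ∈ F, x e • a e - ∑ e ∈ X, t' e • a e ∈ U →
      ∀ e ∈ X, t' e = t e := by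
    intro t' ht' e he
    have h1 : ∑ e ∈ X, (t' e - t e) • a e ∈ U := by
      have h2 := Submodule.sub_mem _ ht1 ht'
      have h3 : (∑ e ∈ F, x e • a e - ∑ e ∈ X, t e • a e) -
          (∑ e ∈ F, x e • a e - ∑ e ∈ X, t' e • a e) = ∑ e ∈ X, (t' e - t e) • a e := by
        simp only [sub_smul, Finset.sum_sub_distrib]
        abel
      rwa [h3] at h2
    have := hG ψ hv.U0 X (fun e => t' e - t e) hXm h1 e he
    linarith
  have hvX : ∀ j ∈ J, v j ∈ X ∧ v' j ∈ X := by
    intro j hj
    rw [hX]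
    exact ⟨Finset.mem_filter.2 ⟨Finset.mem_biUnion.2 ⟨j, hj, (hv.mem j hj).1⟩, (hv.tie j hj).1⟩,
      Finset.mem_filter.2 ⟨Finset.mem_biUnion.2 ⟨j, hj, (hv.mem j hj).2⟩, (hv.tie j hj).2⟩⟩
  have hne : ∀ j ∈ J, v j ≠ v' j := by
    intro l hl heq
    have h1 := hv.ind (fun j => if j = l then 1 else 0) (fun j => if j = l then -1 else 0) (by
      have h2 : ∑ j ∈ J, ((if j = l then (1 : ℚ) else 0) • a (v j) +
          (if j = l then (-1 : ℚ) else 0) • a (v' j)) = 0 := by
        refine Finset.sum_eq_zero fun j _ => ?_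
        by_cases hjl : j = l
        · subst hjl
          simp [heq]
        · simp [hjl]
      rw [h2]
      exact Submodule.zero_mem _) l hl
    simp at h1
  -- the sums over the blocks
  have hblk : ∀ l ∈ J, ∑ e ∈ (P l).filter (fun e => ψ (a e) + h e = 0), t e = 0 := by
    intro l hl
    have h1 : L l (∑ e ∈ F, x e • a e - ∑ e ∈ X, t e • a e) = 0 := hB.LU l hl _ ht1
    rw [map_sub, map_sum, map_sum] at h1
    have h2 : ∑ e ∈ F, L l (x e • a e) = 0 := by
      refine Finset.sum_eq_zero fun e he => ?_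
      rw [map_smul, hB.LF l hl e he, smul_zero]
    have h3 : ∑ e ∈ X, L l (t e • a e) =
        ∑ e ∈ (P l).filter (fun e => ψ (a e) + h e = 0), t e := by
      have hsub : (P l).filter (fun e => ψ (a e) + h e = 0) ⊆ X := by
        intro e he
        obtain ⟨he1, he2⟩ := Finset.mem_filter.1 he
        exact Finset.mem_filter.2 ⟨Finset.mem_biUnion.2 ⟨l, hl, he1⟩, he2⟩
      rw [← Finset.sum_subset hsub]
      · refine Finset.sum_congr rfl fun e he => ?_
        rw [map_smul, hB.L1 l hl e (Finset.mem_filter.1 he).1, smul_eq_mul, mul_one]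
      · intro e he hne'
        obtain ⟨⟨j, hj, hej⟩, h0⟩ := hXm e he
        have hjl : l ≠ j := by
          rintro rfl
          exact hne' (Finset.mem_filter.2 ⟨hej, h0⟩)
        rw [map_smul, hB.L0 l hl j hj hjl e hej, smul_zero]
    rw [h2, h3] at h1
    linarith
  -- blocks with a third tie
  have hthird : ∀ l ∈ J, (∃ e ∈ P l, e ≠ v l ∧ e ≠ v' l ∧ ψ (a e) + h e = 0) →
      ∀ e ∈ (P l).filter (fun e => ψ (a e) + h e = 0), t e = 0 := by
    rintro l hl ⟨e0, he0, hn1, hn2, h0⟩
    obtain ⟨E1, E2⟩ := hv.exch hB hG hl he0 hn1 hn2 h0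
    have hpos1 : 0 ≤ t (v l) := by
      obtain ⟨t', ht'0, ht'1⟩ := g2_exists hB hN E1 hopt
      rw [← huniq t' ht'1 (v l) (hvX l hl).1]
      refine ht'0 _ fun j hj => ?_
      constructor
      · by_cases hjl : j = l
        · subst hjl
          rw [Function.update_self]
          exact Ne.symm hn1
        · rw [Function.update_of_ne hjl]
          intro heq
          exact hjl (hB.disj hj hl (heq ▸ (hv.mem j hj).1) (hv.mem l hl).1)
      · by_cases hjl : j = l
        · subst hjl
          exact hne j hj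
        · intro heq
          exact hjl (hB.disj hj hl (heq ▸ (hv.mem j hj).2) (hv.mem l hl).1)
    have hpos2 : 0 ≤ t (v' l) := by
      obtain ⟨t', ht'0, ht'1⟩ := g2_exists hB hN E2 hopt
      rw [← huniq t' ht'1 (v' l) (hvX l hl).2]
      refine ht'0 _ fun j hj => ?_
      constructor
      · by_cases hjl : j = l
        · subst hjl
          exact Ne.symm (hne j hj)
        · intro heq
          exact hjl (hB.disj hj hl (heq ▸ (hv.mem j hj).1) (hv.mem l hl).2)
      · by_cases hjl : j = l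
        · subst hjl
          rw [Function.update_self]
          exact Ne.symm hn2
        · rw [Function.update_of_ne hjl]
          intro heq
          exact hjl (hB.disj hj hl (heq ▸ (hv.mem j hj).2) (hv.mem l hl).2)
    have hpos : ∀ e ∈ (P l).filter (fun e => ψ (a e) + h e = 0), 0 ≤ t e := by
      intro e he
      by_cases h1 : e = v l
      · rw [h1]; exact hpos1
      by_cases h2 : e = v' l
      · rw [h2]; exact hpos2
      refine ht0 e fun j hj => ?_
      by_cases hjl : j = l
      · subst hjl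
        exact ⟨h1, h2⟩
      · exact ⟨fun heq => hjl (hB.disj hj hl (heq ▸ (hv.mem j hj).1) (Finset.mem_filter.1 he).1),
          fun heq => hjl (hB.disj hj hl (heq ▸ (hv.mem j hj).2) (Finset.mem_filter.1 he).1)⟩
    exact (Finset.sum_eq_zero_iff_of_nonneg hpos).1 (hblk l hl)
  refine ⟨fun j => t (v j), ?_, ?_⟩
  · have hXU : X = J.biUnion fun j => (P j).filter (fun e => ψ (a e) + h e = 0) := by
      rw [hX, Finset.filter_biUnion]
    have hpd : (J : Set κ).PairwiseDisjoint
        fun j => (P j).filter (fun e => ψ (a e) + h e = 0) := by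
      intro i hi j hj hij
      rw [Function.onFun, Finset.disjoint_left]
      intro e he he'
      exact hij (hB.disj hi hj (Finset.mem_filter.1 he).1 (Finset.mem_filter.1 he').1)
    have hs : ∑ e ∈ X, t e • a e = ∑ j ∈ J, t (v j) • (a (v j) - a (v' j)) := by
      rw [hXU, Finset.sum_biUnion hpd]
      refine Finset.sum_congr rfl fun l hl => ?_
      by_cases h3 : ∃ e ∈ P l, e ≠ v l ∧ e ≠ v' l ∧ ψ (a e) + h e = 0
      · rw [Finset.sum_eq_zero fun e he => by rw [hthird l hl h3 e he, zero_smul],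
          hthird l hl h3 (v l) (Finset.mem_filter.2 ⟨(hv.mem l hl).1, (hv.tie l hl).1⟩), zero_smul]
      · have hpair : (P l).filter (fun e => ψ (a e) + h e = 0) = {v l, v' l} := by
          ext e
          simp only [Finset.mem_filter, Finset.mem_insert, Finset.mem_singleton]
          constructor
          · rintro ⟨he1, he2⟩
            by_contra hcon
            push Not at hcon
            exact h3 ⟨e, he1, hcon.1, hcon.2, he2⟩
          · rintro (rfl | rfl)
            · exact ⟨(hv.mem l hl).1, (hv.tie l hl).1⟩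
            · exact ⟨(hv.mem l hl).2, (hv.tie l hl).2⟩
        have hb := hblk l hl
        rw [hpair, Finset.sum_pair (hne l hl)] at hb
        rw [hpair, Finset.sum_pair (hne l hl)]
        have hb' : t (v' l) = -t (v l) := by linarith
        rw [hb', smul_sub, neg_smul, sub_eq_add_neg]
    rw [← hs]
    exact ht1
  · intro j hj h3
    exact hthird j hj h3 (v j) (Finset.mem_filter.2 ⟨(hv.mem j hj).1, (hv.tie j hj).1⟩)

end MPb07157.LC
end

section

/-!
# Blocks: one step of the main lemma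
-/

namespace MPb07157.LC

open Finset

variable {ι κ : Type} [DecidableEq ι] [DecidableEq κ] {W : Type} [AddCommGroup W] [Module ℚ W]
variable {a : ι → W} {P : κ → Finset ι} {L : κ → W →ₗ[ℚ] ℚ} {U : Submodule ℚ W}
  {F : Finset ι} {J R : Finset κ} {h : ι → ℚ} {v v' w w' : κ → ι} {ψ φ : W →ₗ[ℚ] ℚ}

/-- LC-15. One step for generic heights.

Proof. If all `a e` (`e ∈ F`) are in `U`, the first case.  Otherwise there are `x e > 0` with
`x_F = ∑_F x e • a e ∉ U` (take `x = 1`, or `x = 1` except `x e₀ = 2` with `a e₀ ∉ U`).  Let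
`(w, w', φ)` be optimal (`exists_opt`), `β` from `opt_exch`, `R = {j ∈ J | β j ≠ 0}`, not empty as
`x_F ∉ U`.  NT after freezing: let `(w₁, w₁', φ₁)` be valid for the frozen problem and
`e ∈ F ∪ R.biUnion P` with gap zero.  The unfrozen pairs (`Vd.unfreeze`) with `φ + φ₁` are optimal
(`φ₁` vanishes on `U` and on the pairs in `R`, hence on `x_F`).  If `e ∈ F`, use `hN`.  If
`e ∈ P l`, `l ∈ R`, and `e` is not in the pair, then `opt_exch` at the new optimum gives `β' l = 0`,
but `β' l = β l` (both represent `x_F` modulo `U`, `β` is supported on `R` where the pairs agree, and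
the new pairs are independent modulo `U`), contradiction; if `e` is in the pair, `a e ∈ prs`. -/
theorem gl_step (hB : Blk a P L U F J) (hG : Gen a P U J h) (hN : NT a P U F J h)
    (hv : Vd a P U F J h v v' ψ) :
    (∀ e ∈ F, a e ∈ U) ∨ ∃ w w' φ, Vd a P U F J h w w' φ ∧ ∃ R ⊆ J, R.Nonempty ∧
      NT a P (U ⊔ prs a w w' R) (F ∪ R.biUnion P) (J \ R) (fun e => φ (a e) + h e) := by
  by_cases hall : ∀ e ∈ F, a e ∈ U
  · exact Or.inl hall
  right
  push Not at hall
  obtain ⟨e₀, he₀, hne₀⟩ := hall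
  -- the weights
  obtain ⟨x, hx, hxF⟩ : ∃ x : ι → ℚ, (∀ e ∈ F, 0 ≤ x e) ∧ ∑ e ∈ F, x e • a e ∉ U := by
    by_cases h1 : ∑ e ∈ F, a e ∈ U
    · refine ⟨fun e => 1 + if e = e₀ then 1 else 0, fun e _ => ?_, fun h2 => hne₀ ?_⟩
      · dsimp only
        split_ifs <;> norm_num
      · have h3 : ∑ e ∈ F, (1 + if e = e₀ then (1 : ℚ) else 0) • a e = ∑ e ∈ F, a e + a e₀ := by
          simp only [add_smul, one_smul, Finset.sum_add_distrib, ite_smul, zero_smul,
            Finset.sum_ite_eq', he₀, if_true]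
        rw [h3] at h2
        exact (Submodule.add_mem_iff_right U h1).1 h2
    · refine ⟨fun _ => 1, fun e _ => zero_le_one, ?_⟩
      simpa only [one_smul] using h1
  obtain ⟨w, w', φ, hw, hopt⟩ := exists_opt hx hv
  obtain ⟨β, hβU, hβ0⟩ := opt_exch hB hG hN hw hopt
  refine ⟨w, w', φ, hw, J.filter (fun j => β j ≠ 0), Finset.filter_subset _ _, ?_, ?_⟩
  · by_contra hemp
    rw [Finset.not_nonempty_iff_eq_empty, Finset.filter_eq_empty_iff] at hemp
    apply hxF
    have h1 : ∑ j ∈ J, β j • (a (w j) - a (w' j)) = 0 := by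
      refine Finset.sum_eq_zero fun j hj => ?_
      have h2 : β j = 0 := by
        by_contra h3
        exact hemp hj h3
      rw [h2, zero_smul]
    rw [h1, sub_zero] at hβU
    exact hβU
  set R : Finset κ := J.filter (fun j => β j ≠ 0) with hR
  have hRJ : R ⊆ J := Finset.filter_subset _ _
  have hβR : ∀ j ∈ J, j ∉ R → β j = 0 := by
    intro j hj hjR
    by_contra h3
    exact hjR (Finset.mem_filter.2 ⟨hj, h3⟩)
  -- `x_F` in the span of `U` and the frozen pairs
  have hxUR : ∑ e ∈ F, x e • a e ∈ U ⊔ prs a w w' R := by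
    have h1 : ∑ j ∈ J, β j • (a (w j) - a (w' j)) ∈ prs a w w' R := by
      refine Submodule.sum_mem _ fun j hj => ?_
      by_cases hjR : j ∈ R
      · refine Submodule.smul_mem _ _ (Submodule.sub_mem _ ?_ ?_)
        · exact Submodule.subset_span ⟨j, hjR, Or.inl rfl⟩
        · exact Submodule.subset_span ⟨j, hjR, Or.inr rfl⟩
      · rw [hβR j hj hjR, zero_smul]
        exact Submodule.zero_mem _
    have h2 := Submodule.add_mem _ (Submodule.mem_sup_left (S := U) (T := prs a w w' R) hβU)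
      (Submodule.mem_sup_right (S := U) (T := prs a w w' R) h1)
    rwa [sub_add_cancel] at h2
  intro w₁ w₁' φ₁ hw₁ e he hgap
  have hw2 := Vd.unfreeze hB hw hRJ hw₁
  have hle : U ⊔ prs a (fun j => if j ∈ R then w j else w₁ j)
      (fun j => if j ∈ R then w' j else w₁' j) J ≤ (U ⊔ prs a w w' R) ⊔ prs a w₁ w₁' (J \ R) := by
    refine sup_le (le_sup_of_le_left le_sup_left) ?_
    unfold prs
    refine Submodule.span_le.2 ?_
    rintro y ⟨j, hj, hy⟩
    by_cases hjR : j ∈ R
    · refine Submodule.mem_sup_left (Submodule.mem_sup_right (Submodule.subset_span ⟨j, hjR, ?_⟩))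
      simpa only [hjR, if_true] using hy
    · refine Submodule.mem_sup_right (Submodule.subset_span ⟨j, Finset.mem_sdiff.2 ⟨hj, hjR⟩, ?_⟩)
      simpa only [hjR, if_false] using hy
  have hgap2 : (φ + φ₁) (a e) + h e = 0 := by
    rw [LinearMap.add_apply]
    linarith
  have hopt2 : ∀ u u' ρ, Vd a P U F J h u u' ρ →
      (φ + φ₁) (∑ e ∈ F, x e • a e) ≤ ρ (∑ e ∈ F, x e • a e) := by
    intro u u' ρ hu
    rw [LinearMap.add_apply, hw₁.U0 _ hxUR, add_zero]
    exact hopt u u' ρ hu
  rcases Finset.mem_union.1 he with heF | heR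
  · exact hle (hN _ _ _ hw2 e heF hgap2)
  · obtain ⟨l, hl, hel⟩ := Finset.mem_biUnion.1 heR
    by_cases h1 : e = w l
    · rw [h1]
      exact Submodule.mem_sup_left (Submodule.mem_sup_right
        (Submodule.subset_span ⟨l, hl, Or.inl rfl⟩))
    by_cases h2 : e = w' l
    · rw [h2]
      exact Submodule.mem_sup_left (Submodule.mem_sup_right
        (Submodule.subset_span ⟨l, hl, Or.inr rfl⟩))
    exfalso
    obtain ⟨β', hβ'U, hβ'0⟩ := opt_exch hB hG hN hw2 hopt2
    have h3 : β' l = 0 := by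
      refine hβ'0 l (hRJ hl) ⟨e, hel, ?_, ?_, hgap2⟩
      · simpa only [hl, if_true] using h1
      · simpa only [hl, if_true] using h2
    have h4 : ∑ j ∈ J, ((β j - β' j) • a (if j ∈ R then w j else w₁ j) +
        (-(β j - β' j)) • a (if j ∈ R then w' j else w₁' j)) ∈ U := by
      have h5 := Submodule.sub_mem _ hβ'U hβU
      have h6 : ∑ e ∈ F, x e • a e - ∑ j ∈ J, β' j • (a (if j ∈ R then w j else w₁ j) -
          a (if j ∈ R then w' j else w₁' j)) -
          (∑ e ∈ F, x e • a e - ∑ j ∈ J, β j • (a (w j) - a (w' j))) =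
          ∑ j ∈ J, ((β j - β' j) • a (if j ∈ R then w j else w₁ j) +
            (-(β j - β' j)) • a (if j ∈ R then w' j else w₁' j)) := by
        rw [sub_sub_sub_cancel_left, ← Finset.sum_sub_distrib]
        refine Finset.sum_congr rfl fun j hj => ?_
        by_cases hjR : j ∈ R
        · simp only [hjR, if_true]
          module
        · rw [hβR j hj hjR]
          simp only [hjR, if_false]
          module
      rw [← h6]
      exact h5
    have h7 := (hw2.ind (fun j => β j - β' j) (fun j => -(β j - β' j)) h4 l (hRJ hl)).1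
    simp only [h3, sub_zero] at h7
    exact (Finset.mem_filter.1 hl).2 h7

end MPb07157.LC
end

section

/-!
# Blocks: the main lemma for generic heights
-/

namespace MPb07157.LC

open Finset

variable {ι κ : Type} [DecidableEq ι] [DecidableEq κ] {W : Type} [AddCommGroup W] [Module ℚ W]
variable {a : ι → W} {P : κ → Finset ι} {L : κ → W →ₗ[ℚ] ℚ} {U : Submodule ℚ W}
  {F : Finset ι} {J R : Finset κ} {h : ι → ℚ} {v v' w w' : κ → ι} {ψ φ : W →ₗ[ℚ] ℚ}

/-- LC-16. The main lemma for generic heights: induction on `J.card`.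

Proof. `gl_step`; in the first case `R = ∅`.  In the second case use the induction hypothesis for
the frozen problem (`Blk.freeze`, `Vd.freeze`, `Gen.freeze`), which gives `(w₁, w₁', φ₁)` and
`R₁ ⊆ J \ R`; the unfrozen pairs (`Vd.unfreeze`) and `R ∪ R₁` work
(`(U ⊔ prs a w w' R) ⊔ prs a w₁ w₁' R₁ ≤ U ⊔ prs (unfrozen) (R ∪ R₁)`). -/
theorem gl_gen (n : ℕ) : ∀ (U : Submodule ℚ W) (F : Finset ι) (J : Finset κ) (h : ι → ℚ)
    (v v' : κ → ι) (ψ : W →ₗ[ℚ] ℚ), J.card = n → Blk a P L U F J → Gen a P U J h →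
    NT a P U F J h → Vd a P U F J h v v' ψ →
    ∃ w w' φ, Vd a P U F J h w w' φ ∧ ∃ R ⊆ J,
      (∀ e ∈ F, a e ∈ U ⊔ prs a w w' R) ∧ ∀ j ∈ R, ∀ e ∈ P j, a e ∈ U ⊔ prs a w w' R := by
  induction n using Nat.strong_induction_on with
  | _ n ih =>
    intro U F J h v v' ψ hn hB hG hN hv
    rcases gl_step hB hG hN hv with h1 | ⟨w, w', φ, hw, R, hR, hRne, hNT⟩
    · refine ⟨v, v', ψ, hv, ∅, Finset.empty_subset _, fun e he => ?_, fun j hj => ?_⟩
      · exact Submodule.mem_sup_left (h1 e he)
      · exact absurd hj (Finset.notMem_empty j)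
    · have hcard : (J \ R).card < n := by
        rw [← hn]
        exact Finset.card_lt_card (Finset.sdiff_ssubset hR hRne)
      obtain ⟨w₁, w₁', φ₁, hw₁, R₁, hR₁, hF₁, hP₁⟩ := ih (J \ R).card hcard
        (U ⊔ prs a w w' R) (F ∪ R.biUnion P) (J \ R) (fun e => φ (a e) + h e) w w' 0 rfl
        (Blk.freeze hB hw hR) (Gen.freeze hG hw hR hB) hNT (Vd.freeze hB hw hR)
      have hle : (U ⊔ prs a w w' R) ⊔ prs a w₁ w₁' R₁ ≤
          U ⊔ prs a (fun j => if j ∈ R then w j else w₁ j)
            (fun j => if j ∈ R then w' j else w₁' j) (R ∪ R₁) := by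
        refine sup_le (sup_le le_sup_left ?_) ?_
        · refine le_trans ?_ le_sup_right
          refine Submodule.span_mono ?_
          rintro x ⟨j, hj, hx⟩
          refine ⟨j, Finset.mem_union_left _ hj, ?_⟩
          simp only [if_pos hj]
          exact hx
        · refine le_trans ?_ le_sup_right
          refine Submodule.span_mono ?_
          rintro x ⟨j, hj, hx⟩
          refine ⟨j, Finset.mem_union_right _ hj, ?_⟩
          have hjR : j ∉ R := (Finset.mem_sdiff.mp (hR₁ hj)).2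
          simp only [if_neg hjR]
          exact hx
      refine ⟨fun j => if j ∈ R then w j else w₁ j, fun j => if j ∈ R then w' j else w₁' j,
        φ + φ₁, Vd.unfreeze hB hw hR hw₁, R ∪ R₁, ?_, fun e he => ?_, fun j hj e he => ?_⟩
      · exact Finset.union_subset hR (hR₁.trans Finset.sdiff_subset)
      · exact hle (hF₁ e (Finset.mem_union_left _ he))
      · rcases Finset.mem_union.mp hj with hj | hj
        · exact hle (hF₁ e (Finset.mem_union_right _ (Finset.mem_biUnion.mpr ⟨j, hj, he⟩)))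
        · exact hle (hP₁ j hj e he)

end MPb07157.LC
end

section

/-!
# Blocks: the main lemma
-/

namespace MPb07157.LC

open Finset

variable {ι κ : Type} [DecidableEq ι] [DecidableEq κ] {W : Type} [AddCommGroup W] [Module ℚ W]
variable {a : ι → W} {P : κ → Finset ι} {L : κ → W →ₗ[ℚ] ℚ} {U : Submodule ℚ W}
  {F : Finset ι} {J R : Finset κ} {h : ι → ℚ} {v v' w w' : κ → ι} {ψ φ : W →ₗ[ℚ] ℚ}

/-- LC-18. **The main lemma.**  `exists_gen` and `gl_gen`. -/
theorem gl (hB : Blk a P L U F J) (hN : NT a P U F J h) (hv : Vd a P U F J h v v' ψ) :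
    ∃ w w' φ, Vd a P U F J h w w' φ ∧ ∃ R ⊆ J,
      (∀ e ∈ F, a e ∈ U ⊔ prs a w w' R) ∧ ∀ j ∈ R, ∀ e ∈ P j, a e ∈ U ⊔ prs a w w' R := by
  obtain ⟨h', hG, hv', hcl⟩ := exists_gen hB hv
  have hP : ∀ j ∈ J, ∀ e ∈ P j, e ∈ F ∪ J.biUnion P := fun j hj e he =>
    Finset.mem_union_right _ (Finset.mem_biUnion.mpr ⟨j, hj, he⟩)
  have conv : ∀ (w w' : κ → ι) (φ' : W →ₗ[ℚ] ℚ), Vd a P U F J h' w w' φ' →
      ∃ φ : W →ₗ[ℚ] ℚ, Vd a P U F J h w w' φ ∧
        ∀ e ∈ F, φ' (a e) + h' e = 0 → φ (a e) + h e = 0 := by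
    intro w w' φ' hw
    obtain ⟨φ, h1, h2, h3⟩ := hcl φ' hw.U0 (by
      intro e he
      rcases Finset.mem_union.mp he with he | he
      · exact hw.pF e he
      · obtain ⟨j, hj, hej⟩ := Finset.mem_biUnion.mp he
        exact hw.pP j hj e hej)
    exact ⟨φ, ⟨hw.mem, hw.ind, h1, fun e he => h2 e (Finset.mem_union_left _ he),
      fun j hj e he => h2 e (hP j hj e he),
      fun j hj => ⟨h3 _ (hP j hj _ (hw.mem j hj).1) (hw.tie j hj).1,
        h3 _ (hP j hj _ (hw.mem j hj).2) (hw.tie j hj).2⟩⟩,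
      fun e he h0 => h3 e (Finset.mem_union_left _ he) h0⟩
  have hN' : NT a P U F J h' := by
    intro w w' φ' hw e he h0
    obtain ⟨φ, hφ, hz⟩ := conv w w' φ' hw
    exact hN w w' φ hφ e he (hz e he h0)
  obtain ⟨w, w', φ', hw, R, hR, hF, hQ⟩ := gl_gen J.card U F J h' v v' ψ rfl hB hG hN' hv'
  obtain ⟨φ, hφ, -⟩ := conv w w' φ' hw
  exact ⟨w, w', φ, hφ, R, hR, hF, hQ⟩

end MPb07157.LC
end

section

/-!
# Tied pairs exist if there are no deficits
-/

set_option linter.unusedSectionVars false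

namespace MPb07157.LC

open Finset Module

variable {ι κ : Type} [DecidableEq ι] [DecidableEq κ] {W : Type} [AddCommGroup W] [Module ℚ W]
variable {a : ι → W} {P : κ → Finset ι} {L : κ → W →ₗ[ℚ] ℚ} {U : Submodule ℚ W}
  {F : Finset ι} {J R : Finset κ} {h : ι → ℚ} {v v' w w' : κ → ι} {ψ φ : W →ₗ[ℚ] ℚ}

/-- LC-19. Upper bound for the rank. -/
theorem finrank_prs_le [FiniteDimensional ℚ W] (U : Submodule ℚ W) (v v' : κ → ι) (R : Finset κ) :
    finrank ℚ (U ⊔ prs a v v' R : Submodule ℚ W) ≤ finrank ℚ U + 2 * R.card := by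
  classical
  refine (Submodule.finrank_add_le_finrank_add_finrank _ _).trans ?_
  have hset : {x | ∃ j ∈ R, x = a (v j) ∨ x = a (v' j)} =
      (↑(R.image (fun j => a (v j)) ∪ R.image (fun j => a (v' j))) : Set W) := by
    ext x
    simp only [Set.mem_ofPred_eq, coe_union, coe_image, Set.mem_union, Set.mem_image, mem_coe]
    constructor
    · rintro ⟨j, hj, rfl | rfl⟩
      · exact Or.inl ⟨j, hj, rfl⟩
      · exact Or.inr ⟨j, hj, rfl⟩
    · rintro (⟨j, hj, rfl⟩ | ⟨j, hj, rfl⟩)
      · exact ⟨j, hj, Or.inl rfl⟩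
      · exact ⟨j, hj, Or.inr rfl⟩
  have h1 : finrank ℚ (prs a v v' R) ≤ 2 * R.card := by
    unfold prs
    rw [hset]
    refine (finrank_span_finset_le_card _).trans ?_
    refine (card_union_le _ _).trans ?_
    have := card_image_le (s := R) (f := fun j => a (v j))
    have := card_image_le (s := R) (f := fun j => a (v' j))
    omega
  omega

/-- LC-20. The rank of independent pairs. -/
theorem finrank_prs_eq [FiniteDimensional ℚ W] (U : Submodule ℚ W) (v v' : κ → ι) (R : Finset κ)
    (hind : ∀ μ μ' : κ → ℚ, ∑ j ∈ R, (μ j • a (v j) + μ' j • a (v' j)) ∈ U →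
      ∀ j ∈ R, μ j = 0 ∧ μ' j = 0) :
    finrank ℚ (U ⊔ prs a v v' R : Submodule ℚ W) = finrank ℚ U + 2 * R.card := by
  classical
  -- the pairs meet `U` in zero
  have hinf : U ⊓ prs a v v' R = ⊥ := by
    rw [eq_bot_iff]
    rintro x ⟨hxU, hxP⟩
    obtain ⟨μ, μ', rfl⟩ := mem_prs.1 hxP
    have h0 := hind μ μ' hxU
    rw [Submodule.mem_bot]
    refine sum_eq_zero fun j hj => ?_
    rw [(h0 j hj).1, (h0 j hj).2, zero_smul, zero_smul, add_zero]
  have h1 := Submodule.finrank_sup_add_finrank_inf_eq U (prs a v v' R)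
  rw [hinf, finrank_bot, add_zero] at h1
  rw [h1]
  congr 1
  -- the pairs are independent
  let b : R ⊕ R → W := Sum.elim (fun j => a (v j)) (fun j => a (v' j))
  have hli : LinearIndependent ℚ b := by
    rw [Fintype.linearIndependent_iff]
    intro g hg
    let μ : κ → ℚ := fun j => if hj : j ∈ R then g (Sum.inl ⟨j, hj⟩) else 0
    let μ' : κ → ℚ := fun j => if hj : j ∈ R then g (Sum.inr ⟨j, hj⟩) else 0
    have hsum : ∑ j ∈ R, (μ j • a (v j) + μ' j • a (v' j)) = 0 := by
      rw [← hg, Fintype.sum_sum_type, sum_add_distrib]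
      congr 1
      · rw [← sum_coe_sort R (fun j => μ j • a (v j))]
        refine sum_congr rfl fun j _ => ?_
        simp only [μ, b, Sum.elim_inl, coe_mem, dif_pos]
      · rw [← sum_coe_sort R (fun j => μ' j • a (v' j))]
        refine sum_congr rfl fun j _ => ?_
        simp only [μ', b, Sum.elim_inr, coe_mem, dif_pos]
    have h0 := hind μ μ' (by rw [hsum]; exact U.zero_mem)
    rintro (⟨j, hj⟩ | ⟨j, hj⟩)
    · have := (h0 j hj).1
      simpa only [μ, dif_pos hj] using this
    · have := (h0 j hj).2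
      simpa only [μ', dif_pos hj] using this
  have hr : prs a v v' R = Submodule.span ℚ (Set.range b) := by
    unfold prs
    congr 1
    ext x
    simp only [Set.mem_ofPred_eq, Set.mem_range, Sum.exists, b, Sum.elim_inl, Sum.elim_inr,
      Subtype.exists]
    constructor
    · rintro ⟨j, hj, rfl | rfl⟩
      · exact Or.inl ⟨j, hj, rfl⟩
      · exact Or.inr ⟨j, hj, rfl⟩
    · rintro (⟨j, hj, rfl⟩ | ⟨j, hj, rfl⟩)
      · exact ⟨j, hj, Or.inl rfl⟩
      · exact ⟨j, hj, Or.inr rfl⟩
  rw [hr, finrank_span_eq_card hli, Fintype.card_sum, Fintype.card_coe]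
  omega

/-- LC-21. **Mixed cells.** If there are no deficits modulo `U`, then there are tied pairs for all
heights.

Proof by induction on `J`.  `J = ∅`: `ψ = 0`.  `insert k J₁`: by induction there is a valid
`(v, v', ψ)` for `J₁`; adding a multiple of `L k` to `ψ` (which vanishes on `U` and on the other
blocks) we may assume that the minimum of the gap on `P k` is zero, attained at `w₀` (`P k` is not
empty by `hd {k}`).  Suppose there are no valid pairs for `insert k J₁`.  Apply `gl` with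
`U₁ = U ⊔ span {a w₀}`, `F = P k`, `J₁`, the heights `ψ (a e) + h e` and the form `0` (the pairs are
independent modulo `U₁`: apply `L k`).  `NT`: if `(w, w', φ)` is valid and `e ∈ P k` has gap zero and
`a e ∉ U₁ ⊔ prs a w w' J₁`, then `w, w'` together with the pair `w₀, e` and `ψ + φ` is valid for
`insert k J₁`.  So there is `R ⊆ J₁` with `a e ∈ U₁ ⊔ prs a w w' R` for all `e ∈ P j`,
`j ∈ insert k R`, whose dimension is at most `finrank U + 1 + 2 * R.card`: contradiction to `hd`. -/
theorem mixed [FiniteDimensional ℚ W] [Nonempty ι] (J : Finset κ) : Blk a P L U ∅ J →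
    (∀ R ⊆ J, finrank ℚ U + 2 * R.card ≤
      finrank ℚ (U ⊔ Submodule.span ℚ (a '' {e | ∃ j ∈ R, e ∈ P j}) : Submodule ℚ W)) →
    ∃ v v' ψ, Vd a P U ∅ J h v v' ψ := by
  classical
  induction J using Finset.induction_on with
  | empty =>
    intro _ _
    exact ⟨fun _ => Classical.arbitrary ι, fun _ => Classical.arbitrary ι, 0,
      ⟨by simp, by simp, by simp, by simp, by simp, by simp⟩⟩
  | insert k J₁ hk ih =>
    intro hB hd
    have hkI : k ∈ insert k J₁ := mem_insert_self _ _
    have hne : ∀ j ∈ J₁, j ≠ k := fun j hj hjk => hk (hjk ▸ hj)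
    have hB₁ : Blk a P L U ∅ J₁ :=
      ⟨fun j hj => hB.LU j (mem_insert_of_mem hj), fun j hj => hB.LF j (mem_insert_of_mem hj),
        fun j hj => hB.L1 j (mem_insert_of_mem hj), fun i hi j hj =>
          hB.L0 i (mem_insert_of_mem hi) j (mem_insert_of_mem hj)⟩
    obtain ⟨v, v', ψ₀, hv⟩ := ih hB₁ (fun R hR => hd R (hR.trans (subset_insert _ _)))
    have hPk : (P k).Nonempty := by
      rw [nonempty_iff_ne_empty]
      intro hemp
      have h1 := hd {k} (by simp)
      have h2 : a '' {e | ∃ j ∈ ({k} : Finset κ), e ∈ P j} = ∅ := by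
        rw [Set.image_eq_empty]
        ext e
        simp [hemp]
      rw [h2, Submodule.span_empty, sup_bot_eq, card_singleton] at h1
      omega
    obtain ⟨w₀, hw₀, hmin⟩ := exists_min_image (P k) (fun e => ψ₀ (a e) + h e) hPk
    set c : ℚ := ψ₀ (a w₀) + h w₀ with hc
    obtain ⟨ψ, hψ⟩ : ∃ ψ : W →ₗ[ℚ] ℚ, ∀ x, ψ x = ψ₀ x - c * L k x :=
      ⟨ψ₀ - c • L k, fun x => by simp⟩
    have hψJ : ∀ j ∈ J₁, ∀ e ∈ P j, ψ (a e) = ψ₀ (a e) := fun j hj e he => by
      rw [hψ, hB.L0 k hkI j (mem_insert_of_mem hj) (hne j hj).symm e he, mul_zero, sub_zero]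
    have hψU : ∀ u ∈ U, ψ u = 0 := fun u hu => by
      rw [hψ, hB.LU k hkI u hu, hv.U0 u hu, mul_zero, sub_zero]
    have hψk : ∀ e ∈ P k, ψ (a e) + h e = (ψ₀ (a e) + h e) - c := fun e he => by
      rw [hψ, hB.L1 k hkI e he]; ring
    have hgk : ∀ e ∈ P k, 0 ≤ ψ (a e) + h e := fun e he => by
      rw [hψk e he]; have := hmin e he; linarith
    have hg0 : ψ (a w₀) + h w₀ = 0 := by rw [hψk w₀ hw₀]; ring
    by_contra hno
    set U₁ : Submodule ℚ W := U ⊔ Submodule.span ℚ {a w₀} with hU₁
    have hUU₁ : U ≤ U₁ := le_sup_left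
    have haU₁ : a w₀ ∈ U₁ :=
      (le_sup_right : Submodule.span ℚ {a w₀} ≤ U₁) (Submodule.mem_span_singleton_self _)
    have hmemU₁ : ∀ x ∈ U₁, ∃ u ∈ U, ∃ t : ℚ, x = u + t • a w₀ := by
      intro x hx
      obtain ⟨u, hu, y, hy, rfl⟩ := Submodule.mem_sup.1 hx
      obtain ⟨t, rfl⟩ := Submodule.mem_span_singleton.1 hy
      exact ⟨u, hu, t, rfl⟩
    have hBlk : Blk a P L U₁ (P k) J₁ := by
      refine ⟨fun j hj u hu => ?_, fun j hj e he => ?_, hB₁.L1, hB₁.L0⟩
      · obtain ⟨u', hu', t, rfl⟩ := hmemU₁ u hu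
        rw [map_add, map_smul, hB₁.LU j hj u' hu',
          hB.L0 j (mem_insert_of_mem hj) k hkI (hne j hj) w₀ hw₀, smul_zero, add_zero]
      · exact hB.L0 j (mem_insert_of_mem hj) k hkI (hne j hj) e he
    -- independence modulo `U₁`
    have hindU₁ : ∀ x x' : κ → ι, (∀ j ∈ J₁, x j ∈ P j ∧ x' j ∈ P j) →
        ∀ μ μ' : κ → ℚ, ∑ j ∈ J₁, (μ j • a (x j) + μ' j • a (x' j)) ∈ U₁ →
          ∑ j ∈ J₁, (μ j • a (x j) + μ' j • a (x' j)) ∈ U := by
      intro x x' hx μ μ' hmem
      obtain ⟨u, hu, t, ht⟩ := hmemU₁ _ hmem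
      have hL := congrArg (L k) ht
      rw [map_sum, map_add, map_smul, hB.LU k hkI u hu, hB.L1 k hkI w₀ hw₀,
        sum_eq_zero, smul_eq_mul, mul_one, zero_add] at hL
      · rw [ht, ← hL, zero_smul, add_zero]; exact hu
      · intro j hj
        rw [map_add, map_smul, map_smul,
          hB.L0 k hkI j (mem_insert_of_mem hj) (hne j hj).symm _ (hx j hj).1,
          hB.L0 k hkI j (mem_insert_of_mem hj) (hne j hj).symm _ (hx j hj).2, smul_zero, smul_zero,
          add_zero]
    have hVd : Vd a P U₁ (P k) J₁ (fun e => ψ (a e) + h e) v v' 0 := by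
      refine ⟨hv.mem, fun μ μ' hmem => hv.ind μ μ' (hindU₁ v v' hv.mem μ μ' hmem),
        fun _ _ => rfl, fun e he => ?_, fun j hj e he => ?_, fun j hj => ?_⟩
      · simpa using hgk e he
      · have := hv.pP j hj e he
        simpa [hψJ j hj e he] using this
      · have h1 := hv.tie j hj
        have h2 := hv.mem j hj
        simpa [hψJ j hj _ h2.1, hψJ j hj _ h2.2] using h1
    have hNT : NT a P U₁ (P k) J₁ (fun e => ψ (a e) + h e) := by
      intro w w' φ hw e he hge
      by_contra hnot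
      refine hno ⟨Function.update w k w₀, Function.update w' k e, ψ + φ, ?_⟩
      have hup : ∀ j ∈ J₁, Function.update w k w₀ j = w j := fun j hj =>
        Function.update_of_ne (hne j hj) _ _
      have hup' : ∀ j ∈ J₁, Function.update w' k e j = w' j := fun j hj =>
        Function.update_of_ne (hne j hj) _ _
      refine ⟨fun j hj => ?_, fun μ μ' hmem => ?_, fun u hu => ?_, by simp, fun j hj e' he' => ?_,
        fun j hj => ?_⟩
      · rcases mem_insert.1 hj with rfl | hj
        · simpa using ⟨hw₀, he⟩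
        · rw [hup j hj, hup' j hj]; exact hw.mem j hj
      · rw [sum_insert hk, Function.update_self, Function.update_self] at hmem
        have hs : ∑ j ∈ J₁, (μ j • a (Function.update w k w₀ j) +
            μ' j • a (Function.update w' k e j)) = ∑ j ∈ J₁, (μ j • a (w j) + μ' j • a (w' j)) :=
          sum_congr rfl fun j hj => by rw [hup j hj, hup' j hj]
        rw [hs] at hmem
        set S := ∑ j ∈ J₁, (μ j • a (w j) + μ' j • a (w' j)) with hS
        have hSp : S ∈ prs a w w' J₁ := mem_prs.2 ⟨μ, μ', rfl⟩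
        have hμ' : μ' k = 0 := by
          by_contra hne0
          apply hnot
          have h1 : a e = (μ' k)⁻¹ • ((μ k • a w₀ + μ' k • a e + S) - μ k • a w₀ - S) := by
            have : (μ k • a w₀ + μ' k • a e + S) - μ k • a w₀ - S = μ' k • a e := by abel
            rw [this, smul_smul, inv_mul_cancel₀ hne0, one_smul]
          rw [h1]
          refine Submodule.smul_mem _ _ (Submodule.sub_mem _ (Submodule.sub_mem _ ?_ ?_) ?_)
          · exact (le_sup_left : U₁ ≤ _) (hUU₁ hmem)
          · exact (le_sup_left : U₁ ≤ _) (Submodule.smul_mem _ _ haU₁)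
          · exact (le_sup_right : prs a w w' J₁ ≤ _) hSp
        rw [hμ', zero_smul, add_zero] at hmem
        have hSU₁ : S ∈ U₁ := by
          have : S = (μ k • a w₀ + S) - μ k • a w₀ := by abel
          rw [this]
          exact Submodule.sub_mem _ (hUU₁ hmem) (Submodule.smul_mem _ _ haU₁)
        have hSU : S ∈ U := hindU₁ w w' hw.mem μ μ' hSU₁
        have h3 := hw.ind μ μ' hSU₁
        have h4 : μ k • a w₀ ∈ U := by
          have : μ k • a w₀ = (μ k • a w₀ + S) - S := by abel
          rw [this]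
          exact Submodule.sub_mem _ hmem hSU
        have h5 : μ k = 0 := by
          have := hB.LU k hkI _ h4
          rwa [map_smul, hB.L1 k hkI w₀ hw₀, smul_eq_mul, mul_one] at this
        intro j hj
        rcases mem_insert.1 hj with rfl | hj
        · exact ⟨h5, hμ'⟩
        · exact h3 j hj
      · rw [LinearMap.add_apply, hψU u hu, hw.U0 u (hUU₁ hu), add_zero]
      · rw [LinearMap.add_apply]
        rcases mem_insert.1 hj with rfl | hj
        · have := hw.pF e' he'
          linarith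
        · have := hw.pP j hj e' he'
          linarith
      · rw [LinearMap.add_apply, LinearMap.add_apply]
        rcases mem_insert.1 hj with rfl | hj
        · rw [Function.update_self, Function.update_self]
          have h1 := hw.U0 _ haU₁
          simp only at hge
          constructor
          · linarith
          · linarith
        · rw [hup j hj, hup' j hj]
          have := hw.tie j hj
          constructor
          · linarith [this.1]
          · linarith [this.2]
    obtain ⟨w, w', φ, hw, R, hR, h1, h2⟩ := gl hBlk hNT hVd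
    have hkR : k ∉ R := fun hkR => hk (hR hkR)
    have h3 := hd (insert k R) (insert_subset_insert _ hR)
    have h4 : U ⊔ Submodule.span ℚ (a '' {e | ∃ j ∈ insert k R, e ∈ P j}) ≤
        U₁ ⊔ prs a w w' R := by
      refine sup_le (hUU₁.trans le_sup_left) (Submodule.span_le.2 ?_)
      rintro _ ⟨e, ⟨j, hj, he⟩, rfl⟩
      rcases mem_insert.1 hj with rfl | hj
      · exact h1 e he
      · exact h2 j hj e he
    have h5 := Submodule.finrank_mono h4
    have h6 := finrank_prs_le (a := a) U₁ w w' R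
    have h7 : finrank ℚ U₁ ≤ finrank ℚ U + 1 := by
      refine (Submodule.finrank_add_le_finrank_add_finrank _ _).trans ?_
      have h8 : finrank ℚ (Submodule.span ℚ {a w₀}) ≤ 1 := by
        have := finrank_span_finset_le_card (R := ℚ) ({a w₀} : Finset W)
        rw [coe_singleton, card_singleton] at this
        exact this
      omega
    rw [card_insert_of_notMem hkR] at h3
    omega

end MPb07157.LC
end
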