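import Pool.Agent.Lib.MP_b07157_ag.LC.Cfg

/-!
# Ranks of tied pairs
-/

set_option linter.unusedSectionVars false

namespace MPb07157.LC

open Finset Module MPb07157.EX MPb07157.SK

variable {ι κ W W' : Type} [Fintype ι] [DecidableEq ι] [Fintype κ] [DecidableEq κ]
  [AddCommGroup W] [Module ℚ W] [AddCommGroup W'] [Module ℚ W']
variable {a : ι → W} {ah : ι → W'} {pr : W' →ₗ[ℚ] W} {L : κ → W →ₗ[ℚ] ℚ} {c : κ → ι → ℕ} {one : W}
  {H0 : W →ₗ[ℚ] ℚ} {h : ι → ℚ} {J R : Finset κ} {v v' w w' : κ → ι} {φ ψ : W →ₗ[ℚ] ℚ}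

/-- LC-54. If `R ⊆ J` contains all columns in relations of pairs and the pairs of `R` span the
support of `R`, then `phi R = 2 * J.card - rank of the pairs of J`.

Proof. `phi_eq_rank`; `span (a '' On R) = prs a v v' R`; and
`finrank (prs a v v' J) = finrank (prs a v v' R) + 2 * (J \ R).card` by `finrank_prs_eq` with
`U = prs a v v' R` and the columns `J \ R` (a combination of pairs of `J \ R` in `prs a v v' R` is a
relation of pairs, so its coefficients at `j ∉ R` are zero). -/
theorem phi_of_span [FiniteDimensional ℚ W] (hR : R ⊆ J) (hrel : ∀ j ∈ J, InRel a J v v' j → j ∈ R)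
    (hmem : ∀ j ∈ J, c j (v j) ≠ 0 ∧ c j (v' j) ≠ 0)
    (hsp : ∀ e, On c R e → a e ∈ prs a v v' R) :
    phi c (rel a) R = 2 * (J.card : ℤ) - (finrank ℚ (prs a v v' J) : ℤ) := by
  rw [phi_eq_rank]
  have h1 : Submodule.span ℚ (a '' {e | On c R e}) = prs a v v' R := by
    apply le_antisymm
    · rw [Submodule.span_le]
      rintro _ ⟨e, he, rfl⟩
      exact hsp e he
    · unfold prs
      rw [Submodule.span_le]
      rintro _ ⟨j, hj, rfl | rfl⟩
      · exact Submodule.subset_span ⟨v j, ⟨j, hj, (hmem j (hR hj)).1⟩, rfl⟩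
      · exact Submodule.subset_span ⟨v' j, ⟨j, hj, (hmem j (hR hj)).2⟩, rfl⟩
  have h2 : prs a v v' R ⊔ prs a v v' (J \ R) = prs a v v' J := by
    apply le_antisymm
    · exact sup_le (prs_mono hR) (prs_mono sdiff_subset)
    · have h0 : prs a v v' J = Submodule.span ℚ {x | ∃ j ∈ J, x = a (v j) ∨ x = a (v' j)} := rfl
      rw [h0, Submodule.span_le]
      rintro x ⟨j, hj, hx⟩
      by_cases hjR : j ∈ R
      · exact (le_sup_left : prs a v v' R ≤ _) (Submodule.subset_span ⟨j, hjR, hx⟩)
      · exact (le_sup_right : prs a v v' (J \ R) ≤ _)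
          (Submodule.subset_span ⟨j, mem_sdiff.2 ⟨hj, hjR⟩, hx⟩)
  have h3 : finrank ℚ (prs a v v' R ⊔ prs a v v' (J \ R) : Submodule ℚ W) =
      finrank ℚ (prs a v v' R) + 2 * (J \ R).card := by
    refine finrank_prs_eq (a := a) (prs a v v' R) v v' (J \ R) fun μ μ' hμ j hj => ?_
    obtain ⟨ν, ν', hν⟩ := mem_prs.1 hμ
    obtain ⟨hjJ, hjR⟩ := mem_sdiff.1 hj
    by_contra hc
    apply hjR
    refine hrel j hjJ ⟨fun i => if i ∈ R then - ν i else μ i, fun i => if i ∈ R then - ν' i else μ' i,
      ?_, ?_⟩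
    · rw [← sum_sdiff hR]
      have e1 : ∑ i ∈ J \ R, ((if i ∈ R then - ν i else μ i) • a (v i) +
          (if i ∈ R then - ν' i else μ' i) • a (v' i)) =
          ∑ i ∈ J \ R, (μ i • a (v i) + μ' i • a (v' i)) := by
        apply sum_congr rfl
        intro i hi
        rw [if_neg (mem_sdiff.1 hi).2, if_neg (mem_sdiff.1 hi).2]
      have e2 : ∑ i ∈ R, ((if i ∈ R then - ν i else μ i) • a (v i) +
          (if i ∈ R then - ν' i else μ' i) • a (v' i)) =
          - ∑ i ∈ R, (ν i • a (v i) + ν' i • a (v' i)) := by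
        rw [← sum_neg_distrib]
        apply sum_congr rfl
        intro i hi
        rw [if_pos hi, if_pos hi, neg_smul, neg_smul, neg_add]
      rw [e1, e2, hν, add_neg_cancel]
    · simp only [if_neg hjR]
      by_contra hc2
      push Not at hc2
      exact hc hc2
  have h4 : (J \ R).card + R.card = J.card := card_sdiff_add_card_eq_card hR
  rw [h1, ← h2, h3]
  push_cast
  omega

/-- LC-55. Exchange that increases the rank.  If `l ∈ J` occurs in a relation of pairs, `e` is a
tie in the support of `l` and `a e ∉ prs a v v' J`, then the pairs with `v l` or `v' l` replaced by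
`e` are tied pairs (one of the two works) of rank one more.

Proof. Let `∑ (μ i • a (v i) + μ' i • a (v' i)) = 0` with `μ l ≠ 0` or `μ' l ≠ 0`; applying `L i`,
`μ' i = - μ i`, so both are nonzero.  Replace `v l` by `e`: `ah`-independence: a relation, projected by
`pr`, has coefficient zero at `e` (`a e ∉ prs`); the remaining one is a relation of the old
`ah`-pairs.  `a (v l)` is in the span of the other pairs and `a (v' l)`, so the new span is
`prs a v v' J ⊔ span {a e}`. -/
theorem TP.exch [FiniteDimensional ℚ W] (hC : Cfg a ah pr L c one H0) (hJ : Fam c univ ∅ J)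
    (ht : TP a ah c J h v v' φ) {l : κ} (hl : l ∈ J) (hrel : InRel a J v v' l) {e : ι}
    (he : c l e ≠ 0) (h0 : φ (a e) + h e = 0) (hn : a e ∉ prs a v v' J) :
    ∃ w w' : κ → ι, TP a ah c J h w w' φ ∧
      finrank ℚ (prs a v v' J) < finrank ℚ (prs a w w' J) := by
  obtain ⟨μ, μ', hμ, hne⟩ := hrel
  -- both coefficients at `l` are nonzero
  have hL1 : ∀ x, c l x ≠ 0 → L l (a x) = 1 := by
    intro x hx
    rw [hC.L_a]
    have h1 := hJ.zo l hl x (Finset.notMem_empty x)
    have h2 : c l x = 1 := by omega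
    rw [h2, Nat.cast_one]
  have hL0 : ∀ i ∈ J, i ≠ l → ∀ x, c i x ≠ 0 → L l (a x) = 0 := by
    intro i hi hil x hx
    rw [hC.L_a]
    have h2 : c l x = 0 := by
      by_contra h3
      exact hil (hJ.dj i hi l hl x (Finset.notMem_empty x) hx h3)
    rw [h2, Nat.cast_zero]
  have hsum : μ l + μ' l = 0 := by
    have h1 := congrArg (L l) hμ
    rw [map_sum, map_zero, ← add_sum_erase J _ hl] at h1
    have h2 : ∑ i ∈ J.erase l, L l (μ i • a (v i) + μ' i • a (v' i)) = 0 := by
      refine sum_eq_zero fun i hi => ?_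
      obtain ⟨hil, hiJ⟩ := mem_erase.1 hi
      rw [map_add, map_smul, map_smul, hL0 i hiJ hil _ (ht.mem i hiJ).1,
        hL0 i hiJ hil _ (ht.mem i hiJ).2, smul_zero, smul_zero, add_zero]
    rw [h2, add_zero, map_add, map_smul, map_smul, hL1 _ (ht.mem l hl).1, hL1 _ (ht.mem l hl).2,
      smul_eq_mul, smul_eq_mul, mul_one, mul_one] at h1
    exact h1
  have hμl : μ l ≠ 0 := by
    intro h1
    rcases hne with h2 | h2
    · exact h2 h1
    · rw [h1, zero_add] at hsum
      exact h2 hsum
  set w : κ → ι := Function.update v l e with hw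
  have hwl : w l = e := Function.update_self ..
  have hwi : ∀ i, i ≠ l → w i = v i := fun i hi => Function.update_of_ne hi ..
  have hle : prs a v v' J ≤ prs a w v' J := by
    have h0 : prs a v v' J = Submodule.span ℚ {x | ∃ j ∈ J, x = a (v j) ∨ x = a (v' j)} := rfl
    have hv' : ∀ j ∈ J, a (v' j) ∈ prs a w v' J := fun j hj =>
      Submodule.subset_span ⟨j, hj, Or.inr rfl⟩
    have hv : ∀ j ∈ J, j ≠ l → a (v j) ∈ prs a w v' J := fun j hj hjl =>
      Submodule.subset_span ⟨j, hj, Or.inl (by rw [hwi j hjl])⟩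
    have hvl : a (v l) ∈ prs a w v' J := by
      rw [← add_sum_erase J _ hl] at hμ
      have h1 : a (v l) = (μ l)⁻¹ • (- (μ' l • a (v' l)) -
          ∑ i ∈ J.erase l, (μ i • a (v i) + μ' i • a (v' i))) := by
        have h2 : μ l • a (v l) = - (μ' l • a (v' l)) -
            ∑ i ∈ J.erase l, (μ i • a (v i) + μ' i • a (v' i)) := by
          have h3 : μ l • a (v l) = (μ l • a (v l) + μ' l • a (v' l) +
              ∑ i ∈ J.erase l, (μ i • a (v i) + μ' i • a (v' i))) - μ' l • a (v' l) -
              ∑ i ∈ J.erase l, (μ i • a (v i) + μ' i • a (v' i)) := by abel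
          rw [h3, hμ]
          abel
        rw [← h2, smul_smul, inv_mul_cancel₀ hμl, one_smul]
      rw [h1]
      refine Submodule.smul_mem _ _ (Submodule.sub_mem _
        (Submodule.neg_mem _ (Submodule.smul_mem _ _ (hv' l hl))) (Submodule.sum_mem _ fun i hi => ?_))
      obtain ⟨hil, hiJ⟩ := mem_erase.1 hi
      exact Submodule.add_mem _ (Submodule.smul_mem _ _ (hv i hiJ hil))
        (Submodule.smul_mem _ _ (hv' i hiJ))
    rw [h0, Submodule.span_le]
    rintro x ⟨j, hj, rfl | rfl⟩
    · by_cases hjl : j = l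
      · rw [hjl]
        exact hvl
      · exact hv j hj hjl
    · exact hv' j hj
  have hae : a e ∈ prs a w v' J := Submodule.subset_span ⟨l, hl, Or.inl (by rw [hwl])⟩
  refine ⟨w, v', ⟨?_, ?_, ht.pos, ?_⟩, ?_⟩
  · intro j hj
    refine ⟨?_, (ht.mem j hj).2⟩
    by_cases hjl : j = l
    · rw [hjl, hwl]
      exact he
    · rw [hwi j hjl]
      exact (ht.mem j hj).1
  · intro ν ν' hν
    -- the projected relation
    have h1 : ∑ j ∈ J, (ν j • a (w j) + ν' j • a (v' j)) = 0 := by
      have h2 := congrArg pr hν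
      rw [map_sum, map_zero] at h2
      rw [← h2]
      refine sum_congr rfl fun j _ => ?_
      rw [map_add, map_smul, map_smul, hC.pr_a, hC.pr_a]
    have hνl : ν l = 0 := by
      by_contra hc
      apply hn
      rw [← add_sum_erase J _ hl, hwl] at h1
      have h2 : ν l • a e = - (ν' l • a (v' l)) -
          ∑ i ∈ J.erase l, (ν i • a (w i) + ν' i • a (v' i)) := by
        have h3 : ν l • a e = (ν l • a e + ν' l • a (v' l) +
            ∑ i ∈ J.erase l, (ν i • a (w i) + ν' i • a (v' i))) - ν' l • a (v' l) -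
            ∑ i ∈ J.erase l, (ν i • a (w i) + ν' i • a (v' i)) := by abel
        rw [h3, h1]
        abel
      have h4 : a e = (ν l)⁻¹ • (ν l • a e) := by
        rw [smul_smul, inv_mul_cancel₀ hc, one_smul]
      rw [h4, h2]
      refine Submodule.smul_mem _ _ (Submodule.sub_mem _ (Submodule.neg_mem _
        (Submodule.smul_mem _ _ (Submodule.subset_span ⟨l, hl, Or.inr rfl⟩)))
        (Submodule.sum_mem _ fun i hi => ?_))
      obtain ⟨hil, hiJ⟩ := mem_erase.1 hi
      rw [hwi i hil]
      exact Submodule.add_mem _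
        (Submodule.smul_mem _ _ (Submodule.subset_span ⟨i, hiJ, Or.inl rfl⟩))
        (Submodule.smul_mem _ _ (Submodule.subset_span ⟨i, hiJ, Or.inr rfl⟩))
    have h5 : ∑ j ∈ J, (ν j • ah (v j) + ν' j • ah (v' j)) = 0 := by
      rw [← hν]
      refine sum_congr rfl fun j _ => ?_
      by_cases hjl : j = l
      · rw [hjl, hνl, zero_smul, zero_smul]
      · rw [hwi j hjl]
    exact ht.ind ν ν' h5
  · intro j hj
    refine ⟨?_, (ht.tie j hj).2⟩
    by_cases hjl : j = l
    · rw [hjl, hwl]
      exact h0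
    · rw [hwi j hjl]
      exact (ht.tie j hj).1
  · exact Submodule.finrank_lt_finrank_of_lt (lt_of_le_of_ne hle fun h1 => hn (by rw [h1]; exact hae))

end MPb07157.LC
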