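import Pool.Agent.Lib.MP_b07157_ag.E.Core
import Pool.Agent.Lib.MP_b07157_ag.NewtMulG
import Pool.Agent.Lib.MP_b07157_ag.LC.S2a

section

/-!
# Theorem E: the general exceptional root theorem, strong local version
-/

noncomputable section

namespace MPb07157

open MvPolynomial Finset

variable {n : ℕ} {f : MvPolynomial (Fin n) ℂ}

/-- E-27. **Root theorem with twins, strong local version.** The set `ρ` lies in a face of the
Newton polyhedron of weight `w` and in a compact face, of weight `ω`. -/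
theorem root_twin_strong (hf : f ≠ 0) (halg : AlgebraicIndependent ℚ (cf f)) {w ω : Fin n → ℕ}
    {N Nω : ℕ} (hN : 0 < N) (hNω : 0 < Nω) (hmin : ∀ v ∈ f.support, N ≤ wt w v)
    (hω : ∀ j, 0 < ω j) (hωmin : ∀ v ∈ f.support, Nω ≤ wt ω v) (P : Finset (Fin n))
    (hP : ∀ j, 0 < w j → j ∈ P) (ρ : Finset (Sf f)) (hρ : ∀ v ∈ ρ, wt w v.1 = N)
    (hρω : ∀ v ∈ ρ, wt ω v.1 = Nω)
    (lin : ∀ g : Sf f → ℚ, (∀ v, v ∉ ρ → g v = 0) →
      (∀ j, ∑ v, g v * ((v.1 j : ℕ) : ℚ) = 0) → g = 0)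
    (γ : Sf f → ℚ) (hγ0 : ∀ v, v ∉ ρ → γ v = 0)
    (hγ : ∀ j ∈ P, ∑ v, γ v * ((v.1 j : ℕ) : ℚ) = 1)
    (htw : ∀ j ∈ P, (∃ v ∈ ρ, (∀ k : ℕ, γ v ≠ k + 1) ∧ 0 < v.1 j) ∨
      ∃ j' ∈ P, j' ≠ j ∧ ∀ v ∈ ρ, v.1 j' = v.1 j)
    (p : MvPolynomial (Fin n) (Polynomial ℂ)) (hb : InDn f 1 p) :
    (constantCoeff p).eval ((-(∑ v, γ v) : ℚ) : ℂ) = 0 := by
  classical
  rw [← Finset.sum_neg_distrib]
  refine rootMG hf halg (fun v => -γ v) (ρ.filter fun v => ∃ k : ℕ, γ v = k + 1).card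
    (fun K => ?_) p hb
  obtain ⟨S, hS⟩ : ∃ S : ℝ, S = ∑ v : Sf f, ∑ j, ((v.1 j : ℕ) : ℝ) * ω j := ⟨_, rfl⟩
  have hS0 : 0 ≤ S := by rw [hS]; positivity
  have hK0 : (0 : ℝ) ≤ K := by positivity
  have hNR : (0 : ℝ) < N := by exact_mod_cast hN
  have hNωR : (0 : ℝ) < Nω := by exact_mod_cast hNω
  have hNω1 : (1 : ℝ) ≤ Nω := by exact_mod_cast hNω
  obtain ⟨t, ht⟩ : ∃ t : ℝ, t = 1 / (4 * ((K : ℝ) * S + 1)) := ⟨_, rfl⟩
  have hKS : 0 ≤ (K : ℝ) * S := by positivity
  have ht0 : 0 < t := by rw [ht]; positivity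
  have htd : t * (4 * ((K : ℝ) * S + 1)) = 1 := by rw [ht]; field_simp
  have htK : t * (K * S) ≤ 1 / 4 := by nlinarith
  have ht1 : t ≤ 1 / 4 := by nlinarith
  let y₁ : Fin n → ℝ := fun j => (1 - t) * (w j : ℝ) / N + t * (ω j : ℝ) / Nω
  have hy1 : ∀ j, 0 < y₁ j := by
    intro j
    have h1 : 0 ≤ (1 - t) * (w j : ℝ) / N :=
      div_nonneg (mul_nonneg (by linarith) (by positivity)) hNR.le
    have h2 : 0 < t * (ω j : ℝ) / Nω := by
      have : (0 : ℝ) < ω j := by exact_mod_cast hω j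
      positivity
    simp only [y₁]
    linarith
  have hwt : ∀ v : Sf f, ∑ j, ((v.1 j : ℕ) : ℝ) * y₁ j =
      (1 - t) * ((wt w v.1 : ℝ) / N) + t * ((wt ω v.1 : ℝ) / Nω) := by
    intro v
    unfold wt
    push_cast
    rw [Finset.sum_div, Finset.sum_div, Finset.mul_sum, Finset.mul_sum, ← Finset.sum_add_distrib]
    refine Finset.sum_congr rfl fun j _ => ?_
    simp only [y₁]
    ring
  obtain ⟨E, α, Λ, h1, h2, h3, h4, h5⟩ := twin_core P ρ lin γ hγ0 hγ htw K y₁ (fun _ => 0)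
    (fun j _ => hy1 j) (fun j => (hy1 j).le)
    (fun v hv => by
      rw [hwt v, hρ v hv, hρω v hv, div_self hNR.ne', div_self hNωR.ne']
      simp)
    (fun v => by
      rw [hwt v]
      have h2 : (1 : ℝ) ≤ (wt w v.1 : ℝ) / N := by
        rw [le_div_iff₀ hNR, one_mul]
        exact_mod_cast hmin v.1 v.2
      have h3 : (1 : ℝ) ≤ (wt ω v.1 : ℝ) / Nω := by
        rw [le_div_iff₀ hNωR, one_mul]
        exact_mod_cast hωmin v.1 v.2
      have h4 : (1 - t) * 1 ≤ (1 - t) * ((wt w v.1 : ℝ) / N) :=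
        mul_le_mul_of_nonneg_left h2 (by linarith)
      have h5 : t * 1 ≤ t * ((wt ω v.1 : ℝ) / Nω) := mul_le_mul_of_nonneg_left h3 ht0.le
      simp only [mul_zero, Finset.sum_const_zero, add_zero]
      linarith)
    (fun δ hδK hδs => by
      simp only [mul_zero, Finset.sum_const_zero, sub_zero]
      have e1 : ∀ j ∈ Pᶜ, ((∑ v, δ v * ((v.1 j : ℕ) : ℤ) : ℤ) : ℝ) * y₁ j ≤
          (K * ∑ v : Sf f, ((v.1 j : ℕ) : ℝ)) * (t * ω j) := by
        intro j hj
        rw [Finset.mem_compl] at hj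
        have hwj : w j = 0 := by
          by_contra h
          exact hj (hP j (Nat.pos_of_ne_zero h))
        have hyj : y₁ j ≤ t * ω j := by
          simp only [y₁]
          rw [hwj, Nat.cast_zero, mul_zero, zero_div, zero_add, div_le_iff₀ hNωR]
          have h9 : 0 ≤ t * (ω j : ℝ) := by positivity
          nlinarith
        have h6 : ((∑ v, δ v * ((v.1 j : ℕ) : ℤ) : ℤ) : ℝ) ≤ K * ∑ v : Sf f, ((v.1 j : ℕ) : ℝ) := by
          push_cast
          rw [Finset.mul_sum]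
          refine Finset.sum_le_sum fun v _ => mul_le_mul_of_nonneg_right ?_ (by positivity)
          have : |(δ v : ℝ)| ≤ K := by exact_mod_cast hδK v
          exact (abs_le.1 this).2
        exact (mul_le_mul_of_nonneg_right h6 (hy1 j).le).trans
          (mul_le_mul_of_nonneg_left hyj (by positivity))
      refine (Finset.sum_le_sum e1).trans ?_
      have e2 : ∑ j ∈ Pᶜ, (K * ∑ v : Sf f, ((v.1 j : ℕ) : ℝ)) * (t * ω j) ≤
          ∑ j, (K * ∑ v : Sf f, ((v.1 j : ℕ) : ℝ)) * (t * ω j) :=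
        Finset.sum_le_sum_of_subset_of_nonneg (Finset.subset_univ _) fun j _ _ => by positivity
      refine e2.trans ?_
      have e3 : ∑ j, (K * ∑ v : Sf f, ((v.1 j : ℕ) : ℝ)) * (t * ω j) = t * (K * S) := by
        rw [hS, Finset.sum_comm, Finset.mul_sum, Finset.mul_sum]
        refine Finset.sum_congr rfl fun j _ => ?_
        rw [Finset.mul_sum, Finset.mul_sum, Finset.mul_sum, Finset.sum_mul]
        exact Finset.sum_congr rfl fun v _ => by ring
      rw [e3]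
      exact htK)
  exact ⟨E, α, Λ, h1, h2, h3, fun δ hδ0 hδK hδs μ hδj =>
    h4 δ hδ0 hδK hδs μ hδj (Or.inr ⟨hy1, fun _ => rfl⟩), h5⟩

end MPb07157
end
end

section

/-!
# Tied pairs of maximal rank span everything
-/

set_option linter.unusedSectionVars false

namespace MPb07157.LC

open Finset Module MPb07157.EX MPb07157.SK

variable {ι κ W W' : Type} [Fintype ι] [DecidableEq ι] [Fintype κ] [DecidableEq κ]
  [AddCommGroup W] [Module ℚ W] [AddCommGroup W'] [Module ℚ W']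
variable {a : ι → W} {ah : ι → W'} {pr : W' →ₗ[ℚ] W} {L : κ → W →ₗ[ℚ] ℚ} {c : κ → ι → ℕ} {one : W}
  {H0 : W →ₗ[ℚ] ℚ} {h : ι → ℚ} {J R : Finset κ} {v v' w w' : κ → ι} {φ ψ : W →ₗ[ℚ] ℚ}

/-- The pairs `v` on `R₀` and `w` elsewhere. -/
private def cmb (R₀ : Finset κ) (v w : κ → ι) : κ → ι := fun j => if j ∈ R₀ then v j else w j

private lemma cmb_in {R₀ : Finset κ} {v w : κ → ι} {j : κ} (h : j ∈ R₀) : cmb R₀ v w j = v j :=
  if_pos h

private lemma cmb_out {R₀ : Finset κ} {v w : κ → ι} {j : κ} (h : j ∉ R₀) : cmb R₀ v w j = w j :=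
  if_neg h

private lemma cmb_self (R₀ : Finset κ) (v : κ → ι) : cmb R₀ v v = v := by
  funext j
  unfold cmb
  split_ifs <;> rfl

private lemma sum_cmb {M : Type} [AddCommGroup M] [Module ℚ M] (f : ι → M) {R₀ : Finset κ}
    (hR : R₀ ⊆ J) (μ μ' : κ → ℚ) :
    ∑ j ∈ J, (μ j • f (cmb R₀ v w j) + μ' j • f (cmb R₀ v' w' j)) =
      ∑ j ∈ R₀, (μ j • f (v j) + μ' j • f (v' j)) +
        ∑ j ∈ J \ R₀, (μ j • f (w j) + μ' j • f (w' j)) := by
  rw [← Finset.sum_sdiff hR, add_comm]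
  congr 1
  · exact sum_congr rfl fun j hj => by rw [cmb_in hj, cmb_in hj]
  · exact sum_congr rfl fun j hj => by
      rw [cmb_out (mem_sdiff.1 hj).2, cmb_out (mem_sdiff.1 hj).2]

private lemma prs_cmb {R₀ R : Finset κ} (hd : Disjoint R₀ R) :
    prs a (cmb R₀ v w) (cmb R₀ v' w') (R₀ ∪ R) = prs a v v' R₀ ⊔ prs a w w' R := by
  unfold prs
  rw [← Submodule.span_union]
  congr 1
  ext x
  simp only [Set.mem_union, Set.mem_ofPred_eq]
  constructor
  · rintro ⟨j, hj, hx⟩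
    rcases mem_union.1 hj with hj | hj
    · left
      rw [cmb_in hj, cmb_in hj] at hx
      exact ⟨j, hj, hx⟩
    · right
      have hj' : j ∉ R₀ := fun h => (Finset.disjoint_left.1 hd h) hj
      rw [cmb_out hj', cmb_out hj'] at hx
      exact ⟨j, hj, hx⟩
  · rintro (⟨j, hj, hx⟩ | ⟨j, hj, hx⟩)
    · refine ⟨j, mem_union_left _ hj, ?_⟩
      rw [cmb_in hj, cmb_in hj]
      exact hx
    · refine ⟨j, mem_union_right _ hj, ?_⟩
      have hj' : j ∉ R₀ := fun h => (Finset.disjoint_left.1 hd h) hj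
      rw [cmb_out hj', cmb_out hj']
      exact hx

private lemma prs_cmb' {R₀ : Finset κ} (hR : R₀ ⊆ J) :
    prs a (cmb R₀ v w) (cmb R₀ v' w') J = prs a v v' R₀ ⊔ prs a w w' (J \ R₀) := by
  rw [← prs_cmb disjoint_sdiff, union_sdiff_of_subset hR]

/-- Relations of the combined pairs have coefficients zero outside `R₀`. -/
private lemma rel_cmb {R₀ : Finset κ} (hR : R₀ ⊆ J)
    (hind : ∀ μ μ' : κ → ℚ, ∑ j ∈ J \ R₀, (μ j • a (w j) + μ' j • a (w' j)) ∈ prs a v v' R₀ →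
      ∀ j ∈ J \ R₀, μ j = 0 ∧ μ' j = 0) (μ μ' : κ → ℚ)
    (h0 : ∑ j ∈ J, (μ j • a (cmb R₀ v w j) + μ' j • a (cmb R₀ v' w' j)) = 0) :
    ∀ j ∈ J \ R₀, μ j = 0 ∧ μ' j = 0 := by
  apply hind
  rw [sum_cmb a hR] at h0
  rw [eq_neg_of_add_eq_zero_right h0]
  exact Submodule.neg_mem _ (mem_prs.2 ⟨μ, μ', rfl⟩)

private lemma mem_supE {j : κ} {e : ι} : e ∈ EX.sup c ∅ j ↔ c j e ≠ 0 := by
  simp [EX.sup]

private lemma mem_PUE {R : Finset κ} {e : ι} : e ∈ PU c ∅ R ↔ On c R e := by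
  unfold PU On
  rw [mem_biUnion]
  exact exists_congr fun j => and_congr_right fun _ => mem_supE

/-- The combined pairs are tied. -/
private lemma tp_cmb (hC : Cfg a ah pr L c one H0) (ht : TP a ah c J h v v' φ) {R₀ : Finset κ}
    (hR : R₀ ⊆ J)
    (hv : Vd a (EX.sup c ∅) (prs a v v' R₀) (PU c ∅ R₀) (J \ R₀) (fun e => φ (a e) + h e) w w' ψ) :
    TP a ah c J h (cmb R₀ v w) (cmb R₀ v' w') (φ + ψ) := by
  refine ⟨fun j hj => ?_, fun μ μ' h0 => ?_, fun e he => ?_, fun j hj => ?_⟩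
  · by_cases hj0 : j ∈ R₀
    · rw [cmb_in hj0, cmb_in hj0]
      exact ht.mem j hj
    · rw [cmb_out hj0, cmb_out hj0]
      have := hv.mem j (mem_sdiff.2 ⟨hj, hj0⟩)
      exact ⟨mem_supE.1 this.1, mem_supE.1 this.2⟩
  · have h1 : ∑ j ∈ J, (μ j • a (cmb R₀ v w j) + μ' j • a (cmb R₀ v' w' j)) = 0 := by
      have := congrArg pr h0
      rw [map_sum, map_zero] at this
      rw [← this]
      refine sum_congr rfl fun j _ => ?_
      rw [map_add, map_smul, map_smul, hC.pr_a, hC.pr_a]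
    have h2 := rel_cmb hR hv.ind μ μ' h1
    rw [sum_cmb ah hR] at h0
    have h3 : ∑ j ∈ J \ R₀, (μ j • ah (w j) + μ' j • ah (w' j)) = 0 :=
      sum_eq_zero fun j hj => by
        rw [(h2 j hj).1, (h2 j hj).2, zero_smul, zero_smul, add_zero]
    rw [h3, add_zero] at h0
    have h4 : ∑ j ∈ J, (μ j • ah (v j) + μ' j • ah (v' j)) = 0 := by
      rw [← Finset.sum_sdiff hR, h0, add_zero]
      refine sum_eq_zero fun j hj => ?_
      rw [(h2 j hj).1, (h2 j hj).2, zero_smul, zero_smul, add_zero]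
    exact ht.ind μ μ' h4
  · obtain ⟨j, hj, hje⟩ := he
    rw [LinearMap.add_apply]
    by_cases hj0 : j ∈ R₀
    · have := hv.pF e (mem_PUE.2 ⟨j, hj0, hje⟩)
      linarith
    · have := hv.pP j (mem_sdiff.2 ⟨hj, hj0⟩) e (mem_supE.2 hje)
      linarith
  · rw [LinearMap.add_apply, LinearMap.add_apply]
    by_cases hj0 : j ∈ R₀
    · rw [cmb_in hj0, cmb_in hj0]
      have h1 := ht.tie j hj
      have h2 : ψ (a (v j)) = 0 := hv.U0 _ (Submodule.subset_span ⟨j, hj0, Or.inl rfl⟩)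
      have h3 : ψ (a (v' j)) = 0 := hv.U0 _ (Submodule.subset_span ⟨j, hj0, Or.inr rfl⟩)
      rw [h2, h3, add_zero, add_zero]
      exact h1
    · rw [cmb_out hj0, cmb_out hj0]
      have := hv.tie j (mem_sdiff.2 ⟨hj, hj0⟩)
      constructor
      · linarith [this.1]
      · linarith [this.2]

/-- LC-56. **Tied pairs of maximal rank span the support of `J`**, if `J` is the smallest of its
subsets with maximal `phi`.

Proof. Among all tied pairs (finitely many functions `v, v' : κ → ι`) choose `(v, v', φ)` with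
maximal `finrank (prs a v v' J)`.  Let `R₀ = J.filter (InRel a J v v')`, `U = prs a v v' R₀`,
`F = PU c ∅ R₀`.  Apply `gl` to `Cfg.blk` (`P = EX.sup c ∅`, the blocks `J \ R₀`), the heights
`h' e = φ (a e) + h e`, and the form `0` (`Vd`; independence modulo `U`: a combination in `U` is a
relation of pairs).  `NT`: let `(w, w', ψ)` be valid, `e ∈ F` with gap zero and
`a e ∉ U ⊔ prs a w w' (J \ R₀)`; the pairs `v` on `R₀`, `w` on `J \ R₀` with `φ + ψ` are tied pairs
of the same rank (`finrank_prs_eq`; `ah`-independence: project by `pr`), the columns in `R₀` occur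
in relations of pairs, so `TP.exch` gives a contradiction to maximality.  The result: `(w, w', ψ)`
and `R ⊆ J \ R₀`; for the combined pairs (again of the same rank) and `R' = R₀ ∪ R`, `phi_of_span`
gives `phi R' = 2 * J.card - finrank (prs J)`, where
`finrank (prs J) ≤ finrank (span (a '' On J)) = 2 * J.card - phi J`.  So `phi R' ≥ phi J`, `R' = J`
by `hmax`, and the combined pairs span everything. -/
theorem s2 [FiniteDimensional ℚ W] (hC : Cfg a ah pr L c one H0) (hJ : Fam c univ ∅ J)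
    (hmax : ∀ X, X ⊂ J → phi c (rel a) X < phi c (rel a) J) (ht : TP a ah c J h v v' φ) :
    ∃ w w' ψ, TP a ah c J h w w' ψ ∧ ∀ e, On c J e → a e ∈ prs a w w' J := by
  classical
  -- maximal rank
  obtain ⟨v, v', φ, ht, hmx⟩ : ∃ v v' φ, TP a ah c J h v v' φ ∧
      ∀ w w' ψ, TP a ah c J h w w' ψ → finrank ℚ (prs a w w' J) ≤ finrank ℚ (prs a v v' J) := by
    let N : Set ℕ := {n | ∃ v v' φ, TP a ah c J h v v' φ ∧ finrank ℚ (prs a v v' J) = n}
    have hne : N.Nonempty := ⟨_, v, v', φ, ht, rfl⟩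
    have hbd : BddAbove N := ⟨finrank ℚ W, by
      rintro n ⟨v, v', φ, -, rfl⟩
      exact Submodule.finrank_le _⟩
    obtain ⟨x, x', χ, hx, hxn⟩ := Nat.sSup_mem hne hbd
    refine ⟨x, x', χ, hx, fun w w' ψ hw => ?_⟩
    rw [hxn]
    exact le_csSup hbd ⟨w, w', ψ, hw, rfl⟩
  set R₀ : Finset κ := J.filter (InRel a J v v') with hR₀
  have hR : R₀ ⊆ J := filter_subset _ _
  set U : Submodule ℚ W := prs a v v' R₀ with hU
  have hLU : ∀ j ∈ J \ R₀, ∀ u ∈ U, L j u = 0 := by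
    intro j hj u hu
    have hle : U ≤ LinearMap.ker (L j) := by
      rw [hU]
      unfold prs
      rw [Submodule.span_le]
      rintro x ⟨i, hi, hx⟩
      have hij : i ≠ j := fun h => (mem_sdiff.1 hj).2 (h ▸ hi)
      have key : ∀ e, c i e ≠ 0 → L j (a e) = 0 := by
        intro e he
        rw [hC.L_a]
        by_contra hne
        have hne' : c j e ≠ 0 := fun h0 => hne (by rw [h0]; rfl)
        exact hij (hJ.dj i (hR hi) j (mem_sdiff.1 hj).1 e (notMem_empty _) he hne')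
      have hm := ht.mem i (hR hi)
      rw [SetLike.mem_coe, LinearMap.mem_ker]
      rcases hx with rfl | rfl
      · exact key _ hm.1
      · exact key _ hm.2
    exact hle hu
  have hB := Cfg.blk hC hJ R₀ hR U hLU
  -- independence of the pairs outside `R₀` modulo `U`
  have hindv : ∀ μ μ' : κ → ℚ, ∑ j ∈ J \ R₀, (μ j • a (v j) + μ' j • a (v' j)) ∈ U →
      ∀ j ∈ J \ R₀, μ j = 0 ∧ μ' j = 0 := by
    intro μ μ' hmem j hj
    obtain ⟨ν, ν', hν⟩ := mem_prs.1 hmem
    by_contra hcon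
    apply (mem_sdiff.1 hj).2
    rw [hR₀, mem_filter]
    refine ⟨(mem_sdiff.1 hj).1, fun i => if i ∈ R₀ then - ν i else μ i,
      fun i => if i ∈ R₀ then - ν' i else μ' i, ?_, ?_⟩
    · rw [← Finset.sum_sdiff hR]
      have h1 : ∑ i ∈ J \ R₀, ((if i ∈ R₀ then - ν i else μ i) • a (v i) +
          (if i ∈ R₀ then - ν' i else μ' i) • a (v' i)) =
          ∑ i ∈ J \ R₀, (μ i • a (v i) + μ' i • a (v' i)) :=
        sum_congr rfl fun i hi => by rw [if_neg (mem_sdiff.1 hi).2, if_neg (mem_sdiff.1 hi).2]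
      have h2 : ∑ i ∈ R₀, ((if i ∈ R₀ then - ν i else μ i) • a (v i) +
          (if i ∈ R₀ then - ν' i else μ' i) • a (v' i)) =
          - ∑ i ∈ R₀, (ν i • a (v i) + ν' i • a (v' i)) := by
        rw [← sum_neg_distrib]
        refine sum_congr rfl fun i hi => ?_
        rw [if_pos hi, if_pos hi, neg_smul, neg_smul, neg_add]
      rw [h1, h2]
      rw [hν, add_neg_cancel]
    · show (if j ∈ R₀ then - ν j else μ j) ≠ 0 ∨ (if j ∈ R₀ then - ν' j else μ' j) ≠ 0
      rw [if_neg (mem_sdiff.1 hj).2, if_neg (mem_sdiff.1 hj).2]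
      by_contra hc
      push Not at hc
      exact hcon hc
  have hVd : Vd a (EX.sup c ∅) U (PU c ∅ R₀) (J \ R₀) (fun e => φ (a e) + h e) v v' 0 := by
    refine ⟨fun j hj => ?_, hindv, fun u _ => rfl, fun e he => ?_, fun j hj e he => ?_,
      fun j hj => ?_⟩
    · have := ht.mem j (mem_sdiff.1 hj).1
      exact ⟨mem_supE.2 this.1, mem_supE.2 this.2⟩
    · obtain ⟨j, hj, hje⟩ := mem_PUE.1 he
      have := ht.pos e ⟨j, hR hj, hje⟩
      simpa using this
    · have := ht.pos e ⟨j, (mem_sdiff.1 hj).1, mem_supE.1 he⟩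
      simpa using this
    · have := ht.tie j (mem_sdiff.1 hj).1
      simpa using this
  -- the ranks of the combined pairs
  have hrank : ∀ x x' χ, Vd a (EX.sup c ∅) U (PU c ∅ R₀) (J \ R₀) (fun e => φ (a e) + h e) x x' χ →
      finrank ℚ (prs a (cmb R₀ v x) (cmb R₀ v' x') J) = finrank ℚ (prs a v v' J) := by
    intro x x' χ hx
    have h1 := finrank_prs_eq U x x' (J \ R₀) hx.ind
    have h2 := finrank_prs_eq U v v' (J \ R₀) hindv
    have h3 : prs a v v' J = U ⊔ prs a v v' (J \ R₀) := by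
      have := prs_cmb' (a := a) (v := v) (w := v) (v' := v') (w' := v') hR
      rwa [cmb_self, cmb_self] at this
    rw [prs_cmb' hR, h3, h1, h2]
  have hNT : NT a (EX.sup c ∅) U (PU c ∅ R₀) (J \ R₀) (fun e => φ (a e) + h e) := by
    intro x x' χ hx e he h0
    by_contra hcon
    obtain ⟨l, hl, hle⟩ := mem_PUE.1 he
    have htp := tp_cmb hC ht hR hx
    have hrel : InRel a J (cmb R₀ v x) (cmb R₀ v' x') l := by
      have hl' := hl
      rw [hR₀, mem_filter] at hl'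
      obtain ⟨μ, μ', hs, hne⟩ := hl'.2
      refine ⟨μ, μ', ?_, hne⟩
      rw [← hs]
      refine sum_congr rfl fun i hi => ?_
      by_cases hi0 : i ∈ R₀
      · rw [cmb_in hi0, cmb_in hi0]
      · have h5 : μ i = 0 ∧ μ' i = 0 := by
          by_contra hc
          apply hi0
          rw [hR₀, mem_filter]
          refine ⟨hi, μ, μ', hs, ?_⟩
          by_contra hc'
          push Not at hc'
          exact hc hc'
        rw [h5.1, h5.2]
        simp only [zero_smul]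
    have h0' : (φ + χ) (a e) + h e = 0 := by
      rw [LinearMap.add_apply]
      simp only at h0
      linarith
    have hn : a e ∉ prs a (cmb R₀ v x) (cmb R₀ v' x') J := by
      rw [prs_cmb' hR]
      exact hcon
    obtain ⟨y, y', hy, hlt⟩ := TP.exch hC hJ htp (hR hl) hrel hle h0' hn
    have h6 := hmx y y' _ hy
    rw [hrank x x' χ hx] at hlt
    omega
  obtain ⟨x, x', χ, hx, R, hRs, hF, hP⟩ := gl hB hNT hVd
  have htp := tp_cmb hC ht hR hx
  have hdis : Disjoint R₀ R := disjoint_sdiff.mono_right hRs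
  have hRJ : R₀ ∪ R ⊆ J := union_subset hR (hRs.trans sdiff_subset)
  have hsp : ∀ e, On c (R₀ ∪ R) e → a e ∈ prs a (cmb R₀ v x) (cmb R₀ v' x') (R₀ ∪ R) := by
    rintro e ⟨j, hj, hje⟩
    rw [prs_cmb hdis]
    rcases mem_union.1 hj with hj | hj
    · exact hF e (mem_PUE.2 ⟨j, hj, hje⟩)
    · exact hP j hj e (mem_supE.2 hje)
  have hrel : ∀ j ∈ J, InRel a J (cmb R₀ v x) (cmb R₀ v' x') j → j ∈ R₀ ∪ R := by
    rintro j hj ⟨μ, μ', hs, hne⟩
    apply mem_union_left
    by_contra hj0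
    have := rel_cmb hR hx.ind μ μ' hs j (mem_sdiff.2 ⟨hj, hj0⟩)
    rcases hne with hne | hne
    · exact hne this.1
    · exact hne this.2
  have h1 := phi_of_span (a := a) (c := c) hRJ hrel htp.mem hsp
  have h2 := phi_eq_rank (a := a) (c := c) J
  have h3 : finrank ℚ (prs a (cmb R₀ v x) (cmb R₀ v' x') J) ≤
      finrank ℚ (Submodule.span ℚ (a '' {e | On c J e})) := by
    apply Submodule.finrank_mono
    unfold prs
    apply Submodule.span_mono
    rintro y ⟨j, hj, hy⟩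
    have hm := htp.mem j hj
    rcases hy with rfl | rfl
    · exact ⟨_, ⟨j, hj, hm.1⟩, rfl⟩
    · exact ⟨_, ⟨j, hj, hm.2⟩, rfl⟩
  have hEq : R₀ ∪ R = J := by
    by_contra hne
    have h4 := hmax _ (hRJ.ssubset_of_ne hne)
    have h5 : (finrank ℚ (prs a (cmb R₀ v x) (cmb R₀ v' x') J) : ℤ) ≤
      (finrank ℚ (Submodule.span ℚ (a '' {e | On c J e})) : ℤ) := by exact_mod_cast h3
    linarith
  refine ⟨cmb R₀ v x, cmb R₀ v' x', φ + χ, htp, fun e he => ?_⟩
  rw [← hEq] at he ⊢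
  exact hsp e he

end MPb07157.LC
end
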