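import Pool.Agent.Lib.MP_b07157_ag.SK.B4

/-!
# Deficits as a set function, conflict-free deficits, the system off a family: definitions
-/

set_option linter.unusedSectionVars false

namespace MPb07157.LC

open Finset Module MPb07157.EX MPb07157.SK

variable {ι κ : Type} [Fintype ι] [DecidableEq ι] [DecidableEq κ]

/-- Minimal sets with positive value. -/
def MinPos (f : Finset κ → ℤ) (Z : Finset κ) : Prop := 1 ≤ f Z ∧ ∀ Y, Y ⊂ Z → f Y ≤ 0

/-- Twice the number of columns minus the rank of the elements. -/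
noncomputable def phi (c : κ → ι → ℕ) (V : Submodule ℚ (ι → ℚ)) (J : Finset κ) : ℤ :=
  2 * (J.card : ℤ) + (finrank ℚ (cutV V (PU c ∅ J)ᶜ) : ℤ) - ((PU c ∅ J).card : ℤ)

/-- Conflict-free deficits: minimal deficits that are compatible with all minimal deficits. -/
structure CF (c : κ → ι → ℕ) (C : Finset κ) (V : Submodule ℚ (ι → ℚ)) (J : Finset κ) : Prop where
  min : MinD c C V ∅ J
  comp : ∀ Z, MinD c C V ∅ Z → ∀ k ∈ J, ∀ z ∈ Z, ∀ e, c k e ≠ 0 → c z e ≠ 0 → k = z

open Classical in
/-- The union of all conflict-free deficits. -/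
noncomputable def Jp (c : κ → ι → ℕ) (C : Finset κ) (V : Submodule ℚ (ι → ℚ)) : Finset κ :=
  C.filter fun k => ∃ J, CF c C V J ∧ k ∈ J

/-- The projection that forgets the coordinates in `Q`. -/
def piQ (Q : Finset ι) : (ι → ℚ) →ₗ[ℚ] (ι → ℚ) where
  toFun ξ := fun e => if e ∈ Q then 0 else ξ e
  map_add' a b := by
    funext e
    simp only [Pi.add_apply]
    split_ifs
    · rw [add_zero]
    · rfl
  map_smul' r a := by
    funext e
    simp only [Pi.smul_apply, smul_eq_mul, RingHom.id_apply]
    split_ifs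
    · rw [mul_zero]
    · rfl

/-- The relations modulo the elements in `Q`. -/
def offV (V : Submodule ℚ (ι → ℚ)) (Q : Finset ι) : Submodule ℚ (ι → ℚ) := V.map (piQ Q)

/-- The points modulo the elements in `Q`. -/
def offA (A : Set (ι → ℚ)) (Q : Finset ι) : Set (ι → ℚ) := piQ Q '' A

/-- The columns that vanish on `Q`. -/
def offC (c : κ → ι → ℕ) (C : Finset κ) (Q : Finset ι) : Finset κ :=
  C.filter fun k => ∀ e ∈ Q, c k e = 0

end MPb07157.LC
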