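import Pool.Agent.Lib.MP_b07157_ag.LC.NR1

/-!
# There are no rigid deficits off the union of the conflict-free deficits
-/

set_option linter.unusedSectionVars false

namespace MPb07157.LC

open Finset Module MPb07157.EX MPb07157.SK

variable {ι κ : Type} [Fintype ι] [DecidableEq ι] [DecidableEq κ]
variable {c : κ → ι → ℕ} {C : Finset κ} {A : Set (ι → ℚ)} {V : Submodule ℚ (ι → ℚ)}
  {J U X Y Z : Finset κ} {Q : Finset ι}

/-- LC-46. There are no rigid deficits off `Jp`.

Proof. Otherwise there is a rigid minimal one `X`; `U = Jp ∪ X` is a rigid family (`rigid_union`)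
with `phi U ≥ phi Jp + 1`; let `K` be the union of the minimal deficits in `U` (`phi_max`).
`phi K > phi Jp ≥ phi Y` for all `Y ⊆ Jp`, so `K` is not contained in `Jp` and there is a minimal
deficit `Z ⊆ U` not contained in `Jp`; it is rigid (`Rigid.mono`), so `CF.of_rigid`, `CF.sub`. -/
theorem no_rigid (hP : Pre c C A V ∅) :
    ¬ ∃ X, Dfc c (offC c C (PU c ∅ (Jp c C V))) (offV V (PU c ∅ (Jp c C V))) ∅ X ∧
      Rigid c (offC c C (PU c ∅ (Jp c C V))) ∅ X := by
  rintro ⟨X, hX, hXr⟩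
  obtain ⟨X0, hX0, hm⟩ := hX.exists_min
  have hr0 := hXr.mono hX0
  have hru := rigid_union hP hm hr0
  have hfX := hm.dfc.fam
  obtain ⟨hfU, -⟩ := off_fam hP (Jp_fam (c := c) (C := C) (V := V)) hfX
  have h1 := off_phi hP (Jp_fam (c := c) (C := C) (V := V)) hfX
  have h2 := ((dfc_iff hfX).1 hm.dfc).2
  obtain ⟨K, hKU, hKm, hKmax, -⟩ := phi_max hP hfU
  have h3 := hKmax _ (Finset.Subset.refl _)
  have h4 : ¬ K ⊆ Jp c C V := by
    intro hKJ
    have h5 := (Jp_max hP).1 K hKJ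
    omega
  obtain ⟨k, hk, hkJ⟩ := Finset.not_subset.1 h4
  obtain ⟨Z, hZU, hZ, hkZ⟩ := (hKm k).1 hk
  exact hkJ ((CF.of_rigid hP hZ (hru.mono hZU)).sub hkZ)

/-- LC-47. There is a state without owner off `Jp`: otherwise the system off `Jp` is a `Sys`
(`off_pre`), and `SK.rigid_exists` gives a rigid deficit. -/
theorem exists_bad (hP : Pre c C A V ∅) :
    ∃ S, St (offA A (PU c ∅ (Jp c C V))) (offV V (PU c ∅ (Jp c C V))) S ∧
      ¬ ∃ w k, Own c (offC c C (PU c ∅ (Jp c C V))) (offC c C (PU c ∅ (Jp c C V))) S w k := by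
  by_contra hno
  push Not at hno
  have hp := off_pre hP (PU c ∅ (Jp c C V))
  have hS : Sys c (offC c C (PU c ∅ (Jp c C V))) (offC c C (PU c ∅ (Jp c C V)))
      (offA A (PU c ∅ (Jp c C V))) (offV V (PU c ∅ (Jp c C V))) ∅ := by
    refine ⟨hp.ne, hp.aff, hp.zero, hp.col, Finset.Subset.refl _, ?_⟩
    intro S hS hpt
    rw [Finset.empty_union]
    exact hno S ⟨hS, hpt⟩
  exact no_rigid hP (rigid_exists _ κ c _ _ _ ∅ hS rfl)

end MPb07157.LC
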