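import Pool.Agent.Lib.MP_b07157_ag.LC.T2a

/-!
# The first state without owner on a path
-/

set_option linter.unusedSectionVars false

namespace MPb07157.LC

open Finset Module MPb07157.EX MPb07157.SK

variable {ι κ : Type} [Fintype ι] [DecidableEq ι] [DecidableEq κ]
variable {c : κ → ι → ℕ} {C : Finset κ} {A : Set (ι → ℚ)} {V : Submodule ℚ (ι → ℚ)}
  {S T B : Finset ι} {h : ι → ℚ}

/-- Finitely many affine functions that are nonnegative at `s₁` and not all nonnegative at zero:
the first point where all are nonnegative. -/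
private theorem first_pt {α : Type} (X : Finset α) (p q : α → ℚ) {s₁ : ℚ} (h1 : 0 ≤ s₁)
    (hs : ∀ b ∈ X, 0 ≤ p b + s₁ * q b) (h0 : ∃ b ∈ X, p b < 0) :
    ∃ s, 0 < s ∧ s ≤ s₁ ∧ (∀ b ∈ X, 0 ≤ p b + s * q b) ∧
      ∃ b ∈ X, p b + s * q b = 0 ∧ ∀ s', s' < s → p b + s' * q b < 0 := by
  classical
  have hq : ∀ b ∈ X, p b < 0 → 0 < q b := by
    intro b hb hp
    by_contra hq
    have h2 : s₁ * q b ≤ 0 := mul_nonpos_of_nonneg_of_nonpos h1 (not_lt.1 hq)
    have := hs b hb
    linarith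
  have hne : (X.filter fun b => p b < 0).Nonempty := by
    obtain ⟨b, hb, hp⟩ := h0
    exact ⟨b, mem_filter.2 ⟨hb, hp⟩⟩
  obtain ⟨b, hb, hmax⟩ := exists_max_image (X.filter fun b => p b < 0) (fun b => -p b / q b) hne
  obtain ⟨hbX, hbp⟩ := mem_filter.1 hb
  have hqb := hq b hbX hbp
  have hz : ∀ b' ∈ X, p b' < 0 → p b' + (-p b' / q b') * q b' = 0 := by
    intro b' hb' hp'
    have := (hq b' hb' hp').ne'
    field_simp
    ring
  have hle : -p b / q b ≤ s₁ := by
    rw [div_le_iff₀ hqb]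
    linarith [hs b hbX]
  have hpos : 0 < -p b / q b := div_pos (by linarith) hqb
  refine ⟨-p b / q b, hpos, hle, ?_, b, hbX, hz b hbX hbp, ?_⟩
  · intro b' hb'
    by_cases hp' : p b' < 0
    · have h3 := hmax b' (mem_filter.2 ⟨hb', hp'⟩)
      have h4 := hz b' hb' hp'
      have h5 := mul_le_mul_of_nonneg_right h3 (hq b' hb' hp').le
      linarith
    · have hp'' := not_lt.1 hp'
      have h6 := hs b' hb'
      by_cases hq' : 0 ≤ q b'
      · have := mul_nonneg hpos.le hq'
        linarith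
      · have := mul_le_mul_of_nonpos_right hle (not_le.1 hq').le
        linarith
  · intro s' hs'
    have h3 := hz b hbX hbp
    have h4 := mul_lt_mul_of_pos_right hs' hqb
    linarith

/-- Finitely many affine functions that are positive at `s₀` are nonnegative slightly before. -/
private theorem before {α : Type} [DecidableEq α] (X : Finset α) (p q : α → ℚ) {s₀ : ℚ}
    (h0 : 0 < s₀) (hs : ∀ b ∈ X, 0 < p b + s₀ * q b) :
    ∃ s, 0 ≤ s ∧ s < s₀ ∧ ∀ s', s ≤ s' → s' ≤ s₀ → ∀ b ∈ X, 0 ≤ p b + s' * q b := by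
  induction X using Finset.induction_on with
  | empty => exact ⟨0, le_rfl, h0, fun _ _ _ b hb => absurd hb (notMem_empty b)⟩
  | insert x X hx ih =>
    obtain ⟨s, hs0, hss, hX⟩ := ih fun b hb => hs b (mem_insert_of_mem hb)
    have hx' := hs x (mem_insert_self x X)
    by_cases hq : q x ≤ 0
    · refine ⟨s, hs0, hss, fun s' h1 h2 b hb => ?_⟩
      rcases mem_insert.1 hb with rfl | hb
      · have := mul_le_mul_of_nonpos_right h2 hq
        linarith
      · exact hX s' h1 h2 b hb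
    · have hq' := not_le.1 hq
      refine ⟨max s (-p x / q x), le_max_of_le_left hs0, max_lt hss ?_, fun s' h1 h2 b hb => ?_⟩
      · rw [div_lt_iff₀ hq']
        linarith
      · rcases mem_insert.1 hb with rfl | hb
        · have h3 := le_trans (le_max_right _ _) h1
          rw [div_le_iff₀ hq'] at h3
          linarith
        · exact hX s' (le_trans (le_max_left _ _) h1) h2 b hb

/-- Affine combinations of heights. -/
private theorem pair_comb (h h₁ ξ : ι → ℚ) (s : ℚ) :
    ∑ e, ((1 - s) * h e + s * h₁ e) * ξ e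
      = ∑ e, h e * ξ e + s * (∑ e, h₁ e * ξ e - ∑ e, h e * ξ e) := by
  rw [← sum_sub_distrib, mul_sum, ← sum_add_distrib]
  refine sum_congr rfl fun e _ => ?_
  ring

/-- Pairing with a linear combination. -/
private theorem pair_lin (h ξ η : ι → ℚ) (r r' : ℚ) :
    ∑ e, h e * (r • ξ + r' • η) e = r * ∑ e, h e * ξ e + r' * ∑ e, h e * η e := by
  rw [mul_sum, mul_sum, ← sum_add_distrib]
  refine sum_congr rfl fun e _ => ?_
  simp only [Pi.add_apply, Pi.smul_apply, smul_eq_mul]
  ring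

/-- LC-27. **The critical state.**  `Bad` = a property of states; no bad state has `h` in its cone,
but there is a bad state.  Then there are a bad state `S` and `t ∈ V` with `0 ≤ t` on `S`, `t ≠ 0`,
such that `V` has no other vectors vanishing on `{f ∈ S | t f = 0}` than the multiples of `t`, and
no state `{f ∈ S | t f = 0} ∪ N` with `N` nonempty, `t < 0` on `N`, is bad.

Proof.  Let `S₁` be bad, `B₁ ⊆ S₁` a basis.  For every `T' : Finset ι` with
`2 ≤ finrank ℚ (cutV V T')` choose `v_{T'} ≠ 0` in `cutV V T'` with `∑ h e * v e = 0`; let `h₁` be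
generic in the cone of `B₁` for these vectors, and `h_s = (1 - s) h + s h₁`, `0 ≤ s ≤ 1`.  For a bad
state `S` and a basis `B ⊆ S` let `I_B` be the set of the `s ∈ [0, 1]` with `h_s` in the cone of
`B`, i.e. `0 ≤ h_s(β b)` for all `b ∈ B` (`h_s(ξ) = ∑ h_s e * ξ e`, affine in `s`).  `0 ∉ I_B`; if
`I_B` is not empty it has a minimum `s_B > 0`, and there is `b ∈ B` with `h_{s_B}(β b) = 0`,
`h_s(β b) < 0` for `s < s_B`.  `1 ∈ I_{B₁}`, so there are `(S, B)` with the smallest `s_B =: s*`.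
Let `b` as above, `t = β b`, `T₀ = B.erase b`.  For `b' ∈ T₀`, `h_{s*}(β b') > 0`: otherwise `h_{s*}`
vanishes on `cutV V (B \ {b, b'})`, hence at `v_{T'}`, `T' = B \ {b, b'}`, but
`h_{s*}(v) = s* h₁(v) ≠ 0`.  Let `T = {f ∈ S | t f = 0} ⊇ T₀`; vectors of `V` vanishing on `T₀` are
multiples of `t`.  If `S'` is a bad state that contains `T₀` and an `e` with `t e < 0`, then
`B' = insert e T₀` is a basis with dual basis `t / t e` and `β b' - (β b' e / t e) • t`, and for `s`
slightly smaller than `s*`, `h_s(t) / t e > 0` and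
`h_s(β b') - (β b' e / t e) h_s(t) > 0` (as `h_s(t) → 0`): `s ∈ I_{B'}`, contradiction.  Apply this
to `S' = S` (so `0 ≤ t` on `S`) and to `S' = T ∪ N`. -/
theorem crit (Bad : Finset ι → Prop) (hst : ∀ S, Bad S → ∀ ξ ∈ V, (∀ f ∈ S, ξ f = 0) → ξ = 0)
    (H : ∀ S, Bad S → ¬ InC V h S) (hbad : ∃ S, Bad S) :
    ∃ S, Bad S ∧ ∃ t ∈ V, t ≠ 0 ∧ (∀ f ∈ S, 0 ≤ t f) ∧
      (∀ ξ ∈ V, (∀ f ∈ S, t f = 0 → ξ f = 0) → ∃ r : ℚ, ξ = r • t) ∧
      ∀ N : Finset ι, N.Nonempty → (∀ e ∈ N, t e < 0) →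
        ¬ Bad ((S.filter fun f => t f = 0) ∪ N) := by
  classical
  obtain ⟨S₁, hS₁⟩ := hbad
  obtain ⟨B₁, hB₁S, β₁, hβ₁⟩ := exists_bas (hst S₁ hS₁)
  -- the vectors that the generic height must not kill
  let P : Finset ι → Prop := fun T' =>
    ∃ v ∈ V, v ≠ 0 ∧ (∀ f ∈ T', v f = 0) ∧ ∑ e, h e * v e = 0
  choose! vv hvV hv0 hvT hvh using
    (fun T' (hT' : P T') => hT' :
      ∀ T', P T' → ∃ v ∈ V, v ≠ 0 ∧ (∀ f ∈ T', v f = 0) ∧ ∑ e, h e * v e = 0)
  obtain ⟨h₁, hh₁, hh₁B, hgen⟩ := exists_generic hβ₁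
    ((univ.filter fun T' : Finset ι => P T').image vv) (by
      intro v hv
      obtain ⟨T', hT', rfl⟩ := mem_image.1 hv
      have := (mem_filter.1 hT').2
      exact ⟨hvV T' this, hv0 T' this⟩)
  have hgen' : ∀ T', P T' → ∑ e, h₁ e * vv T' e ≠ 0 := fun T' hT' =>
    hgen _ (mem_image_of_mem _ (mem_filter.2 ⟨mem_univ _, hT'⟩))
  -- bases in bad states
  let Q : Finset ι → Prop := fun B => ∃ β S, Bad S ∧ B ⊆ S ∧ Bas V B β
  choose! β' SS hSS hBS hβ' using
    (fun B (hB : Q B) => hB : ∀ B, Q B → ∃ β S, Bad S ∧ B ⊆ S ∧ Bas V B β)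
  let p : Finset ι → ι → ℚ := fun B b => ∑ e, h e * β' B b e
  let q : Finset ι → ι → ℚ := fun B b => ∑ e, h₁ e * β' B b e - ∑ e, h e * β' B b e
  -- on bases of bad states, the height is not in the cone
  have hneg : ∀ B, Q B → ∃ b ∈ B, p B b < 0 := by
    intro B hB
    by_contra hcon
    push Not at hcon
    have h2 : InC V h B := (hβ' B hB).inC.2 hcon
    obtain ⟨s, hs, hsB, hsV⟩ := h2
    exact H (SS B) (hSS B hB) ⟨s, hs, fun e he => hsB e fun h' => he (hBS B hB h'), hsV⟩
  have hfirst : ∀ B, Q B →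
      ((∃ s, 0 ≤ s ∧ s ≤ 1 ∧ ∀ b ∈ B, 0 ≤ p B b + s * q B b) →
      ∃ s, 0 < s ∧ s ≤ 1 ∧ (∀ b ∈ B, 0 ≤ p B b + s * q B b) ∧
        ∃ b ∈ B, p B b + s * q B b = 0 ∧ ∀ s', s' < s → p B b + s' * q B b < 0) := by
    rintro B hB ⟨s, hs0, hs1, hs⟩
    obtain ⟨s', h1, h2, h3, h4⟩ := first_pt B (p B) (q B) hs0 hs (hneg B hB)
    exact ⟨s', h1, h2.trans hs1, h3, h4⟩
  have hQ₁ : Q B₁ := ⟨β₁, S₁, hS₁, hB₁S, hβ₁⟩
  have : Nonempty ι := ⟨(hneg B₁ hQ₁).choose⟩
  let R : Finset ι → Prop := fun B => Q B ∧ ∃ s, 0 ≤ s ∧ s ≤ 1 ∧ ∀ b ∈ B, 0 ≤ p B b + s * q B b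
  choose! sB hsB0 hsB1 hsBp bB hbB hbB0 hbBneg using
    (fun B (hB : R B) => hfirst B hB.1 hB.2 :
      ∀ B, R B → ∃ s, 0 < s ∧ s ≤ 1 ∧ (∀ b ∈ B, 0 ≤ p B b + s * q B b) ∧
        ∃ b ∈ B, p B b + s * q B b = 0 ∧ ∀ s', s' < s → p B b + s' * q B b < 0)
  have hR₁ : R B₁ := by
    refine ⟨hQ₁, 1, zero_le_one, le_rfl, fun b hb => ?_⟩
    have h2 : InC V h₁ B₁ := ⟨h₁, hh₁, hh₁B, fun ξ _ => rfl⟩
    have h3 := (hβ' B₁ hQ₁).inC.1 h2 b hb
    simp only [p, q]
    linarith
  obtain ⟨B, hB, hmin⟩ := exists_min_image (univ.filter fun B : Finset ι => R B) sB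
    ⟨B₁, mem_filter.2 ⟨mem_univ _, hR₁⟩⟩
  have hRB : R B := (mem_filter.1 hB).2
  have hmin' : ∀ B', Q B' → ∀ s, 0 ≤ s → s < sB B → ∃ b ∈ B', p B' b + s * q B' b < 0 := by
    intro B' hB' s hs0 hs1
    by_contra hcon
    push Not at hcon
    have hR' : R B' := ⟨hB', s, hs0, hs1.le.trans (hsB1 B hRB), hcon⟩
    have h2 := hmin B' (mem_filter.2 ⟨mem_univ _, hR'⟩)
    have h3 := hbBneg B' hR' s (lt_of_lt_of_le hs1 h2)
    have h4 := hcon (bB B') (hbB B' hR')
    linarith
  obtain ⟨hBas1, hBas2⟩ := hβ' B hRB.1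
  set b := bB B with hb_def
  have hbB' : b ∈ B := hbB B hRB
  set β := β' B with hβ_def
  set s₀ := sB B with hs₀_def
  have hs₀ : 0 < s₀ := hsB0 B hRB
  set t := β b with ht_def
  have htV : t ∈ V := (hBas1 b hbB').1
  have htb : t b = 1 := (hBas1 b hbB').2.1
  have htB : ∀ b' ∈ B, b' ≠ b → t b' = 0 := (hBas1 b hbB').2.2
  have ht0 : t ≠ 0 := by
    intro h2
    rw [h2] at htb
    exact zero_ne_one htb
  -- vectors vanishing on `B \ {b}` are multiples of `t`
  have hmul : ∀ ξ ∈ V, (∀ f ∈ B, f ≠ b → ξ f = 0) → ξ = ξ b • t := by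
    intro ξ hξ hf
    have h2 := hBas2 (ξ - ξ b • t) (V.sub_mem hξ (V.smul_mem _ htV)) (by
      intro f hf'
      by_cases hfb : f = b
      · subst hfb
        simp [htb]
      · simp [hf f hf' hfb, htB f hf' hfb])
    exact sub_eq_zero.1 h2
  -- strict positivity at the critical parameter
  have hstrict : ∀ b' ∈ B, b' ≠ b → 0 < p B b' + s₀ * q B b' := by
    intro b' hb' hne
    rcases (hsBp B hRB b' hb').lt_or_eq with h2 | h2
    · exact h2
    exfalso
    obtain ⟨hb'V, hb'1, hb'0⟩ := hBas1 b' hb'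
    set T' := (B.erase b).erase b' with hT'_def
    have hT't : ∀ f ∈ T', t f = 0 := fun f hf => by
      have := mem_erase.1 (mem_of_mem_erase hf)
      exact htB f this.2 this.1
    have hT'b' : ∀ f ∈ T', β b' f = 0 := fun f hf => by
      have h3 := mem_erase.1 hf
      exact hb'0 f (mem_of_mem_erase h3.2) h3.1
    have hP : P T' := by
      by_cases h3 : ∑ e, h e * t e = 0
      · exact ⟨t, htV, ht0, hT't, h3⟩
      · refine ⟨(∑ e, h e * β b' e) • t + (-∑ e, h e * t e) • β b',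
          V.add_mem (V.smul_mem _ htV) (V.smul_mem _ hb'V), ?_, ?_, ?_⟩
        · intro h4
          have h5 := congrFun h4 b'
          simp only [Pi.add_apply, Pi.smul_apply, smul_eq_mul, htB b' hb' hne, mul_zero, zero_add,
            hb'1, mul_one, Pi.zero_apply, neg_eq_zero] at h5
          exact h3 h5
        · intro f hf
          simp [hT't f hf, hT'b' f hf]
        · rw [pair_lin]
          ring
    have hv := hvT T' hP
    have hvV' := hvV T' hP
    have hv_eq : vv T' = vv T' b • t + vv T' b' • β b' := by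
      have h4 := hBas2 (vv T' - (vv T' b • t + vv T' b' • β b'))
        (V.sub_mem hvV' (V.add_mem (V.smul_mem _ htV) (V.smul_mem _ hb'V))) (by
        intro f hf
        by_cases hfb : f = b
        · subst hfb
          simp [htb, hb'0 b hf (Ne.symm hne)]
        · by_cases hfb' : f = b'
          · subst hfb'
            simp [hb'1, htB f hf hfb]
          · simp [hv f (mem_erase.2 ⟨hfb', mem_erase.2 ⟨hfb, hf⟩⟩), htB f hf hfb,
              hb'0 f hf hfb'])
      exact sub_eq_zero.1 h4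
    have hh := hvh T' hP
    have hh1 := hgen' T' hP
    have e1 : ∑ e, h e * vv T' e = vv T' b * ∑ e, h e * t e + vv T' b' * ∑ e, h e * β b' e := by
      conv_lhs => rw [hv_eq]
      exact pair_lin _ _ _ _ _
    have e2 : ∑ e, h₁ e * vv T' e
        = vv T' b * ∑ e, h₁ e * t e + vv T' b' * ∑ e, h₁ e * β b' e := by
      conv_lhs => rw [hv_eq]
      exact pair_lin _ _ _ _ _
    have e3 : p B b + s₀ * q B b = 0 := hbB0 B hRB
    have e4 : p B b' + s₀ * q B b' = 0 := h2.symm
    have e5 : ∑ e, h e * vv T' e + s₀ * (∑ e, h₁ e * vv T' e - ∑ e, h e * vv T' e) = 0 := by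
      rw [e1, e2]
      have e3' : ∑ e, h e * t e + s₀ * (∑ e, h₁ e * t e - ∑ e, h e * t e) = 0 := e3
      have e4' : ∑ e, h e * β b' e + s₀ * (∑ e, h₁ e * β b' e - ∑ e, h e * β b' e) = 0 := e4
      linear_combination vv T' b * e3' + vv T' b' * e4'
    rw [hh, sub_zero, zero_add] at e5
    rcases mul_eq_zero.1 e5 with h6 | h6
    · exact hs₀.ne' h6
    · exact hh1 h6
  -- the key claim
  have key : ∀ S', Bad S' → (∀ f ∈ B, f ≠ b → f ∈ S') → ∀ e ∈ S', t e < 0 → False := by
    intro S' hS' hBS' e he hte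
    have heB : ∀ f ∈ B, f ≠ b → f ≠ e := by
      intro f hf hfb hfe
      rw [← hfe, htB f hf hfb] at hte
      exact lt_irrefl _ hte
    have hte0 : t e ≠ 0 := hte.ne
    let γ : ι → ι → ℚ := fun f => if f = e then (1 / t e) • t + (0 : ℚ) • t
      else (1 : ℚ) • β f + (-(β f e / t e)) • t
    have hγe : γ e = (1 / t e) • t + (0 : ℚ) • t := if_pos rfl
    have hγf : ∀ f, f ≠ e → γ f = (1 : ℚ) • β f + (-(β f e / t e)) • t := fun f hf => if_neg hf
    have hBas' : Bas V (insert e (B.erase b)) γ := by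
      constructor
      · intro f hf
        rcases mem_insert.1 hf with rfl | hf
        · rw [hγe]
          refine ⟨V.add_mem (V.smul_mem _ htV) (V.smul_mem _ htV), ?_, ?_⟩
          · simp [hte0]
          · intro f' hf' hne
            rcases mem_insert.1 hf' with rfl | hf'
            · exact absurd rfl hne
            · have h2 := mem_erase.1 hf'
              simp [htB f' h2.2 h2.1]
        · have h2 := mem_erase.1 hf
          have hfe := heB f h2.2 h2.1
          obtain ⟨hfV, hf1, hf0⟩ := hBas1 f h2.2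
          rw [hγf f hfe]
          refine ⟨V.add_mem (V.smul_mem _ hfV) (V.smul_mem _ htV), ?_, ?_⟩
          · simp [hf1, htB f h2.2 h2.1]
          · intro f' hf' hne
            rcases mem_insert.1 hf' with rfl | hf'
            · simp only [Pi.add_apply, Pi.smul_apply, smul_eq_mul]
              field_simp
              ring
            · have h3 := mem_erase.1 hf'
              simp [htB f' h3.2 h3.1, hf0 f' h3.2 hne]
      · intro ξ hξ hf
        have h2 := hmul ξ hξ fun f hf' hfb =>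
          hf f (mem_insert_of_mem (mem_erase.2 ⟨hfb, hf'⟩))
        have h3 := hf e (mem_insert_self _ _)
        rw [h2, Pi.smul_apply, smul_eq_mul] at h3
        rcases mul_eq_zero.1 h3 with h4 | h4
        · rw [h2, h4, zero_smul]
        · exact absurd h4 hte0
    have hQ' : Q (insert e (B.erase b)) := ⟨γ, S', hS', by
      intro f hf
      rcases mem_insert.1 hf with rfl | hf
      · exact he
      · have h2 := mem_erase.1 hf
        exact hBS' f h2.2 h2.1, hBas'⟩
    -- uniqueness of the dual basis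
    have huniq : ∀ f ∈ insert e (B.erase b), β' (insert e (B.erase b)) f = γ f := by
      intro f hf
      obtain ⟨hA1, hA2⟩ := hβ' _ hQ'
      have h2 := hA2 (β' (insert e (B.erase b)) f - γ f)
        (V.sub_mem (hA1 f hf).1 (hBas'.1 f hf).1) (by
        intro f' hf'
        by_cases hff : f' = f
        · subst hff
          rw [Pi.sub_apply, (hA1 f' hf).2.1, (hBas'.1 f' hf).2.1, sub_self]
        · rw [Pi.sub_apply, (hA1 f hf).2.2 f' hf' hff, (hBas'.1 f hf).2.2 f' hf' hff, sub_self])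
      exact sub_eq_zero.1 h2
    -- the affine functions
    let p' : ι → ℚ := fun f => p B f - (β f e / t e) * p B b
    let q' : ι → ℚ := fun f => q B f - (β f e / t e) * q B b
    have hbb0 : p B b + s₀ * q B b = 0 := hbB0 B hRB
    obtain ⟨s, hs0, hs1, hs⟩ := before (B.erase b) p' q' hs₀ (by
      intro f hf
      have h2 := mem_erase.1 hf
      have h3 := hstrict f h2.2 h2.1
      simp only [p', q']
      have : p B f - β f e / t e * p B b + s₀ * (q B f - β f e / t e * q B b)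
          = p B f + s₀ * q B f := by linear_combination (-(β f e / t e)) * hbb0
      rw [this]
      exact h3)
    obtain ⟨f, hf, hneg'⟩ := hmin' _ hQ' s hs0 hs1
    have hpf : p (insert e (B.erase b)) f = ∑ x, h x * γ f x := by
      simp only [p]
      rw [huniq f hf]
    have hqf : q (insert e (B.erase b)) f = ∑ x, h₁ x * γ f x - ∑ x, h x * γ f x := by
      simp only [q]
      rw [huniq f hf]
    have hbs : p B b + s * q B b < 0 := hbBneg B hRB s hs1
    rcases mem_insert.1 hf with rfl | hf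
    · rw [hγe, pair_lin] at hpf
      rw [hγe, pair_lin, pair_lin] at hqf
      rw [hpf, hqf] at hneg'
      have h3 : 0 < (1 / t f) * (p B b + s * q B b) :=
        mul_pos_of_neg_of_neg (one_div_neg.2 hte) hbs
      have h4 : (1 / t f) * (p B b + s * q B b)
          = 1 / t f * ∑ e, h e * t e + 0 * ∑ e, h e * t e + s *
            (1 / t f * ∑ e, h₁ e * t e + 0 * ∑ e, h₁ e * t e -
              (1 / t f * ∑ e, h e * t e + 0 * ∑ e, h e * t e)) := by
        simp only [p, q]
        ring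
      linarith
    · have h2 := mem_erase.1 hf
      have hfe := heB f h2.2 h2.1
      rw [hγf f hfe, pair_lin] at hpf
      rw [hγf f hfe, pair_lin, pair_lin] at hqf
      rw [hpf, hqf] at hneg'
      have h3 := hs s le_rfl hs1.le f hf
      have h4 : p' f + s * q' f
          = 1 * ∑ e, h e * β f e + -(β f e / t e) * ∑ e, h e * t e + s *
            (1 * ∑ e, h₁ e * β f e + -(β f e / t e) * ∑ e, h₁ e * t e -
              (1 * ∑ e, h e * β f e + -(β f e / t e) * ∑ e, h e * t e)) := by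
        simp only [p', q', p, q]
        ring
      linarith
  have hBSB : B ⊆ SS B := hBS B hRB.1
  refine ⟨SS B, hSS B hRB.1, t, htV, ht0, ?_, ?_, ?_⟩
  · intro f hf
    by_contra hcon
    exact key (SS B) (hSS B hRB.1) (fun f hf _ => hBSB hf) f hf (not_le.1 hcon)
  · intro ξ hξ hf
    exact ⟨ξ b, hmul ξ hξ fun f hf' hfb => hf f (hBSB hf') (htB f hf' hfb)⟩
  · rintro N ⟨e, he⟩ hN hbadN
    exact key _ hbadN (fun f hf hfb => mem_union_left _
      (mem_filter.2 ⟨hBSB hf, htB f hf hfb⟩)) e (mem_union_right _ he) (hN e he)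

end MPb07157.LC
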