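import Pool.Agent.Lib.MP_b07157_ag.LC.T1
import Pool.Agent.Lib.MP_b07157_ag.LC.T2

/-!
# Homogeneous systems: one height is enough
-/

set_option linter.unusedSectionVars false

namespace MPb07157.LC

open Finset Module MPb07157.EX MPb07157.SK

variable {ι κ : Type} [Fintype ι] [DecidableEq ι] [DecidableEq κ]
variable {c : κ → ι → ℕ} {C : Finset κ} {A : Set (ι → ℚ)} {V : Submodule ℚ (ι → ℚ)}
  {S T B : Finset ι} {h : ι → ℚ}

/-- LC-28. **T-invariance.**  If all states with `h` in their cone have owners, then all states have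
owners (homogeneous systems).

Proof.  Otherwise use `crit` with `Bad S = St A V S ∧ no owner`: `S`, `t`,
`T = {f ∈ S | t f = 0}`.  Let `p ∈ A` be a common zero of `S`.  `one_sided` for `p`, `t`, `T`:
`hT` clear, `hcol`: `p + τ • t ∈ A`; `hsum`: `hom`; `H`: for `N` nonempty, `t e < 0` and
`p e + τ * t e = 0` on `N`, the set `T ∪ N` is a state (common zero `p + τ • t`; positivity: if
`ξ > 0` on `S`, then `ξ - M • t > 0` on `T ∪ N` for large `M`; if `ξ ∈ V` vanishes on `T ∪ N` then
`ξ = r • t`, `r = 0`), and it is not bad, so it has an owner.  The conclusion for `τ = 0` and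
`N = S \ T` (not empty, otherwise `t` vanishes on `S`) is an owner of `S`. -/
theorem TI (hP : Pre c C A V ∅) (hom : ∀ ξ ∈ V, ∑ e, ξ e = 0)
    (H : ∀ S, St A V S → InC V h S → ∃ w k, Own c C C S w k) :
    ∀ S, St A V S → ∃ w k, Own c C C S w k := by
  classical
  intro S₀ hS₀
  by_contra hno
  push Not at hno
  obtain ⟨S, ⟨hS, hSno⟩, t, htV, ht0, htS, hmul, hN⟩ :=
    crit (V := V) (h := h) (fun S => St A V S ∧ ∀ w k, ¬ Own c C C S w k)
      (fun S hS => hS.1.pt)
      (fun S hS hc => by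
        obtain ⟨w, k, ho⟩ := H S hS.1 hc
        exact hS.2 w k ho)
      ⟨S₀, hS₀, hno⟩
  obtain ⟨p, hpA, hp0⟩ := hS.acy.ne
  obtain ⟨ξ₀, hξ₀V, hξ₀⟩ := hS.acy.pos
  have hT : ∀ e ∈ S.filter (fun f => t f = 0), p e = 0 ∧ t e = 0 := by
    intro e he
    rw [Finset.mem_filter] at he
    exact ⟨hp0 e he.1, he.2⟩
  have hcol : ∀ k ∈ C, ∀ τ : ℚ, ∑ e, (c k e : ℚ) * (p e + τ * t e) = 1 := by
    intro k hk τ
    have h1 := hP.col k hk (p + τ • t) (hP.add_mem hpA (V.smul_mem τ htV))
    simpa [Pi.add_apply, Pi.smul_apply, smul_eq_mul] using h1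
  have hH : ∀ (τ : ℚ) (N : Finset ι), N.Nonempty → (∀ e ∈ N, t e < 0 ∧ p e + τ * t e = 0) →
      ∃ w k, Own c C C ((S.filter fun f => t f = 0) ∪ N) w k := by
    intro τ N hNe hNt
    have hnb := hN N hNe (fun e he => (hNt e he).1)
    by_contra hcon
    push Not at hcon
    apply hnb
    refine ⟨⟨⟨?_, ?_⟩, ?_⟩, hcon⟩
    · -- positivity
      refine ⟨ξ₀ - (∑ e ∈ N, |ξ₀ e| / (-t e) + 1) • t,
        V.sub_mem hξ₀V (V.smul_mem _ htV), ?_⟩
      intro f hf
      rw [Pi.sub_apply, Pi.smul_apply, smul_eq_mul]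
      rcases Finset.mem_union.1 hf with hf | hf
      · rw [Finset.mem_filter] at hf
        rw [hf.2, mul_zero, sub_zero]
        exact hξ₀ f hf.1
      · have h1 : t f < 0 := (hNt f hf).1
        have h2 : |ξ₀ f| / (-t f) ≤ ∑ e ∈ N, |ξ₀ e| / (-t e) :=
          Finset.single_le_sum (f := fun e => |ξ₀ e| / (-t e))
            (fun e he => div_nonneg (abs_nonneg _) (by linarith [(hNt e he).1])) hf
        have h3 : |ξ₀ f| ≤ (∑ e ∈ N, |ξ₀ e| / (-t e)) * (-t f) := by
          rw [div_le_iff₀ (by linarith)] at h2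
          exact h2
        have h4 := neg_abs_le (ξ₀ f)
        nlinarith
    · -- common zero
      refine ⟨p + τ • t, hP.add_mem hpA (V.smul_mem τ htV), ?_⟩
      intro f hf
      rw [Pi.add_apply, Pi.smul_apply, smul_eq_mul]
      rcases Finset.mem_union.1 hf with hf | hf
      · rw [(hT f hf).1, (hT f hf).2, mul_zero, add_zero]
      · exact (hNt f hf).2
    · -- point
      intro ξ hξ hξ0
      obtain ⟨r, hr⟩ := hmul ξ hξ (fun f hf hft =>
        hξ0 f (Finset.mem_union_left _ (Finset.mem_filter.2 ⟨hf, hft⟩)))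
      obtain ⟨e, he⟩ := hNe
      have h1 := hξ0 e (Finset.mem_union_right _ he)
      rw [hr, Pi.smul_apply, smul_eq_mul] at h1
      rcases mul_eq_zero.1 h1 with h2 | h2
      · rw [hr, h2, zero_smul]
      · exact absurd h2 (ne_of_lt (hNt e he).1)
  have hne : (S.filter (fun f => ¬ t f = 0)).Nonempty := by
    by_contra hcon
    rw [Finset.not_nonempty_iff_eq_empty, Finset.filter_eq_empty_iff] at hcon
    apply ht0
    apply hS.pt t htV
    intro f hf
    have := hcon hf
    push Not at this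
    exact this
  obtain ⟨w, k, ho⟩ := one_sided (p := p) (t := t) (T := S.filter fun f => t f = 0) hT hcol
    (hom t htV) hH 0 (S.filter fun f => ¬ t f = 0) hne (fun e he => by
      rw [Finset.mem_filter] at he
      refine ⟨lt_of_le_of_ne (htS e he.1) (Ne.symm he.2), ?_⟩
      rw [hp0 e he.1, zero_mul, add_zero])
  rw [Finset.filter_union_filter_not_eq] at ho
  exact hSno w k ho

end MPb07157.LC
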