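import Pool.Agent.Lib.MP_b07157_ag.LC.G4
import Pool.Agent.Lib.MP_b07157_ag.LC.T3
import Pool.Agent.Lib.MP_b07157_ag.LC.NoRig
import Pool.Agent.Lib.MP_b07157_ag.SK.R2

/-!
# Configurations with heights: definitions
-/

set_option linter.unusedSectionVars false

namespace MPb07157.LC

open Finset Module MPb07157.EX MPb07157.SK

variable {ι κ W W' : Type} [Fintype ι] [DecidableEq ι] [Fintype κ] [DecidableEq κ]
  [AddCommGroup W] [Module ℚ W] [AddCommGroup W'] [Module ℚ W']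

/-- Vectors `ah e` with projections `a e`, columns `c k e = L k (a e)`, the vector `one` on which all
columns are one, and a linear form `H0` that is one on all `a e`. -/
structure Cfg (a : ι → W) (ah : ι → W') (pr : W' →ₗ[ℚ] W) (L : κ → W →ₗ[ℚ] ℚ) (c : κ → ι → ℕ)
    (one : W) (H0 : W →ₗ[ℚ] ℚ) : Prop where
  pr_a : ∀ e, pr (ah e) = a e
  L_a : ∀ k e, L k (a e) = c k e
  one_mem : one ∈ Submodule.span ℚ (Set.range a)
  L_one : ∀ k, L k one = 1
  hom : ∀ e, H0 (a e) = 1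

/-- The relations. -/
def rel (a : ι → W) : Submodule ℚ (ι → ℚ) := LinearMap.ker (Fintype.linearCombination ℚ a)

/-- The points. -/
def pts (a : ι → W) (one : W) : Set (ι → ℚ) := {x | ∑ i, x i • a i = one}

/-- The hypothesis on the cells for the height `h`: every subset `ρ` of a cell that is independent
(for `ah`) with `one` in the span of its projections has an owner. -/
def HL (a : ι → W) (ah : ι → W') (c : κ → ι → ℕ) (one : W) (h : ι → ℚ) : Prop :=
  ∀ (φ : W →ₗ[ℚ] ℚ) (ρ : Finset ι), (∀ e, 0 ≤ φ (a e) + h e) → (∀ e ∈ ρ, φ (a e) + h e = 0) →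
    (∀ s : ι → ℚ, ∑ e ∈ ρ, s e • ah e = 0 → ∀ e ∈ ρ, s e = 0) →
    one ∈ Submodule.span ℚ (a '' (ρ : Set ι)) →
    ∃ v ∈ ρ, ∃ k, ∀ k', (∀ i ∈ ρ, c k' i = if i = v then 1 else 0) ↔ k' = k

/-- `e` is in the support of the family `J`. -/
def On (c : κ → ι → ℕ) (J : Finset κ) (e : ι) : Prop := ∃ j ∈ J, c j e ≠ 0

/-- Tied pairs of the family `J`: `v j, v' j` in the support of `j`, all `ah (v j), ah (v' j)`
independent, gaps nonnegative on the support of `J`, zero at the pairs. -/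
structure TP (a : ι → W) (ah : ι → W') (c : κ → ι → ℕ) (J : Finset κ) (h : ι → ℚ)
    (v v' : κ → ι) (φ : W →ₗ[ℚ] ℚ) : Prop where
  mem : ∀ j ∈ J, c j (v j) ≠ 0 ∧ c j (v' j) ≠ 0
  ind : ∀ μ μ' : κ → ℚ, ∑ j ∈ J, (μ j • ah (v j) + μ' j • ah (v' j)) = 0 →
    ∀ j ∈ J, μ j = 0 ∧ μ' j = 0
  pos : ∀ e, On c J e → 0 ≤ φ (a e) + h e
  tie : ∀ j ∈ J, φ (a (v j)) + h (v j) = 0 ∧ φ (a (v' j)) + h (v' j) = 0

/-- The columns whose pairs occur in relations of pairs. -/
def InRel (a : ι → W) (J : Finset κ) (v v' : κ → ι) (j : κ) : Prop :=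
  ∃ μ μ' : κ → ℚ, ∑ i ∈ J, (μ i • a (v i) + μ' i • a (v' i)) = 0 ∧ (μ j ≠ 0 ∨ μ' j ≠ 0)

variable {a : ι → W} {ah : ι → W'} {pr : W' →ₗ[ℚ] W} {L : κ → W →ₗ[ℚ] ℚ} {c : κ → ι → ℕ} {one : W}
  {H0 : W →ₗ[ℚ] ℚ} {h : ι → ℚ} {J R : Finset κ} {v v' w w' : κ → ι} {φ ψ : W →ₗ[ℚ] ℚ}

theorem mem_rel {ξ : ι → ℚ} : ξ ∈ rel a ↔ ∑ i, ξ i • a i = 0 := by
  unfold rel
  rw [LinearMap.mem_ker, Fintype.linearCombination_apply]

/-- LC-50. The system without the hypothesis on states. -/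
theorem Cfg.pre (hC : Cfg a ah pr L c one H0) : Pre c univ (pts a one) (rel a) ∅ := by
  refine ⟨?_, ?_, ?_, ?_⟩
  · have h1 := hC.one_mem
    rw [← Fintype.range_linearCombination ℚ a] at h1
    obtain ⟨x, hx⟩ := h1
    exact ⟨x, by rw [← hx]; rfl⟩
  · intro x hx y
    have hx' : ∑ i, x i • a i = one := hx
    rw [mem_rel]
    have h2 : ∑ i, (y - x) i • a i = ∑ i, y i • a i - one := by
      rw [← hx', ← Finset.sum_sub_distrib]
      exact Finset.sum_congr rfl fun i _ => by rw [Pi.sub_apply, sub_smul]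
    rw [h2, sub_eq_zero]
    exact Iff.rfl
  · intro x _ f hf
    exact absurd hf (Finset.notMem_empty f)
  · intro k _ x hx
    have hx' : ∑ i, x i • a i = one := hx
    rw [← hC.L_one k, ← hx', map_sum]
    refine Finset.sum_congr rfl fun i _ => ?_
    rw [map_smul, hC.L_a k i, smul_eq_mul, mul_comm]

/-- LC-51. Homogeneity. -/
theorem Cfg.homV (hC : Cfg a ah pr L c one H0) : ∀ ξ ∈ rel a, ∑ e, ξ e = 0 := by
  intro ξ hξ
  rw [mem_rel] at hξ
  have h1 := congrArg H0 hξ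
  rw [map_sum, map_zero] at h1
  rw [← h1]
  refine Finset.sum_congr rfl fun i _ => ?_
  rw [map_smul, hC.hom i, smul_eq_mul, mul_one]

/-- LC-52. The columns of a family on its support. -/
theorem Cfg.blk (hC : Cfg a ah pr L c one H0) (hJ : Fam c univ ∅ J) (R : Finset κ)
    (hR : R ⊆ J) (U : Submodule ℚ W) (hU : ∀ j ∈ J \ R, ∀ u ∈ U, L j u = 0) :
    Blk a (EX.sup c ∅) L U (PU c ∅ R) (J \ R) := by
  have hs : ∀ (k : κ) (e : ι), e ∈ EX.sup c ∅ k → c k e ≠ 0 := by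
    intro k e he
    unfold EX.sup at he
    exact (Finset.mem_filter.1 he).2.2
  refine ⟨hU, ?_, ?_, ?_⟩
  · intro j hj e he
    obtain ⟨hjJ, hjR⟩ := Finset.mem_sdiff.1 hj
    unfold EX.PU at he
    obtain ⟨k, hk, hke⟩ := Finset.mem_biUnion.1 he
    rw [hC.L_a]
    by_contra hne
    have hne' : c j e ≠ 0 := fun h => hne (by rw [h]; rfl)
    have := hJ.dj k (hR hk) j hjJ e (Finset.notMem_empty e) (hs k e hke) hne'
    exact hjR (this ▸ hk)
  · intro j hj e he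
    obtain ⟨hjJ, -⟩ := Finset.mem_sdiff.1 hj
    rw [hC.L_a]
    have h1 := hJ.zo j hjJ e (Finset.notMem_empty e)
    have h2 := hs j e he
    have h3 : c j e = 1 := by omega
    rw [h3]
    exact Nat.cast_one
  · intro i hi j hj hij e he
    obtain ⟨hiJ, -⟩ := Finset.mem_sdiff.1 hi
    obtain ⟨hjJ, -⟩ := Finset.mem_sdiff.1 hj
    rw [hC.L_a]
    by_contra hne
    have hne' : c i e ≠ 0 := fun h => hne (by rw [h]; rfl)
    exact hij (hJ.dj i hiJ j hjJ e (Finset.notMem_empty e) hne' (hs j e he))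

/-- LC-53. The set function in terms of ranks (`SK.finrank_span_eq`). -/
theorem phi_eq_rank (J : Finset κ) :
    phi c (rel a) J = 2 * (J.card : ℤ) -
      (finrank ℚ (Submodule.span ℚ (a '' {e | On c J e})) : ℤ) := by
  have hset : {e | On c J e} = ((PU c ∅ J : Finset ι) : Set ι) := by
    ext e
    simp [On, EX.PU, EX.sup]
  have h1 := SK.finrank_span_eq a (PU c ∅ J) (rel a) (fun ξ => mem_rel)
  rw [hset]
  unfold phi
  rw [← h1]
  push_cast
  ring

end MPb07157.LC
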