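import Mathlib

/-!
# Blocks of vectors and tied pairs: definitions

`a e` = vectors, `P j` (`j ∈ J`) = disjoint blocks of elements, `L j` = linear forms that are one on
`P j` and zero on the other blocks, `F` = further elements on which all `L j` vanish, `U` = a
subspace on which all `L j` vanish, `h` = heights, `ψ` = a linear form that vanishes on `U`;
`ψ (a e) + h e` is the gap of `e`.
-/

namespace MPb07157.LC

open Finset

variable {ι κ : Type} {W : Type} [AddCommGroup W] [Module ℚ W]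

/-- The relations of the blocks and the linear forms. -/
structure Blk (a : ι → W) (P : κ → Finset ι) (L : κ → W →ₗ[ℚ] ℚ) (U : Submodule ℚ W)
    (F : Finset ι) (J : Finset κ) : Prop where
  LU : ∀ j ∈ J, ∀ u ∈ U, L j u = 0
  LF : ∀ j ∈ J, ∀ e ∈ F, L j (a e) = 0
  L1 : ∀ j ∈ J, ∀ e ∈ P j, L j (a e) = 1
  L0 : ∀ i ∈ J, ∀ j ∈ J, i ≠ j → ∀ e ∈ P j, L i (a e) = 0

/-- The span of the pairs in the blocks of `J`. -/
def prs (a : ι → W) (v v' : κ → ι) (J : Finset κ) : Submodule ℚ W :=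
  Submodule.span ℚ {x | ∃ j ∈ J, x = a (v j) ∨ x = a (v' j)}

/-- Tied pairs: `v j, v' j ∈ P j` have gap zero, all gaps are nonnegative, and all vectors
`a (v j), a (v' j)` are independent modulo `U`. -/
structure Vd (a : ι → W) (P : κ → Finset ι) (U : Submodule ℚ W) (F : Finset ι) (J : Finset κ)
    (h : ι → ℚ) (v v' : κ → ι) (ψ : W →ₗ[ℚ] ℚ) : Prop where
  mem : ∀ j ∈ J, v j ∈ P j ∧ v' j ∈ P j
  ind : ∀ μ μ' : κ → ℚ, ∑ j ∈ J, (μ j • a (v j) + μ' j • a (v' j)) ∈ U →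
    ∀ j ∈ J, μ j = 0 ∧ μ' j = 0
  U0 : ∀ u ∈ U, ψ u = 0
  pF : ∀ e ∈ F, 0 ≤ ψ (a e) + h e
  pP : ∀ j ∈ J, ∀ e ∈ P j, 0 ≤ ψ (a e) + h e
  tie : ∀ j ∈ J, ψ (a (v j)) + h (v j) = 0 ∧ ψ (a (v' j)) + h (v' j) = 0

/-- Generic heights: the elements of the blocks with gap zero are independent modulo `U`. -/
def Gen (a : ι → W) (P : κ → Finset ι) (U : Submodule ℚ W) (J : Finset κ) (h : ι → ℚ) : Prop :=
  ∀ ψ : W →ₗ[ℚ] ℚ, (∀ u ∈ U, ψ u = 0) → ∀ (X : Finset ι) (s : ι → ℚ),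
    (∀ e ∈ X, (∃ j ∈ J, e ∈ P j) ∧ ψ (a e) + h e = 0) → ∑ e ∈ X, s e • a e ∈ U →
      ∀ e ∈ X, s e = 0

/-- All elements of `F` with gap zero are in the span of `U` and the pairs. -/
def NT (a : ι → W) (P : κ → Finset ι) (U : Submodule ℚ W) (F : Finset ι) (J : Finset κ)
    (h : ι → ℚ) : Prop :=
  ∀ v v' ψ, Vd a P U F J h v v' ψ → ∀ e ∈ F, ψ (a e) + h e = 0 → a e ∈ U ⊔ prs a v v' J

end MPb07157.LC
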