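import Pool.Agent.Lib.MP_b07157_ag.LC.Phi
import Pool.Agent.Lib.MP_b07157_ag.SK.Main
import Pool.Agent.Lib.MP_b07157_ag.SK.LemC

/-!
# The union of the conflict-free deficits
-/

set_option linter.unusedSectionVars false

namespace MPb07157.LC

open Finset Module MPb07157.EX MPb07157.SK

variable {ι κ : Type} [Fintype ι] [DecidableEq ι] [DecidableEq κ]
variable {c : κ → ι → ℕ} {C : Finset κ} {A : Set (ι → ℚ)} {V : Submodule ℚ (ι → ℚ)}
  {J U X Y Z : Finset κ}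

/-- LC-38. -/
theorem mem_Jp {k : κ} : k ∈ Jp c C V ↔ ∃ J, CF c C V J ∧ k ∈ J := by
  classical
  unfold Jp
  rw [Finset.mem_filter]
  constructor
  · exact fun h => h.2
  · rintro ⟨J, hJ, hk⟩
    exact ⟨hJ.min.dfc.fam.sub hk, J, hJ, hk⟩

theorem CF.sub (h : CF c C V J) : J ⊆ Jp c C V := by
  exact fun k hk => mem_Jp.2 ⟨J, h, hk⟩

/-- Rigid minimal deficits are conflict-free (`SK.lemC`). -/
theorem CF.of_rigid (hP : Pre c C A V ∅) (h : MinD c C V ∅ J) (hr : Rigid c C ∅ J) :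
    CF c C V J := by
  exact ⟨h, fun Z hZ k hk z hz e => lemC hP h hr hZ k hk z hz e (Finset.notMem_empty e)⟩

/-- The union is a family. -/
theorem Jp_fam : Fam c C ∅ (Jp c C V) := by
  refine ⟨?_, ?_, ?_⟩
  · intro k hk
    obtain ⟨J, hJ, hkJ⟩ := mem_Jp.1 hk
    exact hJ.min.dfc.fam.sub hkJ
  · intro k hk e he
    obtain ⟨J, hJ, hkJ⟩ := mem_Jp.1 hk
    exact hJ.min.dfc.fam.zo k hkJ e he
  · intro k hk k' hk' e _ h1 h2
    obtain ⟨J, hJ, hkJ⟩ := mem_Jp.1 hk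
    obtain ⟨J', hJ', hkJ'⟩ := mem_Jp.1 hk'
    exact hJ.comp J' hJ'.min k hkJ k' hkJ' e h1 h2

/-- The union is compatible with all minimal deficits. -/
theorem Jp_comp (hZ : MinD c C V ∅ Z) : ∀ k ∈ Jp c C V, ∀ z ∈ Z, ∀ e, c k e ≠ 0 → c z e ≠ 0 →
    k = z := by
  intro k hk z hz e h1 h2
  obtain ⟨J, hJ, hkJ⟩ := mem_Jp.1 hk
  exact hJ.comp Z hZ k hkJ z hz e h1 h2

/-- LC-39. The union is the smallest of its subsets with maximal value (`phi_max` for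
`U = Jp c C V`: the union of the minimal deficits contained in `Jp` is `Jp`). -/
theorem Jp_max (hP : Pre c C A V ∅) : (∀ X ⊆ Jp c C V, phi c V X ≤ phi c V (Jp c C V)) ∧
    ∀ X, X ⊂ Jp c C V → phi c V X < phi c V (Jp c C V) := by
  obtain ⟨K, hK, hmem, h1, h2⟩ := phi_max hP (Jp_fam (c := c) (C := C) (V := V))
  have hKJ : K = Jp c C V := by
    refine Finset.Subset.antisymm hK fun k hk => ?_
    obtain ⟨J, hJ, hkJ⟩ := mem_Jp.1 hk
    exact (hmem k).2 ⟨J, hJ.sub, hJ.min, hkJ⟩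
  rw [hKJ] at h1 h2
  exact ⟨h1, h2⟩

/-- LC-40. In a system there is a conflict-free deficit (`SK.rigid_exists`, `Dfc.exists_min`,
`Rigid.mono`, `CF.of_rigid`). -/
theorem Jp_nonempty (hS : Sys c C C A V ∅) : (Jp c C V).Nonempty := by
  obtain ⟨J, hJ, hR⟩ := rigid_exists (finrank ℚ V) κ c C A V ∅ hS rfl
  obtain ⟨J', hJ', hM⟩ := hJ.exists_min
  obtain ⟨k, hk⟩ := hM.dfc.ne
  exact ⟨k, (CF.of_rigid (Pre.of_sys hS) hM (hR.mono hJ')).sub hk⟩

end MPb07157.LC
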