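import Pool.Agent.Lib.MP_b07157_ag.PS.Aug
import Pool.Agent.Lib.MP_b07157_ag.PS.Dec
import Pool.Agent.Lib.MP_b07157_ag.PS.EqLoc
import Pool.Agent.Lib.MP_b07157_ag.PS.Lab1
import Pool.Agent.Lib.MP_b07157_ag.N3.PX3
import Pool.Agent.Lib.MP_b07157_ag.LC.Cfg
import Pool.Agent.Lib.MP_b07157_ag.PS.R2
import Pool.Agent.Lib.MP_b07157_ag.E.RootL
import Pool.Agent.Lib.MP_b07157_ag.LC.Jp

section

/-!
# Regularity of the zeta function of the torus arcs, for given labels of the flags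
-/

noncomputable section

namespace MPb07157

open MvPolynomial Finset

variable {n : ℕ} {f : MvPolynomial (Fin n) ℂ} {D : Finset (Fin n)} {s₀ : ℚ}

/-- the special exponents of a column -/
private theorem fil_col {F : Finset (GG n)} (hF : F ∈ Fl f D s₀) {U : Finset (Fin n)}
    (hU : Disj01 (Gk f (∑ k ∈ F, k)) U) :
    ∀ j ∈ U, ∃ u ∈ f.support, (∀ k ∈ F, dotH u k = k.2) ∧ u j = 1 ∧
      ∀ i ∈ U, i ≠ j → u i = 0 := by
  classical
  intro j hj
  obtain ⟨u, hu, huj⟩ := hU.2 j hj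
  have h1 := (mem_Gk_sum hF).1 hu
  refine ⟨u, h1.1, h1.2, huj, fun i hi hij => ?_⟩
  have h2 := hU.1 u hu
  rw [← Finset.add_sum_erase U (fun j => u j) hj] at h2
  have h3 : u i ≤ ∑ i ∈ U.erase j, u i :=
    Finset.single_le_sum (f := fun i => u i) (fun _ _ => Nat.zero_le _)
      (Finset.mem_erase.2 ⟨hij, hi⟩)
  omega

/-- the property of vanishing far away is stable under multiplication by a factor -/
private theorem fil_fac (J : Finset (Fin n)) (q : GG n) {Y : PowerSeries (RX n)}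
    (hY : ∀ z, ∃ l₀ : ℕ, ∀ l ≥ l₀, tw LU J (cfun Y) (z + l • q) = 0) {w : (RX n)ˣ × ℕ}
    (hw : w ∈ OH n s₀) : ∀ z, ∃ l₀ : ℕ, ∀ l ≥ l₀,
      tw LU J (cfun (((fac w : Polynomial (RX n)) : PowerSeries (RX n)) * Y)) (z + l • q) = 0 := by
  intro z
  obtain ⟨γ, e, b, rfl, -⟩ := hw
  obtain ⟨l₁, hl₁⟩ := hY z
  obtain ⟨l₂, hl₂⟩ := hY (z - ((γ, (b : ℤ)) : GG n))
  refine ⟨l₁ + l₂, fun l hl => ?_⟩
  have h1 : cfun (((fac (uX γ e, b) : Polynomial (RX n)) : PowerSeries (RX n)) * Y) =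
      fun z => cfun Y z + (-qpw LU (∑ i, γ i - e)) * cfun Y (z - ((γ, (b : ℤ)) : GG n)) := by
    funext z
    rw [cfun_fac]
    ring
  rw [h1, tw_add LU J (cfun_LF Y) (((cfun_LF Y).shift _).const_mul _),
    tw_const_mul LU J _ ((cfun_LF Y).shift _), tw_shift, hl₁ l (by omega)]
  have h2 : z + l • q - ((γ, (b : ℤ)) : GG n) = z - ((γ, (b : ℤ)) : GG n) + l • q := by abel
  rw [h2, hl₂ l (by omega), mul_zero, add_zero]

private theorem fil_prod (J : Finset (Fin n)) (q : GG n) {Y : PowerSeries (RX n)}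
    (hY : ∀ z, ∃ l₀ : ℕ, ∀ l ≥ l₀, tw LU J (cfun Y) (z + l • q) = 0)
    (s : Multiset ((RX n)ˣ × ℕ)) (hs : ∀ w ∈ s, w ∈ OH n s₀) : ∀ z, ∃ l₀ : ℕ, ∀ l ≥ l₀,
      tw LU J (cfun ((((s.map fac).prod : Polynomial (RX n)) : PowerSeries (RX n)) * Y))
        (z + l • q) = 0 := by
  induction s using Multiset.induction_on with
  | empty =>
    rw [Multiset.map_zero, Multiset.prod_zero, Polynomial.coe_one, one_mul]
    exact hY
  | cons w s ih =>
    rw [Multiset.map_cons, Multiset.prod_cons, Polynomial.coe_mul, mul_assoc]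
    exact fil_fac J q (ih fun w hw => hs w (Multiset.mem_cons_of_mem hw))
      (hs w (Multiset.mem_cons_self w s))

/-- **The local pole side in all dimensions**: if the flags have compatible labels that satisfy the
condition of the functional equation, then the zeta function of the arcs with positive orders is
regular at `s₀`. -/
theorem ZJm_regular_of_labels {f : MvPolynomial (Fin n) ℂ} (hf : f ≠ 0)
    (hnd : ∀ I ⊆ f.support, I.Nonempty → NondegAt f I) {s₀ : ℚ} (h1 : s₀ ≠ -1) {K : ℕ}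
    (hK : -s₀ < K) (𝓢 : Finset (GG n) → Set (Finset (Fin n)))
    (h𝓢 : ∀ F ∈ Fl f ∅ s₀, F.Nonempty →
      (𝓢 F).Nonempty ∧
      (∃ U, U ⊆ suppG (∑ k ∈ F, k) ∧ Disj01 (Gk f (∑ k ∈ F, k)) U ∧ ∀ J ∈ 𝓢 F, J ⊆ U) ∧
      (∀ J ∈ 𝓢 F, LFE (Gk f (∑ k ∈ F, k)) (suppG (∑ k ∈ F, k)) J) ∧
      ∀ F' ⊆ F, F'.Nonempty → ∀ J' ∈ 𝓢 F', ∃ J ∈ 𝓢 F, J ⊆ J') :
    ZJm f K ∅ ∈ regularAt s₀ := by
  classical
  obtain ⟨s, K₀, A, hs, hK₀, hA⟩ := ZJx_dec hf h1 hK (D := ∅)
  set 𝒦 : Finset (Finset (GG n)) := K₀.biUnion Finset.powerset with h𝒦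
  have hmem : ∀ F, F ∈ 𝒦 ↔ ∃ F' ∈ K₀, F ⊆ F' := by
    intro F
    rw [h𝒦, Finset.mem_biUnion]
    simp only [Finset.mem_powerset]
  have hFl : ∀ F ∈ 𝒦, F ∈ Fl f ∅ s₀ := by
    intro F hF
    obtain ⟨F', hF', hs⟩ := (hmem F).1 hF
    exact Fl.subset (hK₀ F' hF') hs
  have hsub : K₀ ⊆ 𝒦 := fun F hF => (hmem F).2 ⟨F, hF, subset_rfl⟩
  set Z := ZJx f K ∅ (AddMonoidHom.id _) with hZ
  set P : PowerSeries (RX n) := (((s.map fac).prod : Polynomial (RX n)) : PowerSeries (RX n))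
    with hP
  -- the functional vectors
  have hpos : ∀ F ∈ 𝒦, ∀ k ∈ F, 0 < k.2 := fun F hF k hk => ((hFl F hF).1 k hk).pos
  -- the labels
  have hU : ∀ F ∈ 𝒦, F.Nonempty → ∃ U, U ⊆ suppG (∑ k ∈ F, k) ∧
      Disj01 (Gk f (∑ k ∈ F, k)) U ∧ ∀ J ∈ 𝓢 F, J ⊆ U := fun F hF hne =>
    (h𝓢 F (hFl F hF) hne).2.1
  choose! U hU using hU
  have hJdis : ∀ F ∈ 𝒦, F.Nonempty → ∀ J ∈ 𝓢 F, Disj01 (Gk f (∑ k ∈ F, k)) J := by
    intro F hF hne J hJ
    obtain ⟨-, h2, h3⟩ := hU F hF hne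
    exact h2.mono subset_rfl (h3 J hJ) fun j hj => by
      obtain ⟨u, hu, huj⟩ := h2.2 j (h3 J hJ hj)
      exact ⟨u, hu, by rw [huj]; exact one_ne_zero⟩
  -- the decomposition
  set c : Mot := qpw LU (∑ i, (0 : Fin n → ℤ) i - 1) with hc
  set A₀ : Finset (GG n) → (GG n →₀ Mot) := fun F => if F ∈ K₀ then A F else 0 with hA₀
  set A₁ : Finset (GG n) → (GG n →₀ Mot) := fun F =>
    A₀ F + (-c) • shG ((0, ((1 : ℕ) : ℤ)) : GG n) (A₀ F) with hA₁
  set Y : PowerSeries (RX n) :=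
    ((fac (uX 0 1, 1) : Polynomial (RX n)) : PowerSeries (RX n)) * (P * Z) with hY
  have hA₀s : ∀ z, cfun (P * Z) z = ∑ F ∈ 𝒦, GF F (A₀ F) z := by
    intro z
    rw [hP, hA z]
    have h2 : ∑ F ∈ K₀, GF F (A F) z = ∑ F ∈ K₀, GF F (A₀ F) z :=
      Finset.sum_congr rfl fun F hF => by rw [hA₀]; simp only [if_pos hF]
    rw [h2]
    refine Finset.sum_subset hsub fun F _ hF => ?_
    rw [hA₀]
    simp only [if_neg hF]
    exact GF_zero F z
  have hφ : ∀ z, cfun Y z = ∑ F ∈ 𝒦, GF F (A₁ F) z := by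
    intro z
    rw [hY, cfun_fac, hA₀s z, hA₀s, Finset.mul_sum, ← Finset.sum_sub_distrib]
    refine Finset.sum_congr rfl fun F _ => ?_
    rw [hA₁]
    simp only
    rw [GF_add, GF_smul, GF_shG, ← hc]
    ring
  have hYP : Y = P * (((fac (uX 0 1, 1) : Polynomial (RX n)) : PowerSeries (RX n)) * Z) := by
    rw [hY]
    ring
  obtain ⟨M, hM⟩ := patch LU 𝒦 (fun F hF F' hs => by
      obtain ⟨F'', hF'', hs'⟩ := (hmem F).1 hF
      exact (hmem F').2 ⟨F'', hF'', hs.trans hs'⟩) hpos 𝓢 U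
    (fun F hF hne J hJ => (hU F hF hne).2.2 J hJ)
    (fun F hF hne => Fl.ind (hFl F hF) (fil_col (hFl F hF) (hU F hF hne).2.1))
    (fun F hF hne => (h𝓢 F (hFl F hF) hne).1)
    (fun F hF F' hs hne J' hJ' => (h𝓢 F (hFl F hF) (hne.mono hs)).2.2.2 F' hs hne J' hJ')
    (fun F hF hne J hJ F' hF' hFF' z => Fl.h3 (hFl F hF) (hFl F' hF') hFF'
      (fil_col (hFl F hF) (hJdis F hF hne J hJ)) z)
    (cfun Y) A₁ hφ (fun F hF hne J hJ => by
      rw [hYP]
      refine fil_prod J _ (fun z => ?_) s fun w hw => (hs w hw).1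
      have hL := (h𝓢 F (hFl F hF) hne).2.2.1 J hJ
      have hcar := fun k hk => ((hFl F hF).1 k hk).mem
      have h2 : ∀ i, (∑ k ∈ F, k : GG n).1 i = ∑ k ∈ F, k.1 i := by
        intro i
        rw [Prod.fst_sum, Finset.sum_apply]
      have h3 : (∑ k ∈ F, k : GG n).2 = ∑ k ∈ F, k.2 := Prod.snd_sum
      have h0 : ∀ i, 0 ≤ (∑ k ∈ F, k : GG n).1 i := by
        intro i
        rw [h2]
        exact Finset.sum_nonneg fun k hk => (hcar k hk).1 i
      have h2pos : 0 < (∑ k ∈ F, k : GG n).2 := by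
        rw [h3]
        exact Finset.sum_pos (fun k hk => hpos F hF k hk) hne
      refine eq_main' hf hnd h2pos h0 ?_ ?_ (((hU F hF hne).2.2 J hJ).trans (hU F hF hne).1)
        (hJdis F hF hne J hJ) hL z
      · intro i
        have h4 : (∑ k ∈ F, k : GG n).1 i ≤ ∑ i, (∑ k ∈ F, k : GG n).1 i :=
          Finset.single_le_sum (f := fun i => (∑ k ∈ F, k : GG n).1 i) (fun i _ => h0 i)
            (Finset.mem_univ i)
        have h5 : ((∑ i, (∑ k ∈ F, k : GG n).1 i : ℤ) : ℚ) =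
            -s₀ * ((∑ k ∈ F, k : GG n).2 : ℤ) := by
          rw [h3]
          simp only [h2]
          rw [Finset.sum_comm]
          push_cast
          rw [Finset.mul_sum]
          refine Finset.sum_congr rfl fun k hk => ?_
          have h6 := ((hFl F hF).1 k hk).s0 k (hcar k hk)
          push_cast at h6
          exact h6
        have h6 : (((∑ k ∈ F, k : GG n).1 i : ℤ) : ℚ) ≤
            ((∑ i, (∑ k ∈ F, k : GG n).1 i : ℤ) : ℚ) := by exact_mod_cast h4
        have h7 : (0 : ℚ) < (((∑ k ∈ F, k : GG n).2 : ℤ) : ℚ) := by exact_mod_cast h2pos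
        have h8 : (((∑ k ∈ F, k : GG n).1 i : ℤ) : ℚ) <
            (K : ℚ) * (((∑ k ∈ F, k : GG n).2 : ℤ) : ℚ) := by
          rw [h5] at h6
          nlinarith
        exact_mod_cast h8
      · intro u hu
        rw [map_sum, h3]
        exact Finset.sum_le_sum fun k hk => (hcar k hk).2.2.1 u hu)
  -- the conclusion
  have h2 := regular_of_tw ((uX 0 1, 1) ::ₘ s) (s₀ := s₀) (fun w hw => by
    rcases Multiset.mem_cons.1 hw with rfl | hw
    · refine ⟨⟨0, 1, 1, rfl, ?_⟩, one_pos⟩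
      intro h
      apply h1
      push_cast at h
      linarith
    · exact hs w hw) Z M (fun z hz => by
    rw [Multiset.map_cons, Multiset.prod_cons, Polynomial.coe_mul, mul_assoc, ← hP, ← hY]
    exact hM z hz)
  rwa [hZ, map_augX_ZJx] at h2

end MPb07157
end
end

section

/-!
# Extension of tied pairs
-/

set_option linter.unusedSectionVars false

namespace MPb07157.LC

open Finset Module MPb07157.EX MPb07157.SK

variable {ι κ W W' : Type} [Fintype ι] [DecidableEq ι] [Fintype κ] [DecidableEq κ]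
  [AddCommGroup W] [Module ℚ W] [AddCommGroup W'] [Module ℚ W']
variable {a : ι → W} {ah : ι → W'} {pr : W' →ₗ[ℚ] W} {L : κ → W →ₗ[ℚ] ℚ} {c : κ → ι → ℕ} {one : W}
  {H0 : W →ₗ[ℚ] ℚ} {h : ι → ℚ} {J R U K : Finset κ} {v v' w w' : κ → ι} {φ ψ : W →ₗ[ℚ] ℚ}

/-- LC-79. **Extension of tied pairs** from `K` to `U`, if `K` has maximal `phi` in `U`.

Proof. Let `Us = span (a '' {e | On c K e})`.  `mixed` for the blocks `EX.sup c ∅ j`, `j ∈ U \ K`
(`Blk` with the forms `L j`, which vanish on `Us`), the heights `φ (a e) + h e`: for `R ⊆ U \ K`,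
`phi (K ∪ R) ≤ phi K` and `phi_eq_rank` give
`finrank Us + 2 * R.card ≤ finrank (Us ⊔ span ..)`.  Result: `(w, w', ψ)`; the new pairs are
`v, v'` on `K` and `w, w'` on `U \ K`, with `φ + ψ`.  `ah`-independence: apply `pr`, the coefficients
on `U \ K` are zero (`Vd.ind` modulo `Us`), then `TP.ind` for `K`.  (If `U ⊆ K` there is nothing to
do.) -/
theorem TP.extend [FiniteDimensional ℚ W] [Nonempty ι] (hC : Cfg a ah pr L c one H0)
    (hU : Fam c univ ∅ U) (hK : K ⊆ U) (hmax : ∀ X ⊆ U, phi c (rel a) X ≤ phi c (rel a) K)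
    (ht : TP a ah c K h v v' φ) : ∃ w w' ψ, TP a ah c U h w w' ψ := by
  have hsup : ∀ (k : κ) (e : ι), e ∈ EX.sup c ∅ k ↔ c k e ≠ 0 := by
    intro k e
    unfold EX.sup
    simp
  set Us : Submodule ℚ W := Submodule.span ℚ (a '' {e | On c K e}) with hUs
  have haUs : ∀ e, On c K e → a e ∈ Us := fun e he =>
    Submodule.subset_span (Set.mem_image_of_mem a he)
  have hL0 : ∀ j ∈ U \ K, ∀ u ∈ Us, L j u = 0 := by
    intro j hj u hu
    obtain ⟨hjU, hjK⟩ := Finset.mem_sdiff.1 hj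
    have hle : Us ≤ LinearMap.ker (L j) := by
      rw [hUs, Submodule.span_le]
      rintro _ ⟨e, ⟨k, hk, hke⟩, rfl⟩
      have h0 : L j (a e) = 0 := by
        rw [hC.L_a]
        by_contra hne
        have hne' : c j e ≠ 0 := fun h => hne (by rw [h]; rfl)
        exact hjK (hU.dj k (hK hk) j hjU e (Finset.notMem_empty e) hke hne' ▸ hk)
      exact h0
    exact hle hu
  have hB0 := hC.blk hU K hK Us hL0
  have hB : Blk a (EX.sup c ∅) L Us ∅ (U \ K) :=
    ⟨hB0.LU, fun j _ e he => absurd he (Finset.notMem_empty e), hB0.L1, hB0.L0⟩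
  have hd : ∀ R ⊆ U \ K, finrank ℚ Us + 2 * R.card ≤
      finrank ℚ (Us ⊔ Submodule.span ℚ (a '' {e | ∃ j ∈ R, e ∈ EX.sup c ∅ j}) :
        Submodule ℚ W) := by
    intro R hR
    have hRU : R ⊆ U := hR.trans Finset.sdiff_subset
    have h1 := hmax (K ∪ R) (Finset.union_subset hK hRU)
    rw [phi_eq_rank, phi_eq_rank] at h1
    have hdis : Disjoint K R := by
      rw [Finset.disjoint_left]
      intro k hk hkR
      exact (Finset.mem_sdiff.1 (hR hkR)).2 hk
    rw [Finset.card_union_of_disjoint hdis] at h1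
    have h2 : {e | On c (K ∪ R) e} = {e | On c K e} ∪ {e | ∃ j ∈ R, e ∈ EX.sup c ∅ j} := by
      ext e
      simp only [On, Set.mem_union, hsup, Finset.mem_union]
      constructor
      · rintro ⟨j, hj | hj, hje⟩
        · exact Or.inl ⟨j, hj, hje⟩
        · exact Or.inr ⟨j, hj, hje⟩
      · rintro (⟨j, hj, hje⟩ | ⟨j, hj, hje⟩)
        · exact ⟨j, Or.inl hj, hje⟩
        · exact ⟨j, Or.inr hj, hje⟩
    rw [h2, Set.image_union, Submodule.span_union] at h1
    rw [← hUs] at h1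
    push_cast at h1
    omega
  obtain ⟨w, w', ψ, hV⟩ := mixed (h := fun e => φ (a e) + h e) (U \ K) hB hd
  have hxK : ∀ j ∈ K, (if j ∈ K then v j else w j) = v j := fun j hj => if_pos hj
  have hxK' : ∀ j ∈ K, (if j ∈ K then v' j else w' j) = v' j := fun j hj => if_pos hj
  have hxD : ∀ j ∈ U \ K, (if j ∈ K then v j else w j) = w j := fun j hj =>
    if_neg (Finset.mem_sdiff.1 hj).2
  have hxD' : ∀ j ∈ U \ K, (if j ∈ K then v' j else w' j) = w' j := fun j hj =>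
    if_neg (Finset.mem_sdiff.1 hj).2
  refine ⟨fun j => if j ∈ K then v j else w j, fun j => if j ∈ K then v' j else w' j, φ + ψ,
    ?_, ?_, ?_, ?_⟩
  · intro j hj
    by_cases hjK : j ∈ K
    · simp only [if_pos hjK]
      exact ht.mem j hjK
    · simp only [if_neg hjK]
      have h1 := hV.mem j (Finset.mem_sdiff.2 ⟨hj, hjK⟩)
      exact ⟨(hsup _ _).1 h1.1, (hsup _ _).1 h1.2⟩
  · intro μ μ' hs
    rw [← Finset.sum_sdiff hK] at hs
    have hs1 : ∑ j ∈ U \ K, (μ j • ah (if j ∈ K then v j else w j) +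
        μ' j • ah (if j ∈ K then v' j else w' j)) =
        ∑ j ∈ U \ K, (μ j • ah (w j) + μ' j • ah (w' j)) :=
      Finset.sum_congr rfl fun j hj => by rw [hxD j hj, hxD' j hj]
    have hs2 : ∑ j ∈ K, (μ j • ah (if j ∈ K then v j else w j) +
        μ' j • ah (if j ∈ K then v' j else w' j)) =
        ∑ j ∈ K, (μ j • ah (v j) + μ' j • ah (v' j)) :=
      Finset.sum_congr rfl fun j hj => by rw [hxK j hj, hxK' j hj]
    rw [hs1, hs2] at hs
    have hpr := congrArg pr hs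
    rw [map_add, map_sum, map_sum, map_zero] at hpr
    have hpD : ∑ j ∈ U \ K, pr (μ j • ah (w j) + μ' j • ah (w' j)) =
        ∑ j ∈ U \ K, (μ j • a (w j) + μ' j • a (w' j)) :=
      Finset.sum_congr rfl fun j _ => by rw [map_add, map_smul, map_smul, hC.pr_a, hC.pr_a]
    have hpK : ∑ j ∈ K, pr (μ j • ah (v j) + μ' j • ah (v' j)) ∈ Us := by
      refine Submodule.sum_mem _ fun j hj => ?_
      rw [map_add, map_smul, map_smul, hC.pr_a, hC.pr_a]
      exact Submodule.add_mem _ (Submodule.smul_mem _ _ (haUs _ ⟨j, hj, (ht.mem j hj).1⟩))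
        (Submodule.smul_mem _ _ (haUs _ ⟨j, hj, (ht.mem j hj).2⟩))
    rw [hpD] at hpr
    have hmem : ∑ j ∈ U \ K, (μ j • a (w j) + μ' j • a (w' j)) ∈ Us := by
      rw [eq_neg_of_add_eq_zero_left hpr]
      exact Submodule.neg_mem _ hpK
    have hD0 := hV.ind μ μ' hmem
    have hs3 : ∑ j ∈ U \ K, (μ j • ah (w j) + μ' j • ah (w' j)) = 0 :=
      Finset.sum_eq_zero fun j hj => by
        rw [(hD0 j hj).1, (hD0 j hj).2, zero_smul, zero_smul, add_zero]
    rw [hs3, zero_add] at hs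
    have hK0 := ht.ind μ μ' hs
    intro j hj
    by_cases hjK : j ∈ K
    · exact hK0 j hjK
    · exact hD0 j (Finset.mem_sdiff.2 ⟨hj, hjK⟩)
  · rintro e ⟨j, hj, hje⟩
    rw [LinearMap.add_apply]
    by_cases hjK : j ∈ K
    · have h1 := ht.pos e ⟨j, hjK, hje⟩
      have h2 := hV.U0 _ (haUs e ⟨j, hjK, hje⟩)
      linarith
    · have h1 := hV.pP j (Finset.mem_sdiff.2 ⟨hj, hjK⟩) e ((hsup _ _).2 hje)
      linarith
  · intro j hj
    rw [LinearMap.add_apply, LinearMap.add_apply]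
    by_cases hjK : j ∈ K
    · simp only [if_pos hjK]
      have h1 := ht.tie j hjK
      have h2 := hV.U0 _ (haUs _ ⟨j, hjK, (ht.mem j hjK).1⟩)
      have h3 := hV.U0 _ (haUs _ ⟨j, hjK, (ht.mem j hjK).2⟩)
      exact ⟨by linarith [h1.1], by linarith [h1.2]⟩
    · simp only [if_neg hjK]
      have h1 := hV.tie j (Finset.mem_sdiff.2 ⟨hj, hjK⟩)
      exact ⟨by linarith [h1.1], by linarith [h1.2]⟩

end MPb07157.LC
end

section

/-!
# All states have owners
-/

set_option linter.unusedSectionVars false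

namespace MPb07157.LC

open Finset Module MPb07157.EX MPb07157.SK

variable {ι κ W W' : Type} [Fintype ι] [DecidableEq ι] [Fintype κ] [DecidableEq κ]
  [AddCommGroup W] [Module ℚ W] [AddCommGroup W'] [Module ℚ W']
variable {a : ι → W} {ah : ι → W'} {pr : W' →ₗ[ℚ] W} {L : κ → W →ₗ[ℚ] ℚ} {c : κ → ι → ℕ} {one : W}
  {H0 : W →ₗ[ℚ] ℚ} {h : ι → ℚ} {J R : Finset κ} {v v' w w' : κ → ι} {φ ψ : W →ₗ[ℚ] ℚ}

/-- LC-60. Functions that are orthogonal to all relations come from linear forms. -/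
theorem exists_form (a : ι → W) (g : ι → ℚ) (hg : ∀ ξ ∈ rel a, ∑ e, g e * ξ e = 0) :
    ∃ y : W →ₗ[ℚ] ℚ, ∀ e, y (a e) = g e := by
  classical
  have hG : Fintype.linearCombination ℚ (fun e => g e) ∈
      (LinearMap.ker (Fintype.linearCombination ℚ a)).dualAnnihilator := by
    rw [Submodule.mem_dualAnnihilator]
    intro ξ hξ
    rw [Fintype.linearCombination_apply]
    have h1 := hg ξ hξ
    rw [← h1]
    exact Finset.sum_congr rfl fun e _ => by rw [smul_eq_mul, mul_comm]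
  rw [← LinearMap.range_dualMap_eq_dualAnnihilator_ker] at hG
  obtain ⟨y, hy⟩ := hG
  refine ⟨y, fun e => ?_⟩
  have h1 := LinearMap.congr_fun hy (Pi.single e 1)
  rw [LinearMap.dualMap_apply, Fintype.linearCombination_apply_single,
    Fintype.linearCombination_apply_single, one_smul, one_smul] at h1
  exact h1

/-- LC-61. All states have owners.

Proof. `TI` for the height `h` (`Cfg.pre`, `Cfg.homV`).  Let `S` be a state with
`∑ h e * ξ e = ∑ s e * ξ e` on `rel a`, `0 ≤ s`, zero off `S`; `exists_form` for `s - h` gives `φ`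
with gaps `s`.  Put `ρ = Sᶜ`: independent for `a` (relations supported on `ρ` are zero), so also for
`ah` (apply `pr`), `one` in the span (common zero of `S`); the owner given by `HL` is an owner of `S`
(as in `SK.sys_of_config`). -/
theorem Cfg.sys (hC : Cfg a ah pr L c one H0) (hHL : HL a ah c one h) :
    Sys c univ univ (pts a one) (rel a) ∅ := by
  classical
  have hP := hC.pre
  refine ⟨hP.ne, hP.aff, hP.zero, hP.col, Finset.Subset.refl _, fun S hS hfull => ?_⟩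
  rw [Finset.empty_union]
  refine TI (h := h) hP hC.homV (fun S hS hin => ?_) S ⟨hS, hfull⟩
  obtain ⟨s, hs0, hsS, hsum⟩ := hin
  obtain ⟨φ, hφ⟩ := exists_form a (fun e => s e - h e) (fun ξ hξ => by
    have h1 := hsum ξ hξ
    simp only [sub_mul, Finset.sum_sub_distrib]
    linarith)
  have hgap : ∀ e, φ (a e) + h e = s e := fun e => by
    rw [hφ]
    ring
  obtain ⟨p, hpA, hp⟩ := hS.acy.ne
  have hpA' : ∑ i, p i • a i = one := hpA
  have hind : ∀ t : ι → ℚ, ∑ e ∈ Sᶜ, t e • ah e = 0 → ∀ e ∈ Sᶜ, t e = 0 := by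
    intro t ht e he
    have h1 : ∑ e ∈ Sᶜ, t e • a e = 0 := by
      have h2 := congrArg pr ht
      rw [map_sum, map_zero] at h2
      rw [← h2]
      exact Finset.sum_congr rfl fun i _ => by rw [map_smul, hC.pr_a]
    have h3 := hS.pt (fun e => if e ∈ S then 0 else t e) ?_ (fun f hf => if_pos hf)
    · have h4 := congrFun h3 e
      rw [if_neg (Finset.mem_compl.1 he)] at h4
      exact h4
    · rw [mem_rel, ← Finset.sum_add_sum_compl S, ← h1]
      have h5 : ∑ i ∈ S, (if i ∈ S then (0 : ℚ) else t i) • a i = 0 :=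
        Finset.sum_eq_zero fun i hi => by rw [if_pos hi, zero_smul]
      rw [h5, zero_add]
      exact Finset.sum_congr rfl fun i hi => by rw [if_neg (Finset.mem_compl.1 hi)]
  have hspan : one ∈ Submodule.span ℚ (a '' ((Sᶜ : Finset ι) : Set ι)) := by
    rw [← hpA']
    refine Submodule.sum_mem _ fun i _ => ?_
    by_cases hi : i ∈ S
    · rw [hp i hi, zero_smul]
      exact Submodule.zero_mem _
    · exact Submodule.smul_mem _ _ (Submodule.subset_span
        ⟨i, by rw [Finset.mem_coe, Finset.mem_compl]; exact hi, rfl⟩)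
  obtain ⟨v, hv, k, hu⟩ := hHL φ Sᶜ (fun e => by rw [hgap]; exact hs0 e)
    (fun e he => by rw [hgap]; exact hsS e (Finset.mem_compl.1 he)) hind hspan
  refine ⟨v, k, Finset.mem_compl.1 hv, ?_, Finset.mem_univ k⟩
  ext k'
  rw [mem_U, Finset.mem_singleton]
  constructor
  · rintro ⟨_, h4, h5⟩
    refine (hu k').1 fun i hi => ?_
    split_ifs with h6
    · rw [h6]
      exact h4
    · by_contra h7
      exact (h5 i h7).elim (fun h => (Finset.mem_compl.1 hi) h) h6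
  · intro h3
    have h5 := (hu k').2 h3
    refine ⟨Finset.mem_univ _, by rw [h5 v hv, if_pos rfl], fun i hi => ?_⟩
    by_contra h6
    push Not at h6
    have h7 := h5 i (Finset.mem_compl.2 h6.1)
    rw [if_neg h6.2] at h7
    exact hi h7

end MPb07157.LC
end

section

/-!
# A cell without owners off the conflict-free deficits
-/

set_option linter.unusedSectionVars false

namespace MPb07157.LC

open Finset Module MPb07157.EX MPb07157.SK

variable {ι κ W W' : Type} [Fintype ι] [DecidableEq ι] [Fintype κ] [DecidableEq κ]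
  [AddCommGroup W] [Module ℚ W] [AddCommGroup W'] [Module ℚ W']
variable {a : ι → W} {ah : ι → W'} {pr : W' →ₗ[ℚ] W} {L : κ → W →ₗ[ℚ] ℚ} {c : κ → ι → ℕ} {one : W}
  {H0 : W →ₗ[ℚ] ℚ} {h : ι → ℚ} {J R : Finset κ} {v v' w w' : κ → ι} {φ ψ : W →ₗ[ℚ] ℚ}

/-- LC-62. **The off-cell.**

Proof.  Let `J = Jp c univ (rel a)`, `Q = PU c ∅ J = {e | On c J e}`, `g e = φ (a e) + h e`.  By
`exists_bad` and `TI` for the system off `Q` (`off_pre`, `off_hom`) and the height `g` there is a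
state `S` without owner and with `∑ g e * ξ e = ∑ s e * ξ e` for `ξ ∈ offV (rel a) Q`, `0 ≤ s`, zero
off `S`.  `S` is disjoint from `Q`.  The function `f e = g e - s e` off `Q`, `0` on `Q`, is
orthogonal to `rel a`, so `f e = y (a e)` (`exists_form`); `φ' = φ - y`, `ρ = (S ∪ Q)ᶜ`.
Independence: a combination of `ρ` in the span of `Q` gives a relation `η` that vanishes on `S`, so
`piQ Q η = 0` (`St.pt`).  `one`: the common zero of `S` in `offA`.  Owners: `k' ∈ U c (offC ..) S w`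
iff `c k'` vanishes on `Q` and is the dual vector of `w` on `ρ`. -/
theorem off_cell (hC : Cfg a ah pr L c one H0) (h : ι → ℚ) (φ : W →ₗ[ℚ] ℚ) :
    ∃ (ρ : Finset ι) (φ' : W →ₗ[ℚ] ℚ), (∀ e ∈ ρ, ¬ On c (Jp c univ (rel a)) e) ∧
      (∀ e, ¬ On c (Jp c univ (rel a)) e → 0 ≤ φ' (a e) + h e) ∧
      (∀ e ∈ ρ, φ' (a e) + h e = 0) ∧
      (∀ e, On c (Jp c univ (rel a)) e → φ' (a e) = φ (a e)) ∧
      (∀ s : ι → ℚ, ∑ e ∈ ρ, s e • a e ∈
        Submodule.span ℚ (a '' {e | On c (Jp c univ (rel a)) e}) → ∀ e ∈ ρ, s e = 0) ∧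
      one ∈ Submodule.span ℚ (a '' (ρ : Set ι)) ⊔
        Submodule.span ℚ (a '' {e | On c (Jp c univ (rel a)) e}) ∧
      ∀ w ∈ ρ, ∀ k, ¬ ∀ k', ((∀ e, On c (Jp c univ (rel a)) e → c k' e = 0) ∧
        ∀ i ∈ ρ, c k' i = if i = w then 1 else 0) ↔ k' = k := by
  classical
  have hP := hC.pre
  have hom := hC.homV
  have hJ : Fam c univ ∅ (Jp c univ (rel a)) := Jp_fam
  have hP' := off_pre hP (PU c ∅ (Jp c univ (rel a)))
  have hom' := off_hom hP hJ hom
  have hOn : ∀ e, On c (Jp c univ (rel a)) e ↔ e ∈ PU c ∅ (Jp c univ (rel a)) := by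
    intro e
    rw [SK.mem_PU]
    unfold On
    simp
  obtain ⟨S₀, hS₀, hno₀⟩ := exists_bad hP
  have hex : ∃ S, St (offA (pts a one) (PU c ∅ (Jp c univ (rel a))))
      (offV (rel a) (PU c ∅ (Jp c univ (rel a)))) S ∧
      InC (offV (rel a) (PU c ∅ (Jp c univ (rel a)))) (fun e => φ (a e) + h e) S ∧
      ¬ ∃ w k, Own c (offC c univ (PU c ∅ (Jp c univ (rel a))))
        (offC c univ (PU c ∅ (Jp c univ (rel a)))) S w k := by
    by_contra hcon
    push Not at hcon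
    apply hno₀
    refine TI hP' hom' (h := fun e => φ (a e) + h e) ?_ S₀ hS₀
    intro S hS hI
    obtain ⟨w, k, ho⟩ := hcon S hS hI
    exact ⟨w, k, ho⟩
  obtain ⟨S, hS, ⟨s, hs0, hsS, hsum⟩, hno⟩ := hex
  have hOn' : {e | On c (Jp c univ (rel a)) e} =
      ((PU c ∅ (Jp c univ (rel a)) : Finset ι) : Set ι) := by
    ext e
    rw [Set.mem_ofPred_eq, Finset.mem_coe]
    exact hOn e
  rw [hOn']
  simp only [hOn]
  clear hOn' hOn
  generalize hQ : PU c ∅ (Jp c univ (rel a)) = Q at *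
  have hpi : ∀ (η : ι → ℚ) (e : ι), piQ Q η e = if e ∈ Q then 0 else η e := fun _ _ => rfl
  have hSQ : ∀ e ∈ S, e ∉ Q := by
    intro e he heQ
    obtain ⟨ξ, hξ, hpos⟩ := hS.acy.pos
    obtain ⟨η, _, rfl⟩ := mem_offV.1 hξ
    have h1 := hpos e he
    rw [hpi, if_pos heQ] at h1
    exact lt_irrefl _ h1
  obtain ⟨y, hy⟩ := exists_form a (fun e => if e ∈ Q then 0 else φ (a e) + h e - s e) (by
    intro η hη
    have h1 := hsum (piQ Q η) (mem_offV.2 ⟨η, hη, rfl⟩)
    have h2 : ∑ e, (if e ∈ Q then 0 else φ (a e) + h e - s e) * η e =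
        ∑ e, (φ (a e) + h e) * piQ Q η e - ∑ e, s e * piQ Q η e := by
      rw [← Finset.sum_sub_distrib]
      refine Finset.sum_congr rfl fun e _ => ?_
      rw [hpi]
      split_ifs <;> ring
    rw [h2, h1, sub_self])
  have hρ : ∀ e, e ∈ (S ∪ Q)ᶜ ↔ e ∉ S ∧ e ∉ Q := by
    intro e
    rw [Finset.mem_compl, Finset.mem_union, not_or]
  refine ⟨(S ∪ Q)ᶜ, φ - y, ?_, ?_, ?_, ?_, ?_, ?_, ?_⟩
  · intro e he
    exact ((hρ e).1 he).2
  · intro e he
    rw [LinearMap.sub_apply, hy e, if_neg he]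
    have := hs0 e
    linarith
  · intro e he
    obtain ⟨h1, h2⟩ := (hρ e).1 he
    rw [LinearMap.sub_apply, hy e, if_neg h2, hsS e h1]
    ring
  · intro e he
    rw [LinearMap.sub_apply, hy e, if_pos he, sub_zero]
  · intro r hr e he
    rw [Submodule.mem_span_image_finset_iff_exists_fun'] at hr
    obtain ⟨q, hq⟩ := hr
    have h1 : (fun e => if e ∈ (S ∪ Q)ᶜ then r e else if e ∈ Q then - q e else 0) ∈ rel a := by
      rw [mem_rel]
      have h2 : ∀ e, (if e ∈ (S ∪ Q)ᶜ then r e else if e ∈ Q then - q e else 0) • a e =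
          (if e ∈ (S ∪ Q)ᶜ then r e • a e else 0) - (if e ∈ Q then q e • a e else 0) := by
        intro e
        by_cases h3 : e ∈ (S ∪ Q)ᶜ
        · rw [if_pos h3, if_pos h3, if_neg ((hρ e).1 h3).2, sub_zero]
        · rw [if_neg h3, if_neg h3, zero_sub]
          split_ifs
          · rw [neg_smul]
          · rw [zero_smul, neg_zero]
      rw [Finset.sum_congr rfl fun e _ => h2 e, Finset.sum_sub_distrib, ← Finset.sum_filter,
        ← Finset.sum_filter, Finset.filter_mem_eq_inter, Finset.filter_mem_eq_inter,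
        Finset.univ_inter, Finset.univ_inter, hq, sub_self]
    have h2 := hS.pt _ (mem_offV.2 ⟨_, h1, rfl⟩) (by
      intro f hf
      rw [hpi, if_neg (hSQ f hf)]
      rw [if_neg (fun h3 => ((hρ f).1 h3).1 hf), if_neg (hSQ f hf)])
    have h3 := congrFun h2 e
    rw [hpi, if_neg ((hρ e).1 he).2, if_pos he] at h3
    exact h3
  · obtain ⟨p, hp, hp0⟩ := hS.acy.ne
    obtain ⟨x, hx, rfl⟩ := hp
    have hx' : ∑ i, x i • a i = one := hx
    have h1 : ∑ i, x i • a i = ∑ i ∈ (S ∪ Q)ᶜ, x i • a i + ∑ i ∈ Q, x i • a i := by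
      rw [← Finset.sum_compl_add_sum (S ∪ Q), add_right_inj]
      symm
      refine Finset.sum_subset Finset.subset_union_right fun i hi hiQ => ?_
      have hiS : i ∈ S := (Finset.mem_union.1 hi).resolve_right hiQ
      have h2 := hp0 i hiS
      rw [hpi, if_neg hiQ] at h2
      rw [h2, zero_smul]
    rw [← hx', h1]
    refine Submodule.add_mem_sup ?_ ?_
    · exact Submodule.sum_mem _ fun i hi => Submodule.smul_mem _ _ (Submodule.subset_span
        ⟨i, hi, rfl⟩)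
    · exact Submodule.sum_mem _ fun i hi => Submodule.smul_mem _ _ (Submodule.subset_span
        ⟨i, hi, rfl⟩)
  · intro w hw k hcon
    apply hno
    have hwS := ((hρ w).1 hw).1
    have hU : ∀ k', k' ∈ U c (offC c univ Q) S w ↔ k' = k := by
      intro k'
      rw [← hcon k', mem_U, mem_offC]
      constructor
      · rintro ⟨⟨_, h1⟩, h2, h3⟩
        refine ⟨h1, fun i hi => ?_⟩
        split_ifs with h4
        · rw [h4]
          exact h2
        · by_contra h5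
          exact (h3 i h5).elim ((hρ i).1 hi).1 h4
      · rintro ⟨h1, h2⟩
        refine ⟨⟨Finset.mem_univ _, h1⟩, ?_, ?_⟩
        · rw [h2 w hw, if_pos rfl]
        · intro e he
          by_contra h3
          push Not at h3
          have h4 : e ∉ Q := fun h5 => he (h1 e h5)
          have h5 := h2 e ((hρ e).2 ⟨h3.1, h4⟩)
          rw [if_neg h3.2] at h5
          exact he h5
    refine ⟨w, k, hwS, ?_, ?_⟩
    · ext k'
      rw [hU k', Finset.mem_singleton]
    · exact (mem_U.1 ((hU k).2 rfl)).1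

end MPb07157.LC
end

section

/-!
# The configuration of a face: definitions
-/

noncomputable section

namespace MPb07157

open MvPolynomial Finset

variable {n : ℕ} {f : MvPolynomial (Fin n) ℂ} {s₀ : ℚ}

/-- The exponents as rational vectors. -/
def vc (G : Finset (Fin n →₀ ℕ)) (u : {u // u ∈ G}) : Fin n → ℚ := fun i => (u.1 i : ℚ)

/-- The projection to the coordinates in `P`. -/
def prP (P : Finset (Fin n)) : (Fin n → ℚ) →ₗ[ℚ] ({j // j ∈ P} → ℚ) :=
  LinearMap.funLeft ℚ ℚ (Subtype.val : {j // j ∈ P} → Fin n)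

/-- The projected exponents. -/
def aP (G : Finset (Fin n →₀ ℕ)) (P : Finset (Fin n)) (u : {u // u ∈ G}) : {j // j ∈ P} → ℚ :=
  fun j => (u.1 j.1 : ℚ)

/-- The columns. -/
def cP (G : Finset (Fin n →₀ ℕ)) (P : Finset (Fin n)) (j : {j // j ∈ P}) (u : {u // u ∈ G}) : ℕ :=
  u.1 j.1

/-- The linear form `k / k.2`. -/
def HP (P : Finset (Fin n)) (k : GG n) : ({j // j ∈ P} → ℚ) →ₗ[ℚ] ℚ :=
  ∑ j : {j // j ∈ P}, (((k.1 j.1 : ℤ) : ℚ) / ((k.2 : ℤ) : ℚ)) • LinearMap.proj j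

/-- LC-70. The configuration of the face of `k`.

Proof. `one_mem`: apply `prP` to `IsB.one_mem` (the unit vectors outside `P` become zero); `hom`:
`HP P k (aP u) = dotH u k / k.2 = 1` (the coordinates of `k` outside `suppG k` are zero). -/
theorem IsB.cfg {D : Finset (Fin n)} {k : GG n} (hk : IsB f D s₀ k) :
    LC.Cfg (aP (Gk f k) (suppG k)) (vc (Gk f k)) (prP (suppG k)) (fun j => LinearMap.proj j)
      (cP (Gk f k) (suppG k)) (fun _ => 1) (HP (suppG k) k) := by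
  classical
  refine ⟨fun _ => rfl, fun _ _ => rfl, ?_, fun _ => rfl, ?_⟩
  · have h1 := Submodule.mem_map_of_mem (f := prP (suppG k)) hk.one_mem
    have h2 : prP (suppG k) (oneP (suppG k)) = fun _ => 1 := by
      funext j
      show oneP (suppG k) j.1 = 1
      unfold oneP
      rw [if_pos j.2]
    rw [h2] at h1
    refine (?_ : Submodule.map (prP (suppG k)) _ ≤ _) h1
    rw [Submodule.map_span_le]
    rintro _ ⟨x, rfl⟩
    rcases x with u | i
    · exact Submodule.subset_span ⟨u, rfl⟩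
    · have h3 : prP (suppG k) (elV (Gk f k) (suppG k) (Sum.inr i)) = 0 := by
        funext j
        show (Pi.single i.1 (1 : ℚ) : Fin n → ℚ) j.1 = 0
        have hne : j.1 ≠ i.1 := fun h => i.2 (by rw [← h]; exact j.2)
        exact Pi.single_eq_of_ne hne _
      rw [h3]
      exact Submodule.zero_mem _
  · intro e
    have hpos : ((k.2 : ℤ) : ℚ) ≠ 0 := by
      have := hk.pos
      exact_mod_cast this.ne'
    have he : dotH e.1 k = k.2 := (Finset.mem_filter.1 e.2).2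
    unfold HP
    rw [LinearMap.sum_apply]
    have h1 : ∀ j : {j // j ∈ suppG k},
        ((((k.1 j.1 : ℤ) : ℚ) / ((k.2 : ℤ) : ℚ)) • LinearMap.proj (R := ℚ) (φ := fun _ : {j // j ∈ suppG k} => ℚ) j)
          (aP (Gk f k) (suppG k) e) = ((k.1 j.1 : ℤ) : ℚ) * ((e.1 j.1 : ℕ) : ℚ) / ((k.2 : ℤ) : ℚ) := by
      intro j
      rw [LinearMap.smul_apply, smul_eq_mul, LinearMap.proj_apply]
      show _ * ((e.1 j.1 : ℕ) : ℚ) = _
      ring
    rw [Finset.sum_congr rfl fun j _ => h1 j, ← Finset.sum_div,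
      Finset.sum_coe_sort (suppG k) (fun j => ((k.1 j : ℤ) : ℚ) * ((e.1 j : ℕ) : ℚ))]
    rw [div_eq_one_iff_eq hpos, ← he, dotH_apply]
    push_cast
    refine Finset.sum_subset_zero_on_sdiff (Finset.subset_univ _) ?_ ?_
    · intro j hj
      have hj' : j ∉ suppG k := (Finset.mem_sdiff.1 hj).2
      have h0 : k.1 j = 0 := by
        by_contra h
        exact hj' (Finset.mem_filter.2 ⟨Finset.mem_univ _, h⟩)
      rw [h0]
      simp
    · intro j _
      rfl

/-- The part of the weight outside `P`. -/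
def hb (G : Finset (Fin n →₀ ℕ)) (P : Finset (Fin n)) (b : Fin n → ℤ) (u : {u // u ∈ G}) : ℚ :=
  ∑ i ∈ Pᶜ, ((b i : ℤ) : ℚ) * ((u.1 i : ℕ) : ℚ)

/-- A good set in a compact face: the hypotheses of the local root theorem. -/
structure GoodSetL (f : MvPolynomial (Fin n) ℂ) (s₀ : ℚ) (k : GG n) (ω : Fin n → ℕ) (N : ℕ)
    (ρ : Finset (Sf f)) (γ : Sf f → ℚ) : Prop extends GoodSet f s₀ k ρ γ where
  hN : 0 < N
  hω : ∀ j, 0 < ω j
  hmin : ∀ v ∈ f.support, N ≤ wt ω v
  htie : ∀ v ∈ ρ, wt ω v.1 = N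

/-- LC-71. Root theorem: as `GoodSet.root_local` (`PS/MainL.lean`), with `root_twin_form`. -/
theorem GoodSetL.root (hf : f ≠ 0) (halg : AlgebraicIndependent ℚ (cf f)) {D : Finset (Fin n)}
    {k : GG n} (hk : IsB f D s₀ k) {ω : Fin n → ℕ} {N : ℕ} {ρ : Finset (Sf f)} {γ : Sf f → ℚ}
    (h : GoodSetL f s₀ k ω N ρ γ) : IsLocalBernsteinSatoRoot f s₀ := by
  classical
  have hcar := hk.mem
  have hwt : ∀ v : Fin n →₀ ℕ, ((wt (fun i => (k.1 i).toNat) v : ℕ) : ℤ) = dotH v k := by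
    intro v
    unfold wt
    rw [dotH_apply]
    push_cast
    refine Finset.sum_congr rfl fun j _ => ?_
    rw [Int.toNat_of_nonneg (hcar.1 j)]
  have hN0 : 0 < k.2.toNat := by have := hk.pos; omega
  have hmin : ∀ v ∈ f.support, k.2.toNat ≤ wt (fun i => (k.1 i).toNat) v := by
    intro v hv
    have h2 := hcar.2.2.1 v hv
    have h3 := hwt v
    omega
  have hρ : ∀ v ∈ ρ, wt (fun i => (k.1 i).toNat) v.1 = k.2.toNat := by
    intro v hv
    have h2 : dotH v.1 k = k.2 := (Finset.mem_filter.1 (h.face v hv)).2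
    have h3 := hwt v.1
    omega
  refine (roots_of_form fun b hb => ?_).2
  have h1 := root_twin_form hf halg (w := fun i => (k.1 i).toNat) (ω := ω)
    (N := k.2.toNat) (Nω := N) hN0 h.hN hmin h.hω h.hmin
    (suppG k) (fun j hj => by
      unfold suppG
      refine Finset.mem_filter.2 ⟨Finset.mem_univ _, fun h0 => ?_⟩
      rw [h0] at hj
      exact absurd hj (by decide)) ρ hρ h.htie
    h.lin γ h.zero h.one h.tw b hb
  rw [← h.sum]
  exact_mod_cast h1

end MPb07157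
end
end

section

/-!
# Good sets from sets without owner
-/

noncomputable section

namespace MPb07157

open MvPolynomial Finset

variable {n : ℕ} {f : MvPolynomial (Fin n) ℂ} {s₀ : ℚ}

private theorem sum_G {G : Finset (Fin n →₀ ℕ)} (hG : G ⊆ f.support)
    (ρ : Finset {u // u ∈ G}) (F : {u // u ∈ G} → ℚ) (H : Sf f → ℚ)
    (h1 : ∀ (v : Sf f) (h : v.1 ∈ G), H v = if (⟨v.1, h⟩ : {u // u ∈ G}) ∈ ρ then F ⟨v.1, h⟩ else 0)
    (h2 : ∀ v : Sf f, v.1 ∉ G → H v = 0) :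
    ∑ x ∈ ρ, F x = ∑ v, H v := by
  classical
  have e1 : ∑ x ∈ ρ, F x = ∑ x : {u // u ∈ G}, if x ∈ ρ then F x else 0 := by
    rw [Finset.sum_ite_mem, Finset.univ_inter]
  rw [e1]
  symm
  refine Finset.sum_bij_ne_zero (fun (v : Sf f) _ (hv : H v ≠ 0) =>
    (⟨v.1, by by_contra h; exact hv (h2 v h)⟩ : {u // u ∈ G})) ?_ ?_ ?_ ?_
  · intro v _ _
    exact Finset.mem_univ _
  · intro v _ _ v' _ _ h
    exact Subtype.ext (Subtype.mk.inj h)
  · intro u _ hu
    refine ⟨⟨u.1, hG u.2⟩, Finset.mem_univ _, ?_, rfl⟩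
    rw [h1 _ u.2]
    exact hu
  · intro v _ hv
    rw [h1]

/-- LC-72. An independent set without owner, with `1` in the span of its projections, gives a good
set.  Proof as `IsB.good` (`PS/R2.lean`), without the unit vectors: `ρ₁` = the set of the `v : Sf f`
with `v.1 ∈ Gk f k` and `⟨v.1, _⟩ ∈ ρ`, `γ` = the coefficients of `1`. -/
theorem IsB.goodP {D : Finset (Fin n)} {k : GG n} (hk : IsB f D s₀ k)
    (ρ : Finset {u // u ∈ Gk f k})
    (lin : ∀ s : {u // u ∈ Gk f k} → ℚ, ∑ e ∈ ρ, s e • vc (Gk f k) e = 0 → ∀ e ∈ ρ, s e = 0)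
    (h1 : (fun _ => 1) ∈ Submodule.span ℚ (aP (Gk f k) (suppG k) '' (ρ : Set _)))
    (hno : ¬ ∃ v ∈ ρ, ∃ c, ∀ c', (∀ i ∈ ρ, cP (Gk f k) (suppG k) c' i =
      if i = v then 1 else 0) ↔ c' = c) :
    ∃ (ρ₁ : Finset (Sf f)) (γ : Sf f → ℚ), GoodSet f s₀ k ρ₁ γ ∧
      ∀ v ∈ ρ₁, ∃ h : v.1 ∈ Gk f k, (⟨v.1, h⟩ : {u // u ∈ Gk f k}) ∈ ρ := by
  classical
  have hGs : Gk f k ⊆ f.support := Finset.filter_subset _ _
  obtain ⟨g₀, hg₀⟩ := (Submodule.mem_span_image_finset_iff_exists_fun ℚ).1 h1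
  obtain ⟨g, hg⟩ : ∃ g : {u // u ∈ Gk f k} → ℚ,
      ∑ x ∈ ρ, g x • aP (Gk f k) (suppG k) x = fun _ => 1 := by
    refine ⟨fun x => if h : x ∈ ρ then g₀ ⟨x, h⟩ else 0, ?_⟩
    rw [← hg₀, ← Finset.sum_coe_sort ρ]
    refine Finset.sum_congr rfl fun x _ => ?_
    beta_reduce
    rw [dif_pos x.2]
  let ρ₁ : Finset (Sf f) := Finset.univ.filter fun v =>
    ∃ h : v.1 ∈ Gk f k, (⟨v.1, h⟩ : {u // u ∈ Gk f k}) ∈ ρ
  let γ : Sf f → ℚ := fun v => if h : v.1 ∈ Gk f k then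
    (if (⟨v.1, h⟩ : {u // u ∈ Gk f k}) ∈ ρ then g ⟨v.1, h⟩ else 0) else 0
  have hρ₁ : ∀ v, v ∈ ρ₁ ↔ ∃ h : v.1 ∈ Gk f k, (⟨v.1, h⟩ : {u // u ∈ Gk f k}) ∈ ρ := by
    intro v
    simp only [ρ₁, Finset.mem_filter, Finset.mem_univ, true_and]
  have hγ1 : ∀ (v : Sf f) (h : v.1 ∈ Gk f k),
      γ v = if (⟨v.1, h⟩ : {u // u ∈ Gk f k}) ∈ ρ then g ⟨v.1, h⟩ else 0 := by
    intro v h
    simp only [γ, dif_pos h]
  have hγ2 : ∀ v : Sf f, v.1 ∉ Gk f k → γ v = 0 := by
    intro v h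
    simp only [γ, dif_neg h]
  have hγ0 : ∀ v, v ∉ ρ₁ → γ v = 0 := by
    intro v hv
    by_cases h : v.1 ∈ Gk f k
    · rw [hγ1 v h, if_neg]
      exact fun h' => hv ((hρ₁ v).2 ⟨h, h'⟩)
    · exact hγ2 v h
  have hone : ∀ j ∈ suppG k, ∑ v, γ v * ((v.1 j : ℕ) : ℚ) = 1 := by
    intro j hj
    have e1 := congrFun hg ⟨j, hj⟩
    rw [Finset.sum_apply] at e1
    rw [← e1]
    symm
    refine sum_G hGs ρ _ _ (fun v h => ?_) (fun v h => ?_)
    · rw [hγ1 v h]
      split_ifs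
      · rfl
      · rw [zero_mul]
    · rw [hγ2 v h, zero_mul]
  refine ⟨ρ₁, γ, ⟨fun v hv => ?_, fun g' h0 hs => ?_, hγ0, hone, fun j hj => ?_, ?_⟩,
    fun v hv => (hρ₁ v).1 hv⟩
  · exact ((hρ₁ v).1 hv).1
  · -- independence
    have h2 := lin (fun x => g' ⟨x.1, hGs x.2⟩) (by
      funext j
      rw [Finset.sum_apply, Pi.zero_apply]
      refine Eq.trans ?_ (hs j)
      rw [← sum_G (f := f) hGs ρ (fun x : {u // u ∈ Gk f k} =>
          (g' ⟨x.1, hGs x.2⟩ • vc (Gk f k) x) j)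
          (fun v => g' v * ((v.1 j : ℕ) : ℚ)) (fun v h => ?_) (fun v h => ?_)]
      · by_cases h' : (⟨v.1, h⟩ : {u // u ∈ Gk f k}) ∈ ρ
        · rw [if_pos h']
          rfl
        · rw [if_neg h', h0 v, zero_mul]
          intro hv
          exact h' ((hρ₁ v).1 hv).2
      · rw [h0 v, zero_mul]
        intro hv
        exact h ((hρ₁ v).1 hv).1)
    funext v
    by_cases hv : v ∈ ρ₁
    · obtain ⟨h, h'⟩ := (hρ₁ v).1 hv
      exact h2 ⟨v.1, h⟩ h'
    · exact h0 v hv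
  · -- twins
    by_cases hex : ∃ v ∈ ρ₁, (∀ m : ℕ, γ v ≠ m + 1) ∧ 0 < v.1 j
    · exact Or.inl hex
    right
    push Not at hex
    have hint : ∀ v ∈ ρ₁, v.1 j ≠ 0 → ∃ m : ℕ, γ v = m + 1 := by
      intro v hv hvj
      by_contra hc
      push Not at hc
      exact hvj (Nat.le_zero.1 (hex v hv hc))
    have hnn : ∀ v, 0 ≤ γ v * ((v.1 j : ℕ) : ℚ) := by
      intro v
      by_cases hv : v ∈ ρ₁
      · by_cases hvj : v.1 j = 0
        · rw [hvj]
          simp
        · obtain ⟨m, hm⟩ := hint v hv hvj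
          rw [hm]
          positivity
      · rw [hγ0 v hv, zero_mul]
    obtain ⟨v₀, hv₀, hv₀j⟩ : ∃ v ∈ ρ₁, v.1 j ≠ 0 := by
      by_contra hc
      push Not at hc
      have e1 := hone j hj
      rw [Finset.sum_eq_zero] at e1
      · exact zero_ne_one e1
      · intro v _
        by_cases hv : v ∈ ρ₁
        · rw [hc v hv]
          simp
        · rw [hγ0 v hv, zero_mul]
    have hge : ∀ v ∈ ρ₁, v.1 j ≠ 0 → (((v.1 j : ℕ) : ℚ)) ≤ γ v * ((v.1 j : ℕ) : ℚ) := by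
      intro v hv hvj
      obtain ⟨m, hm⟩ := hint v hv hvj
      rw [hm]
      have e1 : (0 : ℚ) ≤ m := Nat.cast_nonneg _
      have e2 : (0 : ℚ) ≤ ((v.1 j : ℕ) : ℚ) := Nat.cast_nonneg _
      nlinarith
    have hv₀1 : v₀.1 j = 1 := by
      have e1 : γ v₀ * ((v₀.1 j : ℕ) : ℚ) ≤ 1 := by
        rw [← hone j hj]
        exact Finset.single_le_sum (f := fun v : Sf f => γ v * ((v.1 j : ℕ) : ℚ))
          (fun v _ => hnn v) (Finset.mem_univ v₀)
      have e2 := (hge v₀ hv₀ hv₀j).trans e1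
      have e3 : v₀.1 j ≤ 1 := by exact_mod_cast e2
      omega
    have hother : ∀ v ∈ ρ₁, v ≠ v₀ → v.1 j = 0 := by
      intro v hv hne
      by_contra hvj
      have e1 : γ v * ((v.1 j : ℕ) : ℚ) + γ v₀ * ((v₀.1 j : ℕ) : ℚ) ≤ 1 := by
        rw [← hone j hj, ← Finset.sum_pair (f := fun v : Sf f => γ v * ((v.1 j : ℕ) : ℚ)) hne]
        exact Finset.sum_le_sum_of_subset_of_nonneg (Finset.subset_univ _) fun v _ _ => hnn v
      have e2 := hge v hv hvj
      have e3 := hge v₀ hv₀ hv₀j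
      rw [hv₀1] at e3
      have e4 : (1 : ℚ) ≤ ((v.1 j : ℕ) : ℚ) := by
        exact_mod_cast Nat.one_le_iff_ne_zero.2 hvj
      rw [hv₀1] at e1
      push_cast at e1 e3
      linarith
    obtain ⟨hv₀G, hv₀ρ⟩ := (hρ₁ v₀).1 hv₀
    push Not at hno
    have hj1 : ∀ i ∈ ρ, cP (Gk f k) (suppG k) ⟨j, hj⟩ i =
        if i = ⟨v₀.1, hv₀G⟩ then 1 else 0 := by
      intro u hi
      by_cases hu : u = ⟨v₀.1, hv₀G⟩
      · rw [hu, if_pos rfl]
        exact hv₀1
      · rw [if_neg hu]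
        refine hother ⟨u.1, hGs u.2⟩ ((hρ₁ _).2 ⟨u.2, hi⟩) fun h => hu ?_
        have h5 : u.1 = v₀.1 := by rw [← h]
        exact Subtype.ext h5
    obtain ⟨c', hc'⟩ := hno _ hv₀ρ ⟨j, hj⟩
    rcases hc' with ⟨h3, h4⟩ | ⟨h3, h4⟩
    · refine ⟨c'.1, c'.2, fun h => h4 (Subtype.ext h), fun v hv => ?_⟩
      obtain ⟨hvG, hvρ⟩ := (hρ₁ v).1 hv
      have e1 := h3 _ hvρ
      have e2 := hj1 _ hvρ
      rw [← e2] at e1
      exact e1
    · exfalso
      obtain ⟨i, hi, hne⟩ := h3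
      rw [h4] at hne
      exact hne (hj1 i hi)
  · -- the sum
    have hcar := hk.mem
    have hs := hk.s0 k hcar
    have h2pos : (0 : ℚ) < ((k.2 : ℤ) : ℚ) := by exact_mod_cast hk.pos
    have e1 : ((∑ i, k.1 i : ℤ) : ℚ) = ∑ v, γ v * ((k.2 : ℤ) : ℚ) := by
      have e2 : ∀ v : Sf f, γ v * ((k.2 : ℤ) : ℚ) =
          ∑ j, ((k.1 j : ℤ) : ℚ) * (γ v * ((v.1 j : ℕ) : ℚ)) := by
        intro v
        by_cases hv : v.1 ∈ Gk f k
        · have e3 : dotH v.1 k = k.2 := (Finset.mem_filter.1 hv).2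
          rw [← e3, dotH_apply]
          push_cast
          rw [Finset.mul_sum]
          refine Finset.sum_congr rfl fun j _ => ?_
          ring
        · rw [hγ2 v hv]
          simp
      rw [Finset.sum_congr rfl fun v _ => e2 v, Finset.sum_comm]
      push_cast
      refine Finset.sum_congr rfl fun j _ => ?_
      rw [← Finset.mul_sum]
      by_cases hj : j ∈ suppG k
      · rw [hone j hj, mul_one]
      · have : k.1 j = 0 := by
          by_contra h
          exact hj (Finset.mem_filter.2 ⟨Finset.mem_univ _, h⟩)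
        rw [this]
        simp
    rw [hs, ← Finset.sum_mul] at e1
    have e2 : -s₀ = ∑ v, γ v := mul_right_cancel₀ h2pos.ne' e1
    rw [← e2, neg_neg]

end MPb07157
end
end

section

/-!
# The compact face of a cell
-/

noncomputable section

namespace MPb07157

open MvPolynomial Finset

variable {n : ℕ} {f : MvPolynomial (Fin n) ℂ} {s₀ : ℚ}

/-- The weight: `φ` on the coordinates in `P`, `b` outside. -/
private def yA1b (P : Finset (Fin n)) (b : Fin n → ℤ) (φ : ({j // j ∈ P} → ℚ) →ₗ[ℚ] ℚ)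
    (i : Fin n) : ℚ :=
  if h : i ∈ P then φ (Pi.single ⟨i, h⟩ 1) else ((b i : ℤ) : ℚ)

private theorem sum_yA1b (G : Finset (Fin n →₀ ℕ)) (P : Finset (Fin n)) (b : Fin n → ℤ)
    (φ : ({j // j ∈ P} → ℚ) →ₗ[ℚ] ℚ) (e : {u // u ∈ G}) :
    ∑ i, yA1b P b φ i * ((e.1 i : ℕ) : ℚ) = φ (aP G P e) + hb G P b e := by
  classical
  rw [← sum_add_sum_compl P]
  congr 1
  · rw [LinearMap.pi_apply_eq_sum_univ φ (aP G P e),
      ← sum_coe_sort P (fun i => yA1b P b φ i * ((e.1 i : ℕ) : ℚ))]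
    refine sum_congr rfl fun j _ => ?_
    rw [yA1b, dif_pos j.2, smul_eq_mul, mul_comm]
    congr 2
    funext i
    by_cases h : i = j
    · rw [h]; simp
    · have h' : j ≠ i := fun h2 => h h2.symm
      simp [h, h']
  · unfold hb
    refine sum_congr rfl fun i hi => ?_
    rw [yA1b, dif_neg (mem_compl.1 hi)]

/-- LC-73. The compact face of a cell.

Proof. `y j = φ (Pi.single j 1)` for `j ∈ suppG k`, `y i = b i` for `i ∉ suppG k`, so that
`∑ y i * u i = φ (aP u) + hb u` for `u ∈ Gk f k`.  For a large integer `l`: `l * k.1 j + y j > 0` for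
all `j` (`b i ≥ 1` outside `suppG k`), and `l * dotH u k + y·u > l * k.2` for
`u ∈ f.support \ Gk f k` (`dotH u k ≥ k.2 + 1`).  Multiply by a common denominator `d > 0`:
`ω = d (l k.1 + y)`, `N = d l k.2`. -/
theorem IsB.compact {k : GG n} (hk : IsB f ∅ s₀ k) (b : Fin n → ℤ)
    (hb1 : ∀ i, i ∉ suppG k → 1 ≤ b i) (φ : ({j // j ∈ suppG k} → ℚ) →ₗ[ℚ] ℚ)
    (hφ : ∀ e, 0 ≤ φ (aP (Gk f k) (suppG k) e) + hb (Gk f k) (suppG k) b e) :
    ∃ (ω : Fin n → ℕ) (N : ℕ), 0 < N ∧ (∀ j, 0 < ω j) ∧ (∀ v ∈ f.support, N ≤ wt ω v) ∧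
      ∀ e : {u // u ∈ Gk f k}, φ (aP (Gk f k) (suppG k) e) + hb (Gk f k) (suppG k) b e = 0 →
        wt ω e.1 = N := by
  classical
  set y : Fin n → ℚ := yA1b (suppG k) b φ with hy
  set Y : (Fin n →₀ ℕ) → ℚ := fun u => ∑ i, y i * ((u i : ℕ) : ℚ) with hY
  obtain ⟨l, hl⟩ := exists_nat_gt (∑ j, |y j| + ∑ u ∈ f.support, |Y u|)
  have hyl : ∀ j, |y j| < l := fun j => by
    have h1 : |y j| ≤ ∑ j, |y j| := single_le_sum (fun i _ => abs_nonneg (y i)) (mem_univ j)
    have h2 : 0 ≤ ∑ u ∈ f.support, |Y u| := sum_nonneg fun u _ => abs_nonneg _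
    linarith
  have hYl : ∀ u ∈ f.support, |Y u| < l := fun u hu => by
    have h1 : |Y u| ≤ ∑ u ∈ f.support, |Y u| := single_le_sum (fun i _ => abs_nonneg (Y i)) hu
    have h2 : 0 ≤ ∑ j, |y j| := sum_nonneg fun u _ => abs_nonneg _
    linarith
  have hl0 : (0 : ℚ) < l := by
    have h1 : 0 ≤ ∑ j, |y j| := sum_nonneg fun u _ => abs_nonneg _
    have h2 : 0 ≤ ∑ u ∈ f.support, |Y u| := sum_nonneg fun u _ => abs_nonneg _
    linarith
  have hk0 : ∀ j, 0 ≤ k.1 j := hk.mem.1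
  -- the common denominator
  set d : ℕ := ∏ j, (y j).den with hd
  have hd0 : 0 < d := prod_pos fun j _ => (y j).den_pos
  have hdq : (0 : ℚ) < d := by exact_mod_cast hd0
  have hint : ∀ j, ∃ z : ℤ, (z : ℚ) = d * (l * k.1 j + y j) := by
    intro j
    obtain ⟨m, hm⟩ := dvd_prod_of_mem (fun j => (y j).den) (mem_univ j)
    refine ⟨d * (l * k.1 j) + m * (y j).num, ?_⟩
    have h1 : (y j).den * y j = (y j).num := Rat.den_mul_eq_num (y j)
    have h2 : (d : ℚ) = (y j).den * m := by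
      rw [hd, hm]
      push_cast
      ring
    push_cast
    rw [mul_add, ← h1]
    have h3 : (d : ℚ) * y j = m * ((y j).den * y j) := by
      rw [h2]
      ring
    rw [h3]
  choose z hz using hint
  have hzpos : ∀ j, 0 < z j := by
    intro j
    have h1 : (0 : ℚ) < (z j : ℚ) := by
      rw [hz j]
      refine mul_pos hdq ?_
      by_cases hj : j ∈ suppG k
      · have h2 : k.1 j ≠ 0 := (mem_filter.1 hj).2
        have h3 : (1 : ℤ) ≤ k.1 j := by
          have := hk0 j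
          omega
        have h4 : (1 : ℚ) ≤ (k.1 j : ℚ) := by exact_mod_cast h3
        have h5 := neg_abs_le (y j)
        have h6 := hyl j
        nlinarith
      · have h2 : k.1 j = 0 := by
          by_contra h
          exact hj (mem_filter.2 ⟨mem_univ j, h⟩)
        have h3 : y j = ((b j : ℤ) : ℚ) := by
          rw [hy, yA1b, dif_neg hj]
        have h4 : (1 : ℚ) ≤ ((b j : ℤ) : ℚ) := by exact_mod_cast hb1 j hj
        rw [h2, h3]
        push_cast
        linarith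
    exact_mod_cast h1
  have hwt : ∀ u : Fin n →₀ ℕ, ((wt (fun j => (z j).toNat) u : ℕ) : ℚ) =
      d * (l * ((dotH u k : ℤ) : ℚ) + Y u) := by
    intro u
    have h1 : ((dotH u k : ℤ) : ℚ) = ∑ i, ((k.1 i : ℤ) : ℚ) * ((u i : ℕ) : ℚ) := by
      simp only [dotH, AddMonoidHom.coe_mk, ZeroHom.coe_mk]
      push_cast
      refine sum_congr rfl fun i _ => ?_
      ring
    unfold wt
    push_cast
    rw [h1, hY]
    simp only
    rw [mul_sum, ← sum_add_distrib, mul_sum]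
    refine sum_congr rfl fun i _ => ?_
    have h2 : (((z i).toNat : ℕ) : ℚ) = ((z i : ℤ) : ℚ) := by
      have := Int.toNat_of_nonneg (hzpos i).le
      exact_mod_cast congrArg (fun t : ℤ => (t : ℚ)) this
    rw [h2, hz i]
    ring
  have hYe : ∀ e : {u // u ∈ Gk f k}, Y e.1 = φ (aP (Gk f k) (suppG k) e) +
      hb (Gk f k) (suppG k) b e := fun e => sum_yA1b (Gk f k) (suppG k) b φ e
  have hk2 : (0 : ℚ) < ((k.2 : ℤ) : ℚ) := by exact_mod_cast hk.pos
  have hN : (((d * l * k.2.toNat : ℕ)) : ℚ) = d * (l * ((k.2 : ℤ) : ℚ)) := by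
    push_cast
    have h2 : ((k.2.toNat : ℕ) : ℚ) = ((k.2 : ℤ) : ℚ) := by
      have := Int.toNat_of_nonneg hk.pos.le
      exact_mod_cast congrArg (fun t : ℤ => (t : ℚ)) this
    rw [h2]
    ring
  refine ⟨fun j => (z j).toNat, d * l * k.2.toNat, ?_, ?_, ?_, ?_⟩
  · have h1 : (0 : ℚ) < ((d * l * k.2.toNat : ℕ) : ℚ) := by
      rw [hN]
      positivity
    exact_mod_cast h1
  · intro j
    have := hzpos j
    simp only
    omega
  · intro v hv
    have h1 : (((d * l * k.2.toNat : ℕ)) : ℚ) ≤ ((wt (fun j => (z j).toNat) v : ℕ) : ℚ) := by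
      rw [hN, hwt v]
      refine mul_le_mul_of_nonneg_left ?_ hdq.le
      by_cases hG : v ∈ Gk f k
      · have h2 : dotH v k = k.2 := (mem_filter.1 hG).2
        have h3 := hYe ⟨v, hG⟩
        have h4 := hφ ⟨v, hG⟩
        rw [← h3] at h4
        rw [h2]
        linarith
      · have h2 : k.2 ≤ dotH v k := hk.mem.2.2.1 v hv
        have h3 : dotH v k ≠ k.2 := fun h => hG (mem_filter.2 ⟨hv, h⟩)
        have h4 : k.2 + 1 ≤ dotH v k := by omega
        have h5 : ((k.2 : ℤ) : ℚ) + 1 ≤ ((dotH v k : ℤ) : ℚ) := by exact_mod_cast h4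
        have h6 := hYl v hv
        have h7 := neg_abs_le (Y v)
        nlinarith
    exact_mod_cast h1
  · intro e he
    have h1 : ((wt (fun j => (z j).toNat) e.1 : ℕ) : ℚ) = (((d * l * k.2.toNat : ℕ)) : ℚ) := by
      rw [hN, hwt e.1, hYe e, he, add_zero]
      have h2 : dotH e.1 k = k.2 := (mem_filter.1 e.2).2
      rw [h2]
    exact_mod_cast h1

end MPb07157
end
end

section

/-!
# The labels `J⁺`
-/

noncomputable section

namespace MPb07157

open MvPolynomial Finset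

variable {n : ℕ} {f : MvPolynomial (Fin n) ℂ} {s₀ : ℚ}

/-- A deficit for the projection to the coordinates in `P`. -/
def DfcP (G : Finset (Fin n →₀ ℕ)) (P J : Finset (Fin n)) : Prop :=
  J.Nonempty ∧ Disj01 G J ∧
    Module.finrank ℚ (Submodule.span ℚ (prP P '' onJ G J)) + 1 ≤ 2 * J.card

/-- A minimal deficit for the projection to the coordinates in `P`. -/
def MinDfcP (G : Finset (Fin n →₀ ℕ)) (P J : Finset (Fin n)) : Prop :=
  DfcP G P J ∧ ∀ J' ⊂ J, ¬ DfcP G P J'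

open Classical in
/-- The union of the minimal deficits inside `J`. -/
def CoreP (G : Finset (Fin n →₀ ℕ)) (P J : Finset (Fin n)) : Finset (Fin n) :=
  J.filter fun j => ∃ J' ⊆ J, MinDfcP G P J' ∧ j ∈ J'

theorem mem_CoreP {G : Finset (Fin n →₀ ℕ)} {P J : Finset (Fin n)} {j : Fin n} :
    j ∈ CoreP G P J ↔ j ∈ J ∧ ∃ J' ⊆ J, MinDfcP G P J' ∧ j ∈ J' := by
  classical
  exact Finset.mem_filter

/-- The union of the conflict-free deficits of the face of `k`. -/
def JlP (f : MvPolynomial (Fin n) ℂ) (k : GG n) : Finset (Fin n) :=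
  (LC.Jp (cP (Gk f k) (suppG k)) univ (LC.rel (aP (Gk f k) (suppG k)))).map
    (Function.Embedding.subtype _)

private theorem a2_mem {P : Finset (Fin n)} {J : Finset {j // j ∈ P}} {j : Fin n} :
    j ∈ J.map (Function.Embedding.subtype _) ↔ ∃ k ∈ J, k.1 = j := by
  rw [Finset.mem_map]
  rfl

private theorem a2_exists_sub {P : Finset (Fin n)} {J : Finset (Fin n)} (h : J ⊆ P) :
    ∃ J' : Finset {j // j ∈ P}, J'.map (Function.Embedding.subtype _) = J :=
  ⟨J.subtype (· ∈ P), Finset.subtype_map_of_mem h⟩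

private theorem a2_set {G : Finset (Fin n →₀ ℕ)} {P : Finset (Fin n)} (J : Finset {j // j ∈ P}) :
    aP G P '' {e | LC.On (cP G P) J e} = prP P '' onJ G (J.map (Function.Embedding.subtype _)) := by
  ext x
  constructor
  · rintro ⟨u, ⟨k, hk, hu⟩, rfl⟩
    exact ⟨fun i => (u.1 i : ℚ), ⟨u.1, u.2, ⟨k.1, a2_mem.2 ⟨k, hk, rfl⟩, hu⟩, rfl⟩, rfl⟩
  · rintro ⟨y, ⟨u, hu, ⟨j, hj, huj⟩, rfl⟩, rfl⟩
    obtain ⟨k, hk, rfl⟩ := a2_mem.1 hj
    exact ⟨⟨u, hu⟩, ⟨k, hk, huj⟩, rfl⟩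

/-- LC-75. Families. -/
theorem fam_iff {G : Finset (Fin n →₀ ℕ)} {P : Finset (Fin n)} (hne : ∀ j ∈ P, ∃ u ∈ G, u j ≠ 0)
    (J : Finset {j // j ∈ P}) :
    SK.Fam (cP G P) univ ∅ J ↔ Disj01 G (J.map (Function.Embedding.subtype _)) := by
  constructor
  · intro h
    rw [disj01_iff]
    refine ⟨fun u hu i hi => ?_, fun u hu i hi j hj hij => ?_, fun j hj => ?_⟩
    · obtain ⟨k, hk, rfl⟩ := a2_mem.1 hi
      exact h.zo k hk ⟨u, hu⟩ (Finset.notMem_empty _)
    · obtain ⟨k, hk, rfl⟩ := a2_mem.1 hi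
      obtain ⟨k', hk', rfl⟩ := a2_mem.1 hj
      by_contra hcon
      push Not at hcon
      exact hij (congrArg Subtype.val (h.dj k hk k' hk' ⟨u, hu⟩ (Finset.notMem_empty _) hcon.1 hcon.2))
    · obtain ⟨k, hk, rfl⟩ := a2_mem.1 hj
      obtain ⟨u, hu, huk⟩ := hne k.1 k.2
      have h5 : u k.1 ≤ 1 := h.zo k hk ⟨u, hu⟩ (Finset.notMem_empty _)
      exact ⟨u, hu, by omega⟩
  · intro h2
    rw [disj01_iff] at h2
    refine ⟨Finset.subset_univ _, fun k hk x _ => ?_, fun k hk k' hk' x _ hx hx' => ?_⟩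
    · exact h2.1 x.1 x.2 k.1 (a2_mem.2 ⟨k, hk, rfl⟩)
    · by_contra hne'
      rcases h2.2.1 x.1 x.2 k.1 (a2_mem.2 ⟨k, hk, rfl⟩) k'.1
        (a2_mem.2 ⟨k', hk', rfl⟩) (fun h => hne' (Subtype.ext h)) with h | h
      · exact hx h
      · exact hx' h

/-- LC-76. Deficits (`LC.dfc_iff`, `LC.phi_eq_rank`, `fam_iff`;
`aP '' {e | On J e} = prP P '' onJ G (J.map _)`). -/
theorem dfcP_iff {G : Finset (Fin n →₀ ℕ)} {P : Finset (Fin n)} (hne : ∀ j ∈ P, ∃ u ∈ G, u j ≠ 0)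
    (J : Finset {j // j ∈ P}) :
    SK.Dfc (cP G P) univ (LC.rel (aP G P)) ∅ J ↔ DfcP G P (J.map (Function.Embedding.subtype _)) := by
  have key : ∀ hF : SK.Fam (cP G P) univ ∅ J, SK.Dfc (cP G P) univ (LC.rel (aP G P)) ∅ J ↔
      J.Nonempty ∧ Module.finrank ℚ (Submodule.span ℚ (prP P '' onJ G
        (J.map (Function.Embedding.subtype _)))) + 1 ≤ 2 * J.card := by
    intro hF
    rw [LC.dfc_iff hF, LC.phi_eq_rank, a2_set]
    refine and_congr_right fun _ => ?_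
    omega
  constructor
  · intro h
    obtain ⟨h1, h2⟩ := (key h.fam).1 h
    refine ⟨?_, (fam_iff hne J).1 h.fam, ?_⟩
    · obtain ⟨k, hk⟩ := h1
      exact ⟨k.1, a2_mem.2 ⟨k, hk, rfl⟩⟩
    · rw [Finset.card_map]
      exact h2
  · rintro ⟨h1, h2, h3⟩
    rw [Finset.card_map] at h3
    refine (key ((fam_iff hne J).2 h2)).2 ⟨?_, h3⟩
    obtain ⟨j, hj⟩ := h1
    obtain ⟨k, hk, -⟩ := a2_mem.1 hj
    exact ⟨k, hk⟩

theorem minDfcP_iff {G : Finset (Fin n →₀ ℕ)} {P : Finset (Fin n)}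
    (hne : ∀ j ∈ P, ∃ u ∈ G, u j ≠ 0) (J : Finset {j // j ∈ P}) :
    SK.MinD (cP G P) univ (LC.rel (aP G P)) ∅ J ↔
      MinDfcP G P (J.map (Function.Embedding.subtype _)) := by
  constructor
  · rintro ⟨h1, h2⟩
    refine ⟨(dfcP_iff hne J).1 h1, fun J' hJ' h3 => ?_⟩
    have hP : J' ⊆ P := by
      intro j hj
      obtain ⟨k, -, rfl⟩ := a2_mem.1 (hJ'.subset hj)
      exact k.2
    obtain ⟨Y, rfl⟩ := a2_exists_sub hP
    exact h2 Y (Finset.map_ssubset_map.1 hJ') ((dfcP_iff hne Y).2 h3)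
  · rintro ⟨h1, h2⟩
    exact ⟨(dfcP_iff hne J).2 h1, fun Y hY h3 => h2 _ (Finset.map_ssubset_map.2 hY) ((dfcP_iff hne Y).1 h3)⟩

/-- LC-77. Properties of `J⁺`. -/
theorem JlP_sub (k : GG n) : JlP f k ⊆ suppG k := by
  intro j hj
  obtain ⟨c, -, rfl⟩ := a2_mem.1 hj
  exact c.2

theorem IsB.JlP_disj {D : Finset (Fin n)} {k : GG n} (hk : IsB f D s₀ k) :
    Disj01 (Gk f k) (JlP f k) := by
  exact (fam_iff (fun j hj => hk.col_ne hj) _).1 LC.Jp_fam

theorem IsB.JlP_comp {D : Finset (Fin n)} {k : GG n} (hk : IsB f D s₀ k) {J' : Finset (Fin n)}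
    (hJ' : J' ⊆ suppG k) (hm : MinDfcP (Gk f k) (suppG k) J') :
    Disj01 (Gk f k) (JlP f k ∪ J') := by
  have hne : ∀ j ∈ suppG k, ∃ u ∈ Gk f k, u j ≠ 0 := fun j hj => hk.col_ne hj
  obtain ⟨Y, rfl⟩ := a2_exists_sub hJ'
  have h4 := (minDfcP_iff hne Y).2 hm
  have h5 := LC.Jp_comp h4
  have h6 := disj01_iff.1 hk.JlP_disj
  have h7 := disj01_iff.1 hm.1.2.1
  rw [disj01_iff]
  refine ⟨fun u hu i hi => ?_, fun u hu i hi j hj hij => ?_, fun j hj => ?_⟩
  · rcases Finset.mem_union.1 hi with hi | hi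
    · exact h6.1 u hu i hi
    · exact h7.1 u hu i hi
  · rcases Finset.mem_union.1 hi with hi | hi <;> rcases Finset.mem_union.1 hj with hj | hj
    · exact h6.2.1 u hu i hi j hj hij
    · obtain ⟨c, hc, rfl⟩ := a2_mem.1 hi
      obtain ⟨c', hc', rfl⟩ := a2_mem.1 hj
      by_contra hcon
      push Not at hcon
      exact hij (congrArg Subtype.val (h5 c hc c' hc' ⟨u, hu⟩ hcon.1 hcon.2))
    · obtain ⟨c, hc, rfl⟩ := a2_mem.1 hi
      obtain ⟨c', hc', rfl⟩ := a2_mem.1 hj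
      by_contra hcon
      push Not at hcon
      exact hij (congrArg Subtype.val (h5 c' hc' c hc ⟨u, hu⟩ hcon.2 hcon.1).symm)
    · exact h7.2.1 u hu i hi j hj hij
  · rcases Finset.mem_union.1 hj with hj | hj
    · exact h6.2.2 j hj
    · exact h7.2.2 j hj

end MPb07157
end
end

section

/-!
# Tied pairs from ranks
-/

set_option linter.unusedSectionVars false

namespace MPb07157.LC

open Finset Module MPb07157.EX MPb07157.SK

variable {ι κ W W' : Type} [Fintype ι] [DecidableEq ι] [Fintype κ] [DecidableEq κ]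
  [AddCommGroup W] [Module ℚ W] [AddCommGroup W'] [Module ℚ W']
variable {a : ι → W} {ah : ι → W'} {pr : W' →ₗ[ℚ] W} {L : κ → W →ₗ[ℚ] ℚ} {c : κ → ι → ℕ} {one : W}
  {H0 : W →ₗ[ℚ] ℚ} {h : ι → ℚ} {J R : Finset κ} {v v' w w' : κ → ι} {φ ψ : W →ₗ[ℚ] ℚ}

/-- LC-64. Tied pairs from the failure of the rank condition: `mixed` for the vectors `ah`, the
blocks `{e ∈ sup j | gap zero}`, the forms `L j ∘ pr`, `U = ⊥`, `h = 0`. -/
theorem exists_TP [FiniteDimensional ℚ W'] (hC : Cfg a ah pr L c one H0) (hJ : Fam c univ ∅ J)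
    (hne : J.Nonempty)
    (h1 : ∀ e, On c J e → 0 ≤ φ (a e) + h e)
    (hr : ∀ R ⊆ J, R.Nonempty → 2 * R.card ≤
      finrank ℚ (Submodule.span ℚ (ah '' {e | On c R e ∧ φ (a e) + h e = 0}))) :
    ∃ v v', TP a ah c J h v v' φ := by
  classical
  obtain ⟨j₀, hj₀⟩ := hne
  haveI : Nonempty ι := by
    by_contra hem
    rw [not_nonempty_iff] at hem
    have h2 := hr {j₀} (by simpa using hj₀) (by simp)
    have h3 : ah '' {e | On c {j₀} e ∧ φ (a e) + h e = 0} = ∅ := by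
      rw [Set.image_eq_empty]
      ext e
      exact hem.elim e
    rw [h3, Submodule.span_empty, finrank_bot, card_singleton] at h2
    omega
  have hsup : ∀ j e, e ∈ EX.sup c ∅ j ↔ c j e ≠ 0 := fun j e => by
    simp [EX.sup]
  set P : κ → Finset ι := fun j => (EX.sup c ∅ j).filter fun e => φ (a e) + h e = 0 with hP
  have hPm : ∀ j e, e ∈ P j ↔ c j e ≠ 0 ∧ φ (a e) + h e = 0 := fun j e => by
    rw [hP, mem_filter, hsup]
  have hB : Blk ah P (fun j => (L j).comp pr) ⊥ ∅ J := by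
    refine ⟨fun j _ u hu => ?_, fun j _ e he => absurd he (notMem_empty e), fun j hj e he => ?_,
      fun i hi j hj hij e he => ?_⟩
    · rw [(Submodule.mem_bot ℚ).1 hu, map_zero]
    · have h2 := hJ.zo j hj e (notMem_empty e)
      have h3 := ((hPm j e).1 he).1
      have h4 : c j e = 1 := by omega
      rw [LinearMap.comp_apply, hC.pr_a, hC.L_a, h4, Nat.cast_one]
    · have h3 := ((hPm j e).1 he).1
      have h4 : c i e = 0 := by
        by_contra hne
        exact hij (hJ.dj i hi j hj e (notMem_empty e) hne h3)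
      rw [LinearMap.comp_apply, hC.pr_a, hC.L_a, h4, Nat.cast_zero]
  obtain ⟨v, v', ψ', hV⟩ := mixed (h := fun _ => 0) J hB (fun R hR => by
    rw [finrank_bot, zero_add, bot_sup_eq]
    rcases R.eq_empty_or_nonempty with rfl | hRn
    · simp
    · have hset : {e | On c R e ∧ φ (a e) + h e = 0} = {e | ∃ j ∈ R, e ∈ P j} := by
        ext e
        constructor
        · rintro ⟨⟨j, hj, hje⟩, he⟩
          exact ⟨j, hj, (hPm j e).2 ⟨hje, he⟩⟩
        · rintro ⟨j, hj, he⟩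
          exact ⟨⟨j, hj, ((hPm j e).1 he).1⟩, ((hPm j e).1 he).2⟩
      have h2 := hr R hR hRn
      rw [hset] at h2
      exact h2)
  refine ⟨v, v', fun j hj => ?_, fun μ μ' h0 => hV.ind μ μ' ((Submodule.mem_bot ℚ).2 h0), h1,
    fun j hj => ?_⟩
  · have h2 := hV.mem j hj
    exact ⟨((hPm j _).1 h2.1).1, ((hPm j _).1 h2.2).1⟩
  · have h2 := hV.mem j hj
    exact ⟨((hPm j _).1 h2.1).2, ((hPm j _).1 h2.2).2⟩

end MPb07157.LC
end
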