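import Pool.Agent.Lib.MP_b07157_ag.LC.Defs

/-!
# Blocks: basic facts
-/

namespace MPb07157.LC

open Finset

variable {ι κ : Type} [DecidableEq ι] [DecidableEq κ] {W : Type} [AddCommGroup W] [Module ℚ W]
variable {a : ι → W} {P : κ → Finset ι} {L : κ → W →ₗ[ℚ] ℚ} {U : Submodule ℚ W}
  {F : Finset ι} {J R : Finset κ} {h : ι → ℚ} {v v' w w' : κ → ι} {ψ φ : W →ₗ[ℚ] ℚ}

/-- LC-05. Elements of the span of pairs. -/
theorem mem_prs {x : W} : x ∈ prs a v v' J ↔
    ∃ μ μ' : κ → ℚ, x = ∑ j ∈ J, (μ j • a (v j) + μ' j • a (v' j)) := by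
  constructor
  · intro hx
    unfold prs at hx
    induction hx using Submodule.span_induction with
    | mem x hx =>
      obtain ⟨j, hj, rfl | rfl⟩ := hx
      · refine ⟨fun i => if i = j then 1 else 0, fun _ => 0, ?_⟩
        simp [hj]
      · refine ⟨fun _ => 0, fun i => if i = j then 1 else 0, ?_⟩
        simp [hj]
    | zero => exact ⟨fun _ => 0, fun _ => 0, by simp⟩
    | add x y _ _ hx hy =>
      obtain ⟨μ, μ', rfl⟩ := hx
      obtain ⟨ν, ν', rfl⟩ := hy
      refine ⟨fun j => μ j + ν j, fun j => μ' j + ν' j, ?_⟩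
      rw [← sum_add_distrib]
      apply sum_congr rfl
      intro j _
      rw [add_smul, add_smul]
      abel
    | smul c x _ hx =>
      obtain ⟨μ, μ', rfl⟩ := hx
      refine ⟨fun j => c * μ j, fun j => c * μ' j, ?_⟩
      rw [smul_sum]
      apply sum_congr rfl
      intro j _
      rw [smul_add, smul_smul, smul_smul]
  · rintro ⟨μ, μ', rfl⟩
    refine Submodule.sum_mem _ fun j hj => Submodule.add_mem _ ?_ ?_
    · exact Submodule.smul_mem _ _ (Submodule.subset_span ⟨j, hj, Or.inl rfl⟩)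
    · exact Submodule.smul_mem _ _ (Submodule.subset_span ⟨j, hj, Or.inr rfl⟩)

theorem prs_mono (h : R ⊆ J) : prs a v v' R ≤ prs a v v' J :=
  Submodule.span_mono fun _ ⟨j, hj, hx⟩ => ⟨j, h hj, hx⟩

/-- LC-06. Different blocks are disjoint, and disjoint from `F`. -/
theorem Blk.disj (hB : Blk a P L U F J) {i j : κ} (hi : i ∈ J) (hj : j ∈ J) {e : ι}
    (he : e ∈ P i) (he' : e ∈ P j) : i = j := by
  by_contra hne
  have h1 := hB.L1 i hi e he
  rw [hB.L0 i hi j hj hne e he'] at h1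
  exact zero_ne_one h1

theorem Blk.disjF (hB : Blk a P L U F J) {j : κ} (hj : j ∈ J) {e : ι} (he : e ∈ P j) : e ∉ F := by
  intro heF
  have h1 := hB.L1 j hj e he
  rw [hB.LF j hj e heF] at h1
  exact zero_ne_one h1

/-- LC-07. Freezing the pairs in `R`: the blocks of `R` become elements of `F`, their pairs go to
`U`, the gaps become the heights. -/
theorem Blk.freeze (hB : Blk a P L U F J) (hv : Vd a P U F J h v v' ψ) (hR : R ⊆ J) :
    Blk a P L (U ⊔ prs a v v' R) (F ∪ R.biUnion P) (J \ R) := by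
  refine ⟨fun j hj u hu => ?_, fun j hj e he => ?_, fun j hj e he => ?_,
    fun i hi j hj hij e he => ?_⟩
  · obtain ⟨hjJ, hjR⟩ := mem_sdiff.1 hj
    obtain ⟨u₁, hu₁, u₂, hu₂, rfl⟩ := Submodule.mem_sup.1 hu
    obtain ⟨μ, μ', rfl⟩ := mem_prs.1 hu₂
    rw [map_add, hB.LU j hjJ u₁ hu₁, zero_add, map_sum]
    apply sum_eq_zero
    intro i hi
    have hne : j ≠ i := fun hji => hjR (hji ▸ hi)
    have h1 := hB.L0 j hjJ i (hR hi) hne _ (hv.mem i (hR hi)).1
    have h2 := hB.L0 j hjJ i (hR hi) hne _ (hv.mem i (hR hi)).2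
    rw [map_add, map_smul, map_smul, h1, h2, smul_zero, smul_zero, add_zero]
  · obtain ⟨hjJ, hjR⟩ := mem_sdiff.1 hj
    rcases mem_union.1 he with he | he
    · exact hB.LF j hjJ e he
    · obtain ⟨i, hi, hei⟩ := mem_biUnion.1 he
      exact hB.L0 j hjJ i (hR hi) (fun hji => hjR (hji ▸ hi)) e hei
  · exact hB.L1 j (mem_sdiff.1 hj).1 e he
  · exact hB.L0 i (mem_sdiff.1 hi).1 j (mem_sdiff.1 hj).1 hij e he

theorem Vd.freeze (hB : Blk a P L U F J) (hv : Vd a P U F J h v v' ψ) (hR : R ⊆ J) :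
    Vd a P (U ⊔ prs a v v' R) (F ∪ R.biUnion P) (J \ R) (fun e => ψ (a e) + h e) v v' 0 := by
  refine ⟨fun j hj => hv.mem j (mem_sdiff.1 hj).1, fun μ μ' hμ j hj => ?_,
    fun u _ => LinearMap.zero_apply u, fun e he => ?_, fun j hj e he => ?_, fun j hj => ?_⟩
  · obtain ⟨u₁, hu₁, u₂, hu₂, hu⟩ := Submodule.mem_sup.1 hμ
    obtain ⟨ν, ν', rfl⟩ := mem_prs.1 hu₂
    obtain ⟨hjJ, hjR⟩ := mem_sdiff.1 hj
    have h1 := hv.ind (fun i => if i ∈ R then - ν i else μ i) (fun i => if i ∈ R then - ν' i else μ' i)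
      (by
        rw [← sum_sdiff hR]
        have e1 : ∑ i ∈ J \ R, ((if i ∈ R then - ν i else μ i) • a (v i) +
            (if i ∈ R then - ν' i else μ' i) • a (v' i)) =
            ∑ i ∈ J \ R, (μ i • a (v i) + μ' i • a (v' i)) := by
          apply sum_congr rfl
          intro i hi
          rw [if_neg (mem_sdiff.1 hi).2, if_neg (mem_sdiff.1 hi).2]
        have e2 : ∑ i ∈ R, ((if i ∈ R then - ν i else μ i) • a (v i) +
            (if i ∈ R then - ν' i else μ' i) • a (v' i)) =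
            - ∑ i ∈ R, (ν i • a (v i) + ν' i • a (v' i)) := by
          rw [← sum_neg_distrib]
          apply sum_congr rfl
          intro i hi
          rw [if_pos hi, if_pos hi, neg_smul, neg_smul, neg_add]
        rw [e1, e2, ← hu, add_neg_cancel_right]
        exact hu₁) j hjJ
    simp only [if_neg hjR] at h1
    exact h1
  · rw [LinearMap.zero_apply, zero_add]
    rcases mem_union.1 he with he | he
    · exact hv.pF e he
    · obtain ⟨i, hi, hei⟩ := mem_biUnion.1 he
      exact hv.pP i (hR hi) e hei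
  · rw [LinearMap.zero_apply, zero_add]
    exact hv.pP j (mem_sdiff.1 hj).1 e he
  · rw [LinearMap.zero_apply, zero_add, LinearMap.zero_apply, zero_add]
    exact hv.tie j (mem_sdiff.1 hj).1

/-- LC-08. Unfreezing. -/
theorem Vd.unfreeze (hB : Blk a P L U F J) (hv : Vd a P U F J h v v' ψ) (hR : R ⊆ J)
    (hw : Vd a P (U ⊔ prs a v v' R) (F ∪ R.biUnion P) (J \ R) (fun e => ψ (a e) + h e) w w' φ) :
    Vd a P U F J h (fun j => if j ∈ R then v j else w j) (fun j => if j ∈ R then v' j else w' j)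
      (ψ + φ) := by
  refine ⟨fun j hj => ?_, fun μ μ' hμ => ?_, fun u hu => ?_, fun e he => ?_,
    fun j hj e he => ?_, fun j hj => ?_⟩
  · by_cases hjR : j ∈ R
    · simp only [if_pos hjR]
      exact hv.mem j hj
    · simp only [if_neg hjR]
      exact hw.mem j (mem_sdiff.2 ⟨hj, hjR⟩)
  · rw [← sum_sdiff hR] at hμ
    have e1 : ∑ i ∈ J \ R, (μ i • a (if i ∈ R then v i else w i) +
        μ' i • a (if i ∈ R then v' i else w' i)) =
        ∑ i ∈ J \ R, (μ i • a (w i) + μ' i • a (w' i)) := by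
      apply sum_congr rfl
      intro i hi
      rw [if_neg (mem_sdiff.1 hi).2, if_neg (mem_sdiff.1 hi).2]
    have e2 : ∑ i ∈ R, (μ i • a (if i ∈ R then v i else w i) +
        μ' i • a (if i ∈ R then v' i else w' i)) =
        ∑ i ∈ R, (μ i • a (v i) + μ' i • a (v' i)) := by
      apply sum_congr rfl
      intro i hi
      rw [if_pos hi, if_pos hi]
    rw [e1, e2] at hμ
    have h1 : ∀ j ∈ J \ R, μ j = 0 ∧ μ' j = 0 := by
      apply hw.ind μ μ'
      rw [Submodule.mem_sup]
      refine ⟨_, hμ, - ∑ i ∈ R, (μ i • a (v i) + μ' i • a (v' i)),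
        Submodule.neg_mem _ (mem_prs.2 ⟨μ, μ', rfl⟩), ?_⟩
      rw [add_neg_cancel_right]
    have h2 : ∑ i ∈ J \ R, (μ i • a (w i) + μ' i • a (w' i)) = 0 := by
      apply sum_eq_zero
      intro i hi
      rw [(h1 i hi).1, (h1 i hi).2, zero_smul, zero_smul, add_zero]
    rw [h2, zero_add] at hμ
    have h3 := hv.ind (fun i => if i ∈ R then μ i else 0) (fun i => if i ∈ R then μ' i else 0)
      (by
        rw [← sum_sdiff hR]
        have e3 : ∑ i ∈ J \ R, ((if i ∈ R then μ i else 0) • a (v i) +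
            (if i ∈ R then μ' i else 0) • a (v' i)) = 0 := by
          apply sum_eq_zero
          intro i hi
          rw [if_neg (mem_sdiff.1 hi).2, if_neg (mem_sdiff.1 hi).2, zero_smul, zero_smul, add_zero]
        have e4 : ∑ i ∈ R, ((if i ∈ R then μ i else 0) • a (v i) +
            (if i ∈ R then μ' i else 0) • a (v' i)) =
            ∑ i ∈ R, (μ i • a (v i) + μ' i • a (v' i)) := by
          apply sum_congr rfl
          intro i hi
          rw [if_pos hi, if_pos hi]
        rw [e3, e4, zero_add]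
        exact hμ)
    intro j hj
    by_cases hjR : j ∈ R
    · have h4 := h3 j hj
      simp only [if_pos hjR] at h4
      exact h4
    · exact h1 j (mem_sdiff.2 ⟨hj, hjR⟩)
  · rw [LinearMap.add_apply, hv.U0 u hu, zero_add]
    exact hw.U0 u (Submodule.mem_sup_left hu)
  · have h1 := hw.pF e (mem_union_left _ he)
    rw [LinearMap.add_apply]
    linarith
  · rw [LinearMap.add_apply]
    by_cases hjR : j ∈ R
    · have h1 := hw.pF e (mem_union_right _ (mem_biUnion.2 ⟨j, hjR, he⟩))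
      linarith
    · have h1 := hw.pP j (mem_sdiff.2 ⟨hj, hjR⟩) e he
      linarith
  · by_cases hjR : j ∈ R
    · simp only [if_pos hjR]
      have h1 := hv.tie j hj
      have h2 : φ (a (v j)) = 0 :=
        hw.U0 _ (Submodule.mem_sup_right (Submodule.subset_span ⟨j, hjR, Or.inl rfl⟩))
      have h3 : φ (a (v' j)) = 0 :=
        hw.U0 _ (Submodule.mem_sup_right (Submodule.subset_span ⟨j, hjR, Or.inr rfl⟩))
      rw [LinearMap.add_apply, LinearMap.add_apply, h2, h3, add_zero, add_zero]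
      exact h1
    · simp only [if_neg hjR]
      have h1 := hw.tie j (mem_sdiff.2 ⟨hj, hjR⟩)
      rw [LinearMap.add_apply, LinearMap.add_apply]
      constructor
      · linarith [h1.1]
      · linarith [h1.2]

/-- LC-09. Generic heights stay generic. -/
theorem Gen.freeze (hG : Gen a P U J h) (hv : Vd a P U F J h v v' ψ) (hR : R ⊆ J)
    (hB : Blk a P L U F J) :
    Gen a P (U ⊔ prs a v v' R) (J \ R) (fun e => ψ (a e) + h e) := by
  intro θ hθ X s hX hs
  obtain ⟨u₁, hu₁, u₂, hu₂, hu⟩ := Submodule.mem_sup.1 hs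
  obtain ⟨ν, ν', rfl⟩ := mem_prs.1 hu₂
  set Y : Finset ι := X ∪ (R.image v ∪ R.image v') with hY
  set t : ι → ℚ := fun e => (if e ∈ X then s e else 0) -
    ((∑ j ∈ R, if v j = e then ν j else 0) + ∑ j ∈ R, if v' j = e then ν' j else 0) with ht
  have hθv : ∀ j ∈ R, θ (a (v j)) = 0 ∧ θ (a (v' j)) = 0 := fun j hj =>
    ⟨hθ _ (Submodule.mem_sup_right (Submodule.subset_span ⟨j, hj, Or.inl rfl⟩)),
      hθ _ (Submodule.mem_sup_right (Submodule.subset_span ⟨j, hj, Or.inr rfl⟩))⟩
  have hsum : ∀ (z : κ → ι) (c : κ → ℚ), (∀ j ∈ R, z j ∈ Y) →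
      ∑ e ∈ Y, (∑ j ∈ R, if z j = e then c j else 0) • a e = ∑ j ∈ R, c j • a (z j) := by
    intro z c hz
    have h1 : ∀ e ∈ Y, (∑ j ∈ R, if z j = e then c j else 0) • a e =
        ∑ j ∈ R, if z j = e then c j • a e else 0 := by
      intro e _
      rw [sum_smul]
      apply sum_congr rfl
      intro j _
      split_ifs
      · rfl
      · rw [zero_smul]
    rw [sum_congr rfl h1, sum_comm]
    apply sum_congr rfl
    intro j hj
    rw [sum_ite_eq, if_pos (hz j hj)]
  have hXY : ∑ e ∈ Y, (if e ∈ X then s e else 0) • a e = ∑ e ∈ X, s e • a e := by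
    rw [← sum_subset (subset_union_left : X ⊆ Y)]
    · apply sum_congr rfl
      intro e he
      rw [if_pos he]
    · intro e _ he
      rw [if_neg he, zero_smul]
  have hmem : ∑ e ∈ Y, t e • a e ∈ U := by
    have h1 : ∑ e ∈ Y, t e • a e = ∑ e ∈ X, s e • a e -
        (∑ j ∈ R, ν j • a (v j) + ∑ j ∈ R, ν' j • a (v' j)) := by
      rw [← hXY, ← hsum v ν (fun j hj => mem_union_right _ (mem_union_left _
        (mem_image_of_mem v hj))), ← hsum v' ν' (fun j hj => mem_union_right _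
        (mem_union_right _ (mem_image_of_mem v' hj))), ← sum_add_distrib, ← sum_sub_distrib]
      apply sum_congr rfl
      intro e _
      rw [ht, ← add_smul, ← sub_smul]
    rw [h1, ← sum_add_distrib, ← hu, add_sub_cancel_right]
    exact hu₁
  have hgap : ∀ e ∈ Y, (∃ j ∈ J, e ∈ P j) ∧ (ψ + θ) (a e) + h e = 0 := by
    intro e he
    rcases mem_union.1 he with he | he
    · obtain ⟨⟨j, hj, hej⟩, h1⟩ := hX e he
      refine ⟨⟨j, (mem_sdiff.1 hj).1, hej⟩, ?_⟩
      rw [LinearMap.add_apply]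
      linarith
    · rcases mem_union.1 he with he | he
      · obtain ⟨j, hj, rfl⟩ := mem_image.1 he
        refine ⟨⟨j, hR hj, (hv.mem j (hR hj)).1⟩, ?_⟩
        rw [LinearMap.add_apply, (hθv j hj).1, add_zero]
        exact (hv.tie j (hR hj)).1
      · obtain ⟨j, hj, rfl⟩ := mem_image.1 he
        refine ⟨⟨j, hR hj, (hv.mem j (hR hj)).2⟩, ?_⟩
        rw [LinearMap.add_apply, (hθv j hj).2, add_zero]
        exact (hv.tie j (hR hj)).2
  have hU : ∀ u ∈ U, (ψ + θ) u = 0 := by
    intro u hu'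
    rw [LinearMap.add_apply, hv.U0 u hu', hθ u (Submodule.mem_sup_left hu'), add_zero]
  have hfin := hG (ψ + θ) hU Y t hgap hmem
  intro e he
  have h1 := hfin e (mem_union_left _ he)
  obtain ⟨⟨i, hi, hei⟩, _⟩ := hX e he
  obtain ⟨hiJ, hiR⟩ := mem_sdiff.1 hi
  have h2 : ∑ j ∈ R, (if v j = e then ν j else 0) = 0 := by
    apply sum_eq_zero
    intro j hj
    rw [if_neg]
    intro hje
    have h3 : e ∈ P j := hje ▸ (hv.mem j (hR hj)).1
    exact hiR (hB.disj hiJ (hR hj) hei h3 ▸ hj)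
  have h4 : ∑ j ∈ R, (if v' j = e then ν' j else 0) = 0 := by
    apply sum_eq_zero
    intro j hj
    rw [if_neg]
    intro hje
    have h3 : e ∈ P j := hje ▸ (hv.mem j (hR hj)).2
    exact hiR (hB.disj hiJ (hR hj) hei h3 ▸ hj)
  rw [ht] at h1
  simp only [if_pos he, h2, h4, add_zero, sub_zero] at h1
  exact h1

end MPb07157.LC
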