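import Pool.Agent.Lib.MP_b07157_ag.LC.G0
import Pool.Agent.Lib.MP_b07157_ag.LC.Farkas

/-!
# Blocks: exchanges
-/

namespace MPb07157.LC

open Finset

variable {ι κ : Type} [DecidableEq ι] [DecidableEq κ] {W : Type} [AddCommGroup W] [Module ℚ W]
variable {a : ι → W} {P : κ → Finset ι} {L : κ → W →ₗ[ℚ] ℚ} {U : Submodule ℚ W}
  {F : Finset ι} {J R : Finset κ} {h : ι → ℚ} {v v' w w' : κ → ι} {ψ φ : W →ₗ[ℚ] ℚ}

private theorem small_step (E : Finset ι) (g c : ι → ℚ) (hg : ∀ e ∈ E, 0 ≤ g e)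
    (hc : ∀ e ∈ E, g e = 0 → 0 ≤ c e) :
    ∃ t : ℚ, 0 < t ∧ ∀ s : ℚ, 0 ≤ s → s ≤ t → ∀ e ∈ E, 0 ≤ g e + s * c e := by
  induction E using Finset.induction_on with
  | empty => exact ⟨1, one_pos, fun _ _ _ e he => absurd he (notMem_empty e)⟩
  | insert e E _ ih =>
    obtain ⟨t, ht, hts⟩ := ih (fun i hi => hg i (mem_insert_of_mem hi))
      (fun i hi => hc i (mem_insert_of_mem hi))
    obtain ⟨r, hr, hrs⟩ : ∃ r : ℚ, 0 < r ∧ ∀ s : ℚ, 0 ≤ s → s ≤ r → 0 ≤ g e + s * c e := by
      have hge := hg e (mem_insert_self e E)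
      by_cases hce : 0 ≤ c e
      · exact ⟨1, one_pos, fun s hs _ => add_nonneg hge (mul_nonneg hs hce)⟩
      · have hce' : c e < 0 := not_le.1 hce
        have hgp : 0 < g e := lt_of_le_of_ne hge (fun h0 => hce (hc e (mem_insert_self e E) h0.symm))
        refine ⟨g e / (- c e), div_pos hgp (by linarith), fun s _ hsr => ?_⟩
        rw [le_div_iff₀ (by linarith)] at hsr
        linarith
    refine ⟨min t r, lt_min ht hr, fun s hs hsm i hi => ?_⟩
    rcases mem_insert.1 hi with rfl | hi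
    · exact hrs s hs (le_trans hsm (min_le_right _ _))
    · exact hts s hs (le_trans hsm (min_le_left _ _)) i hi

private theorem ind_of_gen (hB : Blk a P L U F J) (hG : Gen a P U J h) (z z' : κ → ι)
    (hψ : ∀ u ∈ U, ψ u = 0) (hz : ∀ j ∈ J, z j ∈ P j ∧ z' j ∈ P j)
    (ht : ∀ j ∈ J, ψ (a (z j)) + h (z j) = 0 ∧ ψ (a (z' j)) + h (z' j) = 0)
    (hne : ∀ j ∈ J, z j ≠ z' j) (μ μ' : κ → ℚ)
    (hμ : ∑ j ∈ J, (μ j • a (z j) + μ' j • a (z' j)) ∈ U) : ∀ j ∈ J, μ j = 0 ∧ μ' j = 0 := by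
  set X : Finset ι := J.image z ∪ J.image z' with hX
  set s : ι → ℚ := fun e => (∑ j ∈ J, if z j = e then μ j else 0) +
    ∑ j ∈ J, if z' j = e then μ' j else 0 with hs
  have hsum : ∀ (y : κ → ι) (c : κ → ℚ), (∀ j ∈ J, y j ∈ X) →
      ∑ e ∈ X, (∑ j ∈ J, if y j = e then c j else 0) • a e = ∑ j ∈ J, c j • a (y j) := by
    intro y c hy
    have h1 : ∀ e ∈ X, (∑ j ∈ J, if y j = e then c j else 0) • a e =
        ∑ j ∈ J, if y j = e then c j • a e else 0 := by
      intro e _
      rw [sum_smul]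
      apply sum_congr rfl
      intro j _
      split_ifs
      · rfl
      · rw [zero_smul]
    rw [sum_congr rfl h1, sum_comm]
    apply sum_congr rfl
    intro j hj
    rw [sum_ite_eq, if_pos (hy j hj)]
  have hmem : ∑ e ∈ X, s e • a e ∈ U := by
    have h1 : ∑ e ∈ X, s e • a e = ∑ j ∈ J, (μ j • a (z j) + μ' j • a (z' j)) := by
      rw [sum_add_distrib, ← hsum z μ (fun j hj => mem_union_left _ (mem_image_of_mem z hj)),
        ← hsum z' μ' (fun j hj => mem_union_right _ (mem_image_of_mem z' hj)),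
        ← sum_add_distrib]
      apply sum_congr rfl
      intro e _
      rw [hs, ← add_smul]
    rw [h1]
    exact hμ
  have hgap : ∀ e ∈ X, (∃ j ∈ J, e ∈ P j) ∧ ψ (a e) + h e = 0 := by
    intro e he
    rcases mem_union.1 he with he | he
    · obtain ⟨j, hj, rfl⟩ := mem_image.1 he
      exact ⟨⟨j, hj, (hz j hj).1⟩, (ht j hj).1⟩
    · obtain ⟨j, hj, rfl⟩ := mem_image.1 he
      exact ⟨⟨j, hj, (hz j hj).2⟩, (ht j hj).2⟩
  have hfin := hG ψ hψ X s hgap hmem
  intro j hj
  have h1 := hfin (z j) (mem_union_left _ (mem_image_of_mem z hj))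
  have h2 := hfin (z' j) (mem_union_right _ (mem_image_of_mem z' hj))
  have e1 : ∑ i ∈ J, (if z i = z j then μ i else 0) = μ j := by
    rw [sum_eq_single_of_mem j hj, if_pos rfl]
    intro i hi hij
    rw [if_neg]
    intro h3
    have h4 : z j ∈ P i := h3 ▸ (hz i hi).1
    exact hij (hB.disj hi hj h4 (hz j hj).1)
  have e2 : ∑ i ∈ J, (if z' i = z j then μ' i else 0) = 0 := by
    apply sum_eq_zero
    intro i hi
    rw [if_neg]
    intro h3
    have h4 : z j ∈ P i := h3 ▸ (hz i hi).2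
    have h5 := hB.disj hi hj h4 (hz j hj).1
    subst h5
    exact hne i hi h3.symm
  have e3 : ∑ i ∈ J, (if z i = z' j then μ i else 0) = 0 := by
    apply sum_eq_zero
    intro i hi
    rw [if_neg]
    intro h3
    have h4 : z' j ∈ P i := h3 ▸ (hz i hi).1
    have h5 := hB.disj hi hj h4 (hz j hj).2
    subst h5
    exact hne i hi h3
  have e4 : ∑ i ∈ J, (if z' i = z' j then μ' i else 0) = μ' j := by
    rw [sum_eq_single_of_mem j hj, if_pos rfl]
    intro i hi hij
    rw [if_neg]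
    intro h3
    have h4 : z' j ∈ P i := h3 ▸ (hz i hi).2
    exact hij (hB.disj hi hj h4 (hz j hj).2)
  rw [hs] at h1 h2
  simp only [e1, e2, add_zero] at h1
  simp only [e3, e4, zero_add] at h2
  exact ⟨h1, h2⟩

/-- LC-12. Farkas at an optimum: `x_F = ∑_F x e • a e` is, modulo `U` and the pairs, a nonnegative
combination of the elements with gap zero.

Proof. `farkas_mod` with `Q = U ⊔ prs a v v' J` and `T` = the elements of `F ∪ J.biUnion P` with gap
zero.  In the second case `ψ + t • u` with small `t > 0` is again valid and has a smaller value. -/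
theorem opt_farkas {x : ι → ℚ} (hv : Vd a P U F J h v v' ψ)
    (hopt : ∀ w w' φ, Vd a P U F J h w w' φ →
      ψ (∑ e ∈ F, x e • a e) ≤ φ (∑ e ∈ F, x e • a e)) :
    ∃ s : ι → ℚ, (∀ e, 0 ≤ s e) ∧ (∀ e, s e ≠ 0 → e ∈ F ∪ J.biUnion P ∧ ψ (a e) + h e = 0) ∧
      ∑ e ∈ F, x e • a e - ∑ e ∈ F ∪ J.biUnion P, s e • a e ∈ U ⊔ prs a v v' J := by
  classical
  have hgap : ∀ e ∈ F ∪ J.biUnion P, 0 ≤ ψ (a e) + h e := by
    intro e he
    rcases mem_union.1 he with he | he
    · exact hv.pF e he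
    · obtain ⟨j, hj, hej⟩ := mem_biUnion.1 he
      exact hv.pP j hj e hej
  rcases farkas_mod (U ⊔ prs a v v' J)
    ((F ∪ J.biUnion P).filter (fun e => ψ (a e) + h e = 0)) a (∑ e ∈ F, x e • a e) with h1 | h1
  · obtain ⟨s, hs, hsm⟩ := h1
    refine ⟨fun e => if e ∈ (F ∪ J.biUnion P).filter (fun e => ψ (a e) + h e = 0) then s e else 0,
      fun e => ?_, fun e he => ?_, ?_⟩
    · dsimp only
      split_ifs with h2
      · exact hs e h2
      · exact le_rfl
    · dsimp only at he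
      split_ifs at he with h2
      · exact mem_filter.1 h2
      · exact absurd rfl he
    · have h2 : ∑ e ∈ F ∪ J.biUnion P,
          (if e ∈ (F ∪ J.biUnion P).filter (fun e => ψ (a e) + h e = 0) then s e else 0) • a e =
          ∑ e ∈ (F ∪ J.biUnion P).filter (fun e => ψ (a e) + h e = 0), s e • a e := by
        rw [← sum_subset (filter_subset (fun e => ψ (a e) + h e = 0) (F ∪ J.biUnion P))]
        · apply sum_congr rfl
          intro e he
          rw [if_pos he]
        · intro e _ he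
          rw [if_neg he, zero_smul]
      rw [h2]
      exact hsm
  · exfalso
    obtain ⟨u, hu1, hu2, hu3⟩ := h1
    obtain ⟨t, ht, hts⟩ := small_step (F ∪ J.biUnion P) (fun e => ψ (a e) + h e)
      (fun e => u (a e)) hgap (fun e he h0 => hu2 e (mem_filter.2 ⟨he, h0⟩))
    have hval : ∀ y, (ψ + t • u) y = ψ y + t * u y := fun y => by
      rw [LinearMap.add_apply, LinearMap.smul_apply, smul_eq_mul]
    have hnew : ∀ e ∈ F ∪ J.biUnion P, 0 ≤ (ψ + t • u) (a e) + h e := by
      intro e he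
      have h2 := hts t ht.le le_rfl e he
      rw [hval]
      linarith
    have hv2 : Vd a P U F J h v v' (ψ + t • u) := by
      refine ⟨hv.mem, hv.ind, fun y hy => ?_, fun e he => hnew e (mem_union_left _ he),
        fun j hj e he => hnew e (mem_union_right _ (mem_biUnion.2 ⟨j, hj, he⟩)), fun j hj => ?_⟩
      · rw [hval, hv.U0 y hy, hu1 y (Submodule.mem_sup_left hy), mul_zero, add_zero]
      · have h2 : u (a (v j)) = 0 :=
          hu1 _ (Submodule.mem_sup_right (Submodule.subset_span ⟨j, hj, Or.inl rfl⟩))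
        have h3 : u (a (v' j)) = 0 :=
          hu1 _ (Submodule.mem_sup_right (Submodule.subset_span ⟨j, hj, Or.inr rfl⟩))
        rw [hval, hval, h2, h3, mul_zero, add_zero, add_zero]
        exact hv.tie j hj
    have h4 := hopt v v' _ hv2
    rw [hval] at h4
    have h5 := mul_neg_of_pos_of_neg ht hu3
    linarith

/-- LC-13. Exchange of `v l` for another tie `e` of the same block (generic heights). -/
theorem Vd.exch (hB : Blk a P L U F J) (hG : Gen a P U J h) (hv : Vd a P U F J h v v' ψ) {l : κ}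
    (hl : l ∈ J) {e : ι} (he : e ∈ P l) (h1 : e ≠ v l) (h2 : e ≠ v' l)
    (h0 : ψ (a e) + h e = 0) :
    Vd a P U F J h (Function.update v l e) v' ψ ∧ Vd a P U F J h v (Function.update v' l e) ψ := by
  have hne : ∀ j ∈ J, v j ≠ v' j := by
    intro j hj heq
    have h3 := hv.ind (fun i => if i = j then 1 else 0) (fun i => if i = j then -1 else 0)
      (by
        have h4 : ∑ i ∈ J, ((if i = j then (1 : ℚ) else 0) • a (v i) +
            (if i = j then (-1 : ℚ) else 0) • a (v' i)) = 0 := by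
          apply sum_eq_zero
          intro i _
          by_cases hij : i = j
          · subst hij
            rw [if_pos rfl, if_pos rfl, one_smul, neg_smul, one_smul, heq, add_neg_cancel]
          · rw [if_neg hij, if_neg hij, zero_smul, zero_smul, add_zero]
        rw [h4]
        exact Submodule.zero_mem _) j hj
    have h5 := h3.1
    rw [if_pos rfl] at h5
    exact one_ne_zero h5
  have hupd : ∀ (y : κ → ι) (Q : κ → ι → Prop), (∀ j ∈ J, Q j (y j)) → Q l e →
      ∀ j ∈ J, Q j (Function.update y l e j) := by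
    intro y Q hy hQ j hj
    by_cases hjl : j = l
    · subst hjl
      rw [Function.update_self]
      exact hQ
    · rw [Function.update_of_ne hjl]
      exact hy j hj
  have hm1 := hupd v (fun j x => x ∈ P j) (fun j hj => (hv.mem j hj).1) he
  have hm2 := hupd v' (fun j x => x ∈ P j) (fun j hj => (hv.mem j hj).2) he
  have ht1 := hupd v (fun _ x => ψ (a x) + h x = 0) (fun j hj => (hv.tie j hj).1) h0
  have ht2 := hupd v' (fun _ x => ψ (a x) + h x = 0) (fun j hj => (hv.tie j hj).2) h0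
  have hn1 := hupd v (fun j x => x ≠ v' j) hne h2
  have hn2 := hupd v' (fun j x => x ≠ v j) (fun j hj => (hne j hj).symm) h1
  constructor
  · exact ⟨fun j hj => ⟨hm1 j hj, (hv.mem j hj).2⟩,
      ind_of_gen hB hG _ _ hv.U0 (fun j hj => ⟨hm1 j hj, (hv.mem j hj).2⟩)
        (fun j hj => ⟨ht1 j hj, (hv.tie j hj).2⟩) hn1,
      hv.U0, hv.pF, hv.pP, fun j hj => ⟨ht1 j hj, (hv.tie j hj).2⟩⟩
  · exact ⟨fun j hj => ⟨(hv.mem j hj).1, hm2 j hj⟩,
      ind_of_gen hB hG _ _ hv.U0 (fun j hj => ⟨(hv.mem j hj).1, hm2 j hj⟩)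
        (fun j hj => ⟨(hv.tie j hj).1, ht2 j hj⟩) (fun j hj => (hn2 j hj).symm),
      hv.U0, hv.pF, hv.pP, fun j hj => ⟨(hv.tie j hj).1, ht2 j hj⟩⟩

end MPb07157.LC
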