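import Pool.Agent.Lib.MP_b07157_ag.LC.Off0

/-!
# The set function off a family
-/

set_option linter.unusedSectionVars false

namespace MPb07157.LC

open Finset Module MPb07157.EX MPb07157.SK

variable {ι κ : Type} [Fintype ι] [DecidableEq ι] [DecidableEq κ]
variable {c : κ → ι → ℕ} {C : Finset κ} {A : Set (ι → ℚ)} {V : Submodule ℚ (ι → ℚ)}
  {J U X Y Z : Finset κ} {Q : Finset ι}

/-- Rank of the relations off `Q`. -/
private theorem off_rank (V : Submodule ℚ (ι → ℚ)) (Q P : Finset ι) :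
    finrank ℚ (cutV (offV V Q) Pᶜ) + finrank ℚ (cutV V Qᶜ) = finrank ℚ (cutV V (Q ∪ P)ᶜ) := by
  let f : (cutV V (Q ∪ P)ᶜ) →ₗ[ℚ] (ι → ℚ) := (piQ Q).domRestrict (cutV V (Q ∪ P)ᶜ)
  have hfa : ∀ ξ : cutV V (Q ∪ P)ᶜ, f ξ = piQ Q (ξ : ι → ℚ) := fun ξ => rfl
  have hpi : ∀ (η : ι → ℚ) (e : ι), piQ Q η e = if e ∈ Q then 0 else η e := fun η e => rfl
  have hr : LinearMap.range f = cutV (offV V Q) Pᶜ := by
    ext ζ
    constructor
    · rintro ⟨ξ, rfl⟩
      refine ⟨⟨ξ, ξ.2.1, rfl⟩, fun e he => ?_⟩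
      rw [hfa, hpi]
      split_ifs with heQ
      · rfl
      · refine ξ.2.2 e ?_
        rw [Finset.mem_compl, Finset.mem_union]
        rintro (h | h)
        · exact heQ h
        · exact (Finset.mem_compl.1 he) h
    · rintro ⟨⟨η, hη, rfl⟩, h0⟩
      have h1 : η ∈ cutV V (Q ∪ P)ᶜ := by
        refine ⟨hη, fun e he => ?_⟩
        rw [Finset.mem_compl, Finset.mem_union, not_or] at he
        have h2 := h0 e (Finset.mem_compl.2 he.2)
        rw [hpi, if_neg he.1] at h2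
        exact h2
      exact ⟨⟨η, h1⟩, rfl⟩
  have hk : (LinearMap.ker f).map (cutV V (Q ∪ P)ᶜ).subtype = cutV V Qᶜ := by
    ext ζ
    constructor
    · rintro ⟨ξ, hξ, rfl⟩
      refine ⟨ξ.2.1, fun e he => ?_⟩
      have h1 : f ξ = 0 := hξ
      have h2 := congrFun h1 e
      rw [hfa, hpi, if_neg (Finset.mem_compl.1 he)] at h2
      exact h2
    · rintro ⟨h1, h2⟩
      have h3 : ζ ∈ cutV V (Q ∪ P)ᶜ := by
        refine ⟨h1, fun e he => h2 e ?_⟩
        rw [Finset.mem_compl, Finset.mem_union, not_or] at he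
        exact Finset.mem_compl.2 he.1
      refine ⟨⟨ζ, h3⟩, ?_, rfl⟩
      change f ⟨ζ, h3⟩ = 0
      funext e
      rw [hfa, hpi]
      split_ifs with heQ
      · rfl
      · exact h2 e (Finset.mem_compl.2 heQ)
  have h4 := LinearMap.finrank_range_add_finrank_ker f
  rw [hr, ← Submodule.finrank_map_subtype_eq (cutV V (Q ∪ P)ᶜ) (LinearMap.ker f), hk] at h4
  exact h4

/-- LC-44. The set function off `J`.

Proof. `PU c ∅ (J ∪ X)` is the disjoint union of `PU c ∅ J` and `PU c ∅ X`; `piQ (PU c ∅ J)` maps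
`cutV V (PU (J ∪ X))ᶜ` onto `cutV (offV V (PU J)) (PU X)ᶜ` with kernel `cutV V (PU J)ᶜ`. -/
theorem off_phi (hP : Pre c C A V ∅) (hJ : Fam c C ∅ J)
    (hX : Fam c (offC c C (PU c ∅ J)) ∅ X) :
    phi c (offV V (PU c ∅ J)) X = phi c V (J ∪ X) - phi c V J := by
  obtain ⟨-, hdis⟩ := off_fam hP hJ hX
  have hPU : PU c ∅ (J ∪ X) = PU c ∅ J ∪ PU c ∅ X := by
    unfold PU
    exact Finset.union_biUnion
  have hdPU : Disjoint (PU c ∅ J) (PU c ∅ X) := by
    rw [Finset.disjoint_left]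
    intro e he he'
    obtain ⟨-, k, hk, hke⟩ := mem_PU.1 he'
    exact hke ((mem_offC.1 (hX.sub hk)).2 e he)
  have h1 := off_rank V (PU c ∅ J) (PU c ∅ X)
  have h2 : (J ∪ X).card = J.card + X.card := Finset.card_union_of_disjoint hdis
  have h3 : (PU c ∅ (J ∪ X)).card = (PU c ∅ J).card + (PU c ∅ X).card := by
    rw [hPU]
    exact Finset.card_union_of_disjoint hdPU
  unfold phi
  rw [h3, h2, hPU, ← h1]
  push_cast
  ring

end MPb07157.LC
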