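import Pool.Agent.Lib.MP_b07157_ag.LC.Jp
import Pool.Agent.Lib.MP_b07157_ag.LC.Off

/-!
# Rigid deficits off the union of the conflict-free deficits
-/

set_option linter.unusedSectionVars false

namespace MPb07157.LC

open Finset Module MPb07157.EX MPb07157.SK

variable {ι κ : Type} [Fintype ι] [DecidableEq ι] [DecidableEq κ]
variable {c : κ → ι → ℕ} {C : Finset κ} {A : Set (ι → ℚ)} {V : Submodule ℚ (ι → ℚ)}
  {J U X Y Z : Finset κ} {Q : Finset ι}

/-- LC-45. If `X` is a rigid minimal deficit off `Jp`, then `Jp ∪ X` is rigid.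

Proof.  Write `J = Jp c C V`, `m = phi J`, `φ'` = the set function off `J` (`off_phi`), so
`φ' X = 1` (`X` is `MinPos` off `J`, increments at most one), `phi (J ∪ X) = m + 1`.  Let
`H ⊆ J ∪ X`, `H' ⊆ C`, same cardinality and sums; `J' = (J ∪ X) \ H ∪ H'` (`Pre.swap`):
`phi J' = m + 1` (`phi_congr`).  Let `K'` be the union of the minimal deficits in `J'` (`phi_max`),
`phi K' ≥ m + 1`.  By `Jp_comp`, every `k ∈ K'` is in `J` or vanishes on `PU J`; so
`K' = K₁ ∪ K₂`, `K₁ ⊆ J`, `K₂ ⊆ offC`; `J ∪ K₂` is a family and by `phi_super` (`J` and `K'`)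
`φ' K₂ = phi (J ∪ K₂) - m ≥ m + 1 - phi K₁`.  Suppose `K₁ ≠ J`.  Then `phi K₁ ≤ m - 1`
(`Jp_max`) and `φ' K₂ ≥ 2`.  Let `Y` be the union of the minimal deficits (off `J`) in `K₂`, so
`φ' Y ≥ 2`.  Each of them is compatible with `X` (`SK.lemC` off `J`), and its columns have nonempty
support in `PU J' \ PU J ⊆ PU X`, so it is contained in `X`; hence `Y ⊆ X`, `φ' Y ≤ 1`,
contradiction.  So `J = K₁ ⊆ J'`, hence `H ∩ J ⊆ H'`.  The columns in `H' \ (H ∩ J)` have the same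
sum as `H \ J ⊆ X`, so they vanish on `PU J`, and rigidity of `X` off `J` gives
`H' \ (H ∩ J) = H \ J`, so `H' = H`. -/
theorem rigid_union (hP : Pre c C A V ∅)
    (hX : MinD c (offC c C (PU c ∅ (Jp c C V))) (offV V (PU c ∅ (Jp c C V))) ∅ X)
    (hr : Rigid c (offC c C (PU c ∅ (Jp c C V))) ∅ X) : Rigid c C ∅ (Jp c C V ∪ X) := by
  classical
  have hJf : SK.Fam c C ∅ (Jp c C V) := Jp_fam
  have hXf : SK.Fam c (offC c C (PU c ∅ (Jp c C V))) ∅ X := hX.dfc.fam
  obtain ⟨hJX, hdJX⟩ := off_fam hP hJf hXf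
  have hPq := off_pre hP (PU c ∅ (Jp c C V))
  have hmX := (minD_iff hXf (Finset.Subset.refl X)).1 hX
  obtain ⟨k0, hk0⟩ := hX.dfc.ne
  have hX1 : phi c (offV V (PU c ∅ (Jp c C V))) X ≤ 1 := by
    have h1 := phi_incr hPq hXf (Finset.erase_subset k0 X) hk0
    rw [Finset.insert_erase hk0] at h1
    have h2 := hmX.2 _ (Finset.erase_ssubset hk0)
    omega
  have hoffX := off_phi hP hJf hXf
  intro H hH H' hH' hcard hsum
  obtain ⟨hs1, hs2, hs3, hs4, -⟩ := hP.swap hJX hH hH' hcard hsum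
  have hphi : phi c V ((Jp c C V ∪ X) \ H ∪ H') = phi c V (Jp c C V ∪ X) := phi_congr hs4 hs3
  obtain ⟨K', hK'sub, hK'mem, hK'max, -⟩ := phi_max hP hs2
  have hK'ge := hK'max _ (Finset.Subset.refl _)
  -- the columns of `K'` are in `J` or vanish on `PU J`
  have hcomp : ∀ z ∈ K', z ∉ Jp c C V → z ∈ offC c C (PU c ∅ (Jp c C V)) := by
    intro z hz hzJ
    obtain ⟨Z, -, hZ, hzZ⟩ := (hK'mem z).1 hz
    rw [mem_offC]
    refine ⟨hs2.sub (hK'sub hz), fun e he => ?_⟩
    by_contra hne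
    obtain ⟨-, k, hk, hke⟩ := SK.mem_PU.1 he
    have := Jp_comp hZ k hk z hzZ e hke hne
    rw [this] at hk
    exact hzJ hk
  have hK2sub : K' \ Jp c C V ⊆ offC c C (PU c ∅ (Jp c C V)) := by
    intro z hz
    rw [Finset.mem_sdiff] at hz
    exact hcomp z hz.1 hz.2
  have hK2f : SK.Fam c (offC c C (PU c ∅ (Jp c C V))) ∅ (K' \ Jp c C V) := by
    have h1 : SK.Fam c C ∅ (K' \ Jp c C V) := hs2.mono (Finset.sdiff_subset.trans hK'sub)
    exact ⟨hK2sub, h1.zo, h1.dj⟩
  obtain ⟨hJK, hdJK⟩ := off_fam hP hJf hK2f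
  have hoffK := off_phi hP hJf hK2f
  have hJsub : Jp c C V ⊆ K' := by
    by_contra hnot
    have hssub : K' ∩ Jp c C V ⊂ Jp c C V := by
      rw [Finset.ssubset_iff_subset_ne]
      refine ⟨Finset.inter_subset_right, fun h => hnot ?_⟩
      rw [← h]
      exact Finset.inter_subset_left
    have h1 := (Jp_max hP).2 _ hssub
    have hK'JK : K' ⊆ Jp c C V ∪ (K' \ Jp c C V) := by
      intro z hz
      rw [Finset.mem_union, Finset.mem_sdiff]
      by_cases h : z ∈ Jp c C V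
      · exact Or.inl h
      · exact Or.inr ⟨hz, h⟩
    have h2 := phi_super (V := V) hJK Finset.subset_union_left hK'JK
    have h3 : Jp c C V ∪ K' = Jp c C V ∪ (K' \ Jp c C V) := by
      rw [Finset.union_sdiff_self_eq_union]
    rw [h3, Finset.inter_comm] at h2
    obtain ⟨Y, hYsub, hYmem, hYmax, -⟩ := phi_max hPq hK2f
    have h4 := hYmax _ (Finset.Subset.refl _)
    have hYX : Y ⊆ X := by
      intro z hz
      obtain ⟨Z, hZsub, hZ, hzZ⟩ := (hYmem z).1 hz
      have hzK : z ∈ K' \ Jp c C V := hZsub hzZ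
      have hzq := hK2sub hzK
      obtain ⟨hzC, hz0⟩ := mem_offC.1 hzq
      obtain ⟨e, he⟩ := hP.sup_ne hzC
      obtain ⟨he0, hze⟩ := SK.mem_sup'.1 he
      have heJ' : e ∈ PU c ∅ ((Jp c C V ∪ X) \ H ∪ H') :=
        SK.mem_PU.2 ⟨he0, z, hK'sub (Finset.mem_sdiff.1 hzK).1, hze⟩
      rw [hs3] at heJ'
      obtain ⟨-, k, hk, hke⟩ := SK.mem_PU.1 heJ'
      rcases Finset.mem_union.1 hk with hk | hk
      · exact absurd (hz0 e (SK.mem_PU.2 ⟨he0, k, hk, hke⟩)) hze
      · have := SK.lemC hPq hX hr hZ k hk z hzZ e he0 hke hze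
        rw [← this]
        exact hk
    have hY1 : phi c (offV V (PU c ∅ (Jp c C V))) Y ≤ 1 := by
      rcases hYX.eq_or_ssubset with h | h
      · rw [h]
        exact hX1
      · have := hmX.2 _ h
        omega
    have h5 := hmX.1
    omega
  -- `H ∩ J ⊆ H'`
  have hHJ : H ∩ Jp c C V ⊆ H' := by
    intro k hk
    rw [Finset.mem_inter] at hk
    rcases Finset.mem_union.1 (hK'sub (hJsub hk.2)) with h | h
    · exact absurd hk.1 (Finset.mem_sdiff.1 h).2
    · exact h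
  have hHX : H \ (H ∩ Jp c C V) ⊆ X := by
    intro k hk
    rw [Finset.mem_sdiff, Finset.mem_inter] at hk
    rcases Finset.mem_union.1 (hH hk.1) with h | h
    · exact absurd ⟨hk.1, h⟩ hk.2
    · exact h
  have hsum2 : ∀ e, ∑ k ∈ H' \ (H ∩ Jp c C V), c k e = ∑ k ∈ H \ (H ∩ Jp c C V), c k e := by
    intro e
    have h1 := Finset.sum_sdiff (f := fun k => c k e) hHJ
    have h2 := Finset.sum_sdiff (f := fun k => c k e)
      (Finset.inter_subset_left : H ∩ Jp c C V ⊆ H)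
    have h3 := hsum e (Finset.notMem_empty e)
    omega
  have hcard2 : (H' \ (H ∩ Jp c C V)).card = (H \ (H ∩ Jp c C V)).card := by
    have h1 := Finset.card_sdiff_add_card_eq_card hHJ
    have h2 := Finset.card_sdiff_add_card_eq_card
      (Finset.inter_subset_left : H ∩ Jp c C V ⊆ H)
    omega
  have hoff : H' \ (H ∩ Jp c C V) ⊆ offC c C (PU c ∅ (Jp c C V)) := by
    intro z hz
    rw [mem_offC]
    refine ⟨hH' (Finset.mem_sdiff.1 hz).1, fun e he => ?_⟩
    have h1 : ∑ k ∈ H \ (H ∩ Jp c C V), c k e = 0 := by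
      refine Finset.sum_eq_zero fun k hk => ?_
      exact (mem_offC.1 (hXf.sub (hHX hk))).2 e he
    rw [← hsum2 e] at h1
    exact (Finset.sum_eq_zero_iff.1 h1) z hz
  have hfin := hr _ hHX _ hoff hcard2 fun e _ => hsum2 e
  have h1 := Finset.sdiff_union_of_subset hHJ
  have h2 := Finset.sdiff_union_of_subset (Finset.inter_subset_left : H ∩ Jp c C V ⊆ H)
  rw [hfin] at h1
  exact h1.symm.trans h2

end MPb07157.LC
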