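import Pool.Agent.Lib.MP_b07157_ag.LC.Phi

/-!
# The system off a family: basic facts
-/

set_option linter.unusedSectionVars false

namespace MPb07157.LC

open Finset Module MPb07157.EX MPb07157.SK

variable {ι κ : Type} [Fintype ι] [DecidableEq ι] [DecidableEq κ]
variable {c : κ → ι → ℕ} {C : Finset κ} {A : Set (ι → ℚ)} {V : Submodule ℚ (ι → ℚ)}
  {J U X Y Z : Finset κ} {Q : Finset ι}

theorem mem_offC {k : κ} : k ∈ offC c C Q ↔ k ∈ C ∧ ∀ e ∈ Q, c k e = 0 := by
  unfold offC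
  rw [Finset.mem_filter]

theorem mem_offV {ξ : ι → ℚ} : ξ ∈ offV V Q ↔ ∃ η ∈ V, piQ Q η = ξ := Iff.rfl

private theorem off0_piQ_apply (Q : Finset ι) (ξ : ι → ℚ) (e : ι) :
    piQ Q ξ e = if e ∈ Q then 0 else ξ e := rfl

/-- LC-41. The system off `Q`. -/
theorem off_pre (hP : Pre c C A V ∅) (Q : Finset ι) :
    Pre c (offC c C Q) (offA A Q) (offV V Q) ∅ := by
  refine ⟨hP.ne.image _, ?_, ?_, ?_⟩
  · rintro _ ⟨x0, hx0, rfl⟩ y
    constructor
    · rintro ⟨y0, hy0, rfl⟩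
      exact ⟨y0 - x0, (hP.aff x0 hx0 y0).1 hy0, map_sub _ _ _⟩
    · rintro ⟨η, hη, he⟩
      refine ⟨x0 + η, hP.add_mem hx0 hη, ?_⟩
      rw [map_add, he]
      exact add_sub_cancel _ _
  · intro x _ f hf
    exact absurd hf (Finset.notMem_empty f)
  · rintro k hk _ ⟨x0, hx0, rfl⟩
    obtain ⟨hkC, hk0⟩ := mem_offC.1 hk
    rw [← hP.col k hkC x0 hx0]
    refine Finset.sum_congr rfl fun e _ => ?_
    rw [off0_piQ_apply]
    split_ifs with h
    · rw [hk0 e h, Nat.cast_zero, zero_mul, zero_mul]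
    · rfl

/-- LC-42. It is homogeneous, if `Q` is the support of a disjoint family: for `ξ ∈ V` the sum of the
coordinates in `PU c ∅ J` is `∑_{k ∈ J} ∑ e, c k e * ξ e = 0`. -/
theorem off_hom (hP : Pre c C A V ∅) (hJ : Fam c C ∅ J) (hom : ∀ ξ ∈ V, ∑ e, ξ e = 0) :
    ∀ ξ ∈ offV V (PU c ∅ J), ∑ e, ξ e = 0 := by
  rintro _ ⟨η, hη, rfl⟩
  have h1 : ∑ k ∈ J, ∑ e, (c k e : ℚ) * η e = 0 :=
    Finset.sum_eq_zero fun k hk => hP.colV (hJ.sub hk) hη
  rw [Finset.sum_comm] at h1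
  have h2 : ∀ e, piQ (PU c ∅ J) η e + ∑ k ∈ J, (c k e : ℚ) * η e = η e := by
    intro e
    rw [off0_piQ_apply]
    split_ifs with h
    · obtain ⟨-, k, hk, hk0⟩ := mem_PU.1 h
      have h3 : c k e = 1 := by
        have := hJ.zo k hk e (Finset.notMem_empty e)
        omega
      rw [Finset.sum_eq_single_of_mem k hk, h3, Nat.cast_one, one_mul, zero_add]
      intro k' hk' hne
      have h4 : c k' e = 0 := by
        by_contra h5
        exact hne (hJ.dj k' hk' k hk e (Finset.notMem_empty e) h5 hk0)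
      rw [h4, Nat.cast_zero, zero_mul]
    · rw [Finset.sum_eq_zero, add_zero]
      intro k hk
      have h4 : c k e = 0 := by
        by_contra h5
        exact h (mem_PU.2 ⟨Finset.notMem_empty e, k, hk, h5⟩)
      rw [h4, Nat.cast_zero, zero_mul]
  have h5 := Finset.sum_congr (rfl : (Finset.univ : Finset ι) = Finset.univ) fun e _ => h2 e
  rw [Finset.sum_add_distrib, h1, add_zero, hom η hη] at h5
  exact h5

/-- LC-43. Families off `J`. -/
theorem off_fam (hP : Pre c C A V ∅) (hJ : Fam c C ∅ J)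
    (hX : Fam c (offC c C (PU c ∅ J)) ∅ X) : Fam c C ∅ (J ∪ X) ∧ Disjoint J X := by
  have key : ∀ k ∈ J, ∀ k' ∈ X, ∀ e, c k e ≠ 0 → c k' e ≠ 0 → False := by
    intro k hk k' hk' e h1 h2
    exact h2 ((mem_offC.1 (hX.sub hk')).2 e (mem_PU.2 ⟨Finset.notMem_empty e, k, hk, h1⟩))
  refine ⟨⟨?_, ?_, ?_⟩, ?_⟩
  · refine Finset.union_subset hJ.sub fun k hk => ?_
    exact (mem_offC.1 (hX.sub hk)).1
  · intro k hk e he
    rcases Finset.mem_union.1 hk with hk | hk
    · exact hJ.zo k hk e he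
    · exact hX.zo k hk e he
  · intro k hk k' hk' e he h1 h2
    rcases Finset.mem_union.1 hk with hk | hk <;> rcases Finset.mem_union.1 hk' with hk' | hk'
    · exact hJ.dj k hk k' hk' e he h1 h2
    · exact (key k hk k' hk' e h1 h2).elim
    · exact (key k' hk' k hk e h2 h1).elim
    · exact hX.dj k hk k' hk' e he h1 h2
  · rw [Finset.disjoint_left]
    intro k hk hk'
    obtain ⟨e, he⟩ := hP.sup_ne (hJ.sub hk)
    rw [SK.mem_sup'] at he
    exact key k hk k hk' e he.2 he.2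

end MPb07157.LC
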