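import Pool.Agent.Lib.MP_b07157_ag.LC.Phi0

/-!
# The set function of a system
-/

set_option linter.unusedSectionVars false

namespace MPb07157.LC

open Finset Module MPb07157.EX MPb07157.SK

variable {ι κ : Type} [Fintype ι] [DecidableEq ι] [DecidableEq κ]
variable {c : κ → ι → ℕ} {C : Finset κ} {A : Set (ι → ℚ)} {V : Submodule ℚ (ι → ℚ)}
  {J U X Y Z : Finset κ}

/-- LC-34. -/
theorem dfc_iff (hJ : Fam c C ∅ J) : Dfc c C V ∅ J ↔ J.Nonempty ∧ 1 ≤ phi c V J := by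
  unfold phi
  constructor
  · intro h
    have h1 := h.num
    exact ⟨h.ne, by omega⟩
  · rintro ⟨h1, h2⟩
    exact ⟨hJ, h1, by omega⟩

/-- LC-35. -/
theorem minD_iff (hU : Fam c C ∅ U) (hZ : Z ⊆ U) : MinD c C V ∅ Z ↔ MinPos (phi c V) Z := by
  constructor
  · intro h
    refine ⟨((dfc_iff (hU.mono hZ)).1 h.dfc).2, fun Y hY => ?_⟩
    by_contra h1
    have h1 : 1 ≤ phi c V Y := by omega
    refine h.min Y hY ((dfc_iff (hU.mono (hY.1.trans hZ))).2 ⟨?_, h1⟩)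
    rw [Finset.nonempty_iff_ne_empty]
    rintro rfl
    rw [phi_empty] at h1
    omega
  · rintro ⟨h1, h2⟩
    refine ⟨(dfc_iff (hU.mono hZ)).2 ⟨?_, h1⟩, fun Y hY hD => ?_⟩
    · rw [Finset.nonempty_iff_ne_empty]
      rintro rfl
      rw [phi_empty] at h1
      omega
    · have h3 := ((dfc_iff (hU.mono (hY.1.trans hZ))).1 hD).2
      have h4 := h2 Y hY
      omega

/-- LC-36. The union of the minimal deficits of a family has maximal value, and it is the smallest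
such set (`sm_max`; `K = U.filter (∃ Z ⊆ U, MinD c C V ∅ Z ∧ · ∈ Z)`). -/
theorem phi_max (hP : Pre c C A V ∅) (hU : Fam c C ∅ U) :
    ∃ K ⊆ U, (∀ k, k ∈ K ↔ ∃ Z ⊆ U, MinD c C V ∅ Z ∧ k ∈ Z) ∧
      (∀ X ⊆ U, phi c V X ≤ phi c V K) ∧ ∀ X, X ⊂ K → phi c V X < phi c V K := by
  classical
  have hK : ∀ k, k ∈ U.filter (fun k => ∃ Z ⊆ U, MinD c C V ∅ Z ∧ k ∈ Z) ↔
      ∃ Z ⊆ U, MinD c C V ∅ Z ∧ k ∈ Z := by
    intro k
    rw [Finset.mem_filter]
    constructor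
    · exact fun h => h.2
    · rintro ⟨Z, hZ, h1, h2⟩
      exact ⟨hZ h2, Z, hZ, h1, h2⟩
  refine ⟨U.filter fun k => ∃ Z ⊆ U, MinD c C V ∅ Z ∧ k ∈ Z, Finset.filter_subset _ _, hK, ?_⟩
  refine sm_max (phi c V) U phi_empty (fun X hX Y hY => phi_super hU hX hY)
    (fun X hX k hk => phi_incr hP hU hX hk) _ fun k => ?_
  rw [hK]
  constructor
  · rintro ⟨Z, hZ, h1, h2⟩
    exact ⟨Z, hZ, (minD_iff hU hZ).1 h1, h2⟩
  · rintro ⟨Z, hZ, h1, h2⟩
    exact ⟨Z, hZ, (minD_iff hU hZ).2 h1, h2⟩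

/-- LC-37. The value only depends on the cardinality and on the union of the supports. -/
theorem phi_congr (h1 : X.card = Y.card) (h2 : PU c ∅ X = PU c ∅ Y) : phi c V X = phi c V Y := by
  unfold phi
  rw [h1, h2]

end MPb07157.LC
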