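import Pool.Agent.Lib.MP_b07157_ag.LC.CDefs

section

/-!
# Supermodular functions with increments at most one
-/

set_option linter.unusedSectionVars false

namespace MPb07157.LC

open Finset Module MPb07157.EX MPb07157.SK

variable {κ : Type} [DecidableEq κ]

private lemma sm_opt (f : Finset κ → ℤ) (S : Finset κ) :
    ∃ M ⊆ S, (∀ X ⊆ S, f X ≤ f M) ∧ ∀ Y, Y ⊂ M → f Y < f M := by
  obtain ⟨M, hM, hmax⟩ := Finset.exists_max_image S.powerset
    (fun X => f X * ((S.card : ℤ) + 1) - (X.card : ℤ)) ⟨∅, Finset.empty_mem_powerset S⟩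
  rw [Finset.mem_powerset] at hM
  have hle : ∀ X ⊆ S, f X ≤ f M := by
    intro X hX
    by_contra hlt
    push Not at hlt
    have h1 := hmax X (Finset.mem_powerset.2 hX)
    have h2 : (X.card : ℤ) ≤ S.card := by exact_mod_cast Finset.card_le_card hX
    have h3 : f M + 1 ≤ f X := hlt
    have h4 : (0 : ℤ) ≤ (M.card : ℤ) := Int.natCast_nonneg _
    have h5 : (0 : ℤ) ≤ (S.card : ℤ) := Int.natCast_nonneg _
    nlinarith [mul_le_mul_of_nonneg_right h3 (by linarith : (0 : ℤ) ≤ (S.card : ℤ) + 1)]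
  refine ⟨M, hM, hle, ?_⟩
  intro Y hY
  have h1 := hle Y (hY.1.trans hM)
  rcases h1.lt_or_eq with h2 | h2
  · exact h2
  · exfalso
    have h3 := hmax Y (Finset.mem_powerset.2 (hY.1.trans hM))
    have h4 : (Y.card : ℤ) < M.card := by exact_mod_cast Finset.card_lt_card hY
    simp only [h2] at h3
    linarith

private lemma sm_minpos (f : Finset κ → ℤ) (S : Finset κ) (h : 1 ≤ f S) :
    ∃ Z ⊆ S, MinPos f Z := by
  induction S using Finset.strongInduction with
  | H S ih =>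
    by_cases hall : ∀ Y, Y ⊂ S → f Y ≤ 0
    · exact ⟨S, Finset.Subset.refl S, h, hall⟩
    · push Not at hall
      obtain ⟨Y, hY, hY1⟩ := hall
      obtain ⟨Z, hZ, hZ1⟩ := ih Y hY (by omega)
      exact ⟨Z, hZ.trans hY.1, hZ1⟩

private lemma sm_claim (f : Finset κ → ℤ) (U : Finset κ) (h0 : f ∅ = 0)
    (hs : ∀ X ⊆ U, ∀ Y ⊆ U, f X + f Y ≤ f (X ∪ Y) + f (X ∩ Y))
    (hi : ∀ X ⊆ U, ∀ k ∈ U, f (insert k X) ≤ f X + 1) (M : Finset κ) (hM : M ⊆ U)
    (hlt : ∀ Y, Y ⊂ M → f Y < f M) (b : κ) (hb : b ∈ M) :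
    ∃ Z ⊆ M, MinPos f Z ∧ b ∈ Z := by
  induction M using Finset.strongInduction with
  | H M ih =>
    have hne : (∅ : Finset κ) ⊂ M := Finset.empty_ssubset.2 ⟨b, hb⟩
    have h1 : 1 ≤ f M := by
      have := hlt ∅ hne
      omega
    by_cases hM1 : f M = 1
    · exact ⟨M, Finset.Subset.refl M, ⟨h1, fun Y hY => by have := hlt Y hY; omega⟩, hb⟩
    · obtain ⟨J, hJM, hJ⟩ := sm_minpos f M h1
      by_cases hbJ : b ∈ J
      · exact ⟨J, hJM, hJ, hbJ⟩
      · have hJne : J.Nonempty := by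
          rw [Finset.nonempty_iff_ne_empty]
          rintro rfl
          have := hJ.1
          omega
        obtain ⟨a, ha⟩ := hJne
        have haM : a ∈ M := hJM ha
        have h2 := hi (M.erase a) ((Finset.erase_subset a M).trans hM) a (hM haM)
        rw [Finset.insert_erase haM] at h2
        obtain ⟨M1, hM1s, hM1max, hM1lt⟩ := sm_opt f (M.erase a)
        have h3 := hM1max (M.erase a) (Finset.Subset.refl _)
        have hM1ss : M1 ⊂ M := lt_of_le_of_lt hM1s (Finset.erase_ssubset haM)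
        have h4 := hlt M1 hM1ss
        by_cases hbM1 : b ∈ M1
        · obtain ⟨Z, hZ, hZ1, hZ2⟩ := ih M1 hM1ss (hM1ss.1.trans hM) hM1lt hbM1
          exact ⟨Z, hZ.trans hM1ss.1, hZ1, hZ2⟩
        · exfalso
          have h5 := hs M1 (hM1ss.1.trans hM) J (hJM.trans hM)
          have haM1 : a ∉ M1 := fun h => (Finset.mem_erase.1 (hM1s h)).1 rfl
          have h6 : M1 ∩ J ⊂ J := by
            refine (Finset.ssubset_iff_of_subset Finset.inter_subset_right).2 ⟨a, ha, ?_⟩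
            intro h
            exact haM1 (Finset.mem_inter.1 h).1
          have h7 := hJ.2 _ h6
          have h8 := hJ.1
          have h9 : M1 ∪ J ⊆ M := Finset.union_subset hM1ss.1 hJM
          rcases eq_or_ssubset_of_subset h9 with h10 | h10
          · rw [← h10] at hb
            rcases Finset.mem_union.1 hb with h | h
            · exact hbM1 h
            · exact hbJ h
          · have h11 := hlt _ h10
            omega

/-- LC-30. For a supermodular function with increments at most one, the union `K` of the minimal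
sets with positive value is the smallest set with maximal value.

Proof. Let `M ⊆ U` be a set of maximal value, of minimal cardinality; then `f Y < f M` for `Y ⊂ M`.
(i) Every `MinPos` set `Z ⊆ U` is contained in `M`: otherwise `M ∩ Z ⊂ Z`, `f (M ∩ Z) ≤ 0` and
`f (M ∪ Z) ≥ f M + f Z - f (M ∩ Z) ≥ f M + 1`.  (ii) Claim, by induction on `M.card`: if `M ⊆ U`,
`f Y < f M` for all `Y ⊂ M`, then every `b ∈ M` is in a `MinPos` set contained in `M`.  `M ≠ ∅`, so
`f M ≥ 1`.  If `f M = 1`, `M` itself is `MinPos`.  If `f M ≥ 2`: there is a `MinPos` set `J₁ ⊆ M`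
(minimal subset with positive value).  If `b ∈ J₁` done.  Otherwise let `a ∈ J₁`;
`f (M.erase a) ≥ f M - 1` by `hi`, hence `= f M - 1`; let `M₁ ⊆ M.erase a` be of maximal value
`f M - 1 ≥ 1` among the subsets of `M.erase a`, of minimal cardinality.  If `b ∈ M₁` use the
induction hypothesis.  If not: `M₁ ∩ J₁ ⊂ J₁` (`a` is missing), so
`f (M₁ ∪ J₁) ≥ f M₁ + f J₁ - 0 ≥ f M`, hence `M₁ ∪ J₁ = M ∋ b`, contradiction.  So `K = M`. -/
theorem sm_max (f : Finset κ → ℤ) (U : Finset κ) (h0 : f ∅ = 0)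
    (hs : ∀ X ⊆ U, ∀ Y ⊆ U, f X + f Y ≤ f (X ∪ Y) + f (X ∩ Y))
    (hi : ∀ X ⊆ U, ∀ k ∈ U, f (insert k X) ≤ f X + 1) (K : Finset κ)
    (hK : ∀ k, k ∈ K ↔ ∃ Z ⊆ U, MinPos f Z ∧ k ∈ Z) :
    (∀ X ⊆ U, f X ≤ f K) ∧ ∀ X, X ⊂ K → f X < f K := by
  obtain ⟨M, hMU, hmax, hlt⟩ := sm_opt f U
  have hKM : K = M := by
    ext k
    rw [hK]
    constructor
    · rintro ⟨Z, hZU, hZ, hk⟩
      have hZM : Z ⊆ M := by
        by_contra hnot
        have h1 : M ∩ Z ⊂ Z := by
          refine Finset.ssubset_iff_subset_ne.2 ⟨Finset.inter_subset_right, ?_⟩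
          intro h
          exact hnot (Finset.inter_eq_right.1 h)
        have h2 := hZ.2 _ h1
        have h3 := hs M hMU Z hZU
        have h4 := hmax (M ∪ Z) (Finset.union_subset hMU hZU)
        have h5 := hZ.1
        omega
      exact hZM hk
    · intro hk
      obtain ⟨Z, hZ, hZ1, hZ2⟩ := sm_claim f U h0 hs hi M hMU hlt k hk
      exact ⟨Z, hZ.trans hMU, hZ1, hZ2⟩
  rw [hKM]
  exact ⟨hmax, hlt⟩

end MPb07157.LC
end

section

/-!
# The set function of a system: supermodularity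
-/

set_option linter.unusedSectionVars false

namespace MPb07157.LC

open Finset Module MPb07157.EX MPb07157.SK

variable {ι κ : Type} [Fintype ι] [DecidableEq ι] [DecidableEq κ]
variable {c : κ → ι → ℕ} {C : Finset κ} {A : Set (ι → ℚ)} {V : Submodule ℚ (ι → ℚ)}
  {J U X Y Z : Finset κ}

private theorem phi0_cut (R : Finset ι) (V : Submodule ℚ (ι → ℚ)) :
    finrank ℚ V ≤ finrank ℚ (cutV V R) + R.card := by
  set ρ : V →ₗ[ℚ] (R → ℚ) := (LinearMap.funLeft ℚ ℚ (fun r : R => (r : ι))).comp V.subtype with hρ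
  have h1 := LinearMap.finrank_range_add_finrank_ker ρ
  have h2 : finrank ℚ (LinearMap.range ρ) ≤ R.card := by
    refine (Submodule.finrank_le _).trans ?_
    rw [finrank_fintype_fun_eq_card, Fintype.card_coe]
  have h3 : (LinearMap.ker ρ).map V.subtype = cutV V R := by
    ext ξ
    rw [Submodule.mem_map, mem_cutV]
    constructor
    · rintro ⟨⟨η, hη⟩, h4, rfl⟩
      refine ⟨hη, fun f hf => ?_⟩
      have h5 := congrFun (LinearMap.mem_ker.mp h4) ⟨f, hf⟩
      exact h5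
    · rintro ⟨hξ, h4⟩
      refine ⟨⟨ξ, hξ⟩, ?_, rfl⟩
      rw [LinearMap.mem_ker]
      funext r
      exact h4 r r.2
  have h4 : finrank ℚ (LinearMap.ker ρ) = finrank ℚ (cutV V R) := by
    rw [← h3, Submodule.finrank_map_subtype_eq]
  omega

private theorem phi0_PU_union (X Y : Finset κ) : PU c ∅ (X ∪ Y) = PU c ∅ X ∪ PU c ∅ Y := by
  ext e
  simp only [Finset.mem_union, mem_PU]
  constructor
  · rintro ⟨h, k, hk | hk, h1⟩
    · exact Or.inl ⟨h, k, hk, h1⟩
    · exact Or.inr ⟨h, k, hk, h1⟩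
  · rintro (⟨h, k, hk, h1⟩ | ⟨h, k, hk, h1⟩)
    · exact ⟨h, k, Or.inl hk, h1⟩
    · exact ⟨h, k, Or.inr hk, h1⟩

private theorem phi0_PU_inter (hU : SK.Fam c C ∅ U) (hX : X ⊆ U) (hY : Y ⊆ U) :
    PU c ∅ (X ∩ Y) = PU c ∅ X ∩ PU c ∅ Y := by
  ext e
  simp only [Finset.mem_inter, mem_PU]
  constructor
  · rintro ⟨h, k, hk, h1⟩
    exact ⟨⟨h, k, hk.1, h1⟩, ⟨h, k, hk.2, h1⟩⟩
  · rintro ⟨⟨h, k, hk, h1⟩, ⟨_, k', hk', h2⟩⟩
    have := hU.dj k (hX hk) k' (hY hk') e h h1 h2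
    subst this
    exact ⟨h, k, ⟨hk, hk'⟩, h1⟩

/-- LC-31. -/
theorem phi_empty : phi c V (∅ : Finset κ) = 0 := by
  have h1 : PU c ∅ (∅ : Finset κ) = ∅ := by
    unfold PU
    rw [Finset.biUnion_empty]
  have h2 : cutV V (PU c ∅ (∅ : Finset κ))ᶜ = ⊥ := by
    rw [h1, Submodule.eq_bot_iff]
    intro ξ hξ
    funext f
    exact hξ.2 f (by simp)
  unfold phi
  rw [h2, h1, finrank_bot]
  simp

/-- LC-32. Supermodularity: `PU` and `card` are modular on subfamilies of a disjoint family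
(`PU c ∅ (X ∩ Y) = PU c ∅ X ∩ PU c ∅ Y` by `dj`), and
`cutV V (PU X)ᶜ ⊔ cutV V (PU Y)ᶜ ≤ cutV V (PU (X ∪ Y))ᶜ`, with
`cutV V (PU X)ᶜ ⊓ cutV V (PU Y)ᶜ = cutV V (PU (X ∩ Y))ᶜ`
(`Submodule.finrank_sup_add_finrank_inf_eq`). -/
theorem phi_super (hU : Fam c C ∅ U) (hX : X ⊆ U) (hY : Y ⊆ U) :
    phi c V X + phi c V Y ≤ phi c V (X ∪ Y) + phi c V (X ∩ Y) := by
  have hc1 := Finset.card_union_add_card_inter X Y
  have hc2 := Finset.card_union_add_card_inter (PU c ∅ X) (PU c ∅ Y)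
  rw [← phi0_PU_union, ← phi0_PU_inter hU hX hY] at hc2
  have h1 := Submodule.finrank_sup_add_finrank_inf_eq (cutV V (PU c ∅ X)ᶜ) (cutV V (PU c ∅ Y)ᶜ)
  have h2 : cutV V (PU c ∅ X)ᶜ ⊔ cutV V (PU c ∅ Y)ᶜ ≤ cutV V (PU c ∅ (X ∪ Y))ᶜ := by
    refine sup_le ?_ ?_
    · intro ξ hξ
      refine ⟨hξ.1, fun f hf => hξ.2 f ?_⟩
      rw [Finset.mem_compl] at hf ⊢
      exact fun h => hf (by rw [phi0_PU_union]; exact Finset.mem_union_left _ h)
    · intro ξ hξ
      refine ⟨hξ.1, fun f hf => hξ.2 f ?_⟩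
      rw [Finset.mem_compl] at hf ⊢
      exact fun h => hf (by rw [phi0_PU_union]; exact Finset.mem_union_right _ h)
  have h3 : cutV V (PU c ∅ X)ᶜ ⊓ cutV V (PU c ∅ Y)ᶜ = cutV V (PU c ∅ (X ∩ Y))ᶜ := by
    ext ξ
    rw [Submodule.mem_inf, mem_cutV, mem_cutV, mem_cutV]
    constructor
    · rintro ⟨⟨ha, hb⟩, ⟨_, hd⟩⟩
      refine ⟨ha, fun f hf => ?_⟩
      rw [phi0_PU_inter hU hX hY, Finset.mem_compl, Finset.mem_inter, not_and_or] at hf
      rcases hf with hf | hf
      · exact hb f (Finset.mem_compl.mpr hf)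
      · exact hd f (Finset.mem_compl.mpr hf)
    · rintro ⟨ha, hb⟩
      refine ⟨⟨ha, fun f hf => hb f ?_⟩, ⟨ha, fun f hf => hb f ?_⟩⟩
      · rw [phi0_PU_inter hU hX hY, Finset.mem_compl, Finset.mem_inter]
        exact fun h => (Finset.mem_compl.mp hf) h.1
      · rw [phi0_PU_inter hU hX hY, Finset.mem_compl, Finset.mem_inter]
        exact fun h => (Finset.mem_compl.mp hf) h.2
  rw [h3] at h1
  have h4 := Submodule.finrank_mono h2
  unfold phi
  omega

/-- LC-33. Increments at most one: for `k ∉ X`, the restriction to the coordinates in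
`EX.sup c ∅ k` maps `cutV V (PU (insert k X))ᶜ` to vectors with sum zero (`Pre.colV`, and `c k = 1` on
`sup`), a space of dimension `(sup c ∅ k).card - 1` (`Pre.sup_ne`), with kernel
`cutV V (PU X)ᶜ`. -/
theorem phi_incr (hP : Pre c C A V ∅) (hU : Fam c C ∅ U) (hX : X ⊆ U) {k : κ} (hk : k ∈ U) :
    phi c V (insert k X) ≤ phi c V X + 1 := by
  by_cases hkX : k ∈ X
  · rw [Finset.insert_eq_of_mem hkX]; omega
  have hkC : k ∈ C := hU.sub hk
  have hPU : PU c ∅ (insert k X) = PU c ∅ X ∪ EX.sup c ∅ k := by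
    unfold PU
    rw [Finset.biUnion_insert, Finset.union_comm]
  have hdis : Disjoint (PU c ∅ X) (EX.sup c ∅ k) := by
    rw [Finset.disjoint_left]
    intro e h1 h2
    rw [mem_PU] at h1
    rw [SK.mem_sup'] at h2
    obtain ⟨h3, k', hk', h4⟩ := h1
    have := hU.dj k hk k' (hX hk') e h3 h2.2 h4
    subst this
    exact hkX hk'
  have hcard : (PU c ∅ (insert k X)).card = (PU c ∅ X).card + (EX.sup c ∅ k).card := by
    rw [hPU, Finset.card_union_of_disjoint hdis]
  have hcard2 : (insert k X).card = X.card + 1 := Finset.card_insert_of_notMem hkX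
  obtain ⟨e₀, he₀⟩ := hP.sup_ne hkC
  have hR : ((EX.sup c ∅ k).erase e₀).card = (EX.sup c ∅ k).card - 1 := Finset.card_erase_of_mem he₀
  have hpos : 0 < (EX.sup c ∅ k).card := Finset.card_pos.mpr ⟨e₀, he₀⟩
  have h1 := phi0_cut ((EX.sup c ∅ k).erase e₀) (cutV V (PU c ∅ (insert k X))ᶜ)
  have h2 : cutV (cutV V (PU c ∅ (insert k X))ᶜ) ((EX.sup c ∅ k).erase e₀) ≤ cutV V (PU c ∅ X)ᶜ := by
    intro ξ hξ
    obtain ⟨⟨hV, ha⟩, hb⟩ := hξ
    have hc0 : ξ e₀ = 0 := by
      have hs := hP.colV hkC hV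
      rw [Finset.sum_eq_single e₀] at hs
      · have h3 : c k e₀ ≠ 0 := (SK.mem_sup'.mp he₀).2
        have h4 : (c k e₀ : ℚ) ≠ 0 := by exact_mod_cast h3
        exact (mul_eq_zero.mp hs).resolve_left h4
      · intro e _ hne
        by_cases h3 : e ∈ EX.sup c ∅ k
        · rw [hb e (Finset.mem_erase.mpr ⟨hne, h3⟩), mul_zero]
        · rw [SK.mem_sup'] at h3
          have h4 : c k e = 0 := by
            by_contra h5
            exact h3 ⟨by simp, h5⟩
          rw [h4, Nat.cast_zero, zero_mul]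
      · intro h3
        exact absurd (Finset.mem_univ _) h3
    refine ⟨hV, fun f hf => ?_⟩
    by_cases hf1 : f ∈ EX.sup c ∅ k
    · by_cases hf2 : f = e₀
      · rw [hf2]; exact hc0
      · exact hb f (Finset.mem_erase.mpr ⟨hf2, hf1⟩)
    · refine ha f ?_
      rw [Finset.mem_compl] at hf ⊢
      rw [hPU, Finset.mem_union]
      exact fun h => h.elim hf hf1
  have h3 := Submodule.finrank_mono h2
  unfold phi
  omega

end MPb07157.LC
end
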