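import Pool.Agent.Lib.MP_b07157_ag.LC.T1a

/-!
# The one-sided line theorem for homogeneous systems
-/

set_option linter.unusedSectionVars false

namespace MPb07157.LC

open Finset Module MPb07157.EX MPb07157.SK

variable {ι κ : Type} [Fintype ι] [DecidableEq ι] [DecidableEq κ]
variable {c : κ → ι → ℕ} {C : Finset κ} {p t : ι → ℚ} {T : Finset ι}

omit [DecidableEq ι] [DecidableEq κ] in
private theorem t1_slope
    (hcol : ∀ k ∈ C, ∀ τ : ℚ, ∑ e, (c k e : ℚ) * (p e + τ * t e) = 1) {k : κ} (hk : k ∈ C) :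
    ∑ e, (c k e : ℚ) * t e = 0 := by
  have h0 := hcol k hk 0
  have h1 := hcol k hk 1
  have h2 : ∑ e, (c k e : ℚ) * t e
      = ∑ e, (c k e : ℚ) * (p e + 1 * t e) - ∑ e, (c k e : ℚ) * (p e + 0 * t e) := by
    rw [← Finset.sum_sub_distrib]
    exact Finset.sum_congr rfl fun e _ => by ring
  rw [h2, h0, h1, sub_self]

private theorem t1_a (hT : ∀ e ∈ T, p e = 0 ∧ t e = 0)
    (hcol : ∀ k ∈ C, ∀ τ : ℚ, ∑ e, (c k e : ℚ) * (p e + τ * t e) = 1) {w : ι} {k : κ}
    (ho : Own c C C T w k) {N : Finset ι} (hNt : ∀ e ∈ N, 0 < t e) : Own c C C (T ∪ N) w k := by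
  have hU := mem_U.1 ho.mem
  have htw : t w = 0 := by
    have h1 := t1_slope hcol hU.1
    rw [Finset.sum_eq_single w] at h1
    · rw [hU.2.1] at h1
      simpa using h1
    · intro e _ he
      by_cases h0 : c k e = 0
      · rw [h0]; simp
      · rcases hU.2.2 e h0 with h | h
        · rw [(hT e h).2, mul_zero]
        · exact absurd h he
    · intro h
      exact absurd (Finset.mem_univ w) h
  refine ⟨?_, ?_, ho.2.2⟩
  · rw [Finset.mem_union]
    rintro (h | h)
    · exact ho.1 h
    · exact (hNt w h).ne' htw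
  · refine Finset.Subset.antisymm ?_ ?_
    · rw [← ho.2.1]
      intro k' hk'
      have hk := mem_U.1 hk'
      have h1 := t1_slope hcol hk.1
      have hnn : ∀ e ∈ (univ : Finset ι), 0 ≤ (c k' e : ℚ) * t e := by
        intro e _
        by_cases h0 : c k' e = 0
        · rw [h0]; simp
        · rcases hk.2.2 e h0 with h | h
          · rcases Finset.mem_union.1 h with h | h
            · rw [(hT e h).2, mul_zero]
            · exact mul_nonneg (Nat.cast_nonneg _) (hNt e h).le
          · rw [h, htw, mul_zero]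
      have h2 := (Finset.sum_eq_zero_iff_of_nonneg hnn).1 h1
      rw [mem_U]
      refine ⟨hk.1, hk.2.1, fun e he => ?_⟩
      rcases hk.2.2 e he with h | h
      · rcases Finset.mem_union.1 h with h | h
        · exact Or.inl h
        · exfalso
          rcases mul_eq_zero.1 (h2 e (Finset.mem_univ e)) with h3 | h3
          · exact he (by exact_mod_cast h3)
          · exact (hNt e h).ne' h3
      · exact Or.inr h
    · rw [← ho.2.1]
      exact U_mono Finset.subset_union_left w

omit [Fintype ι] in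
private theorem t1_sum {F : Finset ι} {n : ι → ℕ} {s : ι → ℚ} (hs : ∀ e ∈ F, 0 < s e) {v : ι}
    (hv : v ∈ F) (hn : n v ≠ 0) (h : ∑ e ∈ F, (n e : ℚ) * s e ≤ s v) :
    n v = 1 ∧ ∀ e ∈ F, n e ≠ 0 → e = v := by
  rw [← Finset.add_sum_erase F _ hv] at h
  have h1 : (1 : ℚ) ≤ n v := by exact_mod_cast Nat.one_le_iff_ne_zero.2 hn
  have h2 : ∀ e ∈ F.erase v, 0 ≤ (n e : ℚ) * s e := fun e he =>
    mul_nonneg (Nat.cast_nonneg _) (hs e (Finset.mem_of_mem_erase he)).le
  have h3 := Finset.sum_nonneg h2
  have hv0 := hs v hv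
  have h4 : s v ≤ n v * s v := by nlinarith
  have h5 : (n v : ℚ) * s v = s v := le_antisymm (by linarith) h4
  have h6 : ∑ e ∈ F.erase v, (n e : ℚ) * s e = 0 := le_antisymm (by linarith) h3
  constructor
  · have h7 : (n v : ℚ) = 1 := mul_right_cancel₀ hv0.ne' (h5.trans (one_mul _).symm)
    exact_mod_cast h7
  · intro e he hne
    by_contra hev
    have h7 := (Finset.sum_eq_zero_iff_of_nonneg h2).1 h6 e (Finset.mem_erase.2 ⟨hev, he⟩)
    rcases mul_eq_zero.1 h7 with h8 | h8
    · exact hne (by exact_mod_cast h8)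
    · exact (hs e he).ne' h8

omit [Fintype ι] in
private theorem t1_min {F : Finset ι} {n : ι → ℕ} {s : ι → ℚ} {α : ℚ} (hα : 0 < α)
    (hs : ∀ e ∈ F, α ≤ s e) (h : ∑ e ∈ F, (n e : ℚ) * s e = α) :
    ∃ w ∈ F, s w = α ∧ n w = 1 ∧ ∀ e ∈ F, n e ≠ 0 → e = w := by
  have h0 : ∃ w ∈ F, n w ≠ 0 := by
    by_contra hcon
    push Not at hcon
    rw [Finset.sum_eq_zero fun e he => by rw [hcon e he]; simp] at h
    exact hα.ne h
  obtain ⟨w, hw, hnw⟩ := h0
  have hs' : ∀ e ∈ F, 0 < s e := fun e he => hα.trans_le (hs e he)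
  obtain ⟨h1, h2⟩ := t1_sum hs' hw hnw (h.le.trans (hs w hw))
  refine ⟨w, hw, ?_, h1, h2⟩
  rw [Finset.sum_eq_single_of_mem w hw, h1] at h
  · simpa using h
  · intro e he hew
    have h3 : n e = 0 := by
      by_contra hne
      exact hew (h2 e he hne)
    rw [h3]; simp

private theorem t1_bij (hsum : ∑ e, t e = 0) {M : ι → ι}
    (hinj : ∀ v u, t v < 0 → t u < 0 → M v = M u → v = u)
    (hle : ∀ v, t v < 0 → -t v ≤ t (M v)) :
    (∀ v, t v < 0 → t (M v) = -t v) ∧ ∀ w, 0 < t w → ∃ v, t v < 0 ∧ M v = w := by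
  have memA : ∀ e, e ∈ (univ : Finset ι).filter (fun e => t e < 0) ↔ t e < 0 := fun e => by
    rw [Finset.mem_filter]; exact ⟨fun h => h.2, fun h => ⟨Finset.mem_univ _, h⟩⟩
  have memB : ∀ e, e ∈ (univ : Finset ι).filter (fun e => 0 < t e) ↔ 0 < t e := fun e => by
    rw [Finset.mem_filter]; exact ⟨fun h => h.2, fun h => ⟨Finset.mem_univ _, h⟩⟩
  have hAB : ∑ e ∈ (univ : Finset ι).filter (fun e => t e < 0), t e
      + ∑ e ∈ (univ : Finset ι).filter (fun e => 0 < t e), t e = 0 := by
    refine Eq.trans ?_ ((Finset.sum_filter_add_sum_filter_not univ (fun e => t e < 0) t).trans hsum)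
    congr 1
    refine Finset.sum_subset ?_ ?_
    · intro e he
      rw [memB] at he
      rw [Finset.mem_filter]
      exact ⟨Finset.mem_univ _, he.le.not_gt⟩
    · intro e he he'
      rw [Finset.mem_filter] at he
      rw [memB] at he'
      exact le_antisymm (not_lt.1 he') (not_lt.1 he.2)
  generalize hA : (univ : Finset ι).filter (fun e => t e < 0) = A at memA hAB
  generalize hB : (univ : Finset ι).filter (fun e => 0 < t e) = B at memB hAB
  have hsub : A.image M ⊆ B := by
    intro w hw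
    obtain ⟨v, hv, rfl⟩ := Finset.mem_image.1 hw
    rw [memA] at hv
    rw [memB]
    have := hle v hv
    linarith
  have himg : ∑ e ∈ A.image M, t e = ∑ v ∈ A, t (M v) := by
    refine Finset.sum_image ?_
    intro v hv u hu h
    exact hinj v u ((memA v).1 hv) ((memA u).1 hu) h
  have h1 : ∑ e ∈ B \ A.image M, t e + ∑ v ∈ A, t (M v) = ∑ e ∈ B, t e := by
    rw [← himg]
    exact Finset.sum_sdiff hsub
  have h2 : ∀ v ∈ A, 0 ≤ t (M v) + t v := fun v hv => by
    have := hle v ((memA v).1 hv)
    linarith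
  have h3 : ∀ e ∈ B \ A.image M, 0 ≤ t e := fun e he =>
    ((memB e).1 (Finset.mem_sdiff.1 he).1).le
  have h4 := Finset.sum_nonneg h2
  have h5 := Finset.sum_nonneg h3
  rw [Finset.sum_add_distrib] at h4
  have h6 : ∑ v ∈ A, (t (M v) + t v) = 0 := by
    rw [Finset.sum_add_distrib]
    linarith
  have h7 : ∑ e ∈ B \ A.image M, t e = 0 := by linarith
  constructor
  · intro v hv
    have := (Finset.sum_eq_zero_iff_of_nonneg h2).1 h6 v ((memA v).2 hv)
    linarith
  · intro w hw
    by_contra hcon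
    have hw' : w ∈ B \ A.image M := by
      rw [Finset.mem_sdiff, memB, Finset.mem_image]
      refine ⟨hw, ?_⟩
      rintro ⟨v, hv, hvw⟩
      exact hcon ⟨v, (memA v).1 hv, hvw⟩
    have := (Finset.sum_eq_zero_iff_of_nonneg h3).1 h7 w hw'
    linarith

/-- LC-23. **The one-sided line theorem.**

Proof.  If `T` has an owner `(w, k)`: then `x_w = 1` on the line (unit equation), so `t w = 0`, and
`(w, k)` is an owner of `T ∪ N` for every `N` with positive slopes that vanish at `τ`: if
`k' ∈ U c C (T ∪ N) w`, then `∑_{e ∈ N} c k' e * x_e = 0` on the line, so `∑ c k' e * t e = 0`,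
`c k'` vanishes on `N`, `k' ∈ U c C T w = {k}`.  Otherwise use `elim` for every `τ` and all elements
with negative slope that vanish at `τ`: an injective map `m` from the elements of negative slope to
those of positive slope (the zero of `v` is the point where `m v` is one, so `m` is injective) with
`-t v ≤ t (m v)`; as `∑ t e = 0`, it is a bijection and `t (m v) = -t v`.  Hence also
`c (kk v) v = 1` and `c (kk v)` vanishes at the other elements `u` with `r v ≤ r u`: the column
`kk v` is, outside `T`, the pair `{v, m v}`.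
Suppose `T ∪ N` has no owner, `N` as in the conclusion.  Let `α` be the minimal slope in `N`,
`Na` the elements of `N` with slope `α`, `Ma = {v | t v < 0, m v ∈ Na}` (not empty).  All `v ∈ Ma`
vanish at `τ + 1 / α` and are one at `τ`.  For `v ∈ Ma`: `kk v ∈ U c C (T ∪ N) v`, so there is
another `k' ∈ U c C (T ∪ N) v`; its slope equation `∑_{e ∈ N} c k' e * t e = α` shows that it is,
outside `T`, a pair `{v, w'}` with `w' ∈ Na`.  Take `v ∈ Ma` with the largest `r` (order of the
elimination at `τ + 1 / α`), `w' = m u` with `u ∈ Ma`, `r u ≤ r v`: then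
`k' ∈ U c C (T ∪ {u' | r u ≤ r u'}) (m u) = {kk u}`, so `v = u`, `k' = kk v`, contradiction. -/
theorem one_sided (hT : ∀ e ∈ T, p e = 0 ∧ t e = 0)
    (hcol : ∀ k ∈ C, ∀ τ : ℚ, ∑ e, (c k e : ℚ) * (p e + τ * t e) = 1) (hsum : ∑ e, t e = 0)
    (H : ∀ (τ : ℚ) (N : Finset ι), N.Nonempty → (∀ e ∈ N, t e < 0 ∧ p e + τ * t e = 0) →
      ∃ w k, Own c C C (T ∪ N) w k) (τ : ℚ) (N : Finset ι) (hN : N.Nonempty)
    (hNt : ∀ e ∈ N, 0 < t e ∧ p e + τ * t e = 0) : ∃ w k, Own c C C (T ∪ N) w k := by
  by_cases hno : ∃ w k, Own c C C T w k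
  · obtain ⟨w, k, ho⟩ := hno
    exact ⟨w, k, t1_a hT hcol ho fun e he => (hNt e he).1⟩
  push Not at hno
  haveI : Nonempty κ := by
    obtain ⟨w, hw⟩ := hN
    obtain ⟨v, hv⟩ : ∃ v, t v < 0 := by
      by_contra hc
      push Not at hc
      have := (Finset.sum_eq_zero_iff_of_nonneg (fun e _ => hc e)).1 hsum w (Finset.mem_univ w)
      exact absurd this (hNt w hw).1.ne'
    obtain ⟨_, k, _⟩ := H (-p v / t v) {v} (Finset.singleton_nonempty v) (fun e he => by
      rw [Finset.mem_singleton.1 he]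
      refine ⟨hv, ?_⟩
      rw [div_mul_cancel₀ _ hv.ne]
      ring)
    exact ⟨k⟩
  have hel := fun σ : ℚ => elim hT hcol σ hno
    ((univ : Finset ι).filter fun e => t e < 0 ∧ p e + σ * t e = 0)
    (fun e he => (Finset.mem_filter.1 he).2)
    (fun M hM hne => H σ M hne fun e he => (Finset.mem_filter.1 (hM he)).2)
  choose r m kk hel1 hel2 hel3 using hel
  have memN : ∀ {σ : ℚ} {e : ι}, t e < 0 → p e + σ * t e = 0 →
      e ∈ (univ : Finset ι).filter fun e => t e < 0 ∧ p e + σ * t e = 0 := fun h1 h2 =>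
    Finset.mem_filter.2 ⟨Finset.mem_univ _, h1, h2⟩
  have hz : ∀ v, t v < 0 → p v + (-p v / t v) * t v = 0 := fun v hv => by
    rw [div_mul_cancel₀ _ hv.ne]
    ring
  obtain ⟨z, hzdef⟩ : ∃ z : ι → ℚ, ∀ v, t v < 0 → p v + z v * t v = 0 := ⟨_, hz⟩
  have hpos : ∀ v, t v < 0 → 0 < t (m (z v) v) := fun v hv => by
    have := (hel3 (z v) v (memN hv (hzdef v hv))).2.2.1
    linarith
  obtain ⟨hbij1, hbij2⟩ := t1_bij (M := fun v => m (z v) v) hsum
    (by
      intro v u hv hu h
      have h1 := (hel3 (z v) v (memN hv (hzdef v hv))).2.2.2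
      have h2 := (hel3 (z u) u (memN hu (hzdef u hu))).2.2.2
      have h3 : m (z v) v = m (z u) u := h
      rw [← h3] at h2
      have h4 : z v = z u := by
        have h5 : (z v - z u) * t (m (z v) v) = 0 := by linear_combination h1 - h2
        rcases mul_eq_zero.1 h5 with h6 | h6
        · linarith
        · exact absurd h6 (hpos v hv).ne'
      have hu' := hzdef u hu
      rw [← h4] at hu' h3
      exact hel2 (z v) v (memN hv (hzdef v hv)) u (memN hu hu') h3)
    (fun v hv => (hel3 (z v) v (memN hv (hzdef v hv))).2.2.1)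
  -- the columns `kk v` are pairs
  have hpair : ∀ v, t v < 0 → kk (z v) v ∈ C ∧ c (kk (z v) v) v = 1 ∧
      ∀ e, c (kk (z v) v) e ≠ 0 → e ∈ T ∨ e = v ∨ e = m (z v) v := by
    intro v hv
    have hvN := memN hv (hzdef v hv)
    obtain ⟨ho, hne, -, -⟩ := hel3 (z v) v hvN
    have hU := mem_U.1 ho.mem
    have hsl := t1_slope hcol hU.1
    have hvF : v ∈ ((univ : Finset ι).filter fun e => t e < 0 ∧ p e + z v * t e = 0).filter
        fun u => r (z v) v ≤ r (z v) u := Finset.mem_filter.2 ⟨hvN, le_rfl⟩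
    have hFt : ∀ e ∈ ((univ : Finset ι).filter fun e => t e < 0 ∧ p e + z v * t e = 0).filter
        fun u => r (z v) v ≤ r (z v) u, t e < 0 := fun e he =>
      (Finset.mem_filter.1 (Finset.mem_filter.1 he).1).2.1
    generalize ((univ : Finset ι).filter fun e => t e < 0 ∧ p e + z v * t e = 0).filter
        (fun u => r (z v) v ≤ r (z v) u) = F at hU hvF hFt
    have hmF : m (z v) v ∉ F := fun h => by
      have h1 := hFt _ h
      have h2 := hpos v hv
      linarith
    have hs1 : ∑ e ∈ insert (m (z v) v) F, (c (kk (z v) v) e : ℚ) * t e = 0 := by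
      rw [← hsl]
      refine Finset.sum_subset (Finset.subset_univ _) ?_
      intro e _ he
      rw [Finset.mem_insert, not_or] at he
      by_cases h0 : c (kk (z v) v) e = 0
      · rw [h0]; simp
      · rcases hU.2.2 e h0 with h | h
        · rcases Finset.mem_union.1 h with h | h
          · rw [(hT e h).2, mul_zero]
          · exact absurd h he.2
        · exact absurd h he.1
    rw [Finset.sum_insert hmF, hU.2.1, hbij1 v hv] at hs1
    obtain ⟨h1, h2⟩ := t1_sum (F := F) (n := fun e => c (kk (z v) v) e) (s := fun e => -t e)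
      (fun e he => by have := hFt e he; linarith) hvF hne (by
        have h3 : ∑ e ∈ F, (c (kk (z v) v) e : ℚ) * -t e
            = -∑ e ∈ F, (c (kk (z v) v) e : ℚ) * t e := by
          rw [← Finset.sum_neg_distrib]
          exact Finset.sum_congr rfl fun e _ => by ring
        rw [h3]
        push_cast at hs1
        linarith)
    refine ⟨hU.1, h1, fun e he => ?_⟩
    rcases hU.2.2 e he with h | h
    · rcases Finset.mem_union.1 h with h | h
      · exact Or.inl h
      · exact Or.inr (Or.inl (h2 e h he))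
    · exact Or.inr (Or.inr h)
  by_contra hcon
  push Not at hcon
  obtain ⟨a, haN, hamin⟩ := Finset.exists_min_image N t hN
  have hα : 0 < t a := (hNt a haN).1
  -- `Ma`
  have hMa : ((univ : Finset ι).filter fun v =>
      t v < 0 ∧ m (z v) v ∈ N ∧ t (m (z v) v) = t a).Nonempty := by
    obtain ⟨v, hv, hva⟩ := hbij2 a hα
    have hva' : m (z v) v = a := hva
    exact ⟨v, Finset.mem_filter.2 ⟨Finset.mem_univ _, hv, by rw [hva']; exact haN, by rw [hva']⟩⟩
  have hzσ : ∀ v, t v < 0 → m (z v) v ∈ N → t (m (z v) v) = t a → z v = τ + 1 / t a := by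
    intro v hv h1 h2
    have h3 := (hel3 (z v) v (memN hv (hzdef v hv))).2.2.2
    have h4 := (hNt _ h1).2
    rw [h2] at h3 h4
    have h5 : (z v - τ) * t a = 1 := by linear_combination h3 - h4
    have h6 : z v - τ = 1 / t a := by
      rw [eq_div_iff hα.ne']
      exact h5
    linarith
  obtain ⟨v, hvM, hvmax⟩ := Finset.exists_max_image _ (fun v => r (τ + 1 / t a) v) hMa
  obtain ⟨-, hv, hvN, hvα⟩ := Finset.mem_filter.1 hvM
  have hzv := hzσ v hv hvN hvα
  have htv : t v = -t a := by
    have := hbij1 v hv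
    linarith
  obtain ⟨hk1, hk2, hk3⟩ := hpair v hv
  have hkU : kk (z v) v ∈ U c C (T ∪ N) v := by
    rw [mem_U]
    refine ⟨hk1, hk2, fun e he => ?_⟩
    rcases hk3 e he with h | h | h
    · exact Or.inl (Finset.mem_union_left _ h)
    · exact Or.inr h
    · rw [h]
      exact Or.inl (Finset.mem_union_right _ hvN)
  have hvT : v ∉ T := fun h => by
    have := (hT v h).2
    linarith
  have hvTN : v ∉ T ∪ N := by
    rw [Finset.mem_union]
    rintro (h | h)
    · exact hvT h
    · have := (hNt v h).1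
      linarith
  obtain ⟨k', hk', hk'ne⟩ : ∃ k' ∈ U c C (T ∪ N) v, k' ≠ kk (z v) v := by
    by_contra hall
    push Not at hall
    exact hcon v (kk (z v) v) ⟨hvTN, Finset.eq_singleton_iff_unique_mem.2 ⟨hkU, hall⟩, hk1⟩
  have hU' := mem_U.1 hk'
  have hsl := t1_slope hcol hU'.1
  have hvN' : v ∉ N := fun h => hvTN (Finset.mem_union_right _ h)
  have hs1 : ∑ e ∈ insert v N, (c k' e : ℚ) * t e = 0 := by
    rw [← hsl]
    refine Finset.sum_subset (Finset.subset_univ _) ?_
    intro e _ he
    rw [Finset.mem_insert, not_or] at he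
    by_cases h0 : c k' e = 0
    · rw [h0]; simp
    · rcases hU'.2.2 e h0 with h | h
      · rcases Finset.mem_union.1 h with h | h
        · rw [(hT e h).2, mul_zero]
        · exact absurd h he.2
      · exact absurd h he.1
  rw [Finset.sum_insert hvN', hU'.2.1, htv] at hs1
  obtain ⟨w', hw'N, hw'α, hw'1, hw'2⟩ := t1_min (F := N) (n := fun e => c k' e) (s := t) hα hamin
    (by push_cast at hs1; linarith)
  obtain ⟨u, hu, huw⟩ := hbij2 w' (hNt w' hw'N).1
  have huw' : m (z u) u = w' := huw
  have hzu := hzσ u hu (by rw [huw']; exact hw'N) (by rw [huw']; exact hw'α)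
  have hru := hvmax u (Finset.mem_filter.2 ⟨Finset.mem_univ _, hu, by rw [huw']; exact hw'N,
    by rw [huw']; exact hw'α⟩)
  have hou := (hel3 (z u) u (memN hu (hzdef u hu))).1
  have hk'u : k' = kk (z u) u := by
    have h1 : k' ∈ U c C (T ∪ ((univ : Finset ι).filter fun e =>
        t e < 0 ∧ p e + z u * t e = 0).filter fun e => r (z u) u ≤ r (z u) e) (m (z u) u) := by
      rw [mem_U]
      refine ⟨hU'.1, by rw [huw']; exact hw'1, fun e he => ?_⟩
      rcases hU'.2.2 e he with h | h
      · rcases Finset.mem_union.1 h with h | h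
        · exact Or.inl (Finset.mem_union_left _ h)
        · right
          rw [huw']
          exact hw'2 e h he
      · left
        rw [h]
        refine Finset.mem_union_right _ (Finset.mem_filter.2 ⟨memN hv ?_, ?_⟩)
        · rw [hzu, ← hzv]
          exact hzdef v hv
        · rw [hzu]
          exact hru
    rw [hou.2.1, Finset.mem_singleton] at h1
    exact h1
  obtain ⟨-, -, hku3⟩ := hpair u hu
  rw [← hk'u] at hku3
  rcases hku3 v (by rw [hU'.2.1]; exact one_ne_zero) with h | h | h
  · exact hvT h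
  · apply hk'ne
    rw [hk'u, h]
  · have h1 := hpos u hu
    rw [← h] at h1
    linarith

end MPb07157.LC
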