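import Pool.Agent.Lib.MP_b07157_ag.SK.B4

/-!
# Elimination at a point of a line
-/

set_option linter.unusedSectionVars false

namespace MPb07157.LC

open Finset Module MPb07157.EX MPb07157.SK

variable {ι κ : Type} [Fintype ι] [DecidableEq ι] [DecidableEq κ]
variable {c : κ → ι → ℕ} {C : Finset κ} {p t : ι → ℚ} {T : Finset ι}


/-- The support of a column of an owner. -/
private theorem t1a_own (hno : ∀ w k, ¬ Own c C C T w k) {N : Finset ι} {w : ι} {k : κ}
    (ho : Own c C C (T ∪ N) w k) : ∃ v ∈ N, c k v ≠ 0 := by
  obtain ⟨hw, hU, hkC⟩ := ho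
  have hkU : k ∈ U c C (T ∪ N) w := by
    rw [hU]
    exact Finset.mem_singleton_self k
  obtain ⟨-, h1, h2⟩ := mem_U.1 hkU
  by_contra hcon
  push Not at hcon
  refine hno w k ⟨fun h => hw (Finset.mem_union_left _ h), ?_, hkC⟩
  refine Finset.Subset.antisymm ?_ ?_
  · rw [← hU]
    exact U_mono Finset.subset_union_left w
  · intro x hx
    rw [Finset.mem_singleton.1 hx]
    refine mem_U.2 ⟨hkC, h1, fun e he => ?_⟩
    rcases h2 e he with h3 | h3
    · rcases Finset.mem_union.1 h3 with h4 | h4
      · exact Or.inl h4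
      · exact absurd (hcon e h4) he
    · exact Or.inr h3


/-- The column equation of an owner. -/
private theorem t1a_sum {N : Finset ι} {w : ι} {k : κ} (ho : Own c C C (T ∪ N) w k)
    (f : ι → ℚ) (hf : ∀ e ∈ T, f e = 0) :
    ∑ e, (c k e : ℚ) * f e = f w + ∑ e ∈ N, (c k e : ℚ) * f e := by
  obtain ⟨hw, hU, hkC⟩ := ho
  have hkU : k ∈ U c C (T ∪ N) w := by
    rw [hU]
    exact Finset.mem_singleton_self k
  obtain ⟨-, h1, h2⟩ := mem_U.1 hkU
  have hwN : w ∉ N := fun h => hw (Finset.mem_union_right _ h)
  have h3 : ∑ e ∈ insert w N, (c k e : ℚ) * f e = ∑ e, (c k e : ℚ) * f e := by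
    refine Finset.sum_subset (Finset.subset_univ _) fun e _ he => ?_
    rw [Finset.mem_insert, not_or] at he
    by_cases h0 : c k e = 0
    · rw [h0, Nat.cast_zero, zero_mul]
    · rcases h2 e h0 with h4 | h4
      · rcases Finset.mem_union.1 h4 with h5 | h5
        · rw [hf e h5, mul_zero]
        · exact absurd h5 he.2
      · exact absurd h4 he.1
  rw [← h3, Finset.sum_insert hwN, h1, Nat.cast_one, one_mul]

/-- LC-22. Elimination at a point.  `x_e = p e + τ * t e` are affine functions on a line, `N` a set
of elements with negative slope that vanish at `τ`; every nonempty subset `M ⊆ N` has an owner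
(for `T ∪ M`), and no owner of `T` exists.  Then there are an order `r`, partners `m` and columns
`kk`.

Proof by induction on `N`.  Take an owner `w` of `N` with column `k`.  The unit equation for `k` is
`x_w + ∑_{e ∈ N} c k e * x_e = 1` (the elements of `T` vanish); if `c k` vanishes on `N`, then
`k ∈ U c C T w ⊆ U c C (T ∪ N) w = {k}`: owner of `T`, excluded.  Choose `v ∈ N` with `c k v ≠ 0`,
put `m v = w`, `kk v = k`, `r v = 0`, and use the induction hypothesis for `N.erase v` with `r + 1`.
Slopes: `t w = ∑_{e ∈ N} c k e * (-t e) ≥ -t v > 0`.  Injectivity: for `M ⊆ N.erase v`,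
`U c C (T ∪ M) w ⊆ {k}` and `k` is not in it (`c k v ≠ 0`), so `w` is not an owner of `T ∪ M`. -/
theorem elim [Nonempty κ] (hT : ∀ e ∈ T, p e = 0 ∧ t e = 0)
    (hcol : ∀ k ∈ C, ∀ τ : ℚ, ∑ e, (c k e : ℚ) * (p e + τ * t e) = 1) (τ : ℚ)
    (hno : ∀ w k, ¬ Own c C C T w k) (N : Finset ι) : (∀ e ∈ N, t e < 0 ∧ p e + τ * t e = 0) →
    (∀ M ⊆ N, M.Nonempty → ∃ w k, Own c C C (T ∪ M) w k) →
    ∃ (r : ι → ℕ) (m : ι → ι) (kk : ι → κ),
      (∀ v ∈ N, ∀ u ∈ N, r v = r u → v = u) ∧ (∀ v ∈ N, ∀ u ∈ N, m v = m u → v = u) ∧
      ∀ v ∈ N, Own c C C (T ∪ N.filter fun u => r v ≤ r u) (m v) (kk v) ∧ c (kk v) v ≠ 0 ∧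
        -t v ≤ t (m v) ∧ p (m v) + τ * t (m v) = 1 := by
  induction hn : N.card generalizing N with
  | zero =>
    intro _ _
    have hN : N = ∅ := Finset.card_eq_zero.1 hn
    subst hN
    exact ⟨fun _ => 0, id, fun _ => Classical.arbitrary κ, by simp, by simp, by simp⟩
  | succ n ih =>
    intro hN hM
    have hne : N.Nonempty := by
      rw [← Finset.card_pos]
      omega
    obtain ⟨w, k, ho⟩ := hM N subset_rfl hne
    obtain ⟨v, hvN, hv⟩ := t1a_own hno ho
    have hkC : k ∈ C := ho.2.2
    have hwT : w ∉ T ∪ N := ho.1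
    have hTN : ∀ e ∈ N, e ∉ T := fun e he heT => by
      have h1 := (hN e he).1
      rw [(hT e heT).2] at h1
      exact lt_irrefl _ h1
    have hcard : (N.erase v).card = n := by
      rw [Finset.card_erase_of_mem hvN]
      omega
    obtain ⟨r', m', kk', hr', hm', hown'⟩ := ih (N.erase v) hcard
      (fun e he => hN e (Finset.mem_of_mem_erase he))
      (fun M hMN hMne => hM M (hMN.trans (Finset.erase_subset _ _)) hMne)
    -- the slope and the value of `w`
    have e0 := hcol k hkC 0
    have e1 := hcol k hkC 1
    have eτ := hcol k hkC τ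
    have s0 : ∑ e, (c k e : ℚ) * t e = 0 := by
      have h1 : ∑ e, (c k e : ℚ) * (p e + 1 * t e) =
          ∑ e, (c k e : ℚ) * (p e + 0 * t e) + ∑ e, (c k e : ℚ) * t e := by
        rw [← Finset.sum_add_distrib]
        exact Finset.sum_congr rfl fun e _ => by ring
      rw [e0, e1] at h1
      linarith
    rw [t1a_sum ho t (fun e he => (hT e he).2)] at s0
    rw [t1a_sum ho (fun e => p e + τ * t e) (fun e he => by
      simp only [(hT e he).1, (hT e he).2, mul_zero, add_zero])] at eτ
    have hz : ∑ e ∈ N, (c k e : ℚ) * (p e + τ * t e) = 0 :=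
      Finset.sum_eq_zero fun e he => by rw [(hN e he).2, mul_zero]
    have hval : p w + τ * t w = 1 := by
      rw [hz, add_zero] at eτ
      exact eτ
    have hslope : -t v ≤ t w := by
      have h1 : (c k v : ℚ) * -t v ≤ ∑ e ∈ N, (c k e : ℚ) * -t e :=
        Finset.single_le_sum (f := fun e => (c k e : ℚ) * -t e)
          (fun e he => mul_nonneg (Nat.cast_nonneg _) (by linarith [(hN e he).1])) hvN
      have h2 : ∑ e ∈ N, (c k e : ℚ) * -t e = t w := by
        have h3 : ∑ e ∈ N, (c k e : ℚ) * -t e = -∑ e ∈ N, (c k e : ℚ) * t e := by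
          rw [← Finset.sum_neg_distrib]
          exact Finset.sum_congr rfl fun e _ => by ring
        rw [h3]
        linarith
      have h4 : (1 : ℚ) ≤ c k v := by
        exact_mod_cast Nat.one_le_iff_ne_zero.2 hv
      have h5 := (hN v hvN).1
      nlinarith
    refine ⟨fun u => if u = v then 0 else r' u + 1, fun u => if u = v then w else m' u,
      fun u => if u = v then k else kk' u, ?_, ?_, ?_⟩
    · intro x hx y hy hxy
      by_cases h1 : x = v
      · by_cases h2 : y = v
        · rw [h1, h2]
        · simp only [h1, h2, if_true, if_false] at hxy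
          omega
      · by_cases h2 : y = v
        · simp only [h1, h2, if_true, if_false] at hxy
          omega
        · simp only [h1, h2, if_false] at hxy
          exact hr' x (Finset.mem_erase.2 ⟨h1, hx⟩) y (Finset.mem_erase.2 ⟨h2, hy⟩) (by omega)
    · -- injectivity of `m`
      have hkey : ∀ u ∈ N.erase v, m' u ≠ w := by
        intro u hu h1
        obtain ⟨⟨g1, g2, g3⟩, -⟩ := hown' u hu
        have hMN : (N.erase v).filter (fun x => r' u ≤ r' x) ⊆ N.erase v :=
          Finset.filter_subset _ _
        have g4 : kk' u ∈ U c C (T ∪ (N.erase v).filter (fun x => r' u ≤ r' x)) (m' u) := by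
          rw [g2]
          exact Finset.mem_singleton_self _
        have g5 : kk' u ∈ U c C (T ∪ N) w := by
          rw [← h1]
          exact U_mono (Finset.union_subset_union subset_rfl
            (hMN.trans (Finset.erase_subset _ _))) _ g4
        rw [ho.2.1, Finset.mem_singleton] at g5
        rw [g5] at g4
        rcases (mem_U.1 g4).2.2 v hv with g6 | g6
        · rcases Finset.mem_union.1 g6 with g7 | g7
          · exact hTN v hvN g7
          · exact Finset.notMem_erase v N (hMN g7)
        · rw [h1] at g6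
          exact hwT (Finset.mem_union_right _ (g6 ▸ hvN))
      intro x hx y hy hxy
      by_cases h1 : x = v
      · by_cases h2 : y = v
        · rw [h1, h2]
        · simp only [h1, h2, if_true, if_false] at hxy
          exact absurd hxy.symm (hkey y (Finset.mem_erase.2 ⟨h2, hy⟩))
      · by_cases h2 : y = v
        · simp only [h1, h2, if_true, if_false] at hxy
          exact absurd hxy (hkey x (Finset.mem_erase.2 ⟨h1, hx⟩))
        · simp only [h1, h2, if_false] at hxy
          exact hm' x (Finset.mem_erase.2 ⟨h1, hx⟩) y (Finset.mem_erase.2 ⟨h2, hy⟩) hxy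
    · intro u hu
      by_cases h1 : u = v
      · have h2 : N.filter (fun x => (if u = v then 0 else r' u + 1) ≤
            (if x = v then 0 else r' x + 1)) = N := by
          refine Finset.filter_true_of_mem fun x _ => ?_
          rw [if_pos h1]
          exact Nat.zero_le _
        simp only [h2]
        rw [if_pos h1, if_pos h1, h1]
        exact ⟨ho, hv, hslope, hval⟩
      · have h2 : N.filter (fun x => (if u = v then 0 else r' u + 1) ≤
            (if x = v then 0 else r' x + 1)) =
            (N.erase v).filter (fun x => r' u ≤ r' x) := by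
          ext x
          rw [Finset.mem_filter, Finset.mem_filter, Finset.mem_erase, if_neg h1]
          by_cases h3 : x = v
          · rw [if_pos h3]
            constructor
            · rintro ⟨-, h4⟩
              omega
            · rintro ⟨⟨h4, -⟩, -⟩
              exact absurd h3 h4
          · rw [if_neg h3]
            constructor
            · rintro ⟨h4, h5⟩
              exact ⟨⟨h3, h4⟩, by omega⟩
            · rintro ⟨⟨-, h4⟩, h5⟩
              exact ⟨h4, by omega⟩
        simp only [h2]
        rw [if_neg h1, if_neg h1]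
        exact hown' u (Finset.mem_erase.2 ⟨h1, hu⟩)

end MPb07157.LC
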