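import Pool.Agent.Lib.MP_b07157_ag.SK.B4

/-!
# Heights in cones of bases
-/

set_option linter.unusedSectionVars false

namespace MPb07157.LC

open Finset Module MPb07157.EX MPb07157.SK

variable {ι κ : Type} [Fintype ι] [DecidableEq ι] [DecidableEq κ]
variable {c : κ → ι → ℕ} {C : Finset κ} {A : Set (ι → ℚ)} {V : Submodule ℚ (ι → ℚ)}
  {S T B : Finset ι} {h : ι → ℚ}

/-- The height `h` is, on `V`, a nonnegative combination of the coordinates in `S`. -/
def InC (V : Submodule ℚ (ι → ℚ)) (h : ι → ℚ) (S : Finset ι) : Prop :=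
  ∃ s : ι → ℚ, (∀ e, 0 ≤ s e) ∧ (∀ e, e ∉ S → s e = 0) ∧
    ∀ ξ ∈ V, ∑ e, h e * ξ e = ∑ e, s e * ξ e

/-- Bases of the dual of `V` (with dual basis `β`). -/
def Bas (V : Submodule ℚ (ι → ℚ)) (B : Finset ι) (β : ι → ι → ℚ) : Prop :=
  (∀ b ∈ B, β b ∈ V ∧ β b b = 1 ∧ ∀ b' ∈ B, b' ≠ b → β b b' = 0) ∧
    ∀ ξ ∈ V, (∀ b ∈ B, ξ b = 0) → ξ = 0

/-- LC-24. Every set `S` on which no nonzero element of `V` vanishes contains a basis (take
`B ⊆ S` minimal with the property that no nonzero `ξ ∈ V` vanishes on `B`). -/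
theorem exists_bas (hS : ∀ ξ ∈ V, (∀ f ∈ S, ξ f = 0) → ξ = 0) : ∃ B ⊆ S, ∃ β, Bas V B β := by
  classical
  obtain ⟨B, hB, hmin⟩ := Finset.exists_min_image
    (S.powerset.filter fun B => ∀ ξ ∈ V, (∀ f ∈ B, ξ f = 0) → ξ = 0) Finset.card
    ⟨S, Finset.mem_filter.2 ⟨Finset.mem_powerset.2 (Finset.Subset.refl S), hS⟩⟩
  rw [Finset.mem_filter, Finset.mem_powerset] at hB
  obtain ⟨hBS, hB0⟩ := hB
  have key : ∀ b ∈ B, ∃ ξ : ι → ℚ, ξ ∈ V ∧ ξ b = 1 ∧ ∀ b' ∈ B, b' ≠ b → ξ b' = 0 := by
    intro b hb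
    have h1 : ¬ ∀ ξ ∈ V, (∀ f ∈ B.erase b, ξ f = 0) → ξ = 0 := by
      intro h2
      have h3 := hmin (B.erase b) (Finset.mem_filter.2
        ⟨Finset.mem_powerset.2 ((Finset.erase_subset b B).trans hBS), h2⟩)
      have h4 := Finset.card_erase_lt_of_mem hb
      omega
    push Not at h1
    obtain ⟨ξ, hξ, h2, h3⟩ := h1
    have h4 : ξ b ≠ 0 := by
      intro h5
      apply h3
      apply hB0 ξ hξ
      intro f hf
      by_cases hfb : f = b
      · rw [hfb, h5]
      · exact h2 f (Finset.mem_erase.2 ⟨hfb, hf⟩)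
    refine ⟨(ξ b)⁻¹ • ξ, V.smul_mem _ hξ, ?_, ?_⟩
    · rw [Pi.smul_apply, smul_eq_mul, inv_mul_cancel₀ h4]
    · intro b' hb' hne
      rw [Pi.smul_apply, h2 b' (Finset.mem_erase.2 ⟨hne, hb'⟩), smul_zero]
  choose! β hβ using key
  exact ⟨B, hBS, β, hβ, hB0⟩

/-- expansion in the dual basis -/
private theorem Bas.expand {β : ι → ι → ℚ} (hB : Bas V B β) {ξ : ι → ℚ} (hξ : ξ ∈ V) (e : ι) :
    ξ e = ∑ b ∈ B, ξ b * β b e := by
  have h1 : ξ - ∑ b ∈ B, ξ b • β b = 0 := by
    apply hB.2
    · exact V.sub_mem hξ (V.sum_mem fun b hb => V.smul_mem _ (hB.1 b hb).1)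
    · intro b hb
      rw [Pi.sub_apply, Finset.sum_apply, Finset.sum_eq_single_of_mem b hb, Pi.smul_apply,
        smul_eq_mul, (hB.1 b hb).2.1, mul_one, sub_self]
      intro b' hb' hne
      rw [Pi.smul_apply, (hB.1 b' hb').2.2 b hb (Ne.symm hne), smul_zero]
  have h2 := congrFun (sub_eq_zero.1 h1) e
  rw [h2, Finset.sum_apply]
  rfl

/-- LC-25. The height is in the cone of a basis iff its coordinates are nonnegative
(`ξ = ∑_{b ∈ B} ξ b • β b`). -/
theorem Bas.inC {β : ι → ι → ℚ} (hB : Bas V B β) :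
    InC V h B ↔ ∀ b ∈ B, 0 ≤ ∑ e, h e * β b e := by
  constructor
  · rintro ⟨s, hs0, hsB, hs⟩ b hb
    rw [hs (β b) (hB.1 b hb).1, Finset.sum_eq_single_of_mem b (Finset.mem_univ b)]
    · rw [(hB.1 b hb).2.1, mul_one]
      exact hs0 b
    · intro e _ hne
      by_cases he : e ∈ B
      · rw [(hB.1 b hb).2.2 e he hne, mul_zero]
      · rw [hsB e he, zero_mul]
  · intro hpos
    refine ⟨fun e => if e ∈ B then ∑ e', h e' * β e e' else 0, ?_, ?_, ?_⟩
    · intro e
      by_cases he : e ∈ B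
      · simp only [he, if_true]
        exact hpos e he
      · simp only [he, if_false]
        exact le_rfl
    · intro e he
      simp only [he, if_false]
    · intro ξ hξ
      calc ∑ e, h e * ξ e = ∑ e, ∑ b ∈ B, h e * (ξ b * β b e) := by
            apply Finset.sum_congr rfl
            intro e _
            rw [hB.expand hξ e, Finset.mul_sum]
        _ = ∑ b ∈ B, ∑ e, h e * (ξ b * β b e) := Finset.sum_comm
        _ = ∑ b ∈ B, (∑ e, h e * β b e) * ξ b := by
            apply Finset.sum_congr rfl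
            intro b _
            rw [Finset.sum_mul]
            apply Finset.sum_congr rfl
            intro e _
            ring
        _ = ∑ e, (if e ∈ B then ∑ e', h e' * β e e' else 0) * ξ e := by
            rw [← Finset.sum_filter_add_sum_filter_not Finset.univ (fun e => e ∈ B)
              (fun e => (if e ∈ B then ∑ e', h e' * β e e' else 0) * ξ e)]
            have h1 : ∑ e ∈ Finset.univ.filter (fun e => ¬ e ∈ B),
                (if e ∈ B then ∑ e', h e' * β e e' else 0) * ξ e = 0 := by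
              apply Finset.sum_eq_zero
              intro e he
              rw [if_neg (Finset.mem_filter.1 he).2, zero_mul]
            rw [h1, add_zero]
            have h2 : Finset.univ.filter (fun e => e ∈ B) = B := by
              ext e
              simp
            rw [h2]
            apply Finset.sum_congr rfl
            intro e he
            rw [if_pos he]

/-- LC-26. A generic height in the cone of a basis: `h₁ = ∑_{b ∈ B} τ ^ i(b)` times the coordinate
`b`, not zero at finitely many given nonzero vectors of `V` (every nonzero vector of `V` has a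
nonzero coordinate in `B`, so `∑ τ ^ i(b) * v b` is a nonzero polynomial in `τ`). -/
theorem exists_generic {β : ι → ι → ℚ} (hB : Bas V B β) (X : Finset (ι → ℚ))
    (hX : ∀ v ∈ X, v ∈ V ∧ v ≠ 0) :
    ∃ h₁ : ι → ℚ, (∀ e, 0 ≤ h₁ e) ∧ (∀ e, e ∉ B → h₁ e = 0) ∧ ∀ v ∈ X, ∑ e, h₁ e * v e ≠ 0 := by
  classical
  obtain ⟨i, hi⟩ : ∃ i : ι → ℕ, Function.Injective i :=
    ⟨fun e => (Fintype.equivFin ι e : ℕ), fun e e' h =>
      (Fintype.equivFin ι).injective (Fin.ext h)⟩
  let p : (ι → ℚ) → Polynomial ℚ := fun v => ∑ b ∈ B, Polynomial.C (v b) * Polynomial.X ^ i b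
  have hp : ∀ v ∈ X, p v ≠ 0 := by
    intro v hv h0
    obtain ⟨hvV, hv0⟩ := hX v hv
    apply hv0
    apply hB.2 v hvV
    intro b hb
    have h1 : (p v).coeff (i b) = v b := by
      simp only [p, Polynomial.finsetSum_coeff]
      rw [Finset.sum_eq_single_of_mem b hb]
      · rw [Polynomial.coeff_C_mul_X_pow, if_pos rfl]
      · intro b' _ hne
        rw [Polynomial.coeff_C_mul_X_pow, if_neg]
        intro h2
        exact hne (hi h2.symm)
    rw [← h1, h0, Polynomial.coeff_zero]
  have hprod : ∏ v ∈ X, p v ≠ 0 := Finset.prod_ne_zero_iff.2 hp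
  obtain ⟨k, hk⟩ : ∃ k : ℕ, (∏ v ∈ X, p v).eval ((k : ℚ) + 1) ≠ 0 := by
    by_contra hcon
    push Not at hcon
    apply hprod
    apply Polynomial.eq_zero_of_infinite_isRoot
    apply Set.infinite_of_injective_forall_mem (f := fun k : ℕ => (k : ℚ) + 1)
    · intro a b hab
      have h1 : (a : ℚ) = b := by
        simpa using hab
      exact_mod_cast h1
    · intro k
      exact hcon k
  refine ⟨fun e => if e ∈ B then ((k : ℚ) + 1) ^ i e else 0, ?_, ?_, ?_⟩
  · intro e
    by_cases he : e ∈ B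
    · simp only [he, if_true]
      positivity
    · simp only [he, if_false]
      exact le_rfl
  · intro e he
    simp only [he, if_false]
  · intro v hv h0
    apply hk
    rw [Polynomial.eval_prod]
    apply Finset.prod_eq_zero hv
    simp only [p, Polynomial.eval_finsetSum, Polynomial.eval_mul, Polynomial.eval_C,
      Polynomial.eval_pow, Polynomial.eval_X]
    rw [← h0]
    rw [← Finset.sum_filter_add_sum_filter_not Finset.univ (fun e => e ∈ B)
      (fun e => (if e ∈ B then ((k : ℚ) + 1) ^ i e else 0) * v e)]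
    have h1 : ∑ e ∈ Finset.univ.filter (fun e => ¬ e ∈ B),
        (if e ∈ B then ((k : ℚ) + 1) ^ i e else 0) * v e = 0 := by
      apply Finset.sum_eq_zero
      intro e he
      rw [if_neg (Finset.mem_filter.1 he).2, zero_mul]
    rw [h1, add_zero]
    have h2 : Finset.univ.filter (fun e => e ∈ B) = B := by
      ext e
      simp
    rw [h2]
    apply Finset.sum_congr rfl
    intro e he
    rw [if_pos he, mul_comm]

end MPb07157.LC
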